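import Pool.Agent.AKZ.Asm
import Pool.Agent.AKG.LinkC

set_option autoImplicit false

/-!
# From a checked certificate with rows at pairs to nearly optimal sets
-/

namespace Pool.Agent.AKZ

open Finset Classical Pool.Agent.AKG Pool.Agent.AKO Pool.Agent.AKU Pool.Agent.MP_0af329_co
  Pool.Agent.AK

/-! ### exchange of two roots -/

section

variable {ι : Type*} {x y : ι → ℝ} [Fintype ι]

/-- **Exchange of two roots**: for a maximal triple, two points `u`, `v` and a root `k` such that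
the triangle `r k, u, v` is acute. -/
theorem exch2 {w : ℕ → ℤ} {C : ℤ} (hC : ∀ k, |w k| ≤ C)
    {r : Fin 3 → ι} (hr : MaxT x y w r) {u v : ι} (hu : ∀ k, u ≠ r k) (hv : ∀ k, v ≠ r k)
    (huv : u ≠ v) (k : Fin 3) (hk : st x y (r k) u v % 4 = 0) :
    ∑ z, (if (∀ k, z ≠ r k) ∧ z ≠ u ∧ z ≠ v then
      w (code x y (r k) u v z) - w (2048 + tau x y (r 0) (r 1) (r 2) z) else 0) ≤ 10 * C := by
  have hC0 : 0 ≤ C := (abs_nonneg _).trans (hC 0)
  have hac : AcT x y ![r k, u, v] := by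
    refine ⟨(inj_iff _).2 ⟨(hu k).symm, (hv k).symm, huv⟩, hk⟩
  have hmax := hr.max _ hac
  set E : Finset ι := {r 0, r 1, r 2, u, v} with hE
  have hcard : E.card ≤ 5 := card_le_five
  have hpt : ∀ z, (if (∀ k, z ≠ r k) ∧ z ≠ u ∧ z ≠ v then
      w (code x y (r k) u v z) - w (2048 + tau x y (r 0) (r 1) (r 2) z) else 0) -
      ((if ∀ j, z ≠ ![r k, u, v] j then w (code x y (![r k, u, v] 0) (![r k, u, v] 1)
        (![r k, u, v] 2) z) else 0) -
      (if ∀ k, z ≠ r k then w (code x y (r 0) (r 1) (r 2) z) else 0)) ≤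
      if z ∈ E then 2 * C else 0 := by
    intro z
    by_cases hz : (∀ k, z ≠ r k) ∧ z ≠ u ∧ z ≠ v
    · have h2 : ∀ j, z ≠ ![r k, u, v] j := by
        rw [forall_fin3]
        exact ⟨hz.1 k, hz.2.1, hz.2.2⟩
      have hnot : z ∉ E := by
        rw [hE]
        simp only [mem_insert, mem_singleton, not_or]
        exact ⟨hz.1 0, hz.1 1, hz.1 2, hz.2.1, hz.2.2⟩
      rw [if_pos hz, if_pos h2, if_pos hz.1, if_neg hnot, ← code_tau hr.st4]
      have : w (code x y (![r k, u, v] 0) (![r k, u, v] 1) (![r k, u, v] 2) z) =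
          w (code x y (r k) u v z) := rfl
      rw [this, sub_self]
    · rw [if_neg hz]
      have hin : z ∈ E := by
        rw [hE]
        simp only [mem_insert, mem_singleton]
        by_contra hcon
        push Not at hcon
        refine hz ⟨?_, hcon.2.2.2.1, hcon.2.2.2.2⟩
        rw [forall_fin3]
        exact ⟨hcon.1, hcon.2.1, hcon.2.2.1⟩
      rw [if_pos hin]
      have a1 : -C ≤ (if ∀ j, z ≠ ![r k, u, v] j then w (code x y (![r k, u, v] 0)
          (![r k, u, v] 1) (![r k, u, v] 2) z) else 0) := by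
        split_ifs
        · exact (abs_le.1 (hC _)).1
        · linarith
      have a2 : (if ∀ k, z ≠ r k then w (code x y (r 0) (r 1) (r 2) z) else 0) ≤ C := by
        split_ifs
        · exact (abs_le.1 (hC _)).2
        · exact hC0
      linarith
  have hsum := sum_le_sum fun z (_ : z ∈ (univ : Finset ι)) => hpt z
  rw [sum_sub_distrib, sum_sub_distrib] at hsum
  have e1 : ∑ z, (if z ∈ E then 2 * C else 0) = (E.card : ℤ) * (2 * C) := by
    rw [sum_ite_mem, univ_inter, sum_const, nsmul_eq_mul]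
  have e2 : (E.card : ℤ) * (2 * C) ≤ 5 * (2 * C) := by
    refine mul_le_mul_of_nonneg_right ?_ (by linarith)
    exact_mod_cast hcard
  rw [e1] at hsum
  have e3 : Ph x y w ![r k, u, v] = ∑ z, (if ∀ j, z ≠ ![r k, u, v] j then
      w (code x y (![r k, u, v] 0) (![r k, u, v] 1) (![r k, u, v] 2) z) else 0) := rfl
  have e4 : Ph x y w r = ∑ z, (if ∀ k, z ≠ r k then w (code x y (r 0) (r 1) (r 2) z)
      else 0) := rfl
  rw [← e3, ← e4] at hsum
  linarith

end

/-! ### conditions on the tables -/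

/-- what is checked about the types and the pairs; `tcs` are the codes of the types -/
structure LinkT (T : Tb) (tcs : List ℕ) : Prop where
  tab : T.TAB = TAB
  nt : T.nt = tcs.length
  types : TypesOk tcs
  vp : ∀ p < tcs.length, ∀ q < tcs.length, ∀ s < 512,
    pairT (tcs.getD p 0) (tcs.getD q 0) s = true → T.vp p q s = true
  inv : InvW fun K => (T.wv K : ℤ)
  wy : ∀ p < tcs.length, T.wy p = T.wv (2048 + tcs.getD p 0)
  m2 : ∀ p < tcs.length, ∀ q < tcs.length, ∀ s < 512, T.vp p q s = true →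
    (dg0 s % 4 ≠ 0 → T.mm 0 p q s = 0) ∧ (dg1 s % 4 ≠ 0 → T.mm 1 p q s = 0) ∧
      (dg2 s % 4 ≠ 0 → T.mm 2 p q s = 0)

/-- the rows at pairs are the two rows for the value at the roots, and the exchange rows compare
with the value at the roots -/
structure OwnK (T : Tb) : Prop where
  nj : T.nj = 2
  p0 : ∀ r < T.nt, T.fp 0 r = T.e * T.wy r
  m0 : ∀ r < T.nt, T.fm 0 r = T.h0
  p1 : ∀ r < T.nt, T.fp 1 r = T.h1
  m1 : ∀ r < T.nt, T.fm 1 r = T.e * T.wy r
  gm : ∀ r < T.nt, T.gm r = T.wy r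
  zz : ∀ k p, T.mz k p = 0

theorem PP_own {T : Tb} (h : OwnK T) {r : ℕ} (hr : r < T.nt) (p q A n0 n1 n2 : ℕ) :
    T.PP p q r A n0 n1 n2 =
    (T.oo 0 p q A : ℤ) * (T.e * T.wy r - T.h0) + (T.oo 1 p q A : ℤ) * (T.h1 - T.e * T.wy r) +
    ((T.mm 0 p q A : ℤ) * (T.wy r - T.wv n0) + (T.mm 1 p q A : ℤ) * (T.wy r - T.wv n1) +
      (T.mm 2 p q A : ℤ) * (T.wy r - T.wv n2)) := by
  rw [T.PP_zz h.zz]
  unfold Tb.GO Tb.FJ
  rw [h.nj, sum_range_succ, sum_range_succ, sum_range_zero, zero_add, h.p0 r hr, h.m0 r hr,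
    h.p1 r hr, h.m1 r hr, h.gm r hr]
  push_cast
  rfl

/-- the exchange rows of one root -/
structure LinkE (T : Tb) (tcs : List ℕ) : Prop where
  nk : T.nk ≤ 3
  lam : ∀ k : Fin 3, ∀ p < tcs.length, xst k (tcs.getD p 0) % 4 ≠ 0 → ∀ j, T.lam k p j = 0
  ev : ∀ k : Fin 3, ∀ p < tcs.length, ∀ q < tcs.length, ∀ s < 512,
    pairT (tcs.getD p 0) (tcs.getD q 0) s = true → xst k (tcs.getD p 0) % 4 = 0 →
    T.Ev k p (T.fl p q s) = (T.wv (xch k (tcs.getD p 0) (tcs.getD q 0) s) : ℤ) -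
      T.wv (2048 + tcs.getD q 0)

theorem rvd_rev {s : ℕ} (hs : s < 8) : rvd s = rev s := by
  interval_cases s <;> decide

theorem rot_rotd {s : ℕ} (hs : s < 8) : rot s = rotd s := by
  interval_cases s <;> decide

variable {T : Tb} {tcs : List ℕ}

/-- **The configuration of the free points** -/
theorem cfX {ι : Type*} {x y : ι → ℝ} (h : GN x y) (hL : LinkT T tcs) {r : Fin 3 → ι}
    (hi : Function.Injective r) (h4 : st x y (r 0) (r 1) (r 2) = 4) :
    T.Cf T.nt (tixA tcs x y (r 0) (r 1) (r 2)) (cixA x y (r 0) (r 1) (r 2)) (st x y) (Free r) where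
  ty := fun u hu => by
    rw [hL.nt]
    exact tixA_lt h hL.types hi h4 hu
  lt := fun u _ v _ _ => cixA_lt ..
  vp := by
    intro u hu v hv huv
    refine hL.vp _ (tixA_lt h hL.types hi h4 hu) _ (tixA_lt h hL.types hi h4 hv) _ (cixA_lt ..) ?_
    rw [getD_tixA h hL.types hi h4 hu, getD_tixA h hL.types hi h4 hv]
    exact pairT_ok h hi hu hv huv
  rv := by
    intro u hu v hv huv
    have c0 := h.gen (r 0) u v (hu 0).symm huv (hv 0).symm
    have c1 := h.gen (r 1) u v (hu 1).symm huv (hv 1).symm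
    have c2 := h.gen (r 2) u v (hu 2).symm huv (hv 2).symm
    unfold rv3
    rw [dg0_cixA, dg1_cixA, dg2_cixA, rvd_rev (st_lt ..), rvd_rev (st_lt ..), rvd_rev (st_lt ..)]
    unfold cixA
    rw [st_swap x y c0, st_swap x y c1, st_swap x y c2]
  dlt := fun u _ v _ w _ _ _ _ => st_lt x y u v w
  tst := by
    intro u hu v hv w hw huv hvw huw
    have g0 := h.mem (hu 0).symm (hv 0).symm (hw 0).symm huv huw hvw
    have g1 := h.mem (hu 1).symm (hv 1).symm (hw 1).symm huv huw hvw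
    have g2 := h.mem (hu 2).symm (hv 2).symm (hw 2).symm huv huw hvw
    unfold Tb.tst
    rw [hL.tab, dg0_cixA, dg0_cixA, dg0_cixA, dg1_cixA, dg1_cixA, dg1_cixA, dg2_cixA, dg2_cixA,
      dg2_cixA]
    have e : ∀ p q s t : ℕ, 512 * p + 64 * q + 8 * s + t = ((p * 8 + q) * 8 + s) * 8 + t := by
      intro p q s t; ring
    rw [e, e, e]
    unfold code at g0 g1 g2
    rw [g0, g1, g2]
    rfl
  d23 := by
    intro u hu v hv w hw huv hvw huw
    rw [rvd_rev (st_lt ..)]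
    exact st_swap x y (h.gen u v w huv hvw huw)
  d31 := by
    intro u hu v hv w hw huv hvw huw
    rw [rot_rotd (st_lt ..)]
    exact st_rot x y (h.gen u v w huv hvw huw)

/-- the code of four points from the codes of the pairs -/
theorem code_cix {ι : Type*} {x y : ι → ℝ} (a b c u v w : ι) :
    512 * dg0 (cixA x y a b c u v) + 64 * dg0 (cixA x y a b c u w) +
      8 * dg0 (cixA x y a b c v w) + st x y u v w = code x y a u v w ∧
    512 * dg1 (cixA x y a b c u v) + 64 * dg1 (cixA x y a b c u w) +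
      8 * dg1 (cixA x y a b c v w) + st x y u v w = code x y b u v w ∧
    512 * dg2 (cixA x y a b c u v) + 64 * dg2 (cixA x y a b c u w) +
      8 * dg2 (cixA x y a b c v w) + st x y u v w = code x y c u v w := by
  rw [dg0_cixA, dg0_cixA, dg0_cixA, dg1_cixA, dg1_cixA, dg1_cixA, dg2_cixA, dg2_cixA, dg2_cixA]
  unfold code
  refine ⟨by ring, by ring, by ring⟩

/-- bound of the multipliers at pairs -/
theorem mult_bd (T : Tb) (n : ℕ) : ∃ L : ℕ, ∀ p < n, ∀ q < n, ∀ s < 512,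
    T.oo 0 p q s ≤ L ∧ T.oo 1 p q s ≤ L ∧ T.mm 0 p q s ≤ L ∧ T.mm 1 p q s ≤ L ∧
      T.mm 2 p q s ≤ L := by
  refine ⟨∑ p ∈ range n, ∑ q ∈ range n, ∑ s ∈ range 512, (T.oo 0 p q s + T.oo 1 p q s +
    T.mm 0 p q s + T.mm 1 p q s + T.mm 2 p q s), ?_⟩
  intro p hp q hq s hs
  have h1 := single_le_sum (f := fun s => T.oo 0 p q s + T.oo 1 p q s + T.mm 0 p q s +
    T.mm 1 p q s + T.mm 2 p q s) (fun _ _ => Nat.zero_le _) (mem_range.2 hs)
  have h2 := single_le_sum (f := fun q => ∑ s ∈ range 512, (T.oo 0 p q s + T.oo 1 p q s +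
    T.mm 0 p q s + T.mm 1 p q s + T.mm 2 p q s)) (fun _ _ => Nat.zero_le _) (mem_range.2 hq)
  have h3 := single_le_sum (f := fun p => ∑ q ∈ range n, ∑ s ∈ range 512, (T.oo 0 p q s +
    T.oo 1 p q s + T.mm 0 p q s + T.mm 1 p q s + T.mm 2 p q s)) (fun _ _ => Nat.zero_le _)
    (mem_range.2 hp)
  refine ⟨by omega, by omega, by omega, by omega, by omega⟩

/-- **The rows at pairs**, for a maximal triple with value in the given range -/
theorem pair_rows (hO : OwnK T) (hL : LinkT T tcs) {C : ℕ} (hC : ∀ K, T.wv K ≤ C) : ∃ s1 : ℕ,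
    ∀ (ι : Type) [Fintype ι] (x y : ι → ℝ), GN x y → ∀ r : Fin 3 → ι,
      MaxT x y (fun K => (T.wv K : ℤ)) r →
      (T.h0 : ℤ) * Fintype.card ι ≤ T.e * Ph x y (fun K => (T.wv K : ℤ)) r →
      T.e * Ph x y (fun K => (T.wv K : ℤ)) r ≤ T.h1 * (Fintype.card ι : ℤ) →
      ∀ u ∈ Free r, ∀ v ∈ Free r, u ≠ v →
        -(s1 : ℤ) ≤ ∑ z, pS r (tixA tcs x y (r 0) (r 1) (r 2)) (cixA x y (r 0) (r 1) (r 2))
          (st x y) T u v z := by
  obtain ⟨L, hLb⟩ := mult_bd T T.nt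
  refine ⟨L * (2 * T.e * C) + L * (5 * T.h1) + 3 * (L * (10 * C)), ?_⟩
  intro ι _ x y h r hr ho0 ho1 u hu v hv huv
  set w : ℕ → ℤ := fun K => (T.wv K : ℤ) with hw
  set τ := tixA tcs x y (r 0) (r 1) (r 2) with hτ
  set c := cixA x y (r 0) (r 1) (r 2) with hc
  have hCf := cfX h hL hr.inj hr.st4
  rw [← hτ, ← hc] at hCf
  have hwC : ∀ k, |w k| ≤ (C : ℤ) := by
    intro k
    rw [hw]
    simp only
    rw [abs_of_nonneg (Int.natCast_nonneg _)]
    exact_mod_cast hC k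
  -- value of the weights of the types
  have hwy : ∀ z ∈ Free r, (T.wy (τ z) : ℤ) = w (2048 + tau x y (r 0) (r 1) (r 2) z) := by
    intro z hz
    have h1 := getD_tixA h hL.types hr.inj hr.st4 hz 0
    have h2 := hL.wy _ (tixA_lt h hL.types hr.inj hr.st4 hz)
    rw [h1] at h2
    rw [hτ, h2]
  obtain ⟨b1, b2, b3, b4, b5⟩ := hLb _ (hCf.ty u hu) _ (hCf.ty v hv) _ (hCf.lt u hu v hv huv)
  have hm := hL.m2 (τ u) (by rw [← hL.nt]; exact hCf.ty u hu) (τ v)
    (by rw [← hL.nt]; exact hCf.ty v hv) _ (hCf.lt u hu v hv huv) (hCf.vp u hu v hv huv)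
  set D : ι → Prop := fun z => (∀ k, z ≠ r k) ∧ z ≠ u ∧ z ≠ v with hD
  -- the sums
  set SW : ℤ := ∑ z, (if D z then (T.wy (τ z) : ℤ) else 0) with hSW
  set ND : ℤ := ∑ z, (if D z then (1 : ℤ) else 0) with hND
  have hX : ∀ k : Fin 3, ∑ z, (if D z then (T.wy (τ z) : ℤ) - w (code x y (r k) u v z) else 0) =
      -∑ z, (if (∀ k, z ≠ r k) ∧ z ≠ u ∧ z ≠ v then
      w (code x y (r k) u v z) - w (2048 + tau x y (r 0) (r 1) (r 2) z) else 0) := by
    intro k
    rw [← sum_neg_distrib]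
    refine sum_congr rfl fun z _ => ?_
    by_cases hz : D z
    · rw [if_pos hz, if_pos hz, hwy z hz.1]
      ring
    · rw [if_neg hz, if_neg hz, neg_zero]
  have hsplit : ∑ z, pS r τ c (st x y) T u v z =
      (T.oo 0 (τ u) (τ v) (c u v) : ℤ) * (T.e * SW - T.h0 * ND) +
      (T.oo 1 (τ u) (τ v) (c u v) : ℤ) * (T.h1 * ND - T.e * SW) +
      ((T.mm 0 (τ u) (τ v) (c u v) : ℤ) * ∑ z, (if D z then (T.wy (τ z) : ℤ) -
        w (code x y (r 0) u v z) else 0) +
      (T.mm 1 (τ u) (τ v) (c u v) : ℤ) * ∑ z, (if D z then (T.wy (τ z) : ℤ) -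
        w (code x y (r 1) u v z) else 0) +
      (T.mm 2 (τ u) (τ v) (c u v) : ℤ) * ∑ z, (if D z then (T.wy (τ z) : ℤ) -
        w (code x y (r 2) u v z) else 0)) := by
    rw [hSW, hND]
    simp only [mul_sum, ← sum_add_distrib, ← sum_sub_distrib]
    refine sum_congr rfl fun z _ => ?_
    by_cases hz : D z
    · have hz' : z ∈ Free r ∧ z ≠ u ∧ z ≠ v := hz
      unfold pS
      rw [if_pos hz', if_pos hz, if_pos hz, if_pos hz, if_pos hz, if_pos hz]
      unfold Tb.PF Tb.PX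
      rw [PP_own hO (hCf.ty z hz'.1)]
      obtain ⟨k0, k1, k2⟩ := code_cix (x := x) (y := y) (r 0) (r 1) (r 2) u v z
      rw [hc, k0, k1, k2, hw]
      ring
    · have hz' : ¬ (z ∈ Free r ∧ z ≠ u ∧ z ≠ v) := hz
      unfold pS
      rw [if_neg hz', if_neg hz, if_neg hz, if_neg hz, if_neg hz, if_neg hz]
      ring
  -- the own rows
  have hPh : Ph x y w r = SW + ((T.wy (τ u) : ℤ) + T.wy (τ v)) := by
    have e1 : Ph x y w r = ∑ z, (if ∀ k, z ≠ r k then (T.wy (τ z) : ℤ) else 0) := by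
      unfold Ph
      refine sum_congr rfl fun z _ => ?_
      by_cases hz : ∀ k, z ≠ r k
      · rw [if_pos hz, if_pos hz, hwy z hz, code_tau hr.st4]
      · rw [if_neg hz, if_neg hz]
    rw [e1, hSW]
    have e2 : ∀ z, (if ∀ k, z ≠ r k then (T.wy (τ z) : ℤ) else 0) =
        (if D z then (T.wy (τ z) : ℤ) else 0) + ((if z = u then (T.wy (τ u) : ℤ) else 0) +
          (if z = v then (T.wy (τ v) : ℤ) else 0)) := by
      intro z
      by_cases hzu : z = u
      · subst hzu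
        have d1 : ¬ D z := fun g => g.2.1 rfl
        have hu' : ∀ k, z ≠ r k := hu
        rw [if_pos hu', if_neg d1, if_pos rfl, if_neg huv]
        ring
      · by_cases hzv : z = v
        · subst hzv
          have d1 : ¬ D z := fun g => g.2.2 rfl
          have hv' : ∀ k, z ≠ r k := hv
          rw [if_pos hv', if_neg d1, if_neg hzu, if_pos rfl]
          ring
        · by_cases hz : ∀ k, z ≠ r k
          · have d1 : D z := ⟨hz, hzu, hzv⟩
            rw [if_pos hz, if_pos d1, if_neg hzu, if_neg hzv]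
            ring
          · have d1 : ¬ D z := fun g => hz g.1
            rw [if_neg hz, if_neg d1, if_neg hzu, if_neg hzv]
            ring
    rw [sum_congr rfl fun z _ => e2 z, sum_add_distrib, sum_add_distrib, sum_ite_eq' univ u,
      sum_ite_eq' univ v, if_pos (mem_univ _), if_pos (mem_univ _)]
  have hN1 : ND ≤ Fintype.card ι := by
    have e1 : ∑ z : ι, (if D z then (1 : ℤ) else 0) ≤ ∑ _z : ι, (1 : ℤ) :=
      sum_le_sum fun z _ => by split_ifs <;> norm_num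
    rw [sum_const, card_univ, nsmul_eq_mul, mul_one] at e1
    exact e1
  have hN2 : (Fintype.card ι : ℤ) - 5 ≤ ND := by
    have e1 : ∀ z : ι, (1 : ℤ) - (if z ∈ ({r 0, r 1, r 2, u, v} : Finset ι) then 1 else 0) ≤
        (if D z then (1 : ℤ) else 0) := by
      intro z
      by_cases hz : z ∈ ({r 0, r 1, r 2, u, v} : Finset ι)
      · rw [if_pos hz]
        split_ifs <;> norm_num
      · rw [if_neg hz]
        simp only [mem_insert, mem_singleton, not_or] at hz
        have d1 : D z := by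
          refine ⟨?_, hz.2.2.2.1, hz.2.2.2.2⟩
          rw [forall_fin3]
          exact ⟨hz.1, hz.2.1, hz.2.2.1⟩
        rw [if_pos d1]
        norm_num
    have e2 := sum_le_sum fun z (_ : z ∈ (univ : Finset ι)) => e1 z
    rw [sum_sub_distrib, sum_const, card_univ, nsmul_eq_mul, mul_one, sum_ite_mem, univ_inter,
      sum_const, nsmul_eq_mul, mul_one] at e2
    have e3 : ((({r 0, r 1, r 2, u, v} : Finset ι).card : ℕ) : ℤ) ≤ 5 := by
      exact_mod_cast card_le_five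
    linarith
  have w0 : ∀ p, (0 : ℤ) ≤ (T.wy p : ℤ) := fun p => Int.natCast_nonneg _
  have wu : (T.wy (τ u) : ℤ) ≤ C := by
    rw [hwy u hu]
    exact (abs_le.1 (hwC _)).2
  have wv : (T.wy (τ v) : ℤ) ≤ C := by
    rw [hwy v hv]
    exact (abs_le.1 (hwC _)).2
  have he0 : (0 : ℤ) ≤ T.e := Int.natCast_nonneg _
  have hh0 : (0 : ℤ) ≤ T.h0 := Int.natCast_nonneg _
  have hh1 : (0 : ℤ) ≤ T.h1 := Int.natCast_nonneg _
  have hC0 : (0 : ℤ) ≤ C := Int.natCast_nonneg _
  have hL0 : (0 : ℤ) ≤ L := Int.natCast_nonneg _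
  rw [hPh] at ho0 ho1
  have A0 : -(2 * (T.e : ℤ) * C) ≤ T.e * SW - T.h0 * ND := by
    have i1 : (T.h0 : ℤ) * ND ≤ T.h0 * Fintype.card ι := mul_le_mul_of_nonneg_left hN1 hh0
    have i2 : (T.e : ℤ) * ((T.wy (τ u) : ℤ) + T.wy (τ v)) ≤ T.e * (2 * C) :=
      mul_le_mul_of_nonneg_left (by linarith) he0
    have i3 : (T.e : ℤ) * (SW + ((T.wy (τ u) : ℤ) + T.wy (τ v))) =
      T.e * SW + T.e * ((T.wy (τ u) : ℤ) + T.wy (τ v)) := by ring
    rw [i3] at ho0
    linarith
  have A1 : -(5 * (T.h1 : ℤ)) ≤ T.h1 * ND - T.e * SW := by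
    have i1 : (T.h1 : ℤ) * (Fintype.card ι - 5) ≤ T.h1 * ND := mul_le_mul_of_nonneg_left hN2 hh1
    have i2 : 0 ≤ (T.e : ℤ) * ((T.wy (τ u) : ℤ) + T.wy (τ v)) :=
      mul_nonneg he0 (add_nonneg (w0 _) (w0 _))
    have i3 : (T.e : ℤ) * (SW + ((T.wy (τ u) : ℤ) + T.wy (τ v))) =
      T.e * SW + T.e * ((T.wy (τ u) : ℤ) + T.wy (τ v)) := by ring
    rw [i3] at ho1
    linarith
  have mulb : ∀ {m : ℕ} {B X : ℤ}, m ≤ L → 0 ≤ B → -B ≤ X → -((L : ℤ) * B) ≤ (m : ℤ) * X := by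
    intro m B X hm hB hX
    have hm' : (m : ℤ) ≤ L := by exact_mod_cast hm
    have h1 : (m : ℤ) * (-B) ≤ (m : ℤ) * X := mul_le_mul_of_nonneg_left hX (Int.natCast_nonneg _)
    have h2 : (m : ℤ) * B ≤ L * B := mul_le_mul_of_nonneg_right hm' hB
    linarith
  have R0 := mulb b1 (by positivity) A0
  have R1 := mulb b2 (by positivity) A1
  -- the exchange rows
  have key : ∀ (k : Fin 3) (m : ℕ), m ≤ L → (st x y (r k) u v % 4 ≠ 0 → m = 0) →
      -((L : ℤ) * (10 * C)) ≤ (m : ℤ) * ∑ z, (if D z then (T.wy (τ z) : ℤ) -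
        w (code x y (r k) u v z) else 0) := by
    intro k m hmL hm0
    by_cases hk : st x y (r k) u v % 4 = 0
    · refine mulb hmL (by positivity) ?_
      rw [hX k]
      have := exch2 hwC hr hu hv huv k hk
      linarith
    · rw [hm0 hk, Nat.cast_zero, zero_mul]
      have : 0 ≤ (L : ℤ) * (10 * C) := by positivity
      linarith
  have d0 : dg0 (c u v) = st x y (r 0) u v := dg0_cixA ..
  have d1 : dg1 (c u v) = st x y (r 1) u v := dg1_cixA ..
  have d2 : dg2 (c u v) = st x y (r 2) u v := dg2_cixA ..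
  rw [d0, d1, d2] at hm
  have K0 := key 0 _ b3 hm.1
  have K1 := key 1 _ b4 hm.2.1
  have K2 := key 2 _ b5 hm.2.2
  rw [hsplit]
  push_cast
  linarith

/-- **The exchange rows of one root**, for a maximal triple -/
theorem one_rows (hL : LinkT T tcs) (hE : LinkE T tcs) {C : ℕ} (hC : ∀ K, T.wv K ≤ C)
    {ι : Type*} [Fintype ι] {x y : ι → ℝ} (h : GN x y) {r : Fin 3 → ι}
    (hr : MaxT x y (fun K => (T.wv K : ℤ)) r) :
    ∀ u ∈ Free r, ∀ k < T.nk, (∃ j, T.lam k (tixA tcs x y (r 0) (r 1) (r 2) u) j ≠ 0) →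
      ∑ v, exS r (tixA tcs x y (r 0) (r 1) (r 2)) (cixA x y (r 0) (r 1) (r 2)) T k u v ≤
        ((2 * C : ℕ) : ℤ) := by
  intro u hu k hk hne
  have hwC : ∀ k, |(fun K => (T.wv K : ℤ)) k| ≤ (C : ℤ) := by
    intro k
    simp only
    rw [abs_of_nonneg (Int.natCast_nonneg _)]
    exact_mod_cast hC k
  have hk3 : k < 3 := lt_of_lt_of_le hk hE.nk
  obtain ⟨j, hj⟩ := hne
  have e1 : tcs.getD (tixA tcs x y (r 0) (r 1) (r 2) u) 0 =
      tau x y (r 0) (r 1) (r 2) u := getD_tixA h hL.types hr.inj hr.st4 hu 0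
  have hp := tixA_lt h hL.types hr.inj hr.st4 hu
  have hx : xst ⟨k, hk3⟩ (tau x y (r 0) (r 1) (r 2) u) % 4 = 0 := by
    by_contra h0
    rw [← e1] at h0
    exact hj (hE.lam ⟨k, hk3⟩ _ hp h0 j)
  have h1 := hr.exch h hwC hu ⟨k, hk3⟩ hx
  push_cast
  refine le_trans (le_of_eq ?_) h1
  refine sum_congr rfl fun v _ => ?_
  unfold exS fg
  by_cases g : (∀ j, v ≠ r j) ∧ u ≠ v
  · have g' : v ∈ Free r ∧ v ≠ u := ⟨g.1, g.2.symm⟩
    rw [if_pos g, if_pos g']
    have e2 : tcs.getD (tixA tcs x y (r 0) (r 1) (r 2) v) 0 =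
        tau x y (r 0) (r 1) (r 2) v := getD_tixA h hL.types hr.inj hr.st4 g.1 0
    have hq := tixA_lt h hL.types hr.inj hr.st4 g.1
    have h2 := hE.ev ⟨k, hk3⟩ _ hp _ hq
      (cixA x y (r 0) (r 1) (r 2) u v) (cixA_lt ..)
      (by rw [e1, e2]; exact pairT_ok h hr.inj hu g.1 g.2) (by rw [e1]; exact hx)
    rw [e1, e2] at h2
    exact h2
  · have g' : ¬ (v ∈ Free r ∧ v ≠ u) := fun h => g ⟨h.1, h.2.symm⟩
    rw [if_neg g, if_neg g']

end Pool.Agent.AKZ
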