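import Pool.Agent.AKZ.Dat
import Pool.Agent.AKZ.Link

set_option autoImplicit false

/-!
# Packed data: the checks of the link to point sets
-/

namespace Pool.Agent.AKZ

open Finset Pool.Agent.AKU Pool.Agent.AKG

theorem nthL_getD (l : List Nat) (i : Nat) : nthL l i = l.getD i 0 := by
  induction l generalizing i with
  | nil => rfl
  | cons x l ih =>
    cases i with
    | zero => rfl
    | succ i =>
      have e : nthL (x :: l) (i + 1) = nthL l i := rfl
      rw [e, ih, List.getD_cons_succ]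

/-- a test is only made if `b` is false -/
noncomputable def orB (b c : Bool) : Bool := Bool.rec (motive := fun _ => Bool) c true b

theorem orB_iff {b c : Bool} : orB b c = true ↔ b = true ∨ c = true := by
  cases b <;> simp [orB]

/-- all types are in the list -/
noncomputable def chkTy (TB : Nat) (tcs : List Nat) : Bool :=
  allN 512 fun t => Bool.rec (motive := fun _ => Bool) true (memN tcs t)
    (tb TB (Nat.add 2048 t))

theorem chkTy_sound {tcs : List Nat} (h : chkTy Pool.Agent.AKG.TAB tcs = true) : TypesOk tcs := by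
  intro t ht h1
  have h2 := allN_iff.1 h t ht
  have h3 : tb Pool.Agent.AKG.TAB (Nat.add 2048 t) = true := by
    rw [tb_eq]
    exact h1
  rw [h3] at h2
  exact memN_sound h2

namespace Dt

variable (D : Dt)

/-- code of a type -/
def cd (p : Nat) : Nat := lk D.tcP p

/-- the codes of the types are the elements of the list -/
noncomputable def chkTc (tcs : List Nat) : Bool :=
  allN D.nt fun p => Nat.beq (nthL tcs p) (D.cd p)

/-- the weights of the codes do not depend on the order of the roots -/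
noncomputable def chkWv : Bool :=
  allN 4096 fun K => Bool.rec (motive := fun _ => Bool) true
    (Nat.beq (D.T.wv (cs12 K)) (D.T.wv K) && Nat.beq (D.T.wv (cs23 K)) (D.T.wv K)) (tb D.TAB K)

/-- the weights of the types -/
noncomputable def chkWy : Bool :=
  allN D.nt fun p => Nat.beq (D.T.wy p) (D.T.wv (Nat.add 2048 (D.cd p)))

/-- the multipliers of the exchange of two roots vanish unless the new triple is acute -/
noncomputable def chkM2 (p : Nat) : Bool :=
  allN D.nt fun q => allL (D.T.E p q) fun x =>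
    (orB (Nat.beq (Nat.mod x.a 4) 0) (Nat.beq (lk (D.T.mv 0 p) x.f) 0) &&
      orB (Nat.beq (Nat.mod x.b 4) 0) (Nat.beq (lk (D.T.mv 1 p) x.f) 0)) &&
    (orB (Nat.beq (Nat.mod x.c 4) 0) (Nat.beq (lk (D.T.mv 2 p) x.f) 0) &&
    ((Nat.beq x.a (dg0 x.s) && Nat.beq x.b (dg1 x.s)) && Nat.beq x.c (dg2 x.s)))

/-- the multipliers of the exchange of the root `k` vanish unless the new triple is acute -/
noncomputable def chkLm (k : Fin 3) : Bool :=
  allN D.nt fun p => orB (Nat.beq (Nat.mod (xst k (D.cd p)) 4) 0)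
    (Nat.beq (nthL D.lamL (Nat.add (Nat.mul D.nk (D.orb p)) (lk (nthL D.rkL k.1) p))) 0)

/-- the values of the rows of the exchange of the root `k`, compared with the value at the roots -/
noncomputable def chkEv (k : Fin 3) (p : Nat) : Bool :=
  Bool.rec (motive := fun _ => Bool) true
    (allN D.nt fun q => allL (D.T.E p q) fun x =>
      Nat.beq (Nat.add (D.T.ev k.1 p x.f) (D.T.wv (Nat.add 2048 (D.cd q))))
        (Nat.add D.offe (D.T.wv (xch k (D.cd p) (D.cd q) x.s))))
    (Nat.beq (Nat.mod (xst k (D.cd p)) 4) 0)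

/-- the values of the rows of the exchange of the root `k`, compared with `h` -/
noncomputable def chkEh (h : Nat) (k : Fin 3) (p : Nat) : Bool :=
  Bool.rec (motive := fun _ => Bool) true
    (allN D.nt fun q => allL (D.T.E p q) fun x =>
      Nat.beq (Nat.add (D.T.ev k.1 p x.f) h)
        (Nat.add D.offe (D.T.wv (xch k (D.cd p) (D.cd q) x.s))))
    (Nat.beq (Nat.mod (xst k (D.cd p)) 4) 0)

variable {D} {tcs : List ℕ} {offa offb : ℕ}

theorem cd_getD (hc : D.chkTc tcs = true) {p : ℕ} (hp : p < D.nt) : tcs.getD p 0 = D.cd p := by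
  rw [← nthL_getD]
  exact Nat.eq_of_beq_eq_true (allN_iff.1 hc p hp)

theorem vp_of (hT : D.TAB = Pool.Agent.AKG.TAB) (hc : D.chkTc tcs = true) {p q s : ℕ}
    (hp : p < D.nt) (hq : q < D.nt)
    (h : pairT (tcs.getD p 0) (tcs.getD q 0) s = true) : D.T.vp p q s = true := by
  rw [cd_getD hc hp, cd_getD hc hq] at h
  rw [hvp]
  have e : D.T.TAB = Pool.Agent.AKG.TAB := hT
  rw [e]
  unfold pairB
  rw [tb_eq, tb_eq, tb_eq]
  exact h

/-- **The conditions on the tables** -/
theorem linkT_of (hT : D.TAB = Pool.Agent.AKG.TAB) (hn : D.nt = tcs.length)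
    (ht : chkTy Pool.Agent.AKG.TAB tcs = true) (hc : D.chkTc tcs = true) (hi : D.chkWv = true)
    (hy : D.chkWy = true) (hm : ∀ p < D.nt, D.chkM2 p = true)
    (hrec : ∀ p < D.nt, chkRec D.T (fun p => lk D.tcP p) offa offb p = true) :
    LinkT D.T tcs where
  tab := hT
  nt := hn
  types := chkTy_sound ht
  vp := by
    intro p hp q hq s _ h
    exact vp_of hT hc (by rw [hn]; exact hp) (by rw [hn]; exact hq) h
  inv := by
    intro K hK h1
    have h2 := allN_iff.1 hi K hK
    have h3 : tb D.TAB K = true := by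
      rw [tb_eq, hT]
      exact h1
    rw [h3] at h2
    have h4 : (Nat.beq (D.T.wv (cs12 K)) (D.T.wv K) && Nat.beq (D.T.wv (cs23 K)) (D.T.wv K)) =
      true := h2
    rw [Bool.and_eq_true] at h4
    have h5 : D.T.wv (cs12 K) = D.T.wv K := Nat.eq_of_beq_eq_true h4.1
    have h6 : D.T.wv (cs23 K) = D.T.wv K := Nat.eq_of_beq_eq_true h4.2
    show (D.T.wv (cs12 K) : ℤ) = D.T.wv K ∧ (D.T.wv (cs23 K) : ℤ) = D.T.wv K
    rw [h5, h6]
    exact ⟨rfl, rfl⟩
  wy := by
    intro p hp
    have hp' : p < D.nt := by rw [hn]; exact hp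
    rw [cd_getD hc hp']
    exact Nat.eq_of_beq_eq_true (allN_iff.1 hy p hp')
  m2 := by
    intro p hp q hq s hs hv
    have hp' : p < D.nt := by rw [hn]; exact hp
    have hq' : q < D.nt := by rw [hn]; exact hq
    obtain ⟨x, hx, rfl, e1, -, -⟩ := rec_sound D.hvp hrec hp' hq' hs hv
    have h1 := allL_iff.1 (allN_iff.1 (hm p hp') q hq') x hx
    simp only [Bool.and_eq_true, orB_iff, Nat.beq_eq] at h1
    obtain ⟨⟨a0, a1⟩, a2, ⟨b0, b1⟩, b2⟩ := h1
    unfold Tb.mm
    rw [← e1]
    rw [b0] at a0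
    rw [b1] at a1
    rw [b2] at a2
    exact ⟨fun h => a0.resolve_left h, fun h => a1.resolve_left h, fun h => a2.resolve_left h⟩

theorem lam_of (hn : D.nt = tcs.length) (hc : D.chkTc tcs = true) (k : Fin 3)
    (hl : D.chkLm k = true) (p : ℕ) (hp : p < tcs.length)
    (hx : xst k (tcs.getD p 0) % 4 ≠ 0) (j : ℕ) : D.T.lam k p j = 0 := by
  have hp' : p < D.nt := by rw [hn]; exact hp
  rw [cd_getD hc hp'] at hx
  have h1 := allN_iff.1 hl p hp'
  rw [orB_iff] at h1
  have h2 := h1.resolve_left fun h => hx (Nat.eq_of_beq_eq_true h)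
  have h3 := Nat.eq_of_beq_eq_true h2
  have e : D.T.lam k p j =
    lk (nthL D.lamL (Nat.add (Nat.mul D.nk (D.orb p)) (lk (nthL D.rkL k.1) p))) j := rfl
  rw [e, h3]
  unfold lk
  show (0 >>> _) % _ = 0
  rw [Nat.zero_shiftRight, Nat.zero_mod]

theorem ev_of (hT : D.TAB = Pool.Agent.AKG.TAB) (hn : D.nt = tcs.length)
    (hc : D.chkTc tcs = true)
    (hrec : ∀ p < D.nt, chkRec D.T (fun p => lk D.tcP p) offa offb p = true) (k : Fin 3)
    (he : ∀ p < D.nt, D.chkEv k p = true) (p : ℕ) (hp : p < tcs.length) (q : ℕ)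
    (hq : q < tcs.length) (s : ℕ) (hs : s < 512)
    (hv : pairT (tcs.getD p 0) (tcs.getD q 0) s = true)
    (hx : xst k (tcs.getD p 0) % 4 = 0) :
    D.T.Ev k p (D.T.fl p q s) = (D.T.wv (xch k (tcs.getD p 0) (tcs.getD q 0) s) : ℤ) -
      D.T.wv (2048 + tcs.getD q 0) := by
  have hp' : p < D.nt := by rw [hn]; exact hp
  have hq' : q < D.nt := by rw [hn]; exact hq
  have hv' := vp_of hT hc hp' hq' hv
  rw [cd_getD hc hp', cd_getD hc hq'] at *
  obtain ⟨x, hx', rfl, e1, -, -⟩ := rec_sound D.hvp hrec hp' hq' hs hv'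
  have h0 := he p hp'
  unfold Dt.chkEv at h0
  have h00 : Nat.beq (Nat.mod (xst k (D.cd p)) 4) 0 = true := by
    rw [Nat.beq_eq]
    exact hx
  rw [h00] at h0
  have h1 := allL_iff.1 (allN_iff.1 h0 q hq') x hx'
  rw [Nat.beq_eq] at h1
  have h2 : D.T.ev k.1 p x.f + D.T.wv (2048 + D.cd q) =
    D.offe + D.T.wv (xch k (D.cd p) (D.cd q) x.s) := h1
  have h3 : (D.T.ev k.1 p x.f : ℤ) + D.T.wv (2048 + D.cd q) =
    D.offe + D.T.wv (xch k (D.cd p) (D.cd q) x.s) := by exact_mod_cast h2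
  unfold Tb.Ev
  rw [← e1]
  have e : D.T.offe = D.offe := rfl
  rw [e]
  linarith

theorem eh_of (hT : D.TAB = Pool.Agent.AKG.TAB) (hn : D.nt = tcs.length)
    (hc : D.chkTc tcs = true)
    (hrec : ∀ p < D.nt, chkRec D.T (fun p => lk D.tcP p) offa offb p = true) (h : ℕ) (k : Fin 3)
    (he : ∀ p < D.nt, D.chkEh h k p = true) (p : ℕ) (hp : p < tcs.length) (q : ℕ)
    (hq : q < tcs.length) (s : ℕ) (hs : s < 512)
    (hv : pairT (tcs.getD p 0) (tcs.getD q 0) s = true)
    (hx : xst k (tcs.getD p 0) % 4 = 0) :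
    D.T.Ev k p (D.T.fl p q s) = (D.T.wv (xch k (tcs.getD p 0) (tcs.getD q 0) s) : ℤ) - h := by
  have hp' : p < D.nt := by rw [hn]; exact hp
  have hq' : q < D.nt := by rw [hn]; exact hq
  have hv' := vp_of hT hc hp' hq' hv
  rw [cd_getD hc hp', cd_getD hc hq'] at *
  obtain ⟨x, hx', rfl, e1, -, -⟩ := rec_sound D.hvp hrec hp' hq' hs hv'
  have h0 := he p hp'
  unfold Dt.chkEh at h0
  have h00 : Nat.beq (Nat.mod (xst k (D.cd p)) 4) 0 = true := by
    rw [Nat.beq_eq]
    exact hx
  rw [h00] at h0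
  have h1 := allL_iff.1 (allN_iff.1 h0 q hq') x hx'
  rw [Nat.beq_eq] at h1
  have h2 : D.T.ev k.1 p x.f + h = D.offe + D.T.wv (xch k (D.cd p) (D.cd q) x.s) := h1
  have h3 : (D.T.ev k.1 p x.f : ℤ) + h =
    D.offe + D.T.wv (xch k (D.cd p) (D.cd q) x.s) := by exact_mod_cast h2
  unfold Tb.Ev
  rw [← e1]
  have e : D.T.offe = D.offe := rfl
  rw [e]
  linarith

/-- **The exchange rows of one root** -/
theorem linkE_of (hT : D.TAB = Pool.Agent.AKG.TAB) (hn : D.nt = tcs.length)
    (hc : D.chkTc tcs = true)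
    (hrec : ∀ p < D.nt, chkRec D.T (fun p => lk D.tcP p) offa offb p = true)
    (hl : ∀ k, D.chkLm k = true) (he : ∀ k, ∀ p < D.nt, D.chkEv k p = true)
    (hnk : D.nk ≤ 3) : LinkE D.T tcs where
  nk := hnk
  lam := fun k p hp hx j => lam_of hn hc k (hl k) p hp hx j
  ev := fun k p hp q hq s hs hv hx => ev_of hT hn hc hrec k (he k) p hp q hq s hs hv hx

end Dt

end Pool.Agent.AKZ
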