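import Pool.Agent.AKZ.Strip2

set_option autoImplicit false
set_option linter.unusedSectionVars false

/-!
# A strip of one weight, when all acute triples have small values of a second weight: separate
multipliers of the two exchanges of two roots
-/

namespace Pool.Agent.AKZ

open Finset Classical Pool.Agent.AKG Pool.Agent.AKO Pool.Agent.AKU Pool.Agent.MP_0af329_co
  Pool.Agent.AK Pool.Agent.AKX

/-- **The exchange of two roots** for a combination of the two weights -/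
theorem exch_mix {ι : Type*} {x y : ι → ℝ} [Fintype ι] {w w1 : ℕ → ℕ} {C e1 a1 : ℕ}
    (hC : ∀ K, w K ≤ C) {r : Fin 3 → ι} (hr : MaxT x y (fun K => (w K : ℤ)) r)
    (hA : AllA x y (fun K => ((e1 * w1 K : ℕ) : ℤ)) a1 0) {u v : ι} (hu : ∀ k, u ≠ r k)
    (hv : ∀ k, v ≠ r k) (huv : u ≠ v) (k : Fin 3) (hst : st x y (r k) u v % 4 = 0) (al be : ℕ)
    {f : ι → ℤ} (hf : ∀ z, Dz r u v z → f z =
      ((al : ℤ) * w (code x y (r 0) (r 1) (r 2) z) + be * a1) -
        (al * w (code x y (r k) u v z) + be * (e1 * w1 (code x y (r k) u v z)))) :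
    -((al : ℤ) * (10 * C) + be * (5 * a1)) ≤ ∑ z, (if Dz r u v z then f z else 0) := by
  have hwC : ∀ k, |(fun K => (w K : ℤ)) k| ≤ (C : ℤ) := by
    intro k
    simp only
    rw [abs_of_nonneg (Int.natCast_nonneg _)]
    exact_mod_cast hC k
  have w10 : ∀ k, 0 ≤ (fun K => ((e1 * w1 K : ℕ) : ℤ)) k := fun k => Int.natCast_nonneg _
  have ha10 : (0 : ℤ) ≤ a1 := Int.natCast_nonneg _
  have x1 := exch2 hwC hr hu hv huv k hst
  have hq : AcT x y ![r k, u, v] :=
    ⟨(inj_iff _).2 ⟨(hu k).symm, (hv k).symm, huv⟩, hst⟩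
  have x2 := row_acute (r := r) (u := u) (v := v) hA w10 ha10 hq (fun z hz => by
    rw [forall_fin3]
    exact ⟨hz.1 k, hz.2.1, hz.2.2⟩)
  have e5 : ∑ z, (if Dz r u v z then f z else 0) =
      (be : ℤ) * ∑ z, (if Dz r u v z then (a1 : ℤ) - (fun K => ((e1 * w1 K : ℕ) : ℤ))
        (code x y (![r k, u, v] 0) (![r k, u, v] 1) (![r k, u, v] 2) z) else 0) -
      al * ∑ z, (if (∀ k, z ≠ r k) ∧ z ≠ u ∧ z ≠ v then
        (fun K => (w K : ℤ)) (code x y (r k) u v z) -
          (fun K => (w K : ℤ)) (2048 + tau x y (r 0) (r 1) (r 2) z) else 0) := by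
    rw [mul_sum, mul_sum, ← sum_sub_distrib]
    refine sum_congr rfl fun z _ => ?_
    by_cases hz : Dz r u v z
    · have hz' : (∀ k, z ≠ r k) ∧ z ≠ u ∧ z ≠ v := hz
      rw [if_pos hz, if_pos hz, if_pos hz', hf z hz, ← code_tau hr.st4]
      have g3 : code x y (![r k, u, v] 0) (![r k, u, v] 1) (![r k, u, v] 2) z =
        code x y (r k) u v z := rfl
      rw [g3]
      push_cast
      ring
    · have hz' : ¬ ((∀ k, z ≠ r k) ∧ z ≠ u ∧ z ≠ v) := hz
      rw [if_neg hz, if_neg hz, if_neg hz']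
      ring
  rw [e5]
  have a5 := mul_le_mul_of_nonneg_left x1 (Int.natCast_nonneg al)
  have a6 := mul_le_mul_of_nonneg_left x2 (Int.natCast_nonneg be)
  linarith

/-- The rows of a strip of the weight `w` under a condition on the weight `w1`: at pairs, the row
`0` is `e w - a`, the row `1` is `b - e w`, the row `2` is `a1 - e1 w1`, all for the roots; the
two families of exchange rows of two roots are the combinations with the coefficients `al`, `be`
and `al2`, `be2` of the rows of `w` (compared with the roots) and of `w1` (compared with `a1`);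
the rows of one root have the number `k % 3` of the root and the coefficients `al' k`, `be' k`. -/
structure Mix3 (T : Tb) (tcs : List ℕ) (w w1 : ℕ → ℕ) (e a b e1 a1 al be al2 be2 : ℕ)
    (al' be' : ℕ → ℕ) : Prop where
  nj : T.nj = 3
  f0 : ∀ r < T.nt, T.FJ 0 r = (e : ℤ) * w (2048 + tcs.getD r 0) - a
  f1 : ∀ r < T.nt, T.FJ 1 r = (b : ℤ) - e * w (2048 + tcs.getD r 0)
  f2 : ∀ r < T.nt, T.FJ 2 r = (a1 : ℤ) - e1 * w1 (2048 + tcs.getD r 0)
  gm : ∀ r < T.nt, T.gm r = al * w (2048 + tcs.getD r 0) + be * a1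
  wv : ∀ K < 4096, T.wv K = al * w K + be * (e1 * w1 K)
  gz : ∀ r < T.nt, T.gz r = al2 * w (2048 + tcs.getD r 0) + be2 * a1
  wz : ∀ K < 4096, T.wz K = al2 * w K + be2 * (e1 * w1 K)
  n2 : ∀ p < tcs.length, ∀ q < tcs.length, ∀ s < 512, T.vp p q s = true →
    (dg0 s % 4 ≠ 0 → T.nn 0 p q s = 0) ∧ (dg1 s % 4 ≠ 0 → T.nn 1 p q s = 0) ∧
      (dg2 s % 4 ≠ 0 → T.nn 2 p q s = 0)
  lam : ∀ k < T.nk, ∀ p < tcs.length,
    xst (⟨k % 3, Nat.mod_lt _ (by norm_num)⟩ : Fin 3) (tcs.getD p 0) % 4 ≠ 0 →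
      ∀ j, T.lam k p j = 0
  ev : ∀ k < T.nk, ∀ p < tcs.length, ∀ q < tcs.length, ∀ s < 512,
    pairT (tcs.getD p 0) (tcs.getD q 0) s = true →
    xst (⟨k % 3, Nat.mod_lt _ (by norm_num)⟩ : Fin 3) (tcs.getD p 0) % 4 = 0 →
    T.Ev k p (T.fl p q s) = (al' k : ℤ) * (w (xch (⟨k % 3, Nat.mod_lt _ (by norm_num)⟩ : Fin 3)
        (tcs.getD p 0) (tcs.getD q 0) s) - w (2048 + tcs.getD q 0)) +
      be' k * (e1 * w1 (xch (⟨k % 3, Nat.mod_lt _ (by norm_num)⟩ : Fin 3)
        (tcs.getD p 0) (tcs.getD q 0) s) - a1)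

variable {T : Tb} {tcs : List ℕ} {w w1 : ℕ → ℕ} {e a b e1 a1 al be al2 be2 : ℕ}
  {al' be' : ℕ → ℕ}

/-- **The rows at pairs** -/
theorem pair_rows3 (hM : Mix3 T tcs w w1 e a b e1 a1 al be al2 be2 al' be') (hL : LinkT T tcs) {C : ℕ}
    (hC : ∀ K, w K ≤ C) : ∃ s1 : ℕ,
    ∀ (ι : Type) [Fintype ι] (x y : ι → ℝ), GN x y → ∀ r : Fin 3 → ι,
      MaxT x y (fun K => (w K : ℤ)) r →
      (a : ℤ) * Fintype.card ι ≤ e * Ph x y (fun K => (w K : ℤ)) r →
      e * Ph x y (fun K => (w K : ℤ)) r ≤ b * (Fintype.card ι : ℤ) →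
      AllA x y (fun K => ((e1 * w1 K : ℕ) : ℤ)) a1 0 →
      ∀ u ∈ Free r, ∀ v ∈ Free r, u ≠ v →
        -(s1 : ℤ) ≤ ∑ z, pS r (tixA tcs x y (r 0) (r 1) (r 2)) (cixA x y (r 0) (r 1) (r 2))
          (st x y) T u v z := by
  set L : ℕ := 18446744073709551616 with hLdef
  set c0 : ℕ := 2 * (e * C) + 5 * b + 5 * a1 with hc0
  set c1 : ℕ := al * (10 * C) + be * (5 * a1) with hc1
  set c2 : ℕ := al2 * (10 * C) + be2 * (5 * a1) with hc2
  refine ⟨(T.nj * (L * c0) + 3 * (L * c1)) + 3 * (L * c2), ?_⟩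
  intro ι _ x y hG r hr ho0 ho1 hA u hu v hv huv
  set τ := tixA tcs x y (r 0) (r 1) (r 2) with hτ
  set c := cixA x y (r 0) (r 1) (r 2) with hc
  have hCf := cfX hG hL hr.inj hr.st4
  rw [← hτ, ← hc] at hCf
  have tu := hCf.ty u hu
  have tv := hCf.ty v hv
  have tc := hCf.lt u hu v hv huv
  have tvp := hCf.vp u hu v hv huv
  have hcode : ∀ z ∈ Free r, 2048 + tcs.getD (τ z) 0 = code x y (r 0) (r 1) (r 2) z := by
    intro z hz
    have h1 := getD_tixA hG hL.types hr.inj hr.st4 hz 0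
    rw [hτ, h1, code_tau hr.st4]
  have hm := hL.m2 (τ u) (by rw [← hL.nt]; exact tu) (τ v) (by rw [← hL.nt]; exact tv) _ tc tvp
  have d0 : dg0 (c u v) = st x y (r 0) u v := dg0_cixA ..
  have d1 : dg1 (c u v) = st x y (r 1) u v := dg1_cixA ..
  have d2 : dg2 (c u v) = st x y (r 2) u v := dg2_cixA ..
  rw [d0, d1, d2] at hm
  have hn := hM.n2 (τ u) (by rw [← hL.nt]; exact tu) (τ v) (by rw [← hL.nt]; exact tv) _ tc tvp
  rw [d0, d1, d2] at hn
  have hsplit : ∑ z, pS r τ c (st x y) T u v z =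
      ∑ z, (if Dz r u v z then (∑ j ∈ range T.nj, ((T.oo j (τ u) (τ v) (c u v) : ℕ) : ℤ) *
          T.FJ j (τ z)) +
        (((T.mm 0 (τ u) (τ v) (c u v) : ℕ) : ℤ) *
            ((T.gm (τ z) : ℤ) - T.wv (code x y (r 0) u v z)) +
        ((T.mm 1 (τ u) (τ v) (c u v) : ℕ) : ℤ) *
            ((T.gm (τ z) : ℤ) - T.wv (code x y (r 1) u v z)) +
          ((T.mm 2 (τ u) (τ v) (c u v) : ℕ) : ℤ) *
            ((T.gm (τ z) : ℤ) - T.wv (code x y (r 2) u v z))) else 0) +
      ∑ z, (if Dz r u v z then (∑ j ∈ range 0, (((fun _ => 0 : ℕ → ℕ) j : ℕ) : ℤ) *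
          (fun _ _ => 0 : ℕ → ι → ℤ) j z) +
        (((T.nn 0 (τ u) (τ v) (c u v) : ℕ) : ℤ) *
            ((T.gz (τ z) : ℤ) - T.wz (code x y (r 0) u v z)) +
        ((T.nn 1 (τ u) (τ v) (c u v) : ℕ) : ℤ) *
            ((T.gz (τ z) : ℤ) - T.wz (code x y (r 1) u v z)) +
          ((T.nn 2 (τ u) (τ v) (c u v) : ℕ) : ℤ) *
            ((T.gz (τ z) : ℤ) - T.wz (code x y (r 2) u v z))) else 0) := by
    rw [← sum_add_distrib]
    refine sum_congr rfl fun z _ => ?_
    by_cases hz : Dz r u v z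
    · have hz' : z ∈ Free r ∧ z ≠ u ∧ z ≠ v := hz
      unfold pS
      rw [if_pos hz', if_pos hz, if_pos hz]
      unfold Tb.PF Tb.PX Tb.PP Tb.GO
      obtain ⟨k0, k1, k2⟩ := code_cix (x := x) (y := y) (r 0) (r 1) (r 2) u v z
      rw [hc, k0, k1, k2, sum_range_zero, zero_add]
    · have hz' : ¬ (z ∈ Free r ∧ z ≠ u ∧ z ≠ v) := hz
      unfold pS
      rw [if_neg hz', if_neg hz, if_neg hz, add_zero]
  rw [hsplit]
  have hac : AcT x y r := ⟨hr.inj, by rw [hr.st4]⟩
  have w10 : ∀ k, 0 ≤ (fun K => ((e1 * w1 K : ℕ) : ℤ)) k := fun k => Int.natCast_nonneg _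
  have ha10 : (0 : ℤ) ≤ a1 := Int.natCast_nonneg _
  have key := pair_sumC (r := r) (u := u) (v := v) (nj := T.nj)
    (o := fun j => T.oo j (τ u) (τ v) (c u v)) (mm := fun k => T.mm k (τ u) (τ v) (c u v))
    (F := fun j z => T.FJ j (τ z))
    (G := fun k z => (T.gm (τ z) : ℤ) - T.wv (code x y (r (Fin.ofNat 3 k)) u v z))
    (c0 := (c0 : ℤ)) (c1 := (c1 : ℤ)) (L := L) (Int.natCast_nonneg _) (Int.natCast_nonneg _)
    (by
      intro j hj
      rw [hM.nj] at hj
      have b0 : (0 : ℤ) ≤ (e : ℤ) * C := by positivity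
      have b1 : (0 : ℤ) ≤ (b : ℤ) := Int.natCast_nonneg _
      have hc0' : (c0 : ℤ) = 2 * ((e : ℤ) * C) + 5 * b + 5 * a1 := by rw [hc0]; push_cast; ring
      have hj3 : j = 0 ∨ j = 1 ∨ j = 2 := by omega
      rcases hj3 with rfl | rfl | rfl
      · have q1 := own_ge (x := x) (y := y) hC (e := e) (a := a) (r := r) u v ho0
        have q2 : ∑ z, (if Dz r u v z then T.FJ 0 (τ z) else 0) =
            ∑ z, (if Dz r u v z then (e : ℤ) * w (code x y (r 0) (r 1) (r 2) z) - a else 0) := by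
          refine sum_congr rfl fun z _ => ?_
          by_cases hz : Dz r u v z
          · rw [if_pos hz, if_pos hz, hM.f0 _ (hCf.ty z hz.1), hcode z hz.1]
          · rw [if_neg hz, if_neg hz]
        rw [q2, hc0']
        linarith
      · have q1 := own_le (x := x) (y := y) (w := w) (e := e) (b := b) (r := r) u v ho1
        have q2 : ∑ z, (if Dz r u v z then T.FJ 1 (τ z) else 0) =
            ∑ z, (if Dz r u v z then (b : ℤ) - e * w (code x y (r 0) (r 1) (r 2) z) else 0) := by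
          refine sum_congr rfl fun z _ => ?_
          by_cases hz : Dz r u v z
          · rw [if_pos hz, if_pos hz, hM.f1 _ (hCf.ty z hz.1), hcode z hz.1]
          · rw [if_neg hz, if_neg hz]
        rw [q2, hc0']
        linarith
      · have q1 := row_acute (r := r) (u := u) (v := v) hA w10 ha10 hac (fun z hz => hz.1)
        have q2 : ∑ z, (if Dz r u v z then T.FJ 2 (τ z) else 0) =
            ∑ z, (if Dz r u v z then (a1 : ℤ) -
              (fun K => ((e1 * w1 K : ℕ) : ℤ)) (code x y (r 0) (r 1) (r 2) z) else 0) := by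
          refine sum_congr rfl fun z _ => ?_
          by_cases hz : Dz r u v z
          · rw [if_pos hz, if_pos hz, hM.f2 _ (hCf.ty z hz.1), hcode z hz.1]
            push_cast
            ring
          · rw [if_neg hz, if_neg hz]
        rw [q2, hc0']
        linarith)
    (by
      intro k hk hne
      have hst : st x y (r (Fin.ofNat 3 k)) u v % 4 = 0 := by
        by_contra h0
        have hk3 : k = 0 ∨ k = 1 ∨ k = 2 := by omega
        rcases hk3 with rfl | rfl | rfl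
        · exact hne (hm.1 h0)
        · exact hne (hm.2.1 h0)
        · exact hne (hm.2.2 h0)
      have h1 := exch_mix hC hr hA hu hv huv (Fin.ofNat 3 k) hst al be
        (f := fun z => (T.gm (τ z) : ℤ) - T.wv (code x y (r (Fin.ofNat 3 k)) u v z)) (by
          intro z hz
          have g1 := hM.gm _ (hCf.ty z hz.1)
          have g2 := hM.wv _ (code_lt x y (r (Fin.ofNat 3 k)) u v z)
          rw [hcode z hz.1] at g1
          rw [g1, g2]
          push_cast
          ring)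
      have hc1' : (c1 : ℤ) = al * (10 * C) + be * (5 * a1) := by rw [hc1]; push_cast; ring
      rw [hc1']
      exact h1)
    (fun j _ => oo_lt T j _ _ _) (fun k _ => mm_lt T k _ _ _)
  have key2 := pair_sumC (r := r) (u := u) (v := v) (nj := 0)
    (o := fun _ => 0) (mm := fun k => T.nn k (τ u) (τ v) (c u v))
    (F := fun _ _ => 0)
    (G := fun k z => (T.gz (τ z) : ℤ) - T.wz (code x y (r (Fin.ofNat 3 k)) u v z))
    (c0 := 0) (c1 := (c2 : ℤ)) (L := L) le_rfl (Int.natCast_nonneg _)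
    (fun j hj => absurd hj (Nat.not_lt_zero _))
    (by
      intro k hk hne
      have hst : st x y (r (Fin.ofNat 3 k)) u v % 4 = 0 := by
        by_contra h0
        have hk3 : k = 0 ∨ k = 1 ∨ k = 2 := by omega
        rcases hk3 with rfl | rfl | rfl
        · exact hne (hn.1 h0)
        · exact hne (hn.2.1 h0)
        · exact hne (hn.2.2 h0)
      have h1 := exch_mix hC hr hA hu hv huv (Fin.ofNat 3 k) hst al2 be2
        (f := fun z => (T.gz (τ z) : ℤ) - T.wz (code x y (r (Fin.ofNat 3 k)) u v z)) (by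
          intro z hz
          have g1 := hM.gz _ (hCf.ty z hz.1)
          have g2 := hM.wz _ (code_lt x y (r (Fin.ofNat 3 k)) u v z)
          rw [hcode z hz.1] at g1
          rw [g1, g2]
          push_cast
          ring)
      have hc2' : (c2 : ℤ) = al2 * (10 * C) + be2 * (5 * a1) := by rw [hc2]; push_cast; ring
      rw [hc2']
      exact h1)
    (fun j hj => absurd hj (Nat.not_lt_zero _)) (fun k _ => (lkB_lt _ _).le)
  have e0 : ((0 : ℕ) : ℤ) * ((L : ℤ) * 0) = 0 := by ring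
  rw [e0, zero_add] at key2
  have hsum := add_le_add key key2
  push_cast at hsum ⊢
  linarith

/-- **The rows of one root** -/
theorem one_rows3 (hM : Mix3 T tcs w w1 e a b e1 a1 al be al2 be2 al' be') (hL : LinkT T tcs) {C s0 : ℕ}
    (hC : ∀ K, w K ≤ C) (hs : ∀ k < T.nk, al' k * (2 * C) + be' k * (4 * a1) ≤ s0)
    {ι : Type*} [Fintype ι] {x y : ι → ℝ} (hG : GN x y) {r : Fin 3 → ι}
    (hr : MaxT x y (fun K => (w K : ℤ)) r)
    (hA : AllA x y (fun K => ((e1 * w1 K : ℕ) : ℤ)) a1 0) :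
    ∀ u ∈ Free r, ∀ k < T.nk, (∃ j, T.lam k (tixA tcs x y (r 0) (r 1) (r 2) u) j ≠ 0) →
      ∑ v, exS r (tixA tcs x y (r 0) (r 1) (r 2)) (cixA x y (r 0) (r 1) (r 2)) T k u v ≤
        (s0 : ℤ) := by
  intro u hu k hk hne
  have hwC : ∀ k, |(fun K => (w K : ℤ)) k| ≤ (C : ℤ) := by
    intro k
    simp only
    rw [abs_of_nonneg (Int.natCast_nonneg _)]
    exact_mod_cast hC k
  set kk : Fin 3 := ⟨k % 3, Nat.mod_lt _ (by norm_num)⟩ with hkk
  obtain ⟨j, hj⟩ := hne
  have e1' : tcs.getD (tixA tcs x y (r 0) (r 1) (r 2) u) 0 =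
      tau x y (r 0) (r 1) (r 2) u := getD_tixA hG hL.types hr.inj hr.st4 hu 0
  have hp := tixA_lt hG hL.types hr.inj hr.st4 hu
  have hx : xst kk (tau x y (r 0) (r 1) (r 2) u) % 4 = 0 := by
    by_contra h0
    rw [← e1'] at h0
    exact hj (hM.lam k hk _ hp h0 j)
  have h1 := hr.exch hG hwC hu kk hx
  have h2 := exchB hG hA (fun k => Int.natCast_nonneg _) (Int.natCast_nonneg _) hr.inj hu kk hx
  have h3 : ∑ v, exS r (tixA tcs x y (r 0) (r 1) (r 2)) (cixA x y (r 0) (r 1) (r 2)) T k u v =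
      (al' k : ℤ) * ∑ v, (if (∀ k, v ≠ r k) ∧ u ≠ v then
        (fun K => (w K : ℤ)) (xch kk (tau x y (r 0) (r 1) (r 2) u) (tau x y (r 0) (r 1) (r 2) v)
          (cixA x y (r 0) (r 1) (r 2) u v)) -
          (fun K => (w K : ℤ)) (2048 + tau x y (r 0) (r 1) (r 2) v) else 0) +
      be' k * ∑ v, (if (∀ k, v ≠ r k) ∧ u ≠ v then
        (fun K => ((e1 * w1 K : ℕ) : ℤ)) (xch kk (tau x y (r 0) (r 1) (r 2) u)
          (tau x y (r 0) (r 1) (r 2) v) (cixA x y (r 0) (r 1) (r 2) u v)) - a1 else 0) := by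
    rw [mul_sum, mul_sum, ← sum_add_distrib]
    refine sum_congr rfl fun v _ => ?_
    unfold exS fg
    by_cases g : (∀ j, v ≠ r j) ∧ u ≠ v
    · have g' : v ∈ Free r ∧ v ≠ u := ⟨g.1, g.2.symm⟩
      rw [if_pos g, if_pos g, if_pos g']
      have e2 : tcs.getD (tixA tcs x y (r 0) (r 1) (r 2) v) 0 =
          tau x y (r 0) (r 1) (r 2) v := getD_tixA hG hL.types hr.inj hr.st4 g.1 0
      have hq := tixA_lt hG hL.types hr.inj hr.st4 g.1
      have h2 := hM.ev k hk _ hp _ hq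
        (cixA x y (r 0) (r 1) (r 2) u v) (cixA_lt ..)
        (by rw [e1', e2]; exact pairT_ok hG hr.inj hu g.1 g.2) (by rw [e1']; exact hx)
      rw [h2, e1', e2]
      push_cast
      ring
    · have g' : ¬ (v ∈ Free r ∧ v ≠ u) := fun h => g ⟨h.1, h.2.symm⟩
      rw [if_neg g, if_neg g, if_neg g', mul_zero, mul_zero, add_zero]
  rw [h3]
  have h4 := mul_le_mul_of_nonneg_left h1 (Int.natCast_nonneg (al' k))
  have h5 := mul_le_mul_of_nonneg_left h2 (Int.natCast_nonneg (be' k))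
  have h6 : ((al' k * (2 * C) + be' k * (4 * a1) : ℕ) : ℤ) ≤ s0 := by exact_mod_cast hs k hk
  push_cast at h6
  linarith

/-- **A certificate of a strip under a condition on a second weight** -/
theorem strip_dec3 {C s0 : ℕ} (hN : ∀ s1, NB T s0 s1)
    (hM : Mix3 T tcs w w1 e a b e1 a1 al be al2 be2 al' be') (hL : LinkT T tcs)
    (hC : ∀ K, w K ≤ C) (hs : ∀ k < T.nk, al' k * (2 * C) + be' k * (4 * a1) ≤ s0) :
    Dec fun S => Btw w e a b S ∧ Low w1 e1 a1 S := by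
  obtain ⟨s1, hp⟩ := pair_rows3 hM hL hC
  obtain ⟨M, C', hM', hC', hb⟩ := hN s1
  refine ⟨M, C', 0, hM', hC', ?_⟩
  rintro S η hη _ hS _ hlt ⟨⟨r, hr, ho0, ho1⟩, hlow⟩
  have hg := gn_of hS.gen hS.nr
  have hA : AllA (X S) (Y S) (fun K => ((e1 * w1 K : ℕ) : ℤ)) a1 0 := by
    intro r' hr'
    have h1 := hlow r' hr'
    rw [Ph_mul (X S) (Y S) (w := fun K => (w1 K : ℤ)) (w' := fun K => ((e1 * w1 K : ℕ) : ℤ))
      (c := (e1 : ℤ)) (fun K _ => by push_cast; ring) r', add_zero]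
    exact h1
  refine hb S η hη.le hS r (tixA tcs (X S) (Y S) (r 0) (r 1) (r 2))
    (cixA (X S) (Y S) (r 0) (r 1) (r 2)) (st (X S) (Y S)) (cfX hg hL hr.inj hr.st4) ?_ ?_ ?_ ?_ hlt
  · intro u _ v _ z _ h1 h2 h3
    exact Nf_na h1 h2 h3
  · intro u hu v hv huv
    rw [dg0_cixA, dg1_cixA, dg2_cixA]
    exact ⟨Nf_na (hu 0).symm huv (hv 0).symm, Nf_na (hu 1).symm huv (hv 1).symm,
      Nf_na (hu 2).symm huv (hv 2).symm⟩
  · intro u hu k hk hne
    exact one_rows3 hM hL hC hs hg hr hA u hu k hk hne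
  · intro u hu v hv huv
    exact hp S (X S) (Y S) hg r hr ho0 ho1 hA u hu v hv huv

end Pool.Agent.AKZ
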