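import Pool.Agent.AKZ.DatI
import Pool.Agent.AKZ.DatL
import Pool.Agent.AKZ.Strip3

set_option autoImplicit false

/-!
# Packed data: the checks of a strip under a condition on a second weight, separate multipliers
-/

namespace Pool.Agent.AKZ

open Finset Pool.Agent.AKU Pool.Agent.AKG

/-- a weight with values of 12 bits -/
def wgt (P K : Nat) : Nat := Nat.mod (Nat.shiftRight P (Nat.mul 12 K)) 4096

theorem wgt_le (P K : Nat) : wgt P K ≤ 4096 := (Nat.mod_lt _ (by norm_num)).le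

/-- all numbers below `4096` -/
noncomputable def allK (g : Nat → Bool) : Bool :=
  allN 64 fun a => allN 64 fun b => g (Nat.add (Nat.mul 64 a) b)

theorem allK_iff {g : Nat → Bool} (h : allK g = true) (K : Nat) (hK : K < 4096) : g K = true := by
  have h1 := allN_iff.1 (allN_iff.1 h (K / 64) (by omega)) (K % 64) (Nat.mod_lt _ (by norm_num))
  have e : Nat.add (Nat.mul 64 (K / 64)) (K % 64) = K := by
    show 64 * (K / 64) + K % 64 = K
    omega
  rwa [e] at h1

/-- the coefficients of the rows of one root: `x` for the first three rows, `y` for the others -/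
def cf (x y k : ℕ) : ℕ := if k < 3 then x else y

namespace Dt

variable (D : Dt)

/-- the rows at pairs, as functions of the type of the third point; `W`, `W1` are the weights -/
noncomputable def chkM1 (W W1 e a b e1 a1 al be al2 be2 : Nat) : Bool :=
  Nat.beq D.nj 3 && allN D.nt fun r =>
    (Nat.beq (Nat.add (D.T.fp 0 r) a) (Nat.add (D.T.fm 0 r) (Nat.mul e (wgt W (Nat.add 2048
      (D.cd r))))) && Nat.beq (Nat.add (D.T.fp 1 r) (Nat.mul e (wgt W (Nat.add 2048 (D.cd r)))))
        (Nat.add (D.T.fm 1 r) b)) &&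
    ((Nat.beq (Nat.add (D.T.fp 2 r) (Nat.mul e1 (wgt W1 (Nat.add 2048 (D.cd r)))))
      (Nat.add (D.T.fm 2 r) a1) &&
      Nat.beq (D.T.gm r) (Nat.add (Nat.mul al (wgt W (Nat.add 2048 (D.cd r)))) (Nat.mul be a1))) &&
      Nat.beq (D.T.gz r) (Nat.add (Nat.mul al2 (wgt W (Nat.add 2048 (D.cd r)))) (Nat.mul be2 a1)))

/-- the weight of the first exchange rows of two roots -/
noncomputable def chkM2w (W W1 e1 al be : Nat) : Bool :=
  allK fun K => Nat.beq (D.T.wv K) (Nat.add (Nat.mul al (wgt W K))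
    (Nat.mul be (Nat.mul e1 (wgt W1 K))))

/-- the weight of the second exchange rows of two roots -/
noncomputable def chkM2z (W W1 e1 al be : Nat) : Bool :=
  allK fun K => Nat.beq (D.T.wz K) (Nat.add (Nat.mul al (wgt W K))
    (Nat.mul be (Nat.mul e1 (wgt W1 K))))

/-- the second multipliers of the exchange of two roots vanish unless the new triple is acute -/
noncomputable def chkN2 (p : Nat) : Bool :=
  allN D.nt fun q => allL (D.T.E p q) fun x =>
    (orB (Nat.beq (Nat.mod x.a 4) 0) (Nat.beq (lk (D.T.mz 0 p) x.f) 0) &&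
      orB (Nat.beq (Nat.mod x.b 4) 0) (Nat.beq (lk (D.T.mz 1 p) x.f) 0)) &&
    (orB (Nat.beq (Nat.mod x.c 4) 0) (Nat.beq (lk (D.T.mz 2 p) x.f) 0) &&
    ((Nat.beq x.a (dg0 x.s) && Nat.beq x.b (dg1 x.s)) && Nat.beq x.c (dg2 x.s)))

/-- the multipliers of the row `k` of one root vanish unless the new triple is acute -/
noncomputable def chkLk (k : Nat) (kk : Fin 3) : Bool :=
  allN D.nt fun p => orB (Nat.beq (Nat.mod (xst kk (D.cd p)) 4) 0)
    (Nat.beq (nthL D.lamL (Nat.add (Nat.mul D.nk (D.orb p)) (lk (nthL D.rkL k) p))) 0)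

/-- the values of the row `k` of one root, for the exchange of the root `kk` -/
noncomputable def chkM3 (W W1 e1 a1 al' be' k : Nat) (kk : Fin 3) (p : Nat) : Bool :=
  Bool.rec (motive := fun _ => Bool) true
    (allN D.nt fun q => allL (D.T.E p q) fun x =>
      Nat.beq (Nat.add (D.T.ev k p x.f) (Nat.add (Nat.mul al' (wgt W (Nat.add 2048 (D.cd q))))
          (Nat.mul be' a1)))
        (Nat.add D.offe (Nat.add (Nat.mul al' (wgt W (xch kk (D.cd p) (D.cd q) x.s)))
          (Nat.mul be' (Nat.mul e1 (wgt W1 (xch kk (D.cd p) (D.cd q) x.s)))))))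
    (Nat.beq (Nat.mod (xst kk (D.cd p)) 4) 0)

variable {D} {tcs : List ℕ} {offa offb : ℕ}

theorem lamk_of (hn : D.nt = tcs.length) (hc : D.chkTc tcs = true) {k : ℕ} {kk : Fin 3}
    (hl : D.chkLk k kk = true) (p : ℕ) (hp : p < tcs.length)
    (hx : xst kk (tcs.getD p 0) % 4 ≠ 0) (j : ℕ) : D.T.lam k p j = 0 := by
  have hp' : p < D.nt := by rw [hn]; exact hp
  rw [cd_getD hc hp'] at hx
  have h1 := allN_iff.1 hl p hp'
  rw [orB_iff] at h1
  have h2 := h1.resolve_left fun h => hx (Nat.eq_of_beq_eq_true h)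
  have h3 := Nat.eq_of_beq_eq_true h2
  have e : D.T.lam k p j =
    lk (nthL D.lamL (Nat.add (Nat.mul D.nk (D.orb p)) (lk (nthL D.rkL k) p))) j := rfl
  rw [e, h3]
  unfold lk
  show (0 >>> _) % _ = 0
  rw [Nat.zero_shiftRight, Nat.zero_mod]

/-- **The rows of the certificate**, the coefficients of the rows of one root are `x`, `x'` for the
first three rows and `y`, `y'` for the others -/
theorem mix3_of (hT : D.TAB = Pool.Agent.AKG.TAB) (hn : D.nt = tcs.length)
    (hc : D.chkTc tcs = true)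
    (hrec : ∀ p < D.nt, chkRec D.T (fun p => lk D.tcP p) offa offb p = true)
    {W W1 e a b e1 a1 al be al2 be2 x x' y y' : ℕ}
    (h1 : D.chkM1 W W1 e a b e1 a1 al be al2 be2 = true)
    (h2 : D.chkM2w W W1 e1 al be = true) (h2z : D.chkM2z W W1 e1 al2 be2 = true)
    (hn2 : ∀ p < D.nt, D.chkN2 p = true)
    (hl : ∀ k < D.nk, D.chkLk k ⟨k % 3, Nat.mod_lt _ (by norm_num)⟩ = true)
    (he : ∀ k < D.nk, ∀ p < D.nt, D.chkM3 W W1 e1 a1 (cf x y k) (cf x' y' k) k
      ⟨k % 3, Nat.mod_lt _ (by norm_num)⟩ p = true) :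
    Mix3 D.T tcs (wgt W) (wgt W1) e a b e1 a1 al be al2 be2 (cf x y) (cf x' y') := by
  unfold chkM1 at h1
  rw [Bool.and_eq_true] at h1
  obtain ⟨h0, h1⟩ := h1
  have k1 : ∀ r < D.nt, (D.T.fp 0 r + a = D.T.fm 0 r + e * wgt W (2048 + D.cd r) ∧
      D.T.fp 1 r + e * wgt W (2048 + D.cd r) = D.T.fm 1 r + b) ∧
      (D.T.fp 2 r + e1 * wgt W1 (2048 + D.cd r) = D.T.fm 2 r + a1 ∧
      D.T.gm r = al * wgt W (2048 + D.cd r) + be * a1) ∧
      D.T.gz r = al2 * wgt W (2048 + D.cd r) + be2 * a1 := by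
    intro r hr
    have h3 := allN_iff.1 h1 r hr
    rw [Bool.and_eq_true, Bool.and_eq_true, Bool.and_eq_true, Bool.and_eq_true] at h3
    obtain ⟨⟨b1, b2⟩, ⟨b3, b4⟩, b5⟩ := h3
    exact ⟨⟨Nat.eq_of_beq_eq_true b1, Nat.eq_of_beq_eq_true b2⟩, ⟨Nat.eq_of_beq_eq_true b3,
      Nat.eq_of_beq_eq_true b4⟩, Nat.eq_of_beq_eq_true b5⟩
  refine
    { nj := Nat.eq_of_beq_eq_true h0
      f0 := ?_
      f1 := ?_
      f2 := ?_
      gm := ?_
      wv := fun K hK => Nat.eq_of_beq_eq_true (allK_iff h2 K hK)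
      gz := ?_
      wz := fun K hK => Nat.eq_of_beq_eq_true (allK_iff h2z K hK)
      n2 := ?_
      lam := ?_
      ev := ?_ }
  · intro r hr
    have := (k1 r hr).1.1
    rw [cd_getD hc hr]
    have h3 : (D.T.fp 0 r : ℤ) + a = D.T.fm 0 r + e * wgt W (2048 + D.cd r) := by
      exact_mod_cast this
    unfold Tb.FJ
    linarith
  · intro r hr
    have := (k1 r hr).1.2
    rw [cd_getD hc hr]
    have h3 : (D.T.fp 1 r : ℤ) + e * wgt W (2048 + D.cd r) = D.T.fm 1 r + b := by
      exact_mod_cast this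
    unfold Tb.FJ
    linarith
  · intro r hr
    have := (k1 r hr).2.1.1
    rw [cd_getD hc hr]
    have h3 : (D.T.fp 2 r : ℤ) + e1 * wgt W1 (2048 + D.cd r) = D.T.fm 2 r + a1 := by
      exact_mod_cast this
    unfold Tb.FJ
    linarith
  · intro r hr
    rw [cd_getD hc hr]
    exact (k1 r hr).2.1.2
  · intro r hr
    rw [cd_getD hc hr]
    exact (k1 r hr).2.2
  · intro p hp q hq s hs hv
    have hp' : p < D.nt := by rw [hn]; exact hp
    have hq' : q < D.nt := by rw [hn]; exact hq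
    obtain ⟨x, hx, rfl, e1, -, -⟩ := rec_sound D.hvp hrec hp' hq' hs hv
    have h1 := allL_iff.1 (allN_iff.1 (hn2 p hp') q hq') x hx
    simp only [Bool.and_eq_true, orB_iff, Nat.beq_eq] at h1
    obtain ⟨⟨a0, a1⟩, a2, ⟨b0, b1⟩, b2⟩ := h1
    unfold Tb.nn
    rw [← e1]
    rw [b0] at a0
    rw [b1] at a1
    rw [b2] at a2
    exact ⟨fun h => a0.resolve_left h, fun h => a1.resolve_left h, fun h => a2.resolve_left h⟩
  · intro k hk p hp hx j
    exact lamk_of hn hc (hl k hk) p hp hx j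
  · intro k hk p hp q hq s hs hv hx
    have h0 := he k hk
    set kk : Fin 3 := ⟨k % 3, Nat.mod_lt _ (by norm_num)⟩ with hkk'
    set u := cf x y k with hu
    set u' := cf x' y' k with hu'
    have hp' : p < D.nt := by rw [hn]; exact hp
    have hq' : q < D.nt := by rw [hn]; exact hq
    have hv' := vp_of hT hc hp' hq' hv
    rw [cd_getD hc hp', cd_getD hc hq'] at *
    obtain ⟨z, hz', rfl, g1, -, -⟩ := rec_sound D.hvp hrec hp' hq' hs hv'
    have h0 := h0 p hp'
    unfold chkM3 at h0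
    have h00 : Nat.beq (Nat.mod (xst kk (D.cd p)) 4) 0 = true := by
      rw [Nat.beq_eq]
      exact hx
    rw [h00] at h0
    have h1 := allL_iff.1 (allN_iff.1 h0 q hq') z hz'
    rw [Nat.beq_eq] at h1
    have h2 : D.T.ev k p z.f + (u * wgt W (2048 + D.cd q) + u' * a1) =
      D.offe + (u * wgt W (xch kk (D.cd p) (D.cd q) z.s) +
        u' * (e1 * wgt W1 (xch kk (D.cd p) (D.cd q) z.s))) := h1
    have h3 : (D.T.ev k p z.f : ℤ) + (u * wgt W (2048 + D.cd q) + u' * a1) =
      D.offe + (u * wgt W (xch kk (D.cd p) (D.cd q) z.s) +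
        u' * (e1 * wgt W1 (xch kk (D.cd p) (D.cd q) z.s))) := by exact_mod_cast h2
    unfold Tb.Ev
    rw [← g1]
    have g2 : D.T.offe = D.offe := rfl
    rw [g2]
    linear_combination h3

/-- **A strip under a condition on a second weight**, from a certificate -/
theorem btw_low3_of {W W1 e a b e1 a1 al be al2 be2 x x' y y' : ℕ} (hN : ∀ s0 s1, NB D.T s0 s1)
    (hM : Mix3 D.T tcs (wgt W) (wgt W1) e a b e1 a1 al be al2 be2 (cf x y) (cf x' y'))
    (hL : LinkT D.T tcs) : Dec fun S => Btw (wgt W) e a b S ∧ Low (wgt W1) e1 a1 S :=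
  strip_dec3 (C := 4096) (s0 := (x + y) * (2 * 4096) + (x' + y') * (4 * a1)) (fun s1 => hN _ s1)
    hM hL (wgt_le W) fun k _ => by
      have e1 : cf x y k ≤ x + y := by unfold cf; split_ifs <;> omega
      have e2 : cf x' y' k ≤ x' + y' := by unfold cf; split_ifs <;> omega
      exact Nat.add_le_add (Nat.mul_le_mul_right _ e1) (Nat.mul_le_mul_right _ e2)

end Dt

end Pool.Agent.AKZ
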