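import Pool.Agent.AKX.Vec
import Pool.Agent.AKZ.DatM3

set_option autoImplicit false

/-!
# The statements of the two libraries are the same
-/

namespace Pool.Agent.AKZ

open Pool.Agent.MP_0af329_co Pool.Agent

theorem dec_x {Q : Finset Pt → Prop} (h : Dec Q) : AKX.Dec Q := h

theorem wvf_x (P : ℕ) : AKX.wvf P = wgt P := rfl

/-- **A strip under a condition on a second weight** -/
theorem strip_x {W W1 e a b e1 a1 : ℕ}
    (h : Dec fun S => Btw (wgt W) e a b S ∧ Low (wgt W1) e1 a1 S) :
    AKX.Dec fun S => AKX.Btw (AKX.wvf W) e a b S ∧ AKX.Low (AKX.wvf W1) e1 a1 S := h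

end Pool.Agent.AKZ
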