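import Pool.Agent.AKZ.DatI
import Pool.Agent.AKZ.DatL

set_option autoImplicit false

/-!
# The checks over all codes of four points, in two levels
-/

namespace Pool.Agent.AKZ

open Finset Pool.Agent.AKU

/-- all numbers below `4096`, in two levels -/
noncomputable def all64 (g : Nat → Bool) : Bool :=
  allN 64 fun a => allN 64 fun b => g (Nat.add (Nat.mul 64 a) b)

theorem all64_sound {g : Nat → Bool} (h : all64 g = true) : allN 4096 g = true := by
  rw [allN_iff]
  intro K hK
  have h1 := allN_iff.1 (allN_iff.1 h (K / 64) (by omega)) (K % 64) (Nat.mod_lt _ (by norm_num))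
  have e : Nat.add (Nat.mul 64 (K / 64)) (K % 64) = K := by
    show 64 * (K / 64) + K % 64 = K
    omega
  rwa [e] at h1

/-- a part of the numbers below `4096`: those with the quotient by `64` in the list -/
noncomputable def allP (g : Nat → Bool) (l : List Nat) : Bool :=
  allM l fun a => allN 64 fun b => g (Nat.add (Nat.mul 64 a) b)

theorem allP_sound {g : Nat → Bool} (h : ∀ a < 64, ∃ l, allP g l = true ∧ a ∈ l) :
    allN 4096 g = true := by
  rw [allN_iff]
  intro K hK
  obtain ⟨l, h1, h2⟩ := h (K / 64) (by omega)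
  have h3 := allN_iff.1 (allM_iff.1 h1 (K / 64) h2) (K % 64) (Nat.mod_lt _ (by norm_num))
  have e : Nat.add (Nat.mul 64 (K / 64)) (K % 64) = K := by
    show 64 * (K / 64) + K % 64 = K
    omega
  rwa [e] at h3

/-- the table of the weights is right, in two levels -/
noncomputable def chkWt64 (T : Tb) : Bool :=
  all64 fun K => (Nat.ble (T.wv K + 1) 4096 && Nat.ble (T.wz K + 1) 4096) &&
    Bool.rec (motive := fun _ => Bool) true
    (Nat.beq (Nat.land (Nat.shiftRight T.wt (Nat.mul 384 K)) MK)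
      (T.wz K + T.wz (p23 K) * XX + T.wz (p31 K) * XX ^ 2 + T.wv K * XX ^ 3 +
        T.wv (p23 K) * XX ^ 4 + T.wv (p31 K) * XX ^ 5) &&
      (Nat.beq (T.wv (q23 K)) (T.wv K) && Nat.beq (T.wz (q23 K)) (T.wz K)))
    (tb T.TAB K)

theorem chkWt_of {T : Tb} (h : chkWt64 T = true) : chkWt T = true := all64_sound h

/-- the small tables of the symmetry, in two levels -/
noncomputable def invS64 (T : Tb) (g : Sy) : Bool :=
  (allN 8 fun d => (Nat.ble (g.sp d + 1) 8 && Nat.beq (na (g.sp d)) (na d)) &&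
    (Nat.beq (g.sp (rvd d)) (rvd (g.sp d)) && Nat.beq (g.sp (rot d)) (rot (g.sp d)))) &&
  ((all64 fun K => Bool.rec (motive := fun _ => Bool) true
    (tb T.TAB (g.sk K) && (Nat.beq (T.wv (g.sk K)) (T.wv K) && Nat.beq (T.wz (g.sk K)) (T.wz K)))
    (tb T.TAB K)) &&
  (allN T.nt fun p => ((Nat.ble (g.tp p + 1) T.nt && Nat.beq (T.mu (g.tp p)) (T.mu p)) &&
    ((Nat.beq (T.gm (g.tp p)) (T.gm p) && Nat.beq (T.gz (g.tp p)) (T.gz p)) &&
      Nat.beq (T.nu 0 (g.tp p)) (T.nu (g.rk 0) p))) &&
    ((allN T.nj fun j => Nat.beq (Nat.add (T.fp (g.jk j) (g.tp p)) (T.fm j p))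
      (Nat.add (T.fp j p) (T.fm (g.jk j) (g.tp p)))) && (Nat.beq (T.nu 1 (g.tp p)) (T.nu (g.rk 1) p) && Nat.beq (T.nu 2 (g.tp p)) (T.nu (g.rk 2) p)) &&
    (allN T.nt fun q => Nat.beq (T.q0 (g.tp p) (g.tp q)) (T.q0 p q)))))

theorem invS_of {T : Tb} {g : Sy} (h : invS64 T g = true) : invS T g = true := by
  unfold invS64 at h
  rw [Bool.and_eq_true, Bool.and_eq_true] at h
  obtain ⟨h1, h2, h3⟩ := h
  unfold invS
  rw [Bool.and_eq_true, Bool.and_eq_true]
  exact ⟨h1, all64_sound h2, h3⟩

namespace Dt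

/-- the weights of the codes do not depend on the order of the roots, in two levels -/
noncomputable def chkWv64 (D : Dt) : Bool :=
  all64 fun K => Bool.rec (motive := fun _ => Bool) true
    (Nat.beq (D.T.wv (AKG.cs12 K)) (D.T.wv K) && Nat.beq (D.T.wv (AKG.cs23 K)) (D.T.wv K)) (tb D.TAB K)

theorem chkWv_of {D : Dt} (h : D.chkWv64 = true) : D.chkWv = true := all64_sound h

end Dt

/-- all types are in the list, in two levels -/
noncomputable def chkTy64 (TB : Nat) (tcs : List Nat) : Bool :=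
  allN 8 fun a => allN 64 fun b => Bool.rec (motive := fun _ => Bool) true
    (memN tcs (Nat.add (Nat.mul 64 a) b)) (tb TB (Nat.add 2048 (Nat.add (Nat.mul 64 a) b)))

theorem chkTy_of {TB : Nat} {tcs : List Nat} (h : chkTy64 TB tcs = true) : chkTy TB tcs = true := by
  unfold chkTy
  rw [allN_iff]
  intro K hK
  have h1 := allN_iff.1 (allN_iff.1 h (K / 64) (by omega)) (K % 64) (Nat.mod_lt _ (by norm_num))
  have e : Nat.add (Nat.mul 64 (K / 64)) (K % 64) = K := by
    show 64 * (K / 64) + K % 64 = K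
    omega
  rw [e] at h1
  exact h1

end Pool.Agent.AKZ
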