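import Pool.Agent.AKZ.Rec
import Pool.Agent.AKO.Root

set_option autoImplicit false

/-!
# From a checked certificate with rows at pairs to the bound
-/

namespace Pool.Agent.AKZ

open Finset Classical Pool.Agent.AKO Pool.Agent.AKU Pool.Agent.MP_0af329_co Pool.Agent.AK

section cert

variable {ι R : Type*} [Fintype ι] [Fintype R]

/-- **Rooted certificate**, the part `T` only has a total almost nonnegative -/
theorem cert_boundX (c lam η M B ET U : ℝ) (rt : R → ι) (N : ι → ι → ι → ℝ) (u : ι → ℝ)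
    (w : R → ι → ℝ) (P : ι → ι → ℝ) (T : ι → ι → ι → ℝ) (E : Finset (ι × ι × ι))
    (hη : 0 ≤ η) (hlam : lam ≤ c)
    (hdeg : ∀ v, |∑ p, ∑ q, N v p q - lam * (Fintype.card ι : ℝ) ^ 2| ≤
      η * (Fintype.card ι : ℝ) ^ 2)
    (hlow : (Fintype.card ι : ℝ) ^ 3 + U ≤ (Fintype.card ι : ℝ) ^ 2 * ∑ y, (u y + ∑ r, w r y))
    (hup : ∀ y, |u y| + ∑ r, |w r y| ≤ M)
    (hP : 0 ≤ ∑ a, ∑ b, P a b)
    (hT : -ET - (c - lam) * U ≤ ∑ a, ∑ b, ∑ d, T a b d)
    (hE : ∀ a b d, (a, b, d) ∉ E → sym3 (GG c rt N u w P T) a b d ≤ 0)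
    (hB : ∀ a b d, (a, b, d) ∈ E → sym3 (GG c rt N u w P T) a b d ≤ B) :
    (c - lam) * (Fintype.card ι : ℝ) ^ 3 ≤
      M * η * (Fintype.card ι : ℝ) ^ 3 + ET + B * (E.card : ℝ) / 6 := by
  set n : ℝ := (Fintype.card ι : ℝ) with hn
  have hn0 : 0 ≤ n := Nat.cast_nonneg _
  -- upper bound
  have hup' : ∑ a, ∑ b, ∑ d, sym3 (GG c rt N u w P T) a b d ≤ B * (E.card : ℝ) := by
    have h1 : ∑ a, ∑ b, ∑ d, sym3 (GG c rt N u w P T) a b d =
        ∑ t : ι × ι × ι, sym3 (GG c rt N u w P T) t.1 t.2.1 t.2.2 := by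
      rw [Fintype.sum_prod_type]
      refine sum_congr rfl fun a _ => ?_
      rw [Fintype.sum_prod_type]
    rw [h1]
    have h2 : ∀ t : ι × ι × ι, sym3 (GG c rt N u w P T) t.1 t.2.1 t.2.2 ≤
        if t ∈ E then B else 0 := by
      rintro ⟨a, b, d⟩
      split_ifs with h
      · exact hB a b d h
      · exact hE a b d h
    refine (sum_le_sum fun t _ => h2 t).trans (le_of_eq ?_)
    rw [sum_ite_mem, univ_inter, sum_const, nsmul_eq_mul]
    ring
  -- lower bound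
  have hlow' : ((c - lam) - M * η) * n ^ 3 - ET ≤
      ∑ a, ∑ b, ∑ d, GG c rt N u w P T a b d := by
    have hN : ∀ v, ∑ b : ι, ∑ d : ι, (c - N v b d) = c * n ^ 2 - ∑ b, ∑ d, N v b d := by
      intro v
      simp only [sum_sub_distrib, sum_const, card_univ, nsmul_eq_mul]
      rw [← hn]
      ring
    have h1 : ∀ a, ∑ b, ∑ d, GG c rt N u w P T a b d =
        u a * (c * n ^ 2 - ∑ b, ∑ d, N a b d) +
        ∑ r, w r a * (c * n ^ 2 - ∑ b, ∑ d, N (rt r) b d) + n * ∑ b, P a b +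
        ∑ b, ∑ d, T a b d := by
      intro a
      unfold GG
      simp only [sum_add_distrib]
      congr 1
      congr 1
      · congr 1
        · rw [← hN, mul_sum]
          exact sum_congr rfl fun b _ => by rw [mul_sum]
        · have : ∀ b : ι, ∑ d : ι, ∑ r, w r a * (c - N (rt r) b d) =
              ∑ r, ∑ d : ι, w r a * (c - N (rt r) b d) := fun b => sum_comm
          rw [sum_congr rfl fun b _ => this b, sum_comm]
          refine sum_congr rfl fun r _ => ?_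
          rw [← hN, mul_sum]
          exact sum_congr rfl fun b _ => by rw [mul_sum]
      · rw [mul_sum]
        refine sum_congr rfl fun b _ => ?_
        rw [sum_const, card_univ, nsmul_eq_mul]
    have h2 : ∀ a, ((u a + ∑ r, w r a) * ((c - lam) * n ^ 2) - M * η * n ^ 2) +
        n * ∑ b, P a b + ∑ b, ∑ d, T a b d ≤ ∑ b, ∑ d, GG c rt N u w P T a b d := by
      intro a
      rw [h1 a]
      have k1 : ∀ (z : ℝ) (v : ι), z * (c - lam) * n ^ 2 - |z| * (η * n ^ 2) ≤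
          z * (c * n ^ 2 - ∑ b, ∑ d, N v b d) := by
        intro z v
        have e1 : z * (c * n ^ 2 - ∑ b, ∑ d, N v b d) = z * (c - lam) * n ^ 2 -
            z * (∑ b, ∑ d, N v b d - lam * n ^ 2) := by ring
        have e2 : z * (∑ b, ∑ d, N v b d - lam * n ^ 2) ≤ |z| * (η * n ^ 2) := by
          refine (le_abs_self _).trans ?_
          rw [abs_mul]
          exact mul_le_mul_of_nonneg_left (hdeg v) (abs_nonneg _)
        rw [e1]
        linarith
      have k2 := k1 (u a) a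
      have k3 : ∑ r, (w r a * (c - lam) * n ^ 2 - |w r a| * (η * n ^ 2)) ≤
          ∑ r, w r a * (c * n ^ 2 - ∑ b, ∑ d, N (rt r) b d) :=
        sum_le_sum fun r _ => k1 (w r a) (rt r)
      rw [sum_sub_distrib, ← sum_mul, ← sum_mul, ← sum_mul] at k3
      have k6 : (|u a| + ∑ r, |w r a|) * (η * n ^ 2) ≤ M * (η * n ^ 2) :=
        mul_le_mul_of_nonneg_right (hup a) (mul_nonneg hη (sq_nonneg n))
      nlinarith
    have h3 := sum_le_sum fun a (_ : a ∈ (univ : Finset ι)) => h2 a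
    rw [sum_add_distrib, sum_add_distrib, sum_sub_distrib, sum_const, card_univ, nsmul_eq_mul,
      ← hn, ← mul_sum, ← sum_mul] at h3
    have h4 : 0 ≤ n * ∑ a, ∑ b, P a b := mul_nonneg hn0 hP
    have h5 : (c - lam) * (n ^ 3 + U) ≤ (∑ a, (u a + ∑ r, w r a)) * ((c - lam) * n ^ 2) := by
      have := mul_le_mul_of_nonneg_left hlow (by linarith : (0 : ℝ) ≤ c - lam)
      refine this.trans (le_of_eq ?_)
      ring
    have e : n * (M * η * n ^ 2) = M * η * n ^ 3 := by ring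
    have e2 : ((c - lam) - M * η) * n ^ 3 = (c - lam) * n ^ 3 - M * η * n ^ 3 := by ring
    have e3 : (c - lam) * (n ^ 3 + U) = (c - lam) * n ^ 3 + (c - lam) * U := by ring
    rw [e] at h3
    rw [e2]
    linarith
  rw [sum_sym3] at hup'
  have e : ((c - lam) - M * η) * n ^ 3 = (c - lam) * n ^ 3 - M * η * n ^ 3 := by ring
  rw [e] at hlow'
  linarith

end cert

/-- the free points -/
def Free {ι : Type*} (rt : Fin 3 → ι) : Set ι := {x | ∀ k, x ≠ rt k}

/-- what is checked in the kernel about a certificate -/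
structure Good (T : Tb) (G : List Sy) (K : ℝ) : Prop where
  flt : ∀ p < T.nt, ∀ q < T.nt, ∀ s < 512, T.vp p q s = true → T.fl p q s < T.nb p
  spl : T.Spl
  q0c : ∀ p q, T.Q0 p q = T.Q0 q p
  qtc : ∀ p i j, T.Qt p i j = T.Qt p j i
  usym : T.USym
  msym : T.MSym
  wsym : T.WSym
  inv : ∀ g ∈ G, T.Inv g
  key : ∀ p q r A B C d, p ≤ q → q ≤ r → r < T.nt → can G p q r = true → A < 512 → B < 512 →
      C < 512 → T.vp p q A = true → T.vp p r B = true → T.vp q r C = true → d < 8 →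
      T.tst A B C d = true → T.VX p q r A B C d ≤ 0
  psd0 : ∀ (ι : Type) [Fintype ι] (f : ι → ℕ), 0 ≤ ∑ y, ∑ y', T.Q0 (f y) (f y')
  psdt : ∀ (ι : Type) [Fintype ι] (p : ℕ) (f : ι → ℕ), 0 ≤ ∑ y, ∑ y', T.Qt p (f y) (f y')
  K0 : 0 < K

theorem Nf_01 (S : Finset Pt) (v p q : S) : Nf S v p q = 0 ∨ Nf S v p q = 1 := by
  unfold Nf
  split_ifs
  · exact Or.inr rfl
  · exact Or.inl rfl

theorem Nf_abs (S : Finset Pt) (v p q : S) : |(4 / 9 : ℝ) - Nf S v p q| ≤ 1 := by
  rcases Nf_01 S v p q with h | h <;> rw [h] <;> norm_num [abs_le]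

/-! ### bounds -/

theorem bd1 (n : ℕ) (f : ℕ → ℝ) : ∃ B : ℝ, 0 ≤ B ∧ ∀ p < n, |f p| ≤ B :=
  ⟨∑ p ∈ range n, |f p|, sum_nonneg fun _ _ => abs_nonneg _, fun _ hp =>
    single_le_sum (f := fun p => |f p|) (fun _ _ => abs_nonneg _) (mem_range.2 hp)⟩

theorem bd2 (n : ℕ) (m : ℕ → ℕ) (f : ℕ → ℕ → ℝ) :
    ∃ B : ℝ, 0 ≤ B ∧ ∀ p < n, ∀ i < m p, |f p i| ≤ B := by
  choose b h0 h1 using fun p => bd1 (m p) (f p)
  obtain ⟨B, hB0, hB⟩ := bd1 n b
  refine ⟨B, hB0, fun p hp i hi => (h1 p i hi).trans ?_⟩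
  exact (le_abs_self _).trans (hB p hp)

theorem bd3 (n : ℕ) (m k : ℕ → ℕ) (f : ℕ → ℕ → ℕ → ℝ) :
    ∃ B : ℝ, 0 ≤ B ∧ ∀ p < n, ∀ i < m p, ∀ j < k p, |f p i j| ≤ B := by
  choose b h0 h1 using fun p => bd2 (m p) (fun _ => k p) (f p)
  obtain ⟨B, hB0, hB⟩ := bd1 n b
  refine ⟨B, hB0, fun p hp i hi j hj => (h1 p i hi j hj).trans ?_⟩
  exact (le_abs_self _).trans (hB p hp)

section rows

variable {T : Tb} {K : ℝ}
variable {ι : Type*} (rt : Fin 3 → ι) (τ : ι → ℕ) (c : ι → ι → ℕ) (d : ι → ι → ι → ℕ)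

/-- flag of `y` seen from `x` -/
noncomputable def fg (T : Tb) (τ : ι → ℕ) (c : ι → ι → ℕ) (x y : ι) : ℕ :=
  T.fl (τ x) (τ y) (c x y)

/-- multiplier, zero at the exceptional points -/
noncomputable def laX (T : Tb) (k : ℕ) (x z : ι) : ℤ :=
  if z ∈ Free rt ∧ z ≠ x then (T.lam k (τ x) (fg T τ c x z) : ℤ) else 0

/-- value of the row, `-s0` at the exceptional points -/
noncomputable def exX (T : Tb) (s0 : ℕ) (k : ℕ) (x y : ι) : ℤ :=
  if y ∈ Free rt ∧ y ≠ x then T.Ev k (τ x) (fg T τ c x y) else -(s0 : ℤ)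

/-- value of the row, zero at the exceptional points -/
noncomputable def exS (T : Tb) (k : ℕ) (x y : ι) : ℤ :=
  if y ∈ Free rt ∧ y ≠ x then T.Ev k (τ x) (fg T τ c x y) else 0

/-- the part with nonnegative sums (times `K`) -/
noncomputable def TX (T : Tb) (s0 : ℕ) (x y z : ι) : ℤ :=
  if x ∈ Free rt then T.Qt (τ x) (fg T τ c x y) (fg T τ c x z) -
    2 * ∑ k ∈ range T.nk, laX rt τ c T k x z * exX rt τ c T s0 k x y else 0

/-- the rows at a pair, zero at the exceptional points -/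
noncomputable def pS (T : Tb) (x y z : ι) : ℤ :=
  if z ∈ Free rt ∧ z ≠ x ∧ z ≠ y then T.PF τ c d x y z else 0

/-- the rows at a pair -/
noncomputable def pX (T : Tb) (s1 : ℕ) (x y z : ι) : ℤ :=
  if x ∈ Free rt ∧ y ∈ Free rt ∧ x ≠ y then
    (if z ∈ Free rt ∧ z ≠ x ∧ z ≠ y then T.PF τ c d x y z else (s1 : ℤ)) else 0

/-- the subset rows -/
noncomputable def uX (T : Tb) (x y z : ι) : ℤ :=
  if (x ∈ Free rt ∧ y ∈ Free rt ∧ z ∈ Free rt) ∧ x ≠ y ∧ y ≠ z ∧ x ≠ z then
    T.u3 (τ x) (τ y) (τ z) * ((T.ld : ℤ) * na (d x y z) - T.ln) else 0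

variable {rt τ c d} {G : List Sy}

/-- the flags of the free points are in range -/
theorem fg_lt (hG : Good T G K) (hC : T.Cf T.nt τ c d (Free rt)) {x y : ι} (hx : x ∈ Free rt)
    (hy : y ∈ Free rt) (hxy : x ≠ y) : fg T τ c x y < T.nb (τ x) :=
  hG.flt _ (hC.ty x hx) _ (hC.ty y hy) _ (hC.lt x hx y hy hxy) (hC.vp x hx y hy hxy)

theorem TX_free {s0 : ℕ} (hG : Good T G K) (hC : T.Cf T.nt τ c d (Free rt)) {x y z : ι}
    (hx : x ∈ Free rt) (hy : y ∈ Free rt) (hz : z ∈ Free rt) (hxy : x ≠ y) (hxz : x ≠ z) :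
    TX rt τ c T s0 x y z =
      T.Qt (τ x) (T.fl (τ x) (τ y) (c x y)) (T.fl (τ x) (τ z) (c x z)) +
        2 * T.XO (τ x) (T.fl (τ x) (τ y) (c x y)) (T.fl (τ x) (τ z) (c x z)) := by
  have f1 := fg_lt hG hC hx hy hxy
  have f2 := fg_lt hG hC hx hz hxz
  unfold fg at f1 f2
  unfold TX laX exX Tb.XO
  rw [if_pos hx, if_pos ⟨f1, f2⟩]
  have e : ∀ k ∈ range T.nk,
      ((if z ∈ Free rt ∧ z ≠ x then (T.lam k (τ x) (fg T τ c x z) : ℤ) else 0) *
      (if y ∈ Free rt ∧ y ≠ x then T.Ev k (τ x) (fg T τ c x y) else -(s0 : ℤ))) =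
      (T.lam k (τ x) (T.fl (τ x) (τ z) (c x z)) : ℤ) *
        T.Ev k (τ x) (T.fl (τ x) (τ y) (c x y)) := by
    intro k _
    rw [if_pos ⟨hz, hxz.symm⟩, if_pos ⟨hy, hxy.symm⟩]
    rfl
  rw [sum_congr rfl e]
  unfold fg
  ring

theorem TX_sum {s0 : ℕ} (hG : Good T G K) {ι : Type} [Fintype ι] {rt : Fin 3 → ι} {τ : ι → ℕ}
    {c : ι → ι → ℕ} {x : ι}
    (hex : x ∈ Free rt → ∀ k < T.nk, (∃ j, T.lam k (τ x) j ≠ 0) →
      ∑ y, exS rt τ c T k x y ≤ (s0 : ℤ)) :
    0 ≤ ∑ y, ∑ z, TX rt τ c T s0 x y z := by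
  unfold TX
  by_cases hx : x ∈ Free rt
  · simp only [if_pos hx, sum_sub_distrib, ← mul_sum]
    have k1 := hG.psdt ι (τ x) (fun y => fg T τ c x y)
    have k2 : ∀ k, ∑ y, ∑ z, laX rt τ c T k x z * exX rt τ c T s0 k x y =
        (∑ z, laX rt τ c T k x z) * ∑ y, exX rt τ c T s0 k x y := by
      intro k
      rw [sum_comm, sum_mul_sum]
    have k4 : ∀ k < T.nk, (∑ z, laX rt τ c T k x z) * ∑ y, exX rt τ c T s0 k x y ≤ 0 := by
      intro k hk
      have l0 : ∀ y, 0 ≤ laX rt τ c T k x y := by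
        intro y
        unfold laX
        split_ifs
        · exact Int.natCast_nonneg _
        · exact le_refl _
      by_cases hne : ∃ j, T.lam k (τ x) j ≠ 0
      · have h1 := hex hx k hk hne
        have h2 : ∑ z, exX rt τ c T s0 k x z = (∑ y, exS rt τ c T k x y) -
            ∑ y, if y ∈ Free rt ∧ y ≠ x then 0 else (s0 : ℤ) := by
          rw [← sum_sub_distrib]
          refine sum_congr rfl fun y _ => ?_
          unfold exX exS
          split_ifs <;> ring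
        have h3 : (s0 : ℤ) ≤ ∑ y, if y ∈ Free rt ∧ y ≠ x then 0 else (s0 : ℤ) := by
          have h4 := single_le_sum (f := fun y => if y ∈ Free rt ∧ y ≠ x then 0 else (s0 : ℤ))
            (fun y _ => by split_ifs; exacts [le_refl _, Int.natCast_nonneg _]) (mem_univ x)
          have h5 : (if x ∈ Free rt ∧ x ≠ x then 0 else (s0 : ℤ)) = s0 := if_neg (fun h => h.2 rfl)
          rw [h5] at h4
          exact h4
        exact mul_nonpos_of_nonneg_of_nonpos (sum_nonneg fun y _ => l0 y)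
          (by rw [h2]; linarith)
      · push Not at hne
        have h1 : ∑ y, laX rt τ c T k x y = 0 := by
          refine sum_eq_zero fun y _ => ?_
          unfold laX
          rw [hne]
          simp
        rw [h1, zero_mul]
    have k6 : ∑ y, ∑ z, ∑ k ∈ range T.nk, laX rt τ c T k x z * exX rt τ c T s0 k x y ≤ 0 := by
      have e : ∑ y, ∑ z, ∑ k ∈ range T.nk, laX rt τ c T k x z * exX rt τ c T s0 k x y =
          ∑ k ∈ range T.nk, ∑ y, ∑ z, laX rt τ c T k x z * exX rt τ c T s0 k x y := by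
        rw [sum_congr rfl fun y _ => sum_comm (s := univ) (t := range T.nk), sum_comm]
      rw [e]
      refine sum_nonpos fun k hk => ?_
      rw [k2]
      exact k4 k (mem_range.1 hk)
    linarith
  · simp only [if_neg hx, sum_const_zero, le_refl]

theorem pX_sum {s1 : ℕ} {ι : Type*} [Fintype ι] {rt : Fin 3 → ι} {τ : ι → ℕ}
    {c : ι → ι → ℕ} {d : ι → ι → ι → ℕ} {x y : ι}
    (hpx : x ∈ Free rt → y ∈ Free rt → x ≠ y → -(s1 : ℤ) ≤ ∑ z, pS rt τ c d T x y z) :
    0 ≤ ∑ z, pX rt τ c d T s1 x y z := by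
  unfold pX
  by_cases h : x ∈ Free rt ∧ y ∈ Free rt ∧ x ≠ y
  · simp only [if_pos h]
    have h1 := hpx h.1 h.2.1 h.2.2
    have h2 : ∑ z, (if z ∈ Free rt ∧ z ≠ x ∧ z ≠ y then T.PF τ c d x y z else (s1 : ℤ)) =
        ∑ z, pS rt τ c d T x y z +
          ∑ z, (if z ∈ Free rt ∧ z ≠ x ∧ z ≠ y then 0 else (s1 : ℤ)) := by
      rw [← sum_add_distrib]
      refine sum_congr rfl fun z _ => ?_
      unfold pS
      split_ifs <;> ring
    have h3 : (s1 : ℤ) ≤ ∑ z, (if z ∈ Free rt ∧ z ≠ x ∧ z ≠ y then 0 else (s1 : ℤ)) := by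
      have h4 := single_le_sum
        (f := fun z => if z ∈ Free rt ∧ z ≠ x ∧ z ≠ y then 0 else (s1 : ℤ))
        (fun z _ => by split_ifs; exacts [le_refl _, Int.natCast_nonneg _]) (mem_univ x)
      have h5 : (if x ∈ Free rt ∧ x ≠ x ∧ x ≠ y then 0 else (s1 : ℤ)) = s1 :=
        if_neg (fun h => h.2.1 rfl)
      rw [h5] at h4
      exact h4
    rw [h2]
    linarith
  · simp only [if_neg h, sum_const_zero, le_refl]

end rows

variable {T : Tb} {G : List Sy} {K : ℝ}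

/-- bounds of the parts -/
theorem parts_bd (hG : Good T G K) (s0 s1 : ℕ) : ∃ B : ℝ, 0 ≤ B ∧
    ∀ (ι : Type) [Fintype ι] (rt : Fin 3 → ι) (τ : ι → ℕ) (c : ι → ι → ℕ)
      (d : ι → ι → ι → ℕ), T.Cf T.nt τ c d (Free rt) →
      (∀ x ∈ Free rt, 9 * (|(T.Mu (τ x) : ℝ)| + (|(T.Nu 0 (τ x) : ℝ)| + |(T.Nu 1 (τ x) : ℝ)| +
        |(T.Nu 2 (τ x) : ℝ)|)) ≤ B) ∧ (∀ p q, |(T.Q0 p q : ℝ)| ≤ B) ∧
      (∀ x y z, |(TX rt τ c T s0 x y z : ℝ)| ≤ B) ∧
      (∀ x y z, |(pX rt τ c d T s1 x y z : ℝ)| ≤ B) ∧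
      (∀ x y z, |(uX rt τ d T x y z : ℝ)| ≤ B) := by
  obtain ⟨B1, h10, h1⟩ := bd1 T.nt (fun p => 9 * (|(T.Mu p : ℝ)| + (|(T.Nu 0 p : ℝ)| +
    |(T.Nu 1 p : ℝ)| + |(T.Nu 2 p : ℝ)|)))
  obtain ⟨B2, h20, h2⟩ := bd2 T.nt (fun _ => T.nt) (fun p q => (T.Q0 p q : ℝ))
  obtain ⟨B3, h30, h3⟩ := bd3 T.nt T.nb T.nb (fun p i j => (T.Qt p i j : ℝ))
  obtain ⟨B4, h40, h4⟩ := bd3 T.nt (fun _ => T.nk) T.nb (fun p k j => ((T.lam k p j : ℤ) : ℝ))
  obtain ⟨B5, h50, h5⟩ := bd3 T.nt (fun _ => T.nk) T.nb (fun p k j => (T.Ev k p j : ℝ))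
  -- the rows at pairs
  obtain ⟨B6, h60, h6⟩ := bd3 T.nt (fun _ => T.nt) (fun _ => 512) (fun p q s =>
    (∑ j ∈ range T.nj, (T.oo j p q s : ℝ)) + (T.mm 0 p q s + T.mm 1 p q s + T.mm 2 p q s) +
      (T.nn 0 p q s + T.nn 1 p q s + T.nn 2 p q s))
  obtain ⟨BF, hF0, hF⟩ := bd2 T.nj (fun _ => T.nt) (fun j r => (T.FJ j r : ℝ))
  obtain ⟨B7, h70, h7⟩ := bd1 T.nt (fun p => (T.gm p : ℝ))
  obtain ⟨B8, h80, h8⟩ := bd1 4096 (fun p => (T.wv p : ℝ))
  obtain ⟨Bg, hg0, hgz⟩ := bd1 T.nt (fun p => (T.gz p : ℝ))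
  obtain ⟨Bw, hw0, hwz⟩ := bd1 4096 (fun p => (T.wz p : ℝ))
  obtain ⟨B9, h90, h9⟩ := bd3 T.nt (fun _ => T.nt) (fun _ => T.nt) (fun p q r =>
    (T.u3 p q r : ℝ))
  set C1 : ℝ := B3 + 2 * (T.nk * (B4 * (B5 + s0))) with hC1
  set C2 : ℝ := B6 * (BF + B7 + B8 + (Bg + Bw)) + s1 with hC2
  set C3 : ℝ := B9 * ((T.ld : ℝ) + T.ln) with hC3
  have hs0 : (0 : ℝ) ≤ s0 := Nat.cast_nonneg _
  have hs1 : (0 : ℝ) ≤ s1 := Nat.cast_nonneg _
  have hC10 : 0 ≤ C1 := by positivity
  have hC20 : 0 ≤ C2 := by positivity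
  have hC30 : 0 ≤ C3 := by positivity
  refine ⟨B1 + B2 + C1 + C2 + C3, by positivity, ?_⟩
  intro ι _ rt τ c d hC
  refine ⟨?_, ?_, ?_, ?_, ?_⟩
  · intro x hx
    have := (le_abs_self _).trans (h1 _ (hC.ty x hx))
    linarith
  · intro p q
    by_cases h : p < T.nt ∧ q < T.nt
    · have := h2 p h.1 q h.2
      linarith
    · unfold Tb.Q0
      rw [if_neg h, Int.cast_zero, abs_zero]
      positivity
  · intro x y z
    have hgoal : |(TX rt τ c T s0 x y z : ℝ)| ≤ C1 := by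
      unfold TX
      split_ifs with hx
      · have t1 : |(T.Qt (τ x) (fg T τ c x y) (fg T τ c x z) : ℝ)| ≤ B3 := by
          by_cases h : fg T τ c x y < T.nb (τ x) ∧ fg T τ c x z < T.nb (τ x)
          · exact h3 _ (hC.ty x hx) _ h.1 _ h.2
          · unfold Tb.Qt Tb.Mt Tb.XO
            rw [if_neg h, if_neg h, if_neg (fun h' => h ⟨h'.2, h'.1⟩)]
            norm_num
            exact h30
        have l1 : ∀ k < T.nk, |((laX rt τ c T k x z : ℤ) : ℝ)| ≤ B4 := by
          intro k hk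
          unfold laX
          split_ifs with hz
          · exact h4 _ (hC.ty x hx) k hk _ (fg_lt hG hC hx hz.1 hz.2.symm)
          · rw [Int.cast_zero, abs_zero]; exact h40
        have l2 : ∀ k < T.nk, |((exX rt τ c T s0 k x y : ℤ) : ℝ)| ≤ B5 + s0 := by
          intro k hk
          unfold exX
          split_ifs with hy
          · have := h5 _ (hC.ty x hx) k hk _ (fg_lt hG hC hx hy.1 hy.2.symm)
            linarith
          · push_cast
            rw [abs_neg, abs_of_nonneg hs0]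
            linarith
        have l7 : |((∑ k ∈ range T.nk, laX rt τ c T k x z * exX rt τ c T s0 k x y : ℤ) : ℝ)| ≤
            T.nk * (B4 * (B5 + s0)) := by
          push_cast
          refine (abs_sum_le_sum_abs _ _).trans ?_
          have : ∀ k ∈ range T.nk, |((laX rt τ c T k x z : ℤ) : ℝ) *
              ((exX rt τ c T s0 k x y : ℤ) : ℝ)| ≤ B4 * (B5 + s0) := by
            intro k hk
            rw [abs_mul]
            exact mul_le_mul (l1 k (mem_range.1 hk)) (l2 k (mem_range.1 hk)) (abs_nonneg _) h40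
          refine (sum_le_sum this).trans (le_of_eq ?_)
          rw [sum_const, card_range, nsmul_eq_mul]
        rw [Int.cast_sub, Int.cast_mul]
        refine (abs_sub _ _).trans ?_
        rw [abs_mul]
        have e2 : |((2 : ℤ) : ℝ)| = 2 := by norm_num
        rw [e2]
        linarith
      · rw [Int.cast_zero, abs_zero]
        exact hC10
    linarith
  · intro x y z
    have hgoal : |(pX rt τ c d T s1 x y z : ℝ)| ≤ C2 := by
      unfold pX
      split_ifs with hxy hz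
      · obtain ⟨hx, hy, hne⟩ := hxy
        have p1 := hC.ty x hx
        have p2 := hC.ty y hy
        have p3 := hC.ty z hz.1
        have hd := hC.dlt x hx y hy z hz.1 hne hz.2.2.symm hz.2.1.symm
        have g6 := h6 _ p1 _ p2 _ (hC.lt x hx y hy hne)
        have g7 := h7 _ p3
        have g8 := hgz _ p3
        obtain ⟨a8, b8, c8⟩ := dg_lt (c x y)
        obtain ⟨a8', b8', c8'⟩ := dg_lt (c x z)
        obtain ⟨a8'', b8'', c8''⟩ := dg_lt (c y z)
        have w0 := h8 (512 * dg0 (c x y) + 64 * dg0 (c x z) + 8 * dg0 (c y z) + d x y z) (by omega)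
        have w1 := h8 (512 * dg1 (c x y) + 64 * dg1 (c x z) + 8 * dg1 (c y z) + d x y z) (by omega)
        have w2 := h8 (512 * dg2 (c x y) + 64 * dg2 (c x z) + 8 * dg2 (c y z) + d x y z) (by omega)
        have z0 := hwz (512 * dg0 (c x y) + 64 * dg0 (c x z) + 8 * dg0 (c y z) + d x y z) (by omega)
        have z1 := hwz (512 * dg1 (c x y) + 64 * dg1 (c x z) + 8 * dg1 (c y z) + d x y z) (by omega)
        have z2 := hwz (512 * dg2 (c x y) + 64 * dg2 (c x z) + 8 * dg2 (c y z) + d x y z) (by omega)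
        unfold Tb.PF Tb.PX Tb.PP Tb.GO
        push_cast
        set m0 : ℝ := (T.mm 0 (τ x) (τ y) (c x y) : ℝ) with hm0
        set m1 : ℝ := (T.mm 1 (τ x) (τ y) (c x y) : ℝ) with hm1
        set m2 : ℝ := (T.mm 2 (τ x) (τ y) (c x y) : ℝ) with hm2
        set n0 : ℝ := (T.nn 0 (τ x) (τ y) (c x y) : ℝ) with hn0
        set n1 : ℝ := (T.nn 1 (τ x) (τ y) (c x y) : ℝ) with hn1
        set n2 : ℝ := (T.nn 2 (τ x) (τ y) (c x y) : ℝ) with hn2
        set W : ℝ := (T.gm (τ z) : ℝ) with hW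
        set Z : ℝ := (T.gz (τ z) : ℝ) with hZ
        set v0 : ℝ := (T.wv (512 * dg0 (c x y) + 64 * dg0 (c x z) + 8 * dg0 (c y z) + d x y z) : ℝ)
          with hv0
        set v1 : ℝ := (T.wv (512 * dg1 (c x y) + 64 * dg1 (c x z) + 8 * dg1 (c y z) + d x y z) : ℝ)
          with hv1
        set v2 : ℝ := (T.wv (512 * dg2 (c x y) + 64 * dg2 (c x z) + 8 * dg2 (c y z) + d x y z) : ℝ)
          with hv2
        set u0 : ℝ := (T.wz (512 * dg0 (c x y) + 64 * dg0 (c x z) + 8 * dg0 (c y z) + d x y z) : ℝ)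
          with hu0
        set u1 : ℝ := (T.wz (512 * dg1 (c x y) + 64 * dg1 (c x z) + 8 * dg1 (c y z) + d x y z) : ℝ)
          with hu1
        set u2 : ℝ := (T.wz (512 * dg2 (c x y) + 64 * dg2 (c x z) + 8 * dg2 (c y z) + d x y z) : ℝ)
          with hu2
        set SO : ℝ := ∑ j ∈ range T.nj, (T.oo j (τ x) (τ y) (c x y) : ℝ) with hSO
        have n00 : 0 ≤ n0 := Nat.cast_nonneg _
        have n10 : 0 ≤ n1 := Nat.cast_nonneg _
        have n20 : 0 ≤ n2 := Nat.cast_nonneg _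
        have Z0 : 0 ≤ Z := Nat.cast_nonneg _
        have u00 : 0 ≤ u0 := Nat.cast_nonneg _
        have u10 : 0 ≤ u1 := Nat.cast_nonneg _
        have u20 : 0 ≤ u2 := Nat.cast_nonneg _
        have o00 : 0 ≤ SO := sum_nonneg fun _ _ => Nat.cast_nonneg _
        have m00 : 0 ≤ m0 := Nat.cast_nonneg _
        have m10 : 0 ≤ m1 := Nat.cast_nonneg _
        have m20 : 0 ≤ m2 := Nat.cast_nonneg _
        have W0 : 0 ≤ W := Nat.cast_nonneg _
        have v00 : 0 ≤ v0 := Nat.cast_nonneg _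
        have v10 : 0 ≤ v1 := Nat.cast_nonneg _
        have v20 : 0 ≤ v2 := Nat.cast_nonneg _
        rw [abs_of_nonneg W0] at g7
        rw [abs_of_nonneg v00] at w0
        rw [abs_of_nonneg v10] at w1
        rw [abs_of_nonneg v20] at w2
        rw [abs_of_nonneg Z0] at g8
        rw [abs_of_nonneg u00] at z0
        rw [abs_of_nonneg u10] at z1
        rw [abs_of_nonneg u20] at z2
        rw [abs_of_nonneg (by positivity)] at g6
        set V : ℝ := BF + B7 + B8 + (Bg + Bw) with hV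
        have hV0 : 0 ≤ V := by positivity
        have q0 : |∑ j ∈ range T.nj, (T.oo j (τ x) (τ y) (c x y) : ℝ) *
            (T.FJ j (τ z) : ℝ)| ≤ SO * V := by
          refine (abs_sum_le_sum_abs _ _).trans ?_
          rw [hSO, sum_mul]
          refine sum_le_sum fun j hj => ?_
          rw [abs_mul, abs_of_nonneg (Nat.cast_nonneg _)]
          refine mul_le_mul_of_nonneg_left ?_ (Nat.cast_nonneg _)
          have := hF j (mem_range.1 hj) _ p3
          linarith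
        have r0 : |W - v0| ≤ V := by
          rw [abs_le]; constructor <;> linarith
        have r1 : |W - v1| ≤ V := by
          rw [abs_le]; constructor <;> linarith
        have r2 : |W - v2| ≤ V := by
          rw [abs_le]; constructor <;> linarith
        have r3 : |Z - u0| ≤ V := by
          rw [abs_le]; constructor <;> linarith
        have r4 : |Z - u1| ≤ V := by
          rw [abs_le]; constructor <;> linarith
        have r5 : |Z - u2| ≤ V := by
          rw [abs_le]; constructor <;> linarith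
        have t1 : ∀ {o f : ℝ}, 0 ≤ o → |f| ≤ V → |o * f| ≤ o * V := by
          intro o f ho hf
          rw [abs_mul, abs_of_nonneg ho]
          exact mul_le_mul_of_nonneg_left hf ho
        have a3 := t1 m00 r0
        have a4 := t1 m10 r1
        have a5 := t1 m20 r2
        have c3 := t1 n00 r3
        have c4 := t1 n10 r4
        have c5 := t1 n20 r5
        have a6 : (SO + (m0 + m1 + m2) + (n0 + n1 + n2)) * V ≤ B6 * V :=
          mul_le_mul_of_nonneg_right g6 hV0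
        refine (abs_add_le _ _).trans ?_
        refine (add_le_add (abs_add_le _ _) le_rfl).trans ?_
        have a7 := (abs_add_le (m0 * (W - v0) + m1 * (W - v1)) (m2 * (W - v2))).trans
          (add_le_add (abs_add_le _ _) le_rfl)
        have c7 := (abs_add_le (n0 * (Z - u0) + n1 * (Z - u1)) (n2 * (Z - u2))).trans
          (add_le_add (abs_add_le _ _) le_rfl)
        rw [hC2]
        have : (SO + (m0 + m1 + m2) + (n0 + n1 + n2)) * V =
            SO * V + (m0 * V + m1 * V + m2 * V) + (n0 * V + n1 * V + n2 * V) := by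
          ring
        linarith
      · push_cast
        rw [abs_of_nonneg hs1]
        have : 0 ≤ B6 * (BF + B7 + B8 + (Bg + Bw)) := by positivity
        linarith
      · rw [Int.cast_zero, abs_zero]
        exact hC20
    linarith
  · intro x y z
    have hgoal : |(uX rt τ d T x y z : ℝ)| ≤ C3 := by
      unfold uX
      split_ifs with h
      · have g9 := h9 _ (hC.ty x h.1.1) _ (hC.ty y h.1.2.1) _ (hC.ty z h.1.2.2)
        have hn1 : (na (d x y z) : ℝ) ≤ 1 := by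
          have := Pool.Agent.AKU.Tb.na_le (d x y z)
          exact_mod_cast this
        have hn0 : (0 : ℝ) ≤ na (d x y z) := Nat.cast_nonneg _
        have hld : (0 : ℝ) ≤ T.ld := Nat.cast_nonneg _
        have hln : (0 : ℝ) ≤ T.ln := Nat.cast_nonneg _
        push_cast
        rw [abs_mul]
        refine mul_le_mul g9 ?_ (abs_nonneg _) h90
        have h11 : (T.ld : ℝ) * na (d x y z) ≤ T.ld := by
          have := mul_le_mul_of_nonneg_left hn1 hld
          linarith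
        have h12 : 0 ≤ (T.ld : ℝ) * na (d x y z) := mul_nonneg hld hn0
        rw [abs_le]
        constructor <;> linarith
      · rw [Int.cast_zero, abs_zero]
        exact hC30
    linarith

/-- **The bound from a checked certificate.** -/
theorem near_boundU (hG : Good T G K) (s0 s1 : ℕ) (CU CE : ℝ) : ∃ M C : ℝ, 0 ≤ M ∧ 0 ≤ C ∧
    ∀ (S : Finset Pt) (η U : ℝ), 0 ≤ η → Near S η →
    ∀ (rt : Fin 3 → S) (τ : S → ℕ) (c : S → S → ℕ) (d : S → S → S → ℕ),
    T.Cf T.nt τ c d (Free rt) →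
    (∀ x ∈ Free rt, ∀ y ∈ Free rt, ∀ z ∈ Free rt, x ≠ y → y ≠ z → x ≠ z →
      Nf S x y z = (na (d x y z) : ℝ)) →
    (∀ x ∈ Free rt, ∀ y ∈ Free rt, x ≠ y → Nf S (rt 0) x y = (na (dg0 (c x y)) : ℝ) ∧
      Nf S (rt 1) x y = (na (dg1 (c x y)) : ℝ) ∧ Nf S (rt 2) x y = (na (dg2 (c x y)) : ℝ)) →
    (∀ x ∈ Free rt, ∀ k < T.nk, (∃ j, T.lam k (τ x) j ≠ 0) →
      ∑ y, exS rt τ c T k x y ≤ (s0 : ℤ)) →
    (∀ x ∈ Free rt, ∀ y ∈ Free rt, x ≠ y → -(s1 : ℤ) ≤ ∑ z, pS rt τ c d T x y z) →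
    K * (Fintype.card S : ℝ) ^ 3 + U ≤ (Fintype.card S : ℝ) ^ 2 *
      ∑ x, (if x ∈ Free rt then 9 * ((T.Mu (τ x) : ℝ) + (T.Nu 0 (τ x) + T.Nu 1 (τ x) +
        T.Nu 2 (τ x))) else K) →
    -(CU * (Fintype.card S : ℝ) ^ 2 + CE * η * (Fintype.card S : ℝ) ^ 3) -
      (4 / 9 - 3 * dens (Set.Ici (Real.pi / 2))) * U ≤
      ((∑ x, ∑ y, ∑ z, uX rt τ d T x y z : ℤ) : ℝ) →
    3 * dens (Set.Ici (Real.pi / 2)) ≤ 4 / 9 →
    (4 / 9 - 3 * dens (Set.Ici (Real.pi / 2))) * (Fintype.card S : ℝ) ^ 3 ≤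
      M * η * (Fintype.card S : ℝ) ^ 3 + C * (Fintype.card S : ℝ) ^ 2 := by
  obtain ⟨B, hB0, hB⟩ := parts_bd hG s0 s1
  have hK := hG.K0
  set M' : ℝ := max (B / K) 1 with hM'
  have hM1 : 1 ≤ M' := le_max_right _ _
  have hMM : B / K ≤ M' := le_max_left _ _
  set B' : ℝ := 4 * (B / K) with hB'
  have hBK : 0 ≤ B / K := div_nonneg hB0 hK.le
  have hB'0 : 0 ≤ B' := by positivity
  refine ⟨M' + |CE| / K, |CU| / K + 12 * (M' + B'), by positivity, by positivity, ?_⟩
  intro S η U hη hS rt τ c d hC h0 h1 hex hpx hLU hU hlt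
  obtain ⟨b1, b2, b3, b4, b5⟩ := hB S rt τ c d hC
  -- the data
  set u : S → ℝ := fun y => if y ∈ Free rt then 9 * (T.Mu (τ y) : ℝ) / K else 1 with hu
  set w : Fin 3 → S → ℝ := fun k y => if y ∈ Free rt then 9 * (T.Nu k (τ y) : ℝ) / K else 0 with hw
  set P : S → S → ℝ := fun a b => (T.Q0 (τ a) (τ b) : ℝ) / K with hP
  set Tt : S → S → S → ℝ := fun x y z => ((TX rt τ c T s0 x y z : ℝ) +
    (pX rt τ c d T s1 x y z : ℝ) + (uX rt τ d T x y z : ℝ)) / K with hTt
  have hlow : (Fintype.card S : ℝ) ^ 3 + U / K ≤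
      (Fintype.card S : ℝ) ^ 2 * ∑ y, (u y + ∑ r, w r y) := by
    have e1 : ∀ y, u y + ∑ r, w r y = (if y ∈ Free rt then 9 * ((T.Mu (τ y) : ℝ) +
        (T.Nu 0 (τ y) + T.Nu 1 (τ y) + T.Nu 2 (τ y))) else K) / K := by
      intro y
      rw [Fin.sum_univ_three]
      simp only [hu, hw]
      by_cases hy : y ∈ Free rt
      · rw [if_pos hy, if_pos hy, if_pos hy, if_pos hy, if_pos hy]
        simp only [Fin.val_zero, Fin.val_one, Fin.val_two]
        ring
      · rw [if_neg hy, if_neg hy, if_neg hy, if_neg hy, if_neg hy, div_self hK.ne']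
        norm_num
    rw [sum_congr rfl fun y _ => e1 y, ← sum_div, ← mul_div_assoc, le_div_iff₀ hK, add_mul,
      div_mul_cancel₀ _ hK.ne']
    linarith
  have hup : ∀ y, |u y| + ∑ r, |w r y| ≤ M' := by
    intro y
    rw [Fin.sum_univ_three]
    simp only [hu, hw]
    by_cases hy : y ∈ Free rt
    · rw [if_pos hy, if_pos hy, if_pos hy, if_pos hy]
      have e : |9 * (T.Mu (τ y) : ℝ) / K| + (|9 * (T.Nu (0 : Fin 3) (τ y) : ℝ) / K| +
          |9 * (T.Nu (1 : Fin 3) (τ y) : ℝ) / K| + |9 * (T.Nu (2 : Fin 3) (τ y) : ℝ) / K|) =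
          9 * (|(T.Mu (τ y) : ℝ)| + (|(T.Nu 0 (τ y) : ℝ)| + |(T.Nu 1 (τ y) : ℝ)| +
            |(T.Nu 2 (τ y) : ℝ)|)) / K := by
        simp only [Fin.val_zero, Fin.val_one, Fin.val_two, abs_div, abs_mul, abs_of_pos hK]
        rw [abs_of_pos (by norm_num : (0 : ℝ) < 9)]
        ring
      rw [e]
      exact (div_le_div_of_nonneg_right (b1 y hy) hK.le).trans hMM
    · rw [if_neg hy, if_neg hy, if_neg hy, if_neg hy]
      norm_num
      exact hM1
  have hPb : ∀ a b, |P a b| ≤ B / K := by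
    intro a b
    simp only [hP]
    rw [abs_div, abs_of_pos hK]
    exact div_le_div_of_nonneg_right (b2 _ _) hK.le
  have hTb : ∀ a b e, |Tt a b e| ≤ 3 * (B / K) := by
    intro a b e
    simp only [hTt]
    rw [abs_div, abs_of_pos hK]
    have h2 : |(TX rt τ c T s0 a b e : ℝ) + (pX rt τ c d T s1 a b e : ℝ) +
        (uX rt τ d T a b e : ℝ)| ≤ 3 * B := by
      refine (abs_add_le _ _).trans ?_
      have := abs_add_le (TX rt τ c T s0 a b e : ℝ) (pX rt τ c d T s1 a b e : ℝ)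
      have := b3 a b e
      have := b4 a b e
      have := b5 a b e
      linarith
    refine (div_le_div_of_nonneg_right h2 hK.le).trans (le_of_eq ?_)
    ring
  set ER : ℝ := |CU| * (Fintype.card S : ℝ) ^ 2 + |CE| * η * (Fintype.card S : ℝ) ^ 3 with hER
  have hT3 : -(ER / K) -
      (4 / 9 - 3 * dens (Set.Ici (Real.pi / 2))) * (U / K) ≤ ∑ x, ∑ y, ∑ z, Tt x y z := by
    have e : ∑ x, ∑ y, ∑ z, Tt x y z = (((∑ x, ∑ y, ∑ z, TX rt τ c T s0 x y z : ℤ) : ℝ) +
        ((∑ x, ∑ y, ∑ z, pX rt τ c d T s1 x y z : ℤ) : ℝ) +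
        ((∑ x, ∑ y, ∑ z, uX rt τ d T x y z : ℤ) : ℝ)) / K := by
      simp only [hTt, Int.cast_sum, ← sum_div, ← sum_add_distrib]
    rw [e]
    have k1 : (0 : ℝ) ≤ ((∑ x, ∑ y, ∑ z, TX rt τ c T s0 x y z : ℤ) : ℝ) := by
      have : 0 ≤ ∑ x, ∑ y, ∑ z, TX rt τ c T s0 x y z :=
        sum_nonneg fun x _ => TX_sum hG (rt := rt) (τ := τ) (c := c) (x := x) (fun hx => hex x hx)
      exact_mod_cast this
    have k2 : (0 : ℝ) ≤ ((∑ x, ∑ y, ∑ z, pX rt τ c d T s1 x y z : ℤ) : ℝ) := by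
      have : 0 ≤ ∑ x, ∑ y, ∑ z, pX rt τ c d T s1 x y z :=
        sum_nonneg fun x _ => sum_nonneg fun y _ => pX_sum (fun hx hy hxy => hpx x hx y hy hxy)
      exact_mod_cast this
    have k3 : -ER - (4 / 9 - 3 * dens (Set.Ici (Real.pi / 2))) * U ≤
        ((∑ x, ∑ y, ∑ z, uX rt τ d T x y z : ℤ) : ℝ) := by
      refine le_trans ?_ hU
      have h1 : CU * (Fintype.card S : ℝ) ^ 2 ≤ |CU| * (Fintype.card S : ℝ) ^ 2 :=
        mul_le_mul_of_nonneg_right (le_abs_self _) (by positivity)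
      have h2 : CE * η * (Fintype.card S : ℝ) ^ 3 ≤ |CE| * η * (Fintype.card S : ℝ) ^ 3 :=
        mul_le_mul_of_nonneg_right (mul_le_mul_of_nonneg_right (le_abs_self _) hη) (by positivity)
      rw [hER]
      linarith
    rw [le_div_iff₀ hK]
    have e2 : (-(ER / K) - (4 / 9 - 3 * dens (Set.Ici (Real.pi / 2))) * (U / K)) * K =
        -ER - (4 / 9 - 3 * dens (Set.Ici (Real.pi / 2))) * U := by
      field_simp
    rw [e2]
    linarith
  have hGG : ∀ a b e, GG (4 / 9) rt (Nf S) u w P Tt a b e ≤ M' + B' := by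
    intro a b e
    unfold GG
    have k1 : u a * (4 / 9 - Nf S a b e) ≤ |u a| := by
      refine (le_abs_self _).trans ?_
      rw [abs_mul]
      exact mul_le_of_le_one_right (abs_nonneg _) (Nf_abs S a b e)
    have k2 : ∑ r, w r a * (4 / 9 - Nf S (rt r) b e) ≤ ∑ r, |w r a| := by
      refine sum_le_sum fun r _ => ?_
      refine (le_abs_self _).trans ?_
      rw [abs_mul]
      exact mul_le_of_le_one_right (abs_nonneg _) (Nf_abs S (rt r) b e)
    have k3 := (le_abs_self _).trans (hPb a b)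
    have k4 := (le_abs_self _).trans (hTb a b e)
    have k5 := hup a
    linarith
  have hmain := cert_boundX (4 / 9) (3 * dens (Set.Ici (Real.pi / 2))) η M' (6 * (M' + B'))
    (ER / K) (U / K) rt (Nf S) u w P Tt (coinc rt) hη hlt hS.deg hlow hup ?_ hT3 ?_ ?_
  · have h2 := card_coinc rt
    rw [Fintype.card_fin] at h2
    have h3 : 6 * (M' + B') * ((coinc rt).card : ℝ) / 6 ≤
        (12 * (M' + B')) * (Fintype.card S : ℝ) ^ 2 := by
      have h4 : 0 ≤ M' + B' := by positivity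
      have h5 := mul_le_mul_of_nonneg_left h2 h4
      push_cast at h5
      nlinarith
    have e3 : (|CU| / K + 12 * (M' + B')) * (Fintype.card S : ℝ) ^ 2 =
        |CU| / K * (Fintype.card S : ℝ) ^ 2 + (12 * (M' + B')) * (Fintype.card S : ℝ) ^ 2 := by
      ring
    have e4 : ER / K = |CU| / K * (Fintype.card S : ℝ) ^ 2 +
        |CE| / K * η * (Fintype.card S : ℝ) ^ 3 := by
      rw [hER]
      ring
    have e5 : (M' + |CE| / K) * η * (Fintype.card S : ℝ) ^ 3 =
        M' * η * (Fintype.card S : ℝ) ^ 3 + |CE| / K * η * (Fintype.card S : ℝ) ^ 3 := by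
      ring
    rw [e3, e5]
    rw [e4] at hmain
    linarith
  · -- one-point part
    have h2 := hG.psd0 S τ
    have e : ∑ a, ∑ b, P a b = ((∑ a, ∑ b, T.Q0 (τ a) (τ b) : ℤ) : ℝ) / K := by
      simp only [hP, Int.cast_sum, sum_div]
    rw [e]
    exact div_nonneg (by exact_mod_cast h2) hK.le
  · -- free points
    intro a b e hE
    simp only [coinc, mem_filter, mem_univ, true_and] at hE
    push Not at hE
    obtain ⟨hab, hae, hbe, hr⟩ := hE
    have ha : a ∈ Free rt := fun k => (hr k).1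
    have hb : b ∈ Free rt := fun k => (hr k).2.1
    have he : e ∈ Free rt := fun k => (hr k).2.2
    have key : ∀ a ∈ Free rt, ∀ b ∈ Free rt, ∀ e ∈ Free rt, a ≠ b → b ≠ e → a ≠ e →
        GG (4 / 9) rt (Nf S) u w P Tt a b e =
          ((T.GF τ c d a b e + T.PF τ c d a b e : ℤ) : ℝ) / K := by
      intro a ha b hb e he hab hbe hae
      obtain ⟨g0, g1, g2⟩ := h1 b hb e he hbe
      have g3 := h0 a ha b hb e he hab hbe hae
      have g4 := TX_free (s0 := s0) hG hC ha hb he hab hae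
      have g5 : pX rt τ c d T s1 a b e = T.PF τ c d a b e := by
        unfold pX
        rw [if_pos ⟨ha, hb, hab⟩, if_pos ⟨he, hae.symm, hbe.symm⟩]
      have g6 : uX rt τ d T a b e = T.u3 (τ a) (τ b) (τ e) *
          ((T.ld : ℤ) * na (d a b e) - T.ln) := by
        unfold uX
        rw [if_pos ⟨⟨ha, hb, he⟩, hab, hbe, hae⟩]
      unfold GG
      rw [Fin.sum_univ_three, g0, g1, g2, g3]
      simp only [hu, hw, hP, hTt]
      rw [if_pos ha, if_pos ha, if_pos ha, if_pos ha, g4, g5, g6]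
      simp only [Tb.GF, Tb.GV, Tb.NN]
      simp only [Fin.val_zero, Fin.val_one, Fin.val_two]
      push_cast
      ring
    have h2 := Tb.s6_le hG.inv hG.spl hG.q0c hG.qtc hG.usym hG.msym hG.wsym hG.key hC
      ha hb he hab hbe hae
    have e1 : sym3 (GG (4 / 9) rt (Nf S) u w P Tt) a b e =
        ((s6 (fun a b e => T.GF τ c d a b e + T.PF τ c d a b e) a b e : ℤ) : ℝ) / K := by
      unfold sym3 s6
      rw [key a ha b hb e he hab hbe hae, key a ha e he b hb hae hbe.symm hab,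
        key b hb a ha e he hab.symm hae hbe, key b hb e he a ha hbe hae.symm hab.symm,
        key e he a ha b hb hae.symm hab hbe.symm, key e he b hb a ha hbe.symm hab.symm hae.symm]
      push_cast
      ring
    rw [e1]
    exact div_nonpos_of_nonpos_of_nonneg (by exact_mod_cast h2) hK.le
  · intro a b e _
    unfold sym3
    have k1 := hGG a b e
    have k2 := hGG a e b
    have k3 := hGG b a e
    have k4 := hGG b e a
    have k5 := hGG e a b
    have k6 := hGG e b a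
    linarith

end Pool.Agent.AKZ
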