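import Pool.Agent.AKZ.LinkQ

set_option autoImplicit false

/-!
# Strips with different weights
-/

namespace Pool.Agent.AKZ

open Finset Classical Pool.Agent.AKG Pool.Agent.AKO Pool.Agent.AKU Pool.Agent.MP_0af329_co
  Pool.Agent.AK Pool.Agent.AKX

/-- some acute triple has large weight -/
def Up (w : ℕ → ℕ) (e a : ℕ) (S : Finset Pt) : Prop :=
  ∃ r : Fin 3 → S, AcT (X S) (Y S) r ∧
    (a : ℤ) * Fintype.card S ≤ e * Ph (X S) (Y S) (fun K => (w K : ℤ)) r

/-- **The last strip**: a certificate with the largest sum of squares -/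
theorem up_of_Q {T : Tb} {tcs : List ℕ} {h C : ℕ} (hN : ∀ s1, NB T (4 * h) s1) (hO : OwnQ T h)
    (hL : LinkT T tcs) (hE : LinkEQ T tcs h) (hC : ∀ K, T.wv K ≤ C) : Dec (Up T.wv 1 h) := by
  refine dec_mono ?_ (decQ hN hO hL hE hC)
  rintro S ⟨r, hr, h1⟩
  refine ⟨r, hr, ?_⟩
  rw [Nat.cast_one, one_mul] at h1
  exact h1

/-- **One strip below** -/
theorem up_of_strip {T : Tb} (hI : InvW fun K => (T.wv K : ℤ)) (hd : Dec (InS T))
    (h1 : Dec (Up T.wv T.e T.h1)) : Dec (Up T.wv T.e T.h0) := by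
  refine dec_large (η1 := 1) (n1 := 0) one_pos ?_
  refine dec_mono ?_ (dec_or hd h1)
  rintro S ⟨⟨r, hr, h⟩, -, η, -, -, hS⟩
  obtain ⟨r', hr'⟩ := exists_maxT (gn_of hS.gen hS.nr) hI ⟨r, hr⟩
  by_cases hb : (T.h1 : ℤ) * Fintype.card S ≤ T.e * Ph (X S) (Y S) (fun K => (T.wv K : ℤ)) r'
  · refine Or.inr ⟨r', ⟨hr'.inj, ?_⟩, hb⟩
    rw [hr'.st4]
  · refine Or.inl ⟨r', hr', ?_, ?_⟩
    · have h2 := mul_le_mul_of_nonneg_left (hr'.max r hr) (Int.natCast_nonneg T.e)
      linarith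
    · push Not at hb
      exact hb.le

/-- **Change of the weight** -/
theorem up_change {w1 w2 : ℕ → ℕ} {e1 a1 e2 a2 α β : ℕ} {γ : ℤ} (hβ : 0 < β)
    (hw : ∀ K < 4096, TAB.testBit K = true → dig K 3 % 4 = 0 →
      (α : ℤ) * (e1 * w1 K) + γ ≤ β * (e2 * w2 K))
    (hc : (β : ℤ) * a2 ≤ α * a1 + γ) (hγ : γ ≤ 0 ∨ (β : ℤ) * a2 < α * a1 + γ)
    (hd : Dec (Up w2 e2 a2)) : Dec (Up w1 e1 a1) := by
  refine dec_large (η1 := 1) (n1 := (3 * γ).toNat) one_pos ?_
  refine dec_mono ?_ hd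
  rintro S ⟨⟨r, hr, h⟩, hn, η, -, -, hS⟩
  refine ⟨r, hr, ?_⟩
  have hg := gn_of hS.gen hS.nr
  have q1 : (α : ℤ) * (e1 * Ph (X S) (Y S) (fun K => (w1 K : ℤ)) r) +
      ∑ v : S, (if ∀ k, v ≠ r k then γ else 0) ≤
      β * (e2 * Ph (X S) (Y S) (fun K => (w2 K : ℤ)) r) := by
    unfold Ph
    rw [mul_sum, mul_sum, mul_sum, mul_sum, ← sum_add_distrib]
    refine sum_le_sum fun z _ => ?_
    split_ifs with hz
    · have hi := hr.1
      have hm := hg.mem (hi.ne (by decide : (0 : Fin 3) ≠ 1)) (hi.ne (by decide : (0 : Fin 3) ≠ 2))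
        (hz 0).symm (hi.ne (by decide : (1 : Fin 3) ≠ 2)) (hz 1).symm (hz 2).symm
      refine hw _ (code_lt ..) hm ?_
      rw [dig3]
      exact hr.2
    · simp
  have q2 : ∑ v : S, (if ∀ k, v ≠ r k then γ else 0) = γ * (Fintype.card S - 3) := by
    have q3 : ∑ v : S, (if ∀ k, v ≠ r k then γ else 0) = ∑ _v : S, γ -
        ∑ v : S, (if v ∈ ({r 0, r 1, r 2} : Finset S) then γ else 0) := by
      rw [← sum_sub_distrib]
      refine sum_congr rfl fun z _ => ?_
      by_cases hz : ∀ k, z ≠ r k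
      · have : z ∉ ({r 0, r 1, r 2} : Finset S) := by
          simp only [mem_insert, mem_singleton, not_or]
          exact ⟨hz 0, hz 1, hz 2⟩
        rw [if_pos hz, if_neg this, sub_zero]
      · have : z ∈ ({r 0, r 1, r 2} : Finset S) := by
          simp only [mem_insert, mem_singleton]
          by_contra hcon
          push Not at hcon
          refine hz ?_
          rw [forall_fin3]
          exact hcon
        rw [if_neg hz, if_pos this, sub_self]
    rw [q3, sum_const, card_univ, nsmul_eq_mul, sum_ite_mem, univ_inter, sum_const, nsmul_eq_mul]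
    have hc : ({r 0, r 1, r 2} : Finset S).card = 3 := by
      rw [card_eq_three]
      exact ⟨r 0, r 1, r 2, hr.1.ne (by decide), hr.1.ne (by decide), hr.1.ne (by decide), rfl⟩
    rw [hc]
    push_cast
    ring
  rw [q2] at q1
  have hn0 : (0 : ℤ) ≤ (Fintype.card S : ℤ) := Int.natCast_nonneg _
  have k1 := mul_le_mul_of_nonneg_left h (Int.natCast_nonneg α)
  have k2 : (β : ℤ) * (a2 * Fintype.card S) ≤
      β * (e2 * Ph (X S) (Y S) (fun K => (w2 K : ℤ)) r) := by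
    rcases hγ with hγ | hγ
    · have k3 := mul_le_mul_of_nonneg_right hc hn0
      nlinarith
    · have k3 : (β : ℤ) * a2 + 1 ≤ α * a1 + γ := hγ
      have k4 := mul_le_mul_of_nonneg_right k3 hn0
      have k5 : 3 * γ ≤ (Fintype.card S : ℤ) := by
        have := Int.self_le_toNat (3 * γ)
        have h6 : (((3 * γ).toNat : ℕ) : ℤ) ≤ (Fintype.card S : ℤ) := by exact_mod_cast hn
        linarith
      nlinarith
  exact le_of_mul_le_mul_left k2 (by exact_mod_cast hβ)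

/-- **The end** of the case split -/
theorem F_ge_of_up {w : ℕ → ℕ} {e h0 : ℕ} (hd : Dec (Up w e h0))
    (hu : Dec fun S => ∀ r : Fin 3 → S, AcT (X S) (Y S) r →
      e * Ph (X S) (Y S) (fun K => (w K : ℤ)) r ≤ (h0 : ℤ) * Fintype.card S) :
    4 / 27 ≤ F (Real.pi / 2) := by
  refine F_ge_of_dec (dec_mono ?_ (dec_or hd hu))
  intro S _
  by_cases h : Up w e h0 S
  · exact Or.inl h
  · refine Or.inr fun r hr => ?_
    by_contra h1
    push Not at h1
    exact h ⟨r, hr, h1.le⟩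

end Pool.Agent.AKZ
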