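import Pool.Agent.AKZ.PsdM

set_option autoImplicit false

/-!
# Positive semidefinite blocks: the kernel check with packed rows

The matrix has the entries `dgu sb row j - off` plus the symmetric rank two parts of the rows
(`lamP k`, `evP k`).  The first `m` rows are the pivot rows; the other rows are integer
combinations of them.  For the pivots `N Q = s L Lᵀ + R`, `R` diagonally dominant.
-/

namespace Pool.Agent.AKZ

open Finset Pool.Agent.AKU

/-- entry of the positive part -/
def vA (sb nk row : Nat) (lamP evP : Nat → Nat) (i j : ℕ) : ℕ :=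
  dgu sb row j + ∑ k ∈ range nk, (lk (evP k) i * lk (lamP k) j + lk (lamP k) i * lk (evP k) j)

/-- entry of the negative part -/
def vC (nk off offe : Nat) (lamP : Nat → Nat) (i j : ℕ) : ℕ :=
  off + offe * ∑ k ∈ range nk, lk (lamP k) i + offe * ∑ k ∈ range nk, lk (lamP k) j

/-- packed row, positive part -/
noncomputable def prA (sb n nk row : Nat) (lamP evP : Nat → Nat) (i : Nat) : Nat :=
  Nat.add (spr sb n row) (sumN nk fun k => Nat.add (Nat.mul (lk (evP k) i) (spr 64 n (lamP k)))
    (Nat.mul (lk (lamP k) i) (spr 64 n (evP k))))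

/-- packed row, negative part -/
noncomputable def prC (n nk off offe : Nat) (lamP : Nat → Nat) (i : Nat) : Nat :=
  Nat.add (Nat.mul (Nat.add off (Nat.mul offe (sumN nk fun k => lk (lamP k) i))) (rep n))
    (Nat.mul offe (sumN nk fun k => spr 64 n (lamP k)))

theorem spr64 (n P : ℕ) : spr 64 n P = ∑ j ∈ range n, lk P j * BB ^ j := by
  rw [spr_eq]
  exact sum_congr rfl fun j _ => by rw [lk_eq]

theorem prA_eq (sb n nk row : Nat) (lamP evP : Nat → Nat) (i : Nat) :
    prA sb n nk row lamP evP i = ∑ j ∈ range n, vA sb nk row lamP evP i j * BB ^ j := by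
  have e : prA sb n nk row lamP evP i = spr sb n row + sumN nk fun k =>
    lk (evP k) i * spr 64 n (lamP k) + lk (lamP k) i * spr 64 n (evP k) := rfl
  rw [e, sumN_eq, spr_eq]
  simp only [spr64, vA, add_mul, sum_add_distrib, sum_mul, mul_sum]
  congr 1
  congr 1
  · rw [sum_comm]
    exact sum_congr rfl fun j _ => sum_congr rfl fun k _ => by ring
  · rw [sum_comm]
    exact sum_congr rfl fun j _ => sum_congr rfl fun k _ => by ring

theorem prC_eq (n nk off offe : Nat) (lamP : Nat → Nat) (i : Nat) :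
    prC n nk off offe lamP i = ∑ j ∈ range n, vC nk off offe lamP i j * BB ^ j := by
  have e : prC n nk off offe lamP i = (off + offe * sumN nk fun k => lk (lamP k) i) * rep n +
    offe * sumN nk fun k => spr 64 n (lamP k) := rfl
  rw [e, sumN_eq, sumN_eq, rep_eq]
  simp only [spr64, vC, add_mul, sum_add_distrib]
  congr 1
  · rw [mul_sum, mul_sum]
  · rw [sum_comm, mul_sum]
    refine sum_congr rfl fun j _ => ?_
    rw [← sum_mul]
    ring

/-- columns of the Cholesky factor: row `a` of the product -/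
noncomputable def gr (u m a : Nat) (l : List Nat) : Nat :=
  List.rec (motive := fun _ => Nat) 0
    (fun x _ ih => Nat.add (Nat.mul (dgu u x a) (spr u m x)) ih) l

/-- sum of the columns -/
noncomputable def sS (u m : Nat) (l : List Nat) : Nat :=
  List.rec (motive := fun _ => Nat) 0 (fun x _ ih => Nat.add (spr u m x) ih) l

theorem gr_eq (u m a : Nat) (l : List Nat) : gr u m a l =
    ∑ b ∈ range m, (l.map fun x => dgu u x a * dgu u x b).sum * BB ^ b := by
  induction l with
  | nil => simp [gr]
  | cons x l ih =>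
    have e : gr u m a (x :: l) = dgu u x a * spr u m x + gr u m a l := rfl
    rw [e, ih, spr_eq, mul_sum, ← sum_add_distrib]
    refine sum_congr rfl fun b _ => ?_
    rw [List.map_cons, List.sum_cons]
    ring

theorem sS_eq (u m : Nat) (l : List Nat) : sS u m l =
    ∑ b ∈ range m, (l.map fun x => dgu u x b).sum * BB ^ b := by
  induction l with
  | nil => simp [sS]
  | cons x l ih =>
    have e : sS u m (x :: l) = spr u m x + sS u m l := rfl
    rw [e, ih, spr_eq, ← sum_add_distrib]
    refine sum_congr rfl fun b _ => ?_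
    rw [List.map_cons, List.sum_cons]
    ring

theorem list_sum_le {l : List Nat} {g : Nat → Nat} {c : Nat} (h : ∀ x, g x ≤ c) :
    (l.map g).sum ≤ l.length * c := by
  induction l with
  | nil => simp
  | cons x l ih =>
    rw [List.map_cons, List.sum_cons, List.length_cons]
    have := h x
    nlinarith

/-- the row `a`, with all digits shifted by `DD` -/
noncomputable def rowX (sb m u N s OV nk off offe row : Nat) (lamP evP : Nat → Nat) (L : List Nat)
    (a : Nat) : Nat :=
  Nat.sub (Nat.add (Nat.add (Nat.mul N (prA sb m nk row lamP evP a))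
      (Nat.mul (Nat.mul s OV) (Nat.add (Nat.mul (dB (sS u m L) a) (rep m)) (sS u m L))))
      (Nat.mul DD (rep m)))
    (Nat.add (Nat.add (Nat.mul s (gr u m a L))
      (Nat.mul (Nat.mul s (Nat.mul L.length (Nat.mul OV OV))) (rep m)))
      (Nat.mul N (prC m nk off offe lamP a)))

/-- the sizes are small enough -/
def szC (sb u N s OV nk off offe K : Nat) : Bool :=
  Nat.ble (Nat.add (Nat.add (Nat.mul s (Nat.mul K (Nat.mul (Nat.shiftLeft 1 u) (Nat.shiftLeft 1 u))))
      (Nat.mul s (Nat.mul K (Nat.mul OV OV))))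
      (Nat.mul N (Nat.add off (Nat.mul 2 (Nat.mul offe (Nat.mul nk (Nat.shiftLeft 1 64))))))) DD &&
  Nat.ble (Nat.add (Nat.add (Nat.mul N (Nat.add (Nat.shiftLeft 1 sb)
      (Nat.mul 2 (Nat.mul nk (Nat.shiftLeft 1 128)))))
      (Nat.mul (Nat.mul s OV) (Nat.mul 2 (Nat.mul K (Nat.shiftLeft 1 u))))) (Nat.add DD 1)) BB

theorem vA_le (sb nk row : Nat) (lamP evP : Nat → Nat) (i j : ℕ) :
    vA sb nk row lamP evP i j ≤ 2 ^ sb + 2 * (nk * 2 ^ 128) := by
  unfold vA
  have h1 := dgu_lt sb row j
  have h2 : ∑ k ∈ range nk, (lk (evP k) i * lk (lamP k) j + lk (lamP k) i * lk (evP k) j) ≤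
      ∑ _k ∈ range nk, (2 ^ 128 + 2 ^ 128) := by
    refine sum_le_sum fun k _ => ?_
    have e : (2 : ℕ) ^ 128 = 2 ^ 64 * 2 ^ 64 := by norm_num
    rw [e]
    exact Nat.add_le_add (Nat.mul_le_mul (lk_lt _ _).le (lk_lt _ _).le)
      (Nat.mul_le_mul (lk_lt _ _).le (lk_lt _ _).le)
  rw [sum_const, card_range, smul_eq_mul] at h2
  omega

theorem vC_le (nk off offe : Nat) (lamP : Nat → Nat) (i j : ℕ) :
    vC nk off offe lamP i j ≤ off + 2 * (offe * (nk * 2 ^ 64)) := by
  unfold vC
  have h : ∀ i, ∑ k ∈ range nk, lk (lamP k) i ≤ nk * 2 ^ 64 := by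
    intro i
    have h2 : ∑ k ∈ range nk, lk (lamP k) i ≤ ∑ _k ∈ range nk, 2 ^ 64 :=
      sum_le_sum fun k _ => (lk_lt _ _).le
    rwa [sum_const, card_range, smul_eq_mul] at h2
  have h1 := Nat.mul_le_mul_left offe (h i)
  have h2 := Nat.mul_le_mul_left offe (h j)
  omega

/-- the digits of the packed row -/
theorem rowX_dig {sb m u N s OV nk off offe : Nat} {row : Nat} {lamP evP : Nat → Nat} {L : List Nat}
    (hz : szC sb u N s OV nk off offe L.length = true) {a b : ℕ} (ha : a < m) (hb : b < m) :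
    (dB (rowX sb m u N s OV nk off offe row lamP evP L a) b : ℤ) =
      DD + N * ((vA sb nk row lamP evP a b : ℤ) - vC nk off offe lamP a b) -
      s * ∑ k ∈ range L.length, ((dgu u (L.getD k 0) a : ℤ) - OV) *
        ((dgu u (L.getD k 0) b : ℤ) - OV) := by
  set K := L.length with hK
  set S : ℕ → ℕ := fun b => (L.map fun x => dgu u x b).sum with hS
  set g : ℕ → ℕ := fun b => (L.map fun x => dgu u x a * dgu u x b).sum with hg
  -- sizes
  unfold szC at hz
  rw [Bool.and_eq_true] at hz
  have z1 := Nat.le_of_ble_eq_true hz.1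
  have z2 := Nat.le_of_ble_eq_true hz.2
  have z1' : s * (K * (1 <<< u * 1 <<< u)) + s * (K * (OV * OV)) +
    N * (off + 2 * (offe * (nk * 1 <<< 64))) ≤ DD := z1
  have z2' : N * (1 <<< sb + 2 * (nk * 1 <<< 128)) + s * OV * (2 * (K * 1 <<< u)) + (DD + 1) ≤
    BB := z2
  simp only [Nat.shiftLeft_eq, one_mul] at z1' z2'
  have hSb : ∀ b, S b ≤ K * 2 ^ u := fun b => list_sum_le fun x => (dgu_lt u x b).le
  have hgb : ∀ b, g b ≤ K * (2 ^ u * 2 ^ u) := fun b =>
    list_sum_le fun x => Nat.mul_le_mul (dgu_lt u x a).le (dgu_lt u x b).le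
  have hSa : s * OV * dB (sS u m L) a = s * OV * S a := by
    rcases Nat.eq_zero_or_pos (s * OV) with h0 | h0
    · rw [h0, zero_mul, zero_mul]
    · rw [dB_eq, sS_eq, digs BB_pos m S _ a ha]
      intro b _
      have h1 : 1 * (2 * (K * 2 ^ u)) ≤ s * OV * (2 * (K * 2 ^ u)) := Nat.mul_le_mul_right _ h0
      have h2 := hSb b
      omega
  set l : ℕ → ℕ := fun b => N * vA sb nk row lamP evP a b + (s * OV * S a + s * OV * S b) + DD with hl
  set r : ℕ → ℕ := fun b => s * g b + s * (K * (OV * OV)) + N * vC nk off offe lamP a b with hr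
  have hlB : ∀ b, l b < BB := by
    intro b
    simp only [hl]
    have h1 := Nat.mul_le_mul_left N (vA_le sb nk row lamP evP a b)
    have h2 := Nat.mul_le_mul_left (s * OV) (hSb a)
    have h3 := Nat.mul_le_mul_left (s * OV) (hSb b)
    have e : s * OV * (2 * (K * 2 ^ u)) = s * OV * (K * 2 ^ u) + s * OV * (K * 2 ^ u) := by ring
    omega
  have hrl : ∀ b, r b ≤ l b := by
    intro b
    simp only [hl, hr]
    have h1 := Nat.mul_le_mul_left N (vC_le nk off offe lamP a b)
    have h2 := Nat.mul_le_mul_left s (hgb b)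
    omega
  have hL : Nat.add (Nat.add (Nat.mul N (prA sb m nk row lamP evP a))
      (Nat.mul (Nat.mul s OV) (Nat.add (Nat.mul (dB (sS u m L) a) (rep m)) (sS u m L))))
      (Nat.mul DD (rep m)) = ∑ b ∈ range m, l b * BB ^ b := by
    show N * prA sb m nk row lamP evP a + s * OV * (dB (sS u m L) a * rep m + sS u m L) +
      DD * rep m = _
    have e : s * OV * (dB (sS u m L) a * rep m + sS u m L) =
        s * OV * S a * rep m + s * OV * sS u m L := by
      rw [mul_add, ← mul_assoc, hSa]
    rw [e, prA_eq, sS_eq, rep_eq]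
    simp only [hl, add_mul, sum_add_distrib, mul_sum]
    congr 1
    refine congrArg₂ _ (sum_congr rfl fun b _ => by ring) (congrArg₂ _ rfl
      (sum_congr rfl fun b _ => by simp only [hS]; ring))
  have hR : Nat.add (Nat.add (Nat.mul s (gr u m a L))
      (Nat.mul (Nat.mul s (Nat.mul L.length (Nat.mul OV OV))) (rep m)))
      (Nat.mul N (prC m nk off offe lamP a)) = ∑ b ∈ range m, r b * BB ^ b := by
    show s * gr u m a L + s * (K * (OV * OV)) * rep m + N * prC m nk off offe lamP a = _
    rw [gr_eq, prC_eq, rep_eq]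
    simp only [hr, add_mul, sum_add_distrib, mul_sum]
    refine congrArg₂ _ (congrArg₂ _ (sum_congr rfl fun b _ => by simp only [hg]; ring) rfl)
      (sum_congr rfl fun b _ => by ring)
  have hX : rowX sb m u N s OV nk off offe row lamP evP L a =
      ∑ b ∈ range m, (l b - r b) * BB ^ b := by
    have e : rowX sb m u N s OV nk off offe row lamP evP L a =
      (∑ b ∈ range m, l b * BB ^ b) - ∑ b ∈ range m, r b * BB ^ b := by
      rw [← hL, ← hR]
      rfl
    rw [e, Nat.sub_eq_iff_eq_add (sum_le_sum fun b _ => Nat.mul_le_mul_right _ (hrl b)),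
      ← sum_add_distrib]
    refine sum_congr rfl fun b _ => ?_
    rw [← add_mul, Nat.sub_add_cancel (hrl b)]
  rw [dB_eq, hX, digs BB_pos m (fun b => l b - r b) (fun b _ => lt_of_le_of_lt (Nat.sub_le _ _)
    (hlB b)) b hb]
  beta_reduce
  rw [Nat.cast_sub (hrl b)]
  have hG : ∑ k ∈ range L.length, ((dgu u (L.getD k 0) a : ℤ) - OV) *
      ((dgu u (L.getD k 0) b : ℤ) - OV) = g b - OV * (S a + S b) + K * (OV * OV) := by
    rw [sum_getD L 0 (fun x => ((dgu u x a : ℤ) - OV) * ((dgu u x b : ℤ) - OV))]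
    simp only [hg, hS, hK]
    clear * -
    induction L with
    | nil => simp
    | cons x L ih =>
      simp only [List.map_cons, List.sum_cons, List.length_cons, Nat.cast_add, Nat.cast_mul,
        Nat.cast_one]
      rw [ih]
      ring
  rw [hG]
  simp only [hl, hr]
  push_cast
  ring

/-- diagonal dominance of the row `a` -/
noncomputable def domX (m X a : Nat) : Bool :=
  Nat.ble (Nat.add (sumN m fun b => adf (dB X b) DD) (Nat.mul 2 DD)) (Nat.mul 2 (dB X a))

/-- the pivot rows in a list -/
noncomputable def pivC (sb m u N s OV nk off offe : Nat) (rows : List Nat) (lamP evP : Nat → Nat)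
    (L : List Nat) (l : List Nat) : Bool :=
  allF l fun a => domX m (rowX sb m u N s OV nk off offe (nthL rows a) lamP evP L a) a

/-- the matrix -/
noncomputable def Qv (sb nk off offe : Nat) (rows : List Nat) (lamP evP : Nat → Nat) (i j : ℕ) : ℤ :=
  (vA sb nk (nthL rows i) lamP evP i j : ℤ) - vC nk off offe lamP i j

theorem Qv_eq (sb nk off offe : Nat) (rows : List Nat) (lamP evP : Nat → Nat) (i j : ℕ) :
    Qv sb nk off offe rows lamP evP i j = (dgu sb (nthL rows i) j : ℤ) - off -
      (-∑ k ∈ range nk, (lk (lamP k) j : ℤ) * ((lk (evP k) i : ℤ) - offe) +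
        -∑ k ∈ range nk, (lk (lamP k) i : ℤ) * ((lk (evP k) j : ℤ) - offe)) := by
  unfold Qv vA vC
  push_cast
  simp only [mul_sub, sum_sub_distrib, sum_add_distrib, ← sum_mul]
  have e1 : ∑ k ∈ range nk, (lk (evP k) i : ℤ) * lk (lamP k) j =
      ∑ k ∈ range nk, (lk (lamP k) j : ℤ) * lk (evP k) i :=
    sum_congr rfl fun k _ => mul_comm _ _
  rw [e1]
  ring

theorem Qv_symm {sb nk off offe : Nat} {rows : List Nat} {lamP evP : Nat → Nat} {i j : ℕ}
    (h : dgu sb (nthL rows i) j = dgu sb (nthL rows j) i) :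
    Qv sb nk off offe rows lamP evP i j = Qv sb nk off offe rows lamP evP j i := by
  rw [Qv_eq, Qv_eq, h]
  ring

/-- the pivot block is positive semidefinite -/
theorem piv_sound {sb m u N s OV nk off offe : Nat} {rows : List Nat} {lamP evP : Nat → Nat}
    {L : List Nat} (hN : Nat.ble 1 N = true) (hz : szC sb u N s OV nk off offe L.length = true)
    (hsym : ∀ i < m, ∀ j < m, dgu sb (nthL rows i) j = dgu sb (nthL rows j) i)
    (h : ∀ a < m, domX m (rowX sb m u N s OV nk off offe (nthL rows a) lamP evP L a) a = true)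
    (z : ℕ → ℤ) : 0 ≤ ∑ a ∈ range m, ∑ b ∈ range m,
      Qv sb nk off offe rows lamP evP a b * (z a * z b) := by
  refine chol2 m L.length (Qv sb nk off offe rows lamP evP)
    (fun a k => (dgu u (L.getD k 0) a : ℤ) - OV) N s (by
      have := Nat.le_of_ble_eq_true hN
      exact_mod_cast this) (Int.natCast_nonneg _)
    (fun a ha b hb => Qv_symm (hsym a ha b hb)) ?_ z
  intro a ha
  have h1 := h a ha
  unfold domX at h1
  have h2 := Nat.le_of_ble_eq_true h1
  rw [sumN_eq] at h2
  set X := rowX sb m u N s OV nk off offe (nthL rows a) lamP evP L a with hX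
  have key : ∀ b < m, (dB X b : ℤ) - DD = N * Qv sb nk off offe rows lamP evP a b -
      s * ∑ k ∈ range L.length, ((dgu u (L.getD k 0) a : ℤ) - OV) *
        ((dgu u (L.getD k 0) b : ℤ) - OV) := by
    intro b hb
    rw [hX, rowX_dig hz ha hb]
    unfold Qv
    ring
  have h3 : ∑ b ∈ range m, |N * Qv sb nk off offe rows lamP evP a b -
      s * ∑ k ∈ range L.length, ((dgu u (L.getD k 0) a : ℤ) - OV) *
        ((dgu u (L.getD k 0) b : ℤ) - OV)| = ((∑ b ∈ range m, adf (dB X b) DD : ℕ) : ℤ) := by
    push_cast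
    refine sum_congr rfl fun b hb => ?_
    rw [adf_eq, key b (mem_range.1 hb)]
  rw [h3, ← key a ha]
  have h4 : ((∑ b ∈ range m, adf (dB X b) DD : ℕ) : ℤ) + 2 * DD ≤ 2 * dB X a := by
    have : (∑ b ∈ range m, adf (dB X b) DD) + 2 * DD ≤ 2 * dB X a := h2
    exact_mod_cast this
  linarith

/-! ### the other rows -/

/-- sum of digits -/
noncomputable def dsum (m v : Nat) : Nat := sumN m fun a => lk v a

/-- the row `i` is the combination with the coefficients `vp`, `vn` -/
noncomputable def cmbC (sb n m nk off offe : Nat) (rows : List Nat) (lamP evP : Nat → Nat)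
    (i vp vn : Nat) : Bool :=
  Nat.beq
    (Nat.add (prA sb n nk (nthL rows i) lamP evP i)
      (sumN m fun a => Nat.add (Nat.mul (lk vn a) (prA sb n nk (nthL rows a) lamP evP a))
        (Nat.mul (lk vp a) (prC n nk off offe lamP a))))
    (Nat.add (prC n nk off offe lamP i)
      (sumN m fun a => Nat.add (Nat.mul (lk vp a) (prA sb n nk (nthL rows a) lamP evP a))
        (Nat.mul (lk vn a) (prC n nk off offe lamP a)))) &&
  Nat.ble (Nat.add (Nat.mul (Nat.add (Nat.add (dsum m vp) (dsum m vn)) 1)
    (Nat.add (Nat.add (Nat.shiftLeft 1 sb) (Nat.mul 2 (Nat.mul nk (Nat.shiftLeft 1 128))))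
      (Nat.add off (Nat.mul 2 (Nat.mul offe (Nat.mul nk (Nat.shiftLeft 1 64))))))) 1) BB

theorem cmb_sound {sb n m nk off offe : Nat} {rows : List Nat} {lamP evP : Nat → Nat}
    {i vp vn : Nat} (h : cmbC sb n m nk off offe rows lamP evP i vp vn = true) (j : ℕ) (hj : j < n) :
    Qv sb nk off offe rows lamP evP i j = ∑ a ∈ range m, ((lk vp a : ℤ) - lk vn a) *
      Qv sb nk off offe rows lamP evP a j := by
  unfold cmbC at h
  rw [Bool.and_eq_true] at h
  have h1 := Nat.eq_of_beq_eq_true h.1
  have h2 := Nat.le_of_ble_eq_true h.2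
  have h1' : prA sb n nk (nthL rows i) lamP evP i + sumN m (fun a =>
      lk vn a * prA sb n nk (nthL rows a) lamP evP a + lk vp a * prC n nk off offe lamP a) =
    prC n nk off offe lamP i + sumN m (fun a =>
      lk vp a * prA sb n nk (nthL rows a) lamP evP a + lk vn a * prC n nk off offe lamP a) := h1
  have h2' : (dsum m vp + dsum m vn + 1) * (1 <<< sb + 2 * (nk * 1 <<< 128) +
    (off + 2 * (offe * (nk * 1 <<< 64)))) + 1 ≤ BB := h2
  simp only [Nat.shiftLeft_eq, one_mul] at h2'
  rw [dsum, dsum, sumN_eq, sumN_eq] at h2'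
  rw [sumN_eq, sumN_eq] at h1'
  set W : ℕ := 2 ^ sb + 2 * (nk * 2 ^ 128) + (off + 2 * (offe * (nk * 2 ^ 64))) with hW
  have hA : ∀ a j, vA sb nk (nthL rows a) lamP evP a j ≤ W := fun a j =>
    (vA_le sb nk (nthL rows a) lamP evP a j).trans (Nat.le_add_right _ _)
  have hC : ∀ a j, vC nk off offe lamP a j ≤ W := fun a j =>
    (vC_le nk off offe lamP a j).trans (Nat.le_add_left _ _)
  set x : ℕ → ℕ := fun j => vA sb nk (nthL rows i) lamP evP i j + ∑ a ∈ range m,
    (lk vn a * vA sb nk (nthL rows a) lamP evP a j + lk vp a * vC nk off offe lamP a j) with hx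
  set y : ℕ → ℕ := fun j => vC nk off offe lamP i j + ∑ a ∈ range m,
    (lk vp a * vA sb nk (nthL rows a) lamP evP a j + lk vn a * vC nk off offe lamP a j) with hy
  have e1 : prA sb n nk (nthL rows i) lamP evP i + ∑ a ∈ range m,
      (lk vn a * prA sb n nk (nthL rows a) lamP evP a + lk vp a * prC n nk off offe lamP a) =
      ∑ j ∈ range n, x j * BB ^ j := by
    simp only [prA_eq, prC_eq, hx, add_mul, sum_add_distrib, mul_sum, sum_mul]
    congr 1
    refine congrArg₂ _ ?_ ?_
    · rw [sum_comm]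
      exact sum_congr rfl fun j _ => sum_congr rfl fun a _ => by ring
    · rw [sum_comm]
      exact sum_congr rfl fun j _ => sum_congr rfl fun a _ => by ring
  have e2 : prC n nk off offe lamP i + ∑ a ∈ range m,
      (lk vp a * prA sb n nk (nthL rows a) lamP evP a + lk vn a * prC n nk off offe lamP a) =
      ∑ j ∈ range n, y j * BB ^ j := by
    simp only [prA_eq, prC_eq, hy, add_mul, sum_add_distrib, mul_sum, sum_mul]
    congr 1
    refine congrArg₂ _ ?_ ?_
    · rw [sum_comm]
      exact sum_congr rfl fun j _ => sum_congr rfl fun a _ => by ring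
    · rw [sum_comm]
      exact sum_congr rfl fun j _ => sum_congr rfl fun a _ => by ring
  rw [e1, e2] at h1'
  have bd : ∀ (P Q : ℕ) (c d : ℕ → ℕ) (f g : ℕ → ℕ → ℕ) (j : ℕ), P ≤ W →
      (∀ a, c a ≤ 2 ^ 64) → (∀ a j, f a j ≤ W) → (∀ a j, g a j ≤ W) →
      P + ∑ a ∈ range m, (c a * f a j + d a * g a j) ≤
        (∑ a ∈ range m, c a + ∑ a ∈ range m, d a + 1) * W := by
    intro P _ c d f g j hP _ hf hg
    have k1 : ∑ a ∈ range m, (c a * f a j + d a * g a j) ≤ ∑ a ∈ range m, (c a * W + d a * W) :=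
      sum_le_sum fun a _ => Nat.add_le_add (Nat.mul_le_mul_left _ (hf a j))
        (Nat.mul_le_mul_left _ (hg a j))
    have k2 : ∑ a ∈ range m, (c a * W + d a * W) =
        (∑ a ∈ range m, c a) * W + (∑ a ∈ range m, d a) * W := by
      rw [sum_add_distrib, sum_mul, sum_mul]
    rw [k2] at k1
    have e : (∑ a ∈ range m, c a + ∑ a ∈ range m, d a + 1) * W =
      (∑ a ∈ range m, c a) * W + (∑ a ∈ range m, d a) * W + W := by ring
    omega
  have hxB : ∀ j < n, x j < BB := by
    intro j _
    have k := bd (vA sb nk (nthL rows i) lamP evP i j) 0 (fun a => lk vn a) (fun a => lk vp a)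
      (fun a j => vA sb nk (nthL rows a) lamP evP a j) (fun a j => vC nk off offe lamP a j) j
      (hA i j) (fun a => (lk_lt _ _).le) hA hC
    rw [add_comm (∑ a ∈ range m, lk vn a)] at k
    simp only [hx]
    omega
  have hyB : ∀ j < n, y j < BB := by
    intro j _
    have k := bd (vC nk off offe lamP i j) 0 (fun a => lk vp a) (fun a => lk vn a)
      (fun a j => vA sb nk (nthL rows a) lamP evP a j) (fun a j => vC nk off offe lamP a j) j
      (hC i j) (fun a => (lk_lt _ _).le) hA hC
    simp only [hy]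
    omega
  have h3 := digs_inj BB_pos n x y hxB hyB h1' j hj
  have h4 : (x j : ℤ) = y j := by exact_mod_cast h3
  simp only [hx, hy] at h4
  push_cast at h4
  unfold Qv
  have e5 : ∑ a ∈ range m, ((lk vp a : ℤ) - lk vn a) *
      ((vA sb nk (nthL rows a) lamP evP a j : ℤ) - vC nk off offe lamP a j) =
      ∑ a ∈ range m, ((lk vp a : ℤ) * vA sb nk (nthL rows a) lamP evP a j +
        lk vn a * vC nk off offe lamP a j) -
      ∑ a ∈ range m, ((lk vn a : ℤ) * vA sb nk (nthL rows a) lamP evP a j +
        lk vp a * vC nk off offe lamP a j) := by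
    rw [← sum_sub_distrib]
    exact sum_congr rfl fun a _ => by ring
  rw [e5]
  linarith

/-- symmetry of the rows in a list -/
noncomputable def symX (sb n : Nat) (rows : List Nat) (l : List Nat) : Bool :=
  allF l fun i => allN n fun j => Nat.beq (dgu sb (nthL rows i) j) (dgu sb (nthL rows j) i)

/-- **The whole matrix is positive semidefinite** -/
theorem psd_all {sb n m u N s OV nk off offe : Nat} {rows : List Nat} {lamP evP : Nat → Nat}
    {L : List Nat} {vp vn : Nat → Nat} (hmn : Nat.ble m n = true) (hN : Nat.ble 1 N = true)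
    (hz : szC sb u N s OV nk off offe L.length = true)
    (hsym : ∀ i < n, ∀ j < n, dgu sb (nthL rows i) j = dgu sb (nthL rows j) i)
    (h : ∀ a < m, domX m (rowX sb m u N s OV nk off offe (nthL rows a) lamP evP L a) a = true)
    (hc : ∀ i < n, m ≤ i → cmbC sb n m nk off offe rows lamP evP i (vp i) (vn i) = true)
    (z : ℕ → ℤ) : 0 ≤ ∑ a ∈ range n, ∑ b ∈ range n,
      Qv sb nk off offe rows lamP evP a b * (z a * z b) := by
  have hmn' := Nat.le_of_ble_eq_true hmn
  refine pull2 n m hmn' (Qv sb nk off offe rows lamP evP)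
    (fun i a => if i < m then (if a = i then 1 else 0) else (lk (vp i) a : ℤ) - lk (vn i) a)
    (fun i hi j hj => Qv_symm (hsym i hi j hj)) ?_
    (piv_sound hN hz (fun i hi j hj => hsym i (by omega) j (by omega)) h) z
  intro i hi j hj
  by_cases him : i < m
  · simp only [if_pos him, ite_mul, one_mul, zero_mul]
    rw [sum_ite_eq' (range m) i, if_pos (mem_range.2 him)]
  · simp only [if_neg him]
    exact cmb_sound (hc i hi (by omega)) j hj

end Pool.Agent.AKZ
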