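import Pool.Agent.AKZ.Fin
import Pool.Agent.AKZ.Psd

set_option autoImplicit false

/-!
# Certificates from packed data

The types of a free point are grouped in orbits of the symmetries of the roots; the blocks and the
multipliers are stored by orbit.
-/

namespace Pool.Agent.AKZ

open Finset Pool.Agent.AKU

/-- element of a list -/
noncomputable def nthR {α : Type} (d : α) (l : List α) (i : Nat) : α :=
  List.rec (motive := fun _ => Nat → α) (fun _ => d)
    (fun x _ ih i => Nat.rec (motive := fun _ => α) x (fun k _ => ih k) i) l i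

/-- packed data of a certificate; entries have 64 bits if nothing else is said -/
structure Dt where
  nt : Nat
  TAB : Nat
  /-- codes of the types -/
  tcP : Nat
  EE : List (List (List Rx))
  /-- number of orbits -/
  no : Nat
  /-- orbit of a type -/
  orP : Nat
  /-- number of flags of an orbit -/
  nbP : Nat
  sb : Nat
  /-- rows of the blocks, by orbit -/
  BL : List (List Nat)
  off : Nat
  q0L : List Nat
  off0 : Nat
  muP : Nat
  offm : Nat
  nuL : List Nat
  offn : Nat
  nk : Nat
  /-- for every root: its number in the representative of the orbit, by type -/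
  rkL : List Nat
  /-- multipliers of the exchange of one root, `nk * orbit + root` -/
  lamL : List Nat
  evL : List Nat
  offe : Nat
  mvL : List Nat
  nj : Nat
  /-- for every row: its number in the representative, by type -/
  jkL : List Nat
  /-- `nj * orbit + j` -/
  ovL : List Nat
  fpL : List Nat
  fmL : List Nat
  gmP : Nat
  dlP : Nat
  /-- second weight: multipliers of the exchange of two roots, value, weights of the codes -/
  mzL : List Nat
  gzP : Nat
  wzP : Nat
  /-- weights of the codes, 12 bits -/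
  wvP : Nat
  wyP : Nat
  wt : Nat
  e : Nat
  h0 : Nat
  h1 : Nat
  /-- subset rows -/
  l : List (Nat × Nat)
  /-- second order rows, with offset `oz` -/
  zL : List Nat
  oz : Nat

/-- digit of a weight -/
def gk (g p : Nat) : Nat := Nat.mod (Nat.shiftRight g (Nat.mul 8 p)) 256

/-- the subset rows, for the kernel -/
noncomputable def u3K (l : List (Nat × Nat)) (p q r : Nat) : Nat :=
  List.rec (motive := fun _ => Nat) 0 (fun a _ ih => Nat.add (Nat.mul a.1
    (Nat.mul (Nat.mul (gk a.2 p) (gk a.2 q)) (gk a.2 r))) ih) l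

theorem u3K_eq (l : List (Nat × Nat)) (p q r : Nat) : u3K l p q r = u3L l p q r := by
  induction l with
  | nil => rfl
  | cons a l ih =>
    have e : u3K (a :: l) p q r = a.1 * (gk a.2 p * gk a.2 q * gk a.2 r) + u3K l p q r := rfl
    rw [e, ih]
    rfl

namespace Dt

variable (D : Dt)

def orb (p : Nat) : Nat := lk D.orP p

/-- entry of the second order rows -/
noncomputable def zz (p q : Nat) : Nat := lk (nthL D.zL (mn p q)) (mx p q)

/-- the certificate -/
noncomputable def T : Tb where
  nt := D.nt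
  TAB := D.TAB
  vp p q s := pairB D.TAB (lk D.tcP p) (lk D.tcP q) s
  E p q := nthR [] (nthR [] D.EE p) q
  nb p := Bool.rec (motive := fun _ => Nat) 0 (lk D.nbP (D.orb p)) (Nat.ble (Nat.add p 1) D.nt)
  sb := D.sb
  sm := Nat.shiftLeft 1 D.sb
  blk p := nthR [] D.BL (D.orb p)
  off := D.off
  q0 p q := lk (nthL D.q0L p) q
  off0 := D.off0
  mu p := lk D.muP p
  offm := D.offm
  nu k p := lk (nthL D.nuL k) p
  offn := D.offn
  nk := D.nk
  lam k p j := lk (nthL D.lamL (Nat.add (Nat.mul D.nk (D.orb p)) (lk (nthL D.rkL k) p))) j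
  ev k p j := lk (nthL D.evL (Nat.add (Nat.mul D.nk (D.orb p)) (lk (nthL D.rkL k) p))) j
  offe := D.offe
  mv k p := nthL D.mvL (Nat.add (Nat.mul 3 (D.orb p)) (lk (nthL D.rkL k) p))
  nj := D.nj
  ov j p := nthL D.ovL (Nat.add (Nat.mul D.nj (D.orb p)) (lk (nthL D.jkL j) p))
  fp j r := lk (nthL D.fpL j) r
  fm j r := lk (nthL D.fmL j) r
  gm r := lk D.gmP r
  mz k p := nthL D.mzL (Nat.add (Nat.mul 3 (D.orb p)) (lk (nthL D.rkL k) p))
  gz r := lk D.gzP r
  wz K := Nat.mod (Nat.shiftRight D.wzP (Nat.mul 12 K)) 4096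
  dl r := lk D.dlP r
  wv K := Nat.mod (Nat.shiftRight D.wvP (Nat.mul 12 K)) 4096
  wy p := lk D.wyP p
  wt := D.wt
  e := D.e
  h0 := D.h0
  h1 := D.h1
  u3 p q r := Nat.add (u3K D.l p q r) (Nat.add (Nat.add (D.zz p q) (D.zz q r)) (D.zz p r))
  ln := 4
  ld := 9

theorem hvp (p q s : Nat) :
    D.T.vp p q s = pairB D.T.TAB (lk D.tcP p) (lk D.tcP q) s := rfl

theorem nb_eq {p : Nat} (hp : p < D.nt) : D.T.nb p = lk D.nbP (D.orb p) := by
  have h : D.T.nb p = Bool.rec (motive := fun _ => Nat) 0 (lk D.nbP (D.orb p))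
    (Nat.ble (p + 1) D.nt) := rfl
  rw [h, Nat.ble_eq_true_of_le hp]

theorem nb_out {p : Nat} (hp : ¬ p < D.nt) : D.T.nb p = 0 := by
  have h : D.T.nb p = Bool.rec (motive := fun _ => Nat) 0 (lk D.nbP (D.orb p))
    (Nat.ble (p + 1) D.nt) := rfl
  have h2 : Nat.ble (p + 1) D.nt = false := by
    rw [Bool.eq_false_iff]
    intro h3
    exact hp (Nat.le_of_ble_eq_true h3)
  rw [h, h2]

theorem mz_nil (h : D.mzL = []) (k p : Nat) : D.T.mz k p = 0 := by
  show nthL D.mzL _ = 0
  rw [h]
  rfl

/-! ### the symmetric parts -/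

theorem zz_symm (p q : Nat) : D.zz p q = D.zz q p := by
  unfold zz
  rw [mn_eq, mn_eq, mx_eq, mx_eq, min_comm, max_comm]

theorem usym : D.T.USym := by
  intro p q r
  have e : ∀ p q r, D.T.u3 p q r = u3L D.l p q r + (D.zz p q + D.zz q r + D.zz p r) := by
    intro p q r
    rw [← u3K_eq]
    rfl
  rw [e, e, e, (u3L_sym D.l p q r).1, (u3L_sym D.l p q r).2, D.zz_symm q p, D.zz_symm r q]
  constructor <;> ring

/-! ### second order rows -/

/-- the matrix of the second order rows -/
noncomputable def Z (a b : ℕ) : ℤ := if a < D.nt ∧ b < D.nt then (D.zz a b : ℤ) - D.oz else 0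

theorem u3_eq {p q r : Nat} (hp : p < D.nt) (hq : q < D.nt) (hr : r < D.nt) :
    (D.T.u3 p q r : ℤ) = ((3 * D.oz : ℕ) : ℤ) + u3L D.l p q r + (D.Z p q + D.Z q r + D.Z p r) := by
  have e : D.T.u3 p q r = u3L D.l p q r + (D.zz p q + D.zz q r + D.zz p r) := by
    rw [← u3K_eq]
    rfl
  unfold Z
  rw [e, if_pos ⟨hp, hq⟩, if_pos ⟨hq, hr⟩, if_pos ⟨hp, hr⟩]
  push_cast
  ring

end Dt

/-- check of the symmetry of rows of a list -/
noncomputable def symY (sb : Nat) (rows : List Nat) (l : List Nat) : Bool :=
  allM l fun i => allI rows (fun j x => Nat.beq (dgu sb x i) (dgu sb (nthL rows i) j)) 0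

theorem symY_sound {sb : Nat} {rows l : List Nat} (h : symY sb rows l = true) {i j : ℕ}
    (hi : i ∈ l) (hj : j < rows.length) :
    dgu sb (nthL rows i) j = dgu sb (nthL rows j) i := by
  have h1 := allI_iff (allM_iff.1 h i hi) j hj
  rw [zero_add] at h1
  exact (Nat.eq_of_beq_eq_true h1).symm

/-- a list contains all numbers below a bound -/
noncomputable def memN (l : List Nat) (a : Nat) : Bool :=
  List.rec (motive := fun _ => Bool) false
    (fun x _ ih => Bool.rec (motive := fun _ => Bool) ih true (Nat.beq x a)) l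

theorem memN_sound {l : List Nat} {a : Nat} (h : memN l a = true) : a ∈ l := by
  induction l with
  | nil => simp [memN] at h
  | cons x l ih =>
    have e : memN (x :: l) a = Bool.rec (motive := fun _ => Bool) (memN l a) true (Nat.beq x a) :=
      rfl
    rw [e] at h
    cases hb : Nat.beq x a
    · rw [hb] at h
      exact List.mem_cons_of_mem _ (ih h)
    · rw [Nat.eq_of_beq_eq_true hb]
      exact List.mem_cons_self

/-- the numbers from `a` to `a + k - 1` -/
def rg (a : Nat) : Nat → List Nat
  | 0 => []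
  | k + 1 => a :: rg (a + 1) k

theorem mem_rg {a k b : Nat} : b ∈ rg a k ↔ a ≤ b ∧ b < a + k := by
  induction k generalizing a with
  | zero => simp [rg]
  | succ k ih =>
    rw [rg, List.mem_cons, ih]
    omega

end Pool.Agent.AKZ
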