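import Pool.Agent.AKU.PsdK

set_option autoImplicit false

/-!
# Rooted certificates with rows at pairs of free points: the engine

Three roots and three free points, as in `AKU`, `AKW`.  A free point has a type `p < nt`; a pair
of free points of types `p`, `q` has a code `s < 512`, whose three octal digits are the states of
the triples (root, first point, second point).  Besides the rows of `AKW` there are rows with a
multiplier at a pair of free points, summed over the third free point: two rows for the value of a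
functional at the three roots, and the exchange of two roots for the two points of the pair.
-/

namespace Pool.Agent.AKZ

open Finset Pool.Agent.AKU

/-- record of a pair of free points: code, its digits, pattern of the non-acute triples, flag
index of the second point seen from the first, flag index of the first seen from the second,
the rows of these flags, the multipliers of the exchange of two roots (first weight, plus
`2 ^ 192` times that of the second weight), packed constants and slope of the rows that do not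
depend on the state of the triple -/
structure Rx where
  s : Nat
  a : Nat
  b : Nat
  c : Nat
  n : Nat
  f : Nat
  g : Nat
  u : Nat
  w : Nat
  m0 : Nat
  m1 : Nat
  m2 : Nat
  al : Nat
  be : Nat

/-- flag index from a list of records -/
noncomputable def fs (l : List Rx) (s : Nat) : Nat :=
  List.rec (motive := fun _ => Nat) 99999
    (fun x _ ih => Bool.rec (motive := fun _ => Nat) ih x.f (Nat.beq x.s s)) l

/-- entry of a packed row -/
def lk (P k : Nat) : Nat := Nat.mod (Nat.shiftRight P (Nat.mul 64 k)) 18446744073709551616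

/-- entry of a packed row with entries of `sb` bits, `sm = 2 ^ sb` -/
def lb (sb sm P k : Nat) : Nat := Nat.mod (Nat.shiftRight P (Nat.mul sb k)) sm

/-- the base `2 ^ 64` -/
def XX : Nat := 18446744073709551616

/-- `2 ^ 384 - 1` -/
def MK : Nat := 39402006196394479212279040100143613805079739270465446667948293404245721771497210611414266254884915640806627990306815

/-- `384 * 512` -/
def ZA : Nat := 196608

/-- `384 * 64` -/
def ZB : Nat := 24576

/-- `2 ^ ZA - 1` -/
def MA : Nat := Nat.sub (Nat.pow 2 ZA) 1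

/-- `2 ^ ZB - 1` -/
def MB : Nat := Nat.sub (Nat.pow 2 ZB) 1

/-- state of `(q, r, p)` from that of `(p, q, r)`, as a table -/
def rot (d : Nat) : Nat := (14140504 >>> (3 * d)) % 8

/-- code of the four points `r, x, z, y` from that of `r, x, y, z` -/
def p23 (K : Nat) : Nat :=
  512 * (K / 64 % 8) + 64 * (K / 512) + 8 * rvd (K / 8 % 8) + rvd (K % 8)

/-- code of the four points `r, y, z, x` from that of `r, x, y, z` -/
def p31 (K : Nat) : Nat :=
  512 * (K / 8 % 8) + 64 * rvd (K / 512) + 8 * rvd (K / 64 % 8) + rot (K % 8)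

/-- the data of a certificate; `q0, mu, nu, ev` are stored with offsets -/
structure Tb where
  nt : Nat
  TAB : Nat
  vp : Nat → Nat → Nat → Bool
  E : Nat → Nat → List Rx
  nb : Nat → Nat
  /-- number of bits of the entries of the blocks -/
  sb : Nat
  /-- `2 ^ sb` -/
  sm : Nat
  /-- rows used by the main check: positive semidefinite part plus rows -/
  blk : Nat → List Nat
  off : Nat
  q0 : Nat → Nat → Nat
  off0 : Nat
  mu : Nat → Nat
  offm : Nat
  nu : Nat → Nat → Nat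
  offn : Nat
  nk : Nat
  lam : Nat → Nat → Nat → Nat
  ev : Nat → Nat → Nat → Nat
  offe : Nat
  /-- multipliers of the exchange of two roots, by flag -/
  mv : Nat → Nat → Nat
  /-- number of the rows at pairs that only depend on the type of the third point -/
  nj : Nat
  /-- their multipliers, by flag -/
  ov : Nat → Nat → Nat
  /-- their values are `fp - fm` -/
  fp : Nat → Nat → Nat
  fm : Nat → Nat → Nat
  /-- the value to which the exchange of two roots is compared -/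
  gm : Nat → Nat
  /-- the same for the second weight: multipliers, value, weight of a code -/
  mz : Nat → Nat → Nat
  gz : Nat → Nat
  wz : Nat → Nat
  /-- class of a type -/
  dl : Nat → Nat
  /-- weight of a code of four points -/
  wv : Nat → Nat
  /-- weight of a type -/
  wy : Nat → Nat
  /-- both weights of a code and of its two rotations, in one number -/
  wt : Nat
  e : Nat
  h0 : Nat
  h1 : Nat
  /-- multiplier of the subset rows -/
  u3 : Nat → Nat → Nat → Nat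
  ln : Nat
  ld : Nat

namespace Tb

variable (T : Tb)

noncomputable def fl (p q s : Nat) : Nat := fs (T.E p q) s

/-- matrix of the block with no further point -/
def Q0 (p q : Nat) : ℤ := if p < T.nt ∧ q < T.nt then (T.q0 p q : ℤ) - T.off0 else 0

/-- matrix used by the main check -/
noncomputable def Mt (p i j : Nat) : ℤ :=
  if i < T.nb p ∧ j < T.nb p then (lb T.sb T.sm (nthL (T.blk p) i) j : ℤ) - T.off else 0

/-- value of the row `k` at a flag -/
def Ev (k p i : Nat) : ℤ := (T.ev k p i : ℤ) - T.offe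

/-- the rows at the flags `i` (summation) and `j` (multiplier) -/
def XO (p i j : Nat) : ℤ :=
  if i < T.nb p ∧ j < T.nb p then - ∑ k ∈ range T.nk, (T.lam k p j : ℤ) * T.Ev k p i else 0

/-- matrix of the block of the type `p` -/
noncomputable def Qt (p i j : Nat) : ℤ := T.Mt p i j - (T.XO p i j + T.XO p j i)

/-- multiplier of the degree row of a free point of type `p` -/
def Mu (p : Nat) : ℤ := (T.mu p : ℤ) - T.offm

/-- multiplier of the degree row of the root `k`, at a free point of type `p` -/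
def Nu (k p : Nat) : ℤ := (T.nu k p : ℤ) - T.offn

/-- the degree rows of the three roots at a point of type `p`; `s` is the code of the other two -/
def NN (p s : Nat) : ℤ :=
  T.Nu 0 p * (4 - 9 * na (dg0 s)) + T.Nu 1 p * (4 - 9 * na (dg1 s)) +
    T.Nu 2 p * (4 - 9 * na (dg2 s))

/-- the certificate function at three free points of types `p, q, r`, with pair codes `A, B, C`
and non-acute indicator `n`; without the rows at pairs -/
noncomputable def VV (p q r A B C n : Nat) : ℤ :=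
  (T.Q0 p q + T.Q0 p r + T.Q0 q r) +
  (T.Mt p (T.fl p q A) (T.fl p r B) + T.Mt q (T.fl q p (rv3 A)) (T.fl q r C) +
    T.Mt r (T.fl r p (rv3 B)) (T.fl r q (rv3 C))) +
  (T.Mu p + T.Mu q + T.Mu r) * (4 - 9 * n) + 3 * T.u3 p q r * (T.ld * n - T.ln) +
  (T.NN p C + T.NN q B + T.NN r A)

/-- multiplier of the exchange of the roots different from `k` for the points of the pair -/
noncomputable def mm (k p q s : Nat) : Nat := lk (T.mv k p) (T.fl p q s)

/-- the same for the second weight -/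
noncomputable def nn (k p q s : Nat) : Nat := lk (T.mz k p) (T.fl p q s)

/-- multipliers of the rows which only depend on the type of the third point -/
noncomputable def oo (j p q s : Nat) : Nat := lk (T.ov j p) (T.fl p q s)

/-- value of the row `j` at a third point of type `r` -/
def FJ (j r : Nat) : ℤ := (T.fp j r : ℤ) - T.fm j r

/-- the rows which only depend on the type of the third point -/
noncomputable def GO (p q s r : Nat) : ℤ := ∑ j ∈ range T.nj, (T.oo j p q s : ℤ) * T.FJ j r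

/-- the rows at the pair of the first two points; `n0 n1 n2` are the codes of four points -/
noncomputable def PP (p q r A n0 n1 n2 : Nat) : ℤ :=
  T.GO p q A r +
  ((T.mm 0 p q A : ℤ) * (T.gm r - T.wv n0) + (T.mm 1 p q A : ℤ) * (T.gm r - T.wv n1) +
    (T.mm 2 p q A : ℤ) * (T.gm r - T.wv n2)) +
  ((T.nn 0 p q A : ℤ) * (T.gz r - T.wz n0) + (T.nn 1 p q A : ℤ) * (T.gz r - T.wz n1) +
    (T.nn 2 p q A : ℤ) * (T.gz r - T.wz n2))

/-- no second weight -/
theorem PP_zz (h : ∀ k p, T.mz k p = 0) (p q r A n0 n1 n2 : Nat) :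
    T.PP p q r A n0 n1 n2 = T.GO p q A r +
  ((T.mm 0 p q A : ℤ) * (T.gm r - T.wv n0) + (T.mm 1 p q A : ℤ) * (T.gm r - T.wv n1) +
    (T.mm 2 p q A : ℤ) * (T.gm r - T.wv n2)) := by
  have e : ∀ k, T.nn k p q A = 0 := by
    intro k
    unfold nn
    rw [h]
    show (0 >>> (64 * _)) % _ = 0
    rw [Nat.zero_shiftRight, Nat.zero_mod]
  unfold PP
  rw [e, e, e]
  simp

/-- the rows at the pair of the first two points -/
noncomputable def PX (p q r A B C d : Nat) : ℤ :=
  T.PP p q r A (512 * dg0 A + 64 * dg0 B + 8 * dg0 C + d)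
    (512 * dg1 A + 64 * dg1 B + 8 * dg1 C + d) (512 * dg2 A + 64 * dg2 B + 8 * dg2 C + d)

/-- all rows at pairs -/
noncomputable def XV (p q r A B C d : Nat) : ℤ :=
  T.PX p q r A B C d + T.PX p r q B A (rv3 C) (rvd d) +
    T.PX q r p C (rv3 A) (rv3 B) (rot d)

/-- the three tests with the state `d` of the triple of free points -/
def tst (A B C d : Nat) : Bool :=
  T.TAB.testBit (512 * dg0 A + 64 * dg0 B + 8 * dg0 C + d) &&
  T.TAB.testBit (512 * dg1 A + 64 * dg1 B + 8 * dg1 C + d) &&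
  T.TAB.testBit (512 * dg2 A + 64 * dg2 B + 8 * dg2 C + d)

end Tb

/-! ### loops -/

noncomputable def allL (l : List Rx) (g : Rx → Bool) : Bool :=
  List.rec (motive := fun _ => Bool) true
    (fun x _ ih => Bool.rec (motive := fun _ => Bool) false ih (g x)) l

theorem allL_iff {l : List Rx} {g : Rx → Bool} : allL l g = true ↔ ∀ x ∈ l, g x = true := by
  induction l with
  | nil => simp [allL]
  | cons x l ih =>
    have : allL (x :: l) g = Bool.rec (motive := fun _ => Bool) false (allL l g) (g x) := rfl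
    rw [this, List.forall_mem_cons]
    cases g x
    · simp
    · simp [ih]

/-- all binary digits of `m` -/
noncomputable def allD (g : Nat → Bool) (f : Nat) : Nat → Bool :=
  Nat.rec (motive := fun _ => Nat → Bool) (fun m => Nat.beq m 0)
    (fun _ ih m => Bool.rec (motive := fun _ => Bool)
      (Bool.rec (motive := fun _ => Bool) false
        (ih (Nat.sub m (Nat.shiftLeft 1 (Nat.log2 m)))) (g (Nat.log2 m)))
      true (Nat.beq m 0)) f

theorem allD_sound {g : Nat → Bool} (f : Nat) : ∀ m : Nat, allD g f m = true →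
    ∀ d, m.testBit d = true → g d = true := by
  induction f with
  | zero =>
    intro m h d hd
    have h0 : m = 0 := Nat.eq_of_beq_eq_true h
    rw [h0] at hd
    simp at hd
  | succ f ih =>
    intro m h d hd
    have e : allD g (f + 1) m = Bool.rec (motive := fun _ => Bool)
      (Bool.rec (motive := fun _ => Bool) false
        (allD g f (m - 1 <<< Nat.log2 m)) (g (Nat.log2 m))) true (Nat.beq m 0) := rfl
    rw [e] at h
    have hm0 : m ≠ 0 := by
      rintro rfl
      simp at hd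
    have hb : Nat.beq m 0 = false := by
      rw [Bool.eq_false_iff]
      intro h0
      exact hm0 (Nat.eq_of_beq_eq_true h0)
    rw [hb] at h
    cases hg : g (Nat.log2 m)
    · rw [hg] at h
      exact absurd h (by simp)
    · rw [hg] at h
      have h1 : allD g f (m - 1 <<< Nat.log2 m) = true := h
      by_cases hdl : d = Nat.log2 m
      · rw [hdl]
        exact hg
      · refine ih _ h1 d ?_
        have hle : 2 ^ Nat.log2 m ≤ m := Nat.log2_self_le hm0
        have hlt : m < 2 ^ (Nat.log2 m + 1) := Nat.lt_log2_self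
        rw [Nat.shiftLeft_eq, one_mul]
        rcases lt_or_gt_of_ne hdl with hd1 | hd1
        · have e2 : m = 2 ^ Nat.log2 m + (m - 2 ^ Nat.log2 m) := by omega
          rw [e2, Nat.testBit_two_pow_add_gt hd1] at hd
          exact hd
        · have : m.testBit d = false := by
            refine Nat.testBit_lt_two_pow (lt_of_lt_of_le hlt ?_)
            exact Nat.pow_le_pow_right (by norm_num) hd1
          rw [this] at hd
          exact absurd hd (by simp)

/-- mask of the states `d` allowed by the three roots -/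
def msk (t0 t1 t2 : Nat) (C : Rx) : Nat :=
  Nat.land (Nat.land (Nat.shiftRight t0 (Nat.mul 8 C.a)) (Nat.shiftRight t1 (Nat.mul 8 C.b)))
    (Nat.land (Nat.shiftRight t2 (Nat.mul 8 C.c)) 255)

/-- entry of the table of weights, shifted -/
def ent (t a d : Nat) : Nat := Nat.land (Nat.shiftRight t (Nat.mul 384 (Nat.add (Nat.mul 8 a) d))) MK

/-- the terms of the exchange of two roots, for all three pairs -/
def gco (v0 v1 v2 M0 M1 M2 : Nat) (C : Rx) (d : Nat) : Nat :=
  Nat.mod (Nat.shiftRight (Nat.add (Nat.add (Nat.mul (ent v0 C.a d) M0) (Nat.mul (ent v1 C.b d) M1))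
    (Nat.mul (ent v2 C.c d) M2)) 320) 18446744073709551616

/-- `kk`: the states for which the inequality without `pen` is needed -/
noncomputable def chkC (sb sm kk t0 t1 t2 v0 v1 v2 M0 M1 M2 dp wp rq rr L R pen wnp : Nat)
    (LC : List Rx) : Bool :=
  allL LC fun C => Bool.rec (motive := fun _ => Bool)
    (Bool.rec (motive := fun _ => Bool)
      (allD (fun d => Nat.ble (Nat.add (Nat.add L (Nat.add (lb sb sm rq C.f) (lb sb sm rr C.g)))
          (Nat.add (lk C.al dp) (Nat.mul C.be wp)))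
        (Nat.add (Nat.add R (lk wnp C.n))
          (Nat.add (gco v0 v1 v2 (Nat.add M0 C.m0) (Nat.add M1 C.m1) (Nat.add M2 C.m2) C d)
            (Nat.mul pen (Nat.sub 1 (Nat.land (Nat.shiftRight kk d) 1)))))) 8 (msk t0 t1 t2 C))
      (Nat.ble (Nat.add (Nat.add L (Nat.add (lb sb sm rq C.f) (lb sb sm rr C.g)))
          (Nat.add (lk C.al dp) (Nat.mul C.be wp)))
        (Nat.add (Nat.add R (lk wnp C.n)) (Bool.rec (motive := fun _ => Nat) 0 pen
          (Nat.beq (Nat.land (msk t0 t1 t2 C) kk) 0))))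
      (Nat.beq (Nat.add (Nat.add (Nat.add M0 C.m0) (Nat.add M1 C.m1)) (Nat.add M2 C.m2)) 0))
    true (Nat.beq (msk t0 t1 t2 C) 0)

noncomputable def chkB (sb sm kk t0 t1 t2 v0 v1 v2 A0 A1 A2 dp dq wp wq rp rq L R pen wnp wnq : Nat)
    (LB LC : List Rx) : Bool :=
  allL LB fun B =>
    chkC sb sm kk (Nat.shiftRight t0 (Nat.mul 64 B.a)) (Nat.shiftRight t1 (Nat.mul 64 B.b))
      (Nat.shiftRight t2 (Nat.mul 64 B.c))
      (Nat.land (Nat.shiftRight v0 (Nat.mul 24576 B.a)) MB)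
      (Nat.land (Nat.shiftRight v1 (Nat.mul 24576 B.b)) MB)
      (Nat.land (Nat.shiftRight v2 (Nat.mul 24576 B.c)) MB)
      (Nat.mul (Nat.add A0 B.m0) XX) (Nat.mul (Nat.add A1 B.m1) XX) (Nat.mul (Nat.add A2 B.m2) XX)
      dp wp rq B.w (Nat.add (Nat.add L (lb sb sm rp B.f)) (Nat.add (lk B.al dq) (Nat.mul B.be wq)))
      (Nat.add R (lk wnq B.n)) pen wnp LC

/-- `wnp, wnq, wnr`: packed root terms; `dp, dq, dr` and `wp, wq, wr`: classes and weights of the
types -/
noncomputable def chkA (sb sm kk TAB wt L R pen dp dq dr wp wq wr wnp wnq wnr : Nat)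
    (LA LB LC : List Rx) : Bool :=
  allL LA fun A =>
    chkB sb sm kk (Nat.shiftRight TAB (Nat.mul 512 A.a)) (Nat.shiftRight TAB (Nat.mul 512 A.b))
      (Nat.shiftRight TAB (Nat.mul 512 A.c))
      (Nat.land (Nat.shiftRight wt (Nat.mul 196608 A.a)) MA)
      (Nat.land (Nat.shiftRight wt (Nat.mul 196608 A.b)) MA)
      (Nat.land (Nat.shiftRight wt (Nat.mul 196608 A.c)) MA)
      (Nat.mul A.m0 XX) (Nat.mul A.m1 XX) (Nat.mul A.m2 XX) dp dq wp wq A.u A.w
      (Nat.add L (Nat.add (lk A.al dr) (Nat.mul A.be wr)))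
      (Nat.add R (lk wnr A.n)) pen wnp wnq LB LC

namespace Tb

variable (T : Tb)

/-- the records are right; `wn p` is the packed table `offw - NN p` -/
structure Ok (offw offa offb : Nat) (wn : Nat → Nat) : Prop where
  mem : ∀ p q, p ≤ q → q < T.nt → ∀ s < 512, T.vp p q s = true → ∃ x ∈ T.E p q,
    (x.a = dg0 s ∧ x.b = dg1 s ∧ x.c = dg2 s ∧ x.n = pat s ∧ x.f = T.fl p q s ∧
      x.g = T.fl q p (rv3 s) ∧ x.f < T.nb p ∧ x.g < T.nb q ∧ x.u = nthL (T.blk p) x.f ∧
      x.w = nthL (T.blk q) x.g) ∧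
    ((x.m0 = T.mm 0 p q s + T.nn 0 p q s * XX ^ 3 ∧ x.m1 = T.mm 1 p q s + T.nn 1 p q s * XX ^ 3 ∧
      x.m2 = T.mm 2 p q s + T.nn 2 p q s * XX ^ 3) ∧
      (∀ r < T.nt, (lk x.al (T.dl r) : ℤ) + x.be * T.wy r = offa + offb * T.wy r +
        T.GO p q s r + (T.mm 0 p q s + T.mm 1 p q s + T.mm 2 p q s) * T.gm r +
          (T.nn 0 p q s + T.nn 1 p q s + T.nn 2 p q s) * T.gz r) ∧
      ∀ k < 3, T.mm k p q s < 140737488355328 ∧ T.nn k p q s < 140737488355328)
  pen : ∀ p < T.nt, ∀ n < 8, lk (wn p) n + 4 * (T.nu 0 p + T.nu 1 p + T.nu 2 p) +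
    9 * T.offn * (n % 2 + n / 2 % 2 + n / 4) =
    offw + 12 * T.offn + 9 * (T.nu 0 p * (n % 2) + T.nu 1 p * (n / 2 % 2) + T.nu 2 p * (n / 4))
  wtb : ∀ K < 4096, T.TAB.testBit K = true → Nat.land (Nat.shiftRight T.wt (Nat.mul 384 K)) MK =
    T.wz K + T.wz (p23 K) * XX + T.wz (p31 K) * XX ^ 2 + T.wv K * XX ^ 3 + T.wv (p23 K) * XX ^ 4 +
      T.wv (p31 K) * XX ^ 5
  wvb : ∀ K < 4096, T.wv K < 4096 ∧ T.wz K < 4096

/-- the check for three types -/
noncomputable def chkT (offw offa offb : Nat) (wn : Nat → Nat) (p q r : Nat) : Bool :=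
  Bool.rec (motive := fun _ => Bool)
    (chkA T.sb T.sm 238 T.TAB T.wt
      ((T.q0 p q + T.q0 p r + T.q0 q r) + (15 * T.offm + 3 * offw + 3 * (T.ld * T.u3 p q r)))
      (3 * T.off0 + (5 * (T.mu p + T.mu q + T.mu r) + 3 * (T.ln * T.u3 p q r)) +
        (3 * T.off + (3 * offa + offb * (T.wy p + T.wy q + T.wy r))))
      ((27 * T.offm + 3 * (T.ld * T.u3 p q r)) - 9 * (T.mu p + T.mu q + T.mu r))
      (T.dl p) (T.dl q) (T.dl r) (T.wy p) (T.wy q) (T.wy r) (wn p) (wn q) (wn r)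
      (T.E p q) (T.E p r) (T.E q r))
    (chkA T.sb T.sm 17 T.TAB T.wt
      ((T.q0 p q + T.q0 p r + T.q0 q r) + (4 * (T.mu p + T.mu q + T.mu r) + 3 * offw))
      (3 * T.off0 + (12 * T.offm + 3 * (T.ln * T.u3 p q r)) +
        (3 * T.off + (3 * offa + offb * (T.wy p + T.wy q + T.wy r))))
      (9 * (T.mu p + T.mu q + T.mu r) - (27 * T.offm + 3 * (T.ld * T.u3 p q r)))
      (T.dl p) (T.dl q) (T.dl r) (T.wy p) (T.wy q) (T.wy r) (wn p) (wn q) (wn r)
      (T.E p q) (T.E p r) (T.E q r))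
    (Nat.ble (27 * T.offm + 3 * (T.ld * T.u3 p q r)) (9 * (T.mu p + T.mu q + T.mu r)))

end Tb

theorem testBit_msk (t0 t1 t2 : Nat) (C : Rx) (d : Nat) (hd : d < 8) :
    (msk t0 t1 t2 C).testBit d = (t0.testBit (8 * C.a + d) && t1.testBit (8 * C.b + d) &&
      t2.testBit (8 * C.c + d)) := by
  have e : msk t0 t1 t2 C = ((t0 >>> (8 * C.a)) &&& (t1 >>> (8 * C.b))) &&&
    ((t2 >>> (8 * C.c)) &&& 255) := rfl
  have h255 : (255 : Nat).testBit d = true := by
    interval_cases d <;> decide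
  rw [e]
  simp only [Nat.testBit_and, Nat.testBit_shiftRight, h255, Bool.and_true]

theorem beq0_of_testBit {m d : Nat} (hm : m.testBit d = true) : Nat.beq m 0 = false := by
  rw [Bool.eq_false_iff]
  intro h0
  have : m = 0 := Nat.eq_of_beq_eq_true h0
  rw [this] at hm
  simp at hm

/-- digits of shifted and reduced numbers -/
theorem low (x n s m : Nat) (h : s + m ≤ n) :
    ((x % 2 ^ n) >>> s) % 2 ^ m = (x >>> s) % 2 ^ m := by
  apply Nat.eq_of_testBit_eq
  intro i
  simp only [Nat.testBit_mod_two_pow, Nat.testBit_shiftRight]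
  by_cases hi : i < m
  · have : s + i < n := by omega
    simp [hi, this]
  · simp [hi]

theorem land_pow (x n : Nat) : Nat.land x (Nat.sub (Nat.pow 2 n) 1) = x % 2 ^ n :=
  Nat.and_two_pow_sub_one_eq_mod x n

set_option exponentiation.threshold 1000 in
theorem MK_def : MK = 2 ^ 384 - 1 := by
  unfold MK
  norm_num

theorem land_MK (x : Nat) : Nat.land x MK = x % 2 ^ 384 := by
  have e : MK = 2 ^ 384 - 1 := MK_def
  rw [e]
  exact Nat.and_two_pow_sub_one_eq_mod x 384

theorem land_of (x n m : Nat) (h : m = Nat.sub (Nat.pow 2 n) 1) : Nat.land x m = x % 2 ^ n := by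
  subst h
  exact land_pow x n

theorem MA_def : MA = Nat.sub (Nat.pow 2 ZA) 1 := by delta MA; exact Eq.refl _

theorem MB_def : MB = Nat.sub (Nat.pow 2 ZB) 1 := by delta MB; exact Eq.refl _

theorem land_MA (x : Nat) : Nat.land x MA = x % 2 ^ ZA := land_of x ZA MA MA_def

theorem land_MB (x : Nat) : Nat.land x MB = x % 2 ^ ZB := land_of x ZB MB MB_def

theorem ent_eq (wt a b c d : Nat) (hb : b < 8) (hc : c < 8) (hd : d < 8) :
    ent (Nat.land (Nat.shiftRight (Nat.land (Nat.shiftRight wt (Nat.mul 196608 a)) MA)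
      (Nat.mul 24576 b)) MB) c d =
    Nat.land (Nat.shiftRight wt (Nat.mul 384 (512 * a + 64 * b + 8 * c + d))) MK := by
  unfold ent
  rw [land_MK, land_MK, land_MB, land_MA]
  show (((((wt >>> (196608 * a)) % 2 ^ ZA) >>> (24576 * b)) % 2 ^ ZB) >>>
    (384 * (8 * c + d))) % 2 ^ 384 = (wt >>> (384 * (512 * a + 64 * b + 8 * c + d))) % 2 ^ 384
  have k1 : 384 * (8 * c + d) + 384 ≤ ZB := by unfold ZB; omega
  have k2 : 24576 * b + 384 * (8 * c + d) + 384 ≤ ZA := by unfold ZA; omega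
  rw [low _ ZB _ 384 k1, ← Nat.shiftRight_add, low _ ZA _ 384 k2, ← Nat.shiftRight_add]
  congr 2
  ring

/-- the product of two numbers with six digits -/
theorem dig6 (X a0 a1 a2 a3 a4 a5 b0 b1 b2 b3 b4 b5 : Nat) :
    (a0 + a1 * X + a2 * X ^ 2 + a3 * X ^ 3 + a4 * X ^ 4 + a5 * X ^ 5) *
      (((b5 * X ^ 3 + b2) * X + (b4 * X ^ 3 + b1)) * X + (b3 * X ^ 3 + b0)) =
    ((a0 * b0) + (a0 * b1 + a1 * b0) * X + (a0 * b2 + a1 * b1 + a2 * b0) * X ^ 2 +
      (a0 * b3 + a1 * b2 + a2 * b1 + a3 * b0) * X ^ 3 +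
      (a0 * b4 + a1 * b3 + a2 * b2 + a3 * b1 + a4 * b0) * X ^ 4) +
    X ^ 5 * ((a0 * b5 + a1 * b4 + a2 * b3 + a3 * b2 + a4 * b1 + a5 * b0) +
      X * ((a1 * b5 + a2 * b4 + a3 * b3 + a4 * b2 + a5 * b1) +
        (a2 * b5 + a3 * b4 + a4 * b3 + a5 * b2) * X + (a3 * b5 + a4 * b4 + a5 * b3) * X ^ 2 +
        (a4 * b5 + a5 * b4) * X ^ 3 + a5 * b5 * X ^ 4)) := by
  ring

/-- the coefficient in the middle -/
theorem mid {X s0 s1 s2 s3 s4 s5 h : Nat} (h0 : s0 < X) (h1 : s1 < X) (h2 : s2 < X)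
    (h3 : s3 < X) (h4 : s4 < X) (h5 : s5 < X) :
    ((s0 + s1 * X + s2 * X ^ 2 + s3 * X ^ 3 + s4 * X ^ 4) + X ^ 5 * (s5 + X * h)) / X ^ 5 % X =
      s5 := by
  obtain ⟨y, rfl⟩ : ∃ y, X = y + 1 := ⟨X - 1, by omega⟩
  have hlow : s0 + s1 * (y + 1) + s2 * (y + 1) ^ 2 + s3 * (y + 1) ^ 3 + s4 * (y + 1) ^ 4 <
      (y + 1) ^ 5 := by
    have k1 : s1 * (y + 1) ≤ y * (y + 1) := Nat.mul_le_mul_right _ (by omega)
    have k2 : s2 * (y + 1) ^ 2 ≤ y * (y + 1) ^ 2 := Nat.mul_le_mul_right _ (by omega)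
    have k3 : s3 * (y + 1) ^ 3 ≤ y * (y + 1) ^ 3 := Nat.mul_le_mul_right _ (by omega)
    have k4 : s4 * (y + 1) ^ 4 ≤ y * (y + 1) ^ 4 := Nat.mul_le_mul_right _ (by omega)
    have k5 : y + y * (y + 1) + y * (y + 1) ^ 2 + y * (y + 1) ^ 3 + y * (y + 1) ^ 4 + 1 =
        (y + 1) ^ 5 := by ring
    omega
  rw [Nat.add_mul_div_left _ _ (by positivity), Nat.div_eq_of_lt hlow, zero_add,
    Nat.add_mul_mod_self_left, Nat.mod_eq_of_lt h5]

/-- the meaning of `chkA` at one combination -/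
theorem chkA_one {sb sm kk TAB wt L R pen dp dq dr wp wq wr wnp wnq wnr : Nat} {LA LB LC : List Rx}
    (h : chkA sb sm kk TAB wt L R pen dp dq dr wp wq wr wnp wnq wnr LA LB LC = true)
    {x y z : Rx} (hx : x ∈ LA)
    (hy : y ∈ LB) (hz : z ∈ LC) {d : Nat} (hd : d < 8)
    (ht : (TAB.testBit (512 * x.a + 64 * y.a + 8 * z.a + d) &&
      TAB.testBit (512 * x.b + 64 * y.b + 8 * z.b + d) &&
      TAB.testBit (512 * x.c + 64 * y.c + 8 * z.c + d)) = true) :
    (L + (lk x.al dr + x.be * wr) + lb sb sm x.u y.f + (lk y.al dq + y.be * wq)) +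
      (lb sb sm x.w z.f + lb sb sm y.w z.g) + (lk z.al dp + z.be * wp) ≤ R + lk wnr x.n + lk wnq y.n + lk wnp z.n +
      (gco (Nat.land (Nat.shiftRight (Nat.land (Nat.shiftRight wt (Nat.mul 196608 x.a)) MA)
          (Nat.mul 24576 y.a)) MB)
        (Nat.land (Nat.shiftRight (Nat.land (Nat.shiftRight wt (Nat.mul 196608 x.b)) MA)
          (Nat.mul 24576 y.b)) MB)
        (Nat.land (Nat.shiftRight (Nat.land (Nat.shiftRight wt (Nat.mul 196608 x.c)) MA)
          (Nat.mul 24576 y.c)) MB)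
        ((x.m0 * XX + y.m0) * XX + z.m0) ((x.m1 * XX + y.m1) * XX + z.m1)
        ((x.m2 * XX + y.m2) * XX + z.m2) z d + pen * (1 - Nat.land (Nat.shiftRight kk d) 1)) := by
  have h1 := allL_iff.1 (allL_iff.1 (allL_iff.1 h x hx) y hy) z hz
  set m := msk (Nat.shiftRight (Nat.shiftRight TAB (Nat.mul 512 x.a)) (Nat.mul 64 y.a))
    (Nat.shiftRight (Nat.shiftRight TAB (Nat.mul 512 x.b)) (Nat.mul 64 y.b))
    (Nat.shiftRight (Nat.shiftRight TAB (Nat.mul 512 x.c)) (Nat.mul 64 y.c)) z with hm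
  have hmd : m.testBit d = true := by
    rw [hm, testBit_msk _ _ _ _ _ hd]
    have e : ∀ u v w : Nat, (Nat.shiftRight (Nat.shiftRight TAB (Nat.mul 512 u))
        (Nat.mul 64 v)).testBit (8 * w + d) = TAB.testBit (512 * u + 64 * v + 8 * w + d) := by
      intro u v w
      show ((TAB >>> (512 * u)) >>> (64 * v)).testBit (8 * w + d) = _
      rw [Nat.testBit_shiftRight, Nat.testBit_shiftRight]
      congr 1
      ring
    rw [e, e, e]
    exact ht
  have hm0 : Nat.beq m 0 = false := beq0_of_testBit hmd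
  rw [hm0] at h1
  set G := gco (Nat.land (Nat.shiftRight (Nat.land (Nat.shiftRight wt (Nat.mul 196608 x.a)) MA)
          (Nat.mul 24576 y.a)) MB)
        (Nat.land (Nat.shiftRight (Nat.land (Nat.shiftRight wt (Nat.mul 196608 x.b)) MA)
          (Nat.mul 24576 y.b)) MB)
        (Nat.land (Nat.shiftRight (Nat.land (Nat.shiftRight wt (Nat.mul 196608 x.c)) MA)
          (Nat.mul 24576 y.c)) MB)
        ((x.m0 * XX + y.m0) * XX + z.m0) ((x.m1 * XX + y.m1) * XX + z.m1)
        ((x.m2 * XX + y.m2) * XX + z.m2) z with hG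
  revert h1
  generalize Nat.beq (Nat.add (Nat.add (Nat.add (Nat.mul (Nat.add (Nat.mul x.m0 XX) y.m0) XX) z.m0)
    (Nat.add (Nat.mul (Nat.add (Nat.mul x.m1 XX) y.m1) XX) z.m1))
    (Nat.add (Nat.mul (Nat.add (Nat.mul x.m2 XX) y.m2) XX) z.m2)) 0 = b
  intro h1
  cases b
  · have h2 := allD_sound 8 m h1 d hmd
    exact Nat.le_of_ble_eq_true h2
  · have h2 : Nat.ble (Nat.add (Nat.add (Nat.add (Nat.add (Nat.add L (Nat.add (lk x.al dr)
        (Nat.mul x.be wr))) (lb sb sm x.u y.f)) (Nat.add (lk y.al dq) (Nat.mul y.be wq)))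
        (Nat.add (lb sb sm x.w z.f) (lb sb sm y.w z.g)))
          (Nat.add (lk z.al dp) (Nat.mul z.be wp)))
        (Nat.add (Nat.add (Nat.add (Nat.add R (lk wnr x.n)) (lk wnq y.n)) (lk wnp z.n))
          (Bool.rec (motive := fun _ => Nat) 0 pen (Nat.beq (Nat.land m kk) 0))) = true := h1
    cases hb : Nat.beq (Nat.land m kk) 0
    · rw [hb] at h2
      have h3 := Nat.le_of_ble_eq_true h2
      exact le_trans h3 (Nat.add_le_add_left (Nat.zero_le _) _)
    · rw [hb] at h2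
      have h3 := Nat.le_of_ble_eq_true h2
      refine le_trans h3 (Nat.add_le_add_left ?_ _)
      have h4 : kk.testBit d = false := by
        by_contra hk
        have hk' : kk.testBit d = true := by simpa using hk
        have h5 : (Nat.land m kk).testBit d = true := by
          show (m &&& kk).testBit d = true
          rw [Nat.testBit_and, hmd, hk']
          rfl
        rw [beq0_of_testBit h5] at hb
        exact absurd hb (by simp)
      have h6 : Nat.land (Nat.shiftRight kk d) 1 = 0 := by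
        have h7 : kk.testBit d = (Nat.land (Nat.shiftRight kk d) 1 != 0) := by
          rw [Nat.testBit]
          show (1 &&& (kk >>> d) != 0) = ((kk >>> d) &&& 1 != 0)
          rw [Nat.and_comm]
        rw [h4] at h7
        simpa using h7.symm
      rw [h6, Nat.sub_zero, mul_one]
      exact Nat.le_add_left _ _

theorem XX_five : XX ^ 5 = 2 ^ 320 := by
  have e : XX = 2 ^ 64 := by unfold XX; norm_num
  rw [e, ← pow_mul]

namespace Tb

variable (T : Tb)

/-- the terms of one root in the product -/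
def cc6 (z0 z1 z2 v0 v1 v2 nx ny nz mx my mz : Nat) : Nat :=
  z0 * nx + z1 * ny + z2 * nz + v0 * mx + v1 * my + v2 * mz

omit T in
/-- the product for one root -/
theorem one6 {X z0 z1 z2 v0 v1 v2 nx ny nz mx my mz U V W : Nat}
    (a0 : z0 < 4096) (a1 : z1 < 4096) (a2 : z2 < 4096) (a3 : v0 < 4096) (a4 : v1 < 4096)
    (a5 : v2 < 4096) (b0 : nx < 140737488355328) (b1 : ny < 140737488355328)
    (b2 : nz < 140737488355328) (b3 : mx < 140737488355328) (b4 : my < 140737488355328)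
    (b5 : mz < 140737488355328) (hU : U = mx + nx * X ^ 3) (hV : V = my + ny * X ^ 3)
    (hW : W = mz + nz * X ^ 3) :
    ∃ s0 s1 s2 s3 s4 h : Nat, (s0 ≤ 2882303761517117440 ∧ s1 ≤ 2882303761517117440 ∧
      s2 ≤ 2882303761517117440 ∧ s3 ≤ 2882303761517117440 ∧ s4 ≤ 2882303761517117440) ∧
      cc6 z0 z1 z2 v0 v1 v2 nx ny nz mx my mz ≤ 3458764513820540928 ∧
      (z0 + z1 * X + z2 * X ^ 2 + v0 * X ^ 3 + v1 * X ^ 4 + v2 * X ^ 5) * ((U * X + V) * X + W) =
      (s0 + s1 * X + s2 * X ^ 2 + s3 * X ^ 3 + s4 * X ^ 4) + X ^ 5 *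
        (cc6 z0 z1 z2 v0 v1 v2 nx ny nz mx my mz + X * h) := by
  have B : ∀ {w m : Nat}, w < 4096 → m < 140737488355328 → w * m ≤ 576460752303423488 := by
    intro w m hw hm
    calc w * m ≤ 4096 * 140737488355328 := Nat.mul_le_mul (le_of_lt hw) (le_of_lt hm)
      _ = 576460752303423488 := by norm_num
  have e := dig6 X z0 z1 z2 v0 v1 v2 mz my mx nz ny nx
  refine ⟨z0 * mz, z0 * my + z1 * mz, z0 * mx + z1 * my + z2 * mz,
    z0 * nz + z1 * mx + z2 * my + v0 * mz, z0 * ny + z1 * nz + z2 * mx + v0 * my + v1 * mz,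
    (z1 * nx + z2 * ny + v0 * nz + v1 * mx + v2 * my) +
      (z2 * nx + v0 * ny + v1 * nz + v2 * mx) * X + (v0 * nx + v1 * ny + v2 * nz) * X ^ 2 +
      (v1 * nx + v2 * ny) * X ^ 3 + v2 * nx * X ^ 4, ⟨?_, ?_, ?_, ?_, ?_⟩, ?_, ?_⟩
  rotate_left 6
  · rw [hU, hV, hW, show (mx + nx * X ^ 3) * X + (my + ny * X ^ 3) =
        (nx * X ^ 3 + mx) * X + (ny * X ^ 3 + my) by ring,
        show mz + nz * X ^ 3 = nz * X ^ 3 + mz by ring]
    exact e
  · have := B a0 b5
    omega
  · have := B a0 b4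
    have := B a1 b5
    omega
  · have := B a0 b3
    have := B a1 b4
    have := B a2 b5
    omega
  · have := B a0 b2
    have := B a1 b3
    have := B a2 b4
    have := B a3 b5
    omega
  · have := B a0 b1
    have := B a1 b2
    have := B a2 b3
    have := B a3 b4
    have := B a4 b5
    omega
  · unfold cc6
    have := B a0 b0
    have := B a1 b1
    have := B a2 b2
    have := B a3 b3
    have := B a4 b4
    have := B a5 b5
    omega

/-- the terms of the exchange of two roots -/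
theorem gco_eq {offw offa offb : Nat} {wn : Nat → Nat} (ho : T.Ok offw offa offb wn)
    {x y z : Rx} {d : Nat} (hd : d < 8) (xa : x.a < 8) (xb : x.b < 8) (xc : x.c < 8)
    (ya : y.a < 8) (yb : y.b < 8) (yc : y.c < 8) (za : z.a < 8) (zb : z.b < 8) (zc : z.c < 8)
    (ht : (T.TAB.testBit (512 * x.a + 64 * y.a + 8 * z.a + d) &&
      T.TAB.testBit (512 * x.b + 64 * y.b + 8 * z.b + d) &&
      T.TAB.testBit (512 * x.c + 64 * y.c + 8 * z.c + d)) = true)
    {mx nx my ny mz nz : Nat → Nat}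
    (ex : x.m0 = mx 0 + nx 0 * XX ^ 3 ∧ x.m1 = mx 1 + nx 1 * XX ^ 3 ∧ x.m2 = mx 2 + nx 2 * XX ^ 3)
    (ey : y.m0 = my 0 + ny 0 * XX ^ 3 ∧ y.m1 = my 1 + ny 1 * XX ^ 3 ∧ y.m2 = my 2 + ny 2 * XX ^ 3)
    (ez : z.m0 = mz 0 + nz 0 * XX ^ 3 ∧ z.m1 = mz 1 + nz 1 * XX ^ 3 ∧ z.m2 = mz 2 + nz 2 * XX ^ 3)
    (bx : ∀ k < 3, mx k < 140737488355328 ∧ nx k < 140737488355328)
    (bY : ∀ k < 3, my k < 140737488355328 ∧ ny k < 140737488355328)
    (bz : ∀ k < 3, mz k < 140737488355328 ∧ nz k < 140737488355328) :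
    gco (Nat.land (Nat.shiftRight (Nat.land (Nat.shiftRight T.wt (Nat.mul 196608 x.a)) MA)
          (Nat.mul 24576 y.a)) MB)
        (Nat.land (Nat.shiftRight (Nat.land (Nat.shiftRight T.wt (Nat.mul 196608 x.b)) MA)
          (Nat.mul 24576 y.b)) MB)
        (Nat.land (Nat.shiftRight (Nat.land (Nat.shiftRight T.wt (Nat.mul 196608 x.c)) MA)
          (Nat.mul 24576 y.c)) MB)
        ((x.m0 * XX + y.m0) * XX + z.m0) ((x.m1 * XX + y.m1) * XX + z.m1)
        ((x.m2 * XX + y.m2) * XX + z.m2) z d =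
      cc6 (T.wz (512 * x.a + 64 * y.a + 8 * z.a + d))
          (T.wz (p23 (512 * x.a + 64 * y.a + 8 * z.a + d)))
          (T.wz (p31 (512 * x.a + 64 * y.a + 8 * z.a + d)))
          (T.wv (512 * x.a + 64 * y.a + 8 * z.a + d))
          (T.wv (p23 (512 * x.a + 64 * y.a + 8 * z.a + d)))
          (T.wv (p31 (512 * x.a + 64 * y.a + 8 * z.a + d)))
          (nx 0) (ny 0) (nz 0) (mx 0) (my 0) (mz 0) +
      cc6 (T.wz (512 * x.b + 64 * y.b + 8 * z.b + d))
          (T.wz (p23 (512 * x.b + 64 * y.b + 8 * z.b + d)))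
          (T.wz (p31 (512 * x.b + 64 * y.b + 8 * z.b + d)))
          (T.wv (512 * x.b + 64 * y.b + 8 * z.b + d))
          (T.wv (p23 (512 * x.b + 64 * y.b + 8 * z.b + d)))
          (T.wv (p31 (512 * x.b + 64 * y.b + 8 * z.b + d)))
          (nx 1) (ny 1) (nz 1) (mx 1) (my 1) (mz 1) +
      cc6 (T.wz (512 * x.c + 64 * y.c + 8 * z.c + d))
          (T.wz (p23 (512 * x.c + 64 * y.c + 8 * z.c + d)))
          (T.wz (p31 (512 * x.c + 64 * y.c + 8 * z.c + d)))
          (T.wv (512 * x.c + 64 * y.c + 8 * z.c + d))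
          (T.wv (p23 (512 * x.c + 64 * y.c + 8 * z.c + d)))
          (T.wv (p31 (512 * x.c + 64 * y.c + 8 * z.c + d)))
          (nx 2) (ny 2) (nz 2) (mx 2) (my 2) (mz 2) := by
  simp only [Bool.and_eq_true] at ht
  obtain ⟨⟨t0, t1⟩, t2⟩ := ht
  have hrv : ∀ s, rvd s < 8 := fun s => Nat.mod_lt _ (by norm_num)
  have hro : ∀ s, rot s < 8 := fun s => Nat.mod_lt _ (by norm_num)
  have hp23 : ∀ K < 4096, p23 K < 4096 := by
    intro K hK
    unfold p23
    have := hrv (K / 8 % 8)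
    have := hrv (K % 8)
    omega
  have hp31 : ∀ K < 4096, p31 K < 4096 := by
    intro K hK
    unfold p31
    have := hrv (K / 512)
    have := hrv (K / 64 % 8)
    have := hro (K % 8)
    omega
  have k0 : 512 * x.a + 64 * y.a + 8 * z.a + d < 4096 := by omega
  have k1 : 512 * x.b + 64 * y.b + 8 * z.b + d < 4096 := by omega
  have k2 : 512 * x.c + 64 * y.c + 8 * z.c + d < 4096 := by omega
  have key : ∀ K < 4096, ∀ k < 3, ∀ U V W : Nat, U = mx k + nx k * XX ^ 3 →
      V = my k + ny k * XX ^ 3 → W = mz k + nz k * XX ^ 3 →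
      ∃ s0 s1 s2 s3 s4 h : Nat, (s0 ≤ 2882303761517117440 ∧ s1 ≤ 2882303761517117440 ∧
        s2 ≤ 2882303761517117440 ∧ s3 ≤ 2882303761517117440 ∧ s4 ≤ 2882303761517117440) ∧
      cc6 (T.wz K) (T.wz (p23 K)) (T.wz (p31 K)) (T.wv K) (T.wv (p23 K)) (T.wv (p31 K))
          (nx k) (ny k) (nz k) (mx k) (my k) (mz k) ≤ 3458764513820540928 ∧
      (T.wz K + T.wz (p23 K) * XX + T.wz (p31 K) * XX ^ 2 + T.wv K * XX ^ 3 +
        T.wv (p23 K) * XX ^ 4 + T.wv (p31 K) * XX ^ 5) * ((U * XX + V) * XX + W) =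
      (s0 + s1 * XX + s2 * XX ^ 2 + s3 * XX ^ 3 + s4 * XX ^ 4) + XX ^ 5 *
        (cc6 (T.wz K) (T.wz (p23 K)) (T.wz (p31 K)) (T.wv K) (T.wv (p23 K)) (T.wv (p31 K))
          (nx k) (ny k) (nz k) (mx k) (my k) (mz k) + XX * h) := by
    intro K hK k hk U V W hU hV hW
    obtain ⟨v0, z0⟩ := ho.wvb _ hK
    obtain ⟨v1, z1⟩ := ho.wvb _ (hp23 _ hK)
    obtain ⟨v2, z2⟩ := ho.wvb _ (hp31 _ hK)
    exact one6 z0 z1 z2 v0 v1 v2 (bx k hk).2 (bY k hk).2 (bz k hk).2 (bx k hk).1 (bY k hk).1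
      (bz k hk).1 hU hV hW
  unfold gco
  rw [ent_eq _ _ _ _ _ ya za hd, ent_eq _ _ _ _ _ yb zb hd, ent_eq _ _ _ _ _ yc zc hd,
    ho.wtb _ k0 t0, ho.wtb _ k1 t1, ho.wtb _ k2 t2]
  obtain ⟨a0, a1, a2, a3, a4, ha, ⟨a5, a6, a7, a8, a9⟩, a10, ea⟩ :=
    key _ k0 0 (by norm_num) _ _ _ ex.1 ey.1 ez.1
  obtain ⟨b0, b1, b2, b3, b4, hb, ⟨b5, b6, b7, b8, b9⟩, b10, eb⟩ :=
    key _ k1 1 (by norm_num) _ _ _ ex.2.1 ey.2.1 ez.2.1
  obtain ⟨c0, c1, c2, c3, c4, hc, ⟨c5, c6, c7, c8, c9⟩, c10, ec⟩ :=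
    key _ k2 2 (by norm_num) _ _ _ ex.2.2 ey.2.2 ez.2.2
  have hX : XX = 18446744073709551616 := rfl
  have hm := mid (X := XX) (s0 := a0 + b0 + c0) (s1 := a1 + b1 + c1) (s2 := a2 + b2 + c2)
    (s3 := a3 + b3 + c3) (s4 := a4 + b4 + c4) (h := ha + hb + hc)
    (by rw [hX]; omega) (by rw [hX]; omega) (by rw [hX]; omega) (by rw [hX]; omega)
    (by rw [hX]; omega) (lt_of_le_of_lt (Nat.add_le_add (Nat.add_le_add a10 b10) c10)
      (by rw [hX]; norm_num))
  rw [← hm]
  show ((_ + _ + _) >>> 320) % 18446744073709551616 = _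
  rw [Nat.shiftRight_eq_div_pow, ← XX_five]
  refine congrArg (fun t => t / XX ^ 5 % XX) ?_
  refine (congrArg₂ (· + ·) (congrArg₂ (· + ·) ea eb) ec).trans ?_
  ring

theorem NN_eq {offw offa offb : Nat} {wn : Nat → Nat} (ho : T.Ok offw offa offb wn) {p : Nat}
    (hp : p < T.nt) (s : Nat) : T.NN p s = (offw : ℤ) - lk (wn p) (pat s) := by
  have h := ho.pen p hp _ (Pool.Agent.AKU.Tb.pat_lt s)
  have h0 := Pool.Agent.AKU.Tb.na_le (dg0 s)
  have h1 := Pool.Agent.AKU.Tb.na_le (dg1 s)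
  have h2 := Pool.Agent.AKU.Tb.na_le (dg2 s)
  have e0 : pat s % 2 = na (dg0 s) := by unfold pat; omega
  have e1 : pat s / 2 % 2 = na (dg1 s) := by unfold pat; omega
  have e2 : pat s / 4 = na (dg2 s) := by unfold pat; omega
  rw [e0, e1, e2] at h
  have h' : (lk (wn p) (pat s) : ℤ) + 4 * (T.nu 0 p + T.nu 1 p + T.nu 2 p) +
    9 * T.offn * (na (dg0 s) + na (dg1 s) + na (dg2 s)) =
    offw + 12 * T.offn + 9 * (T.nu 0 p * na (dg0 s) + T.nu 1 p * na (dg1 s) +
      T.nu 2 p * na (dg2 s)) := by exact_mod_cast h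
  unfold NN Nu
  linarith

end Tb

theorem rvd_lt (s : Nat) : rvd s < 8 := Nat.mod_lt _ (by norm_num)
theorem rot_lt (s : Nat) : rot s < 8 := Nat.mod_lt _ (by norm_num)

theorem dg_lt (s : Nat) : dg0 s < 8 ∧ dg1 s < 8 ∧ dg2 s < 8 :=
  ⟨Nat.mod_lt _ (by norm_num), Nat.mod_lt _ (by norm_num), Nat.mod_lt _ (by norm_num)⟩

theorem dg_mk {a b c : Nat} (ha : a < 8) (hb : b < 8) (hc : c < 8) :
    dg0 (a + 8 * b + 64 * c) = a ∧ dg1 (a + 8 * b + 64 * c) = b ∧ dg2 (a + 8 * b + 64 * c) = c := by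
  unfold dg0 dg1 dg2
  rw [Nat.shiftRight_eq_div_pow, Nat.shiftRight_eq_div_pow]
  refine ⟨by omega, by omega, by omega⟩

theorem dg_rv3 (s : Nat) : dg0 (rv3 s) = rvd (dg0 s) ∧ dg1 (rv3 s) = rvd (dg1 s) ∧
    dg2 (rv3 s) = rvd (dg2 s) := dg_mk (rvd_lt _) (rvd_lt _) (rvd_lt _)

theorem p23_mk {a b c d : Nat} (_ha : a < 8) (hb : b < 8) (hc : c < 8) (hd : d < 8) :
    p23 (512 * a + 64 * b + 8 * c + d) = 512 * b + 64 * a + 8 * rvd c + rvd d := by
  have e1 : (512 * a + 64 * b + 8 * c + d) / 64 % 8 = b := by omega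
  have e2 : (512 * a + 64 * b + 8 * c + d) / 512 = a := by omega
  have e3 : (512 * a + 64 * b + 8 * c + d) / 8 % 8 = c := by omega
  have e4 : (512 * a + 64 * b + 8 * c + d) % 8 = d := by omega
  unfold p23
  rw [e1, e2, e3, e4]

theorem p31_mk {a b c d : Nat} (_ha : a < 8) (hb : b < 8) (hc : c < 8) (hd : d < 8) :
    p31 (512 * a + 64 * b + 8 * c + d) = 512 * c + 64 * rvd a + 8 * rvd b + rot d := by
  have e1 : (512 * a + 64 * b + 8 * c + d) / 64 % 8 = b := by omega
  have e2 : (512 * a + 64 * b + 8 * c + d) / 512 = a := by omega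
  have e3 : (512 * a + 64 * b + 8 * c + d) / 8 % 8 = c := by omega
  have e4 : (512 * a + 64 * b + 8 * c + d) % 8 = d := by omega
  unfold p31
  rw [e1, e2, e3, e4]

namespace Tb

variable (T : Tb)

theorem PP_eq {offa offb : Nat} {x : Rx} {p q A : Nat} (r n0 n1 n2 : Nat)
    (ea : (lk x.al (T.dl r) : ℤ) + x.be * T.wy r = offa + offb * T.wy r + T.GO p q A r +
      (T.mm 0 p q A + T.mm 1 p q A + T.mm 2 p q A) * T.gm r +
      (T.nn 0 p q A + T.nn 1 p q A + T.nn 2 p q A) * T.gz r) :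
    T.PP p q r A n0 n1 n2 = ((lk x.al (T.dl r) : ℤ) - offa) + (x.be - offb) * T.wy r -
      ((T.mm 0 p q A * T.wv n0 + T.mm 1 p q A * T.wv n1 + T.mm 2 p q A * T.wv n2) +
        (T.nn 0 p q A * T.wz n0 + T.nn 1 p q A * T.wz n1 + T.nn 2 p q A * T.wz n2)) := by
  have h1 : T.GO p q A r = (lk x.al (T.dl r) : ℤ) + x.be * T.wy r - (offa + offb * T.wy r +
      (T.mm 0 p q A + T.mm 1 p q A + T.mm 2 p q A) * T.gm r +
      (T.nn 0 p q A + T.nn 1 p q A + T.nn 2 p q A) * T.gz r) := by linarith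
  unfold PP
  rw [h1]
  ring

/-- **Soundness of the main check** -/
theorem chkT_sound {offw offa offb : Nat} {wn : Nat → Nat} (ho : T.Ok offw offa offb wn)
    {p q r : Nat} (hpq : p ≤ q)
    (hqr : q ≤ r) (hr : r < T.nt) (h : T.chkT offw offa offb wn p q r = true) {A B C d : Nat}
    (hA : A < 512) (hB : B < 512)
    (hC : C < 512) (vA : T.vp p q A = true) (vB : T.vp p r B = true) (vC : T.vp q r C = true)
    (hd : d < 8) (ht : T.tst A B C d = true) :
    T.VV p q r A B C (na d) + T.XV p q r A B C d ≤ 0 := by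
  have hp : p < T.nt := by omega
  have hq : q < T.nt := by omega
  obtain ⟨x, hx, ⟨xa, xb, xc, xn, xf, xg, xf', xg', xu, xw⟩, x0, xal, xm⟩ :=
    ho.mem p q hpq hq A hA vA
  obtain ⟨y, hy, ⟨ya, yb, yc, yn, yf, yg, yf', yg', yu, yw⟩, y0, yal, ym⟩ :=
    ho.mem p r (hpq.trans hqr) hr B hB vB
  obtain ⟨z, hz, ⟨za, zb, zc, zn, zf, zg, zf', zg', zu, zw⟩, z0, zal, zm⟩ :=
    ho.mem q r hqr hr C hC vC
  obtain ⟨a8, b8, c8⟩ := dg_lt A
  obtain ⟨a8', b8', c8'⟩ := dg_lt B
  obtain ⟨a8'', b8'', c8''⟩ := dg_lt C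
  have ht' : (T.TAB.testBit (512 * x.a + 64 * y.a + 8 * z.a + d) &&
      T.TAB.testBit (512 * x.b + 64 * y.b + 8 * z.b + d) &&
      T.TAB.testBit (512 * x.c + 64 * y.c + 8 * z.c + d)) = true := by
    rw [xa, xb, xc, ya, yb, yc, za, zb, zc]
    exact ht
  have hG := T.gco_eq ho (x := x) (y := y) (z := z) hd (by rw [xa]; exact a8) (by rw [xb]; exact b8)
    (by rw [xc]; exact c8) (by rw [ya]; exact a8') (by rw [yb]; exact b8')
    (by rw [yc]; exact c8') (by rw [za]; exact a8'') (by rw [zb]; exact b8'')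
    (by rw [zc]; exact c8'') ht' (mx := fun k => T.mm k p q A) (nx := fun k => T.nn k p q A)
    (my := fun k => T.mm k p r B) (ny := fun k => T.nn k p r B)
    (mz := fun k => T.mm k q r C) (nz := fun k => T.nn k q r C) x0 y0 z0 xm ym zm
  rw [xa, xb, xc, ya, yb, yc, za, zb, zc] at hG
  -- the rows at the pairs
  have hX : T.XV p q r A B C d = (((lk x.al (T.dl r) : ℤ) - offa) + (x.be - offb) * T.wy r) +
      (((lk y.al (T.dl q) : ℤ) - offa) + (y.be - offb) * T.wy q) +
      (((lk z.al (T.dl p) : ℤ) - offa) + (z.be - offb) * T.wy p) -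
      (((cc6 (T.wz (512 * dg0 A + 64 * dg0 B + 8 * dg0 C + d))
          (T.wz (p23 (512 * dg0 A + 64 * dg0 B + 8 * dg0 C + d)))
          (T.wz (p31 (512 * dg0 A + 64 * dg0 B + 8 * dg0 C + d)))
          (T.wv (512 * dg0 A + 64 * dg0 B + 8 * dg0 C + d))
          (T.wv (p23 (512 * dg0 A + 64 * dg0 B + 8 * dg0 C + d)))
          (T.wv (p31 (512 * dg0 A + 64 * dg0 B + 8 * dg0 C + d)))
          (T.nn 0 p q A) (T.nn 0 p r B) (T.nn 0 q r C)
          (T.mm 0 p q A) (T.mm 0 p r B) (T.mm 0 q r C)) + (cc6 (T.wz (512 * dg1 A + 64 * dg1 B + 8 * dg1 C + d))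
          (T.wz (p23 (512 * dg1 A + 64 * dg1 B + 8 * dg1 C + d)))
          (T.wz (p31 (512 * dg1 A + 64 * dg1 B + 8 * dg1 C + d)))
          (T.wv (512 * dg1 A + 64 * dg1 B + 8 * dg1 C + d))
          (T.wv (p23 (512 * dg1 A + 64 * dg1 B + 8 * dg1 C + d)))
          (T.wv (p31 (512 * dg1 A + 64 * dg1 B + 8 * dg1 C + d)))
          (T.nn 1 p q A) (T.nn 1 p r B) (T.nn 1 q r C)
          (T.mm 1 p q A) (T.mm 1 p r B) (T.mm 1 q r C)) + (cc6 (T.wz (512 * dg2 A + 64 * dg2 B + 8 * dg2 C + d))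
          (T.wz (p23 (512 * dg2 A + 64 * dg2 B + 8 * dg2 C + d)))
          (T.wz (p31 (512 * dg2 A + 64 * dg2 B + 8 * dg2 C + d)))
          (T.wv (512 * dg2 A + 64 * dg2 B + 8 * dg2 C + d))
          (T.wv (p23 (512 * dg2 A + 64 * dg2 B + 8 * dg2 C + d)))
          (T.wv (p31 (512 * dg2 A + 64 * dg2 B + 8 * dg2 C + d)))
          (T.nn 2 p q A) (T.nn 2 p r B) (T.nn 2 q r C)
          (T.mm 2 p q A) (T.mm 2 p r B) (T.mm 2 q r C)) : ℕ) : ℤ) := by
    unfold XV PX
    rw [T.PP_eq r _ _ _ (xal r hr), T.PP_eq q _ _ _ (yal q hq), T.PP_eq p _ _ _ (zal p hp)]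
    unfold cc6
    obtain ⟨r0, r1, r2⟩ := dg_rv3 A
    obtain ⟨s0, s1, s2⟩ := dg_rv3 B
    obtain ⟨t0, t1, t2⟩ := dg_rv3 C
    rw [r0, r1, r2, s0, s1, s2, t0, t1, t2, p23_mk a8 a8' a8'' hd, p23_mk b8 b8' b8'' hd,
      p23_mk c8 c8' c8'' hd, p31_mk a8 a8' a8'' hd, p31_mk b8 b8' b8'' hd, p31_mk c8 c8' c8'' hd]
    push_cast
    ring
  rw [← hG] at hX
  set M1 := lb T.sb T.sm x.u y.f with hM1
  set M2 := lb T.sb T.sm x.w z.f with hM2
  set M3 := lb T.sb T.sm y.w z.g with hM3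
  have q1 : T.Mt p (T.fl p q A) (T.fl p r B) = (M1 : ℤ) - T.off := by
    unfold Mt
    rw [← xf, ← yf, if_pos ⟨xf', yf'⟩, hM1, xu]
  have q2 : T.Mt q (T.fl q p (rv3 A)) (T.fl q r C) = (M2 : ℤ) - T.off := by
    unfold Mt
    rw [← xg, ← zf, if_pos ⟨xg', zf'⟩, hM2, xw]
  have q3 : T.Mt r (T.fl r p (rv3 B)) (T.fl r q (rv3 C)) = (M3 : ℤ) - T.off := by
    unfold Mt
    rw [← yg, ← zg, if_pos ⟨yg', zg'⟩, hM3, yw]
  have c1 : T.Q0 p q = (T.q0 p q : ℤ) - T.off0 := if_pos ⟨hp, hq⟩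
  have c2 : T.Q0 p r = (T.q0 p r : ℤ) - T.off0 := if_pos ⟨hp, hr⟩
  have c3 : T.Q0 q r = (T.q0 q r : ℤ) - T.off0 := if_pos ⟨hq, hr⟩
  have w1 := T.NN_eq ho hp C
  have w2 := T.NN_eq ho hq B
  have w3 := T.NN_eq ho hr A
  rw [← zn] at w1
  rw [← yn] at w2
  rw [← xn] at w3
  have k17 : d % 4 = 0 → Nat.land (Nat.shiftRight 17 d) 1 = 1 := by
    intro h4
    have : d = 0 ∨ d = 4 := by omega
    rcases this with rfl | rfl <;> decide
  have k238 : d % 4 ≠ 0 → Nat.land (Nat.shiftRight 238 d) 1 = 1 := by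
    intro h4
    interval_cases d <;> first | exact absurd rfl h4 | decide
  unfold VV
  rw [q1, q2, q3, c1, c2, c3, w1, w2, w3, hX]
  unfold Mu
  rw [chkT] at h
  cases hb : Nat.ble (27 * T.offm + 3 * (T.ld * T.u3 p q r)) (9 * (T.mu p + T.mu q + T.mu r))
  · rw [hb] at h
    have hlt : 9 * (T.mu p + T.mu q + T.mu r) ≤ 27 * T.offm + 3 * (T.ld * T.u3 p q r) := by
      by_contra hcon
      have := Nat.ble_eq_true_of_le (Nat.le_of_lt (Nat.lt_of_not_le hcon))
      rw [this] at hb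
      exact absurd hb (by simp)
    have s1 := chkA_one h hx hy hz hd ht'
    rw [← hM1, ← hM2, ← hM3] at s1
    rw [xa, xb, xc, ya, yb, yc] at s1
    set G := gco (Nat.land (Nat.shiftRight (Nat.land (Nat.shiftRight T.wt (Nat.mul 196608 (dg0 A)))
      MA) (Nat.mul 24576 (dg0 B))) MB)
        (Nat.land (Nat.shiftRight (Nat.land (Nat.shiftRight T.wt (Nat.mul 196608 (dg1 A))) MA)
          (Nat.mul 24576 (dg1 B))) MB)
        (Nat.land (Nat.shiftRight (Nat.land (Nat.shiftRight T.wt (Nat.mul 196608 (dg2 A))) MA)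
          (Nat.mul 24576 (dg2 B))) MB)
        ((x.m0 * XX + y.m0) * XX + z.m0) ((x.m1 * XX + y.m1) * XX + z.m1)
        ((x.m2 * XX + y.m2) * XX + z.m2) z d with hGd
    have hsub : (((27 * T.offm + 3 * (T.ld * T.u3 p q r)) - 9 * (T.mu p + T.mu q + T.mu r) : ℕ) :
        ℤ) = (27 * T.offm + 3 * (T.ld * T.u3 p q r)) - 9 * (T.mu p + T.mu q + T.mu r) := by
      rw [Nat.cast_sub hlt]; push_cast; ring
    by_cases h4 : d % 4 = 0
    · have e0 : na d = 0 := if_pos h4
      rw [e0]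
      have e5 : 1 - Nat.land (Nat.shiftRight 238 d) 1 ≤ 1 := Nat.sub_le _ _
      have s2 := s1.trans (Nat.add_le_add_left (Nat.add_le_add_left
        (Nat.mul_le_mul_left _ e5) _) _)
      have s3 : (((T.q0 p q + T.q0 p r + T.q0 q r) + (15 * T.offm + 3 * offw +
          3 * (T.ld * T.u3 p q r)) : ℤ) +
          (lk x.al (T.dl r) + x.be * T.wy r) + M1 + (lk y.al (T.dl q) + y.be * T.wy q)) + (M2 + M3) +
          (lk z.al (T.dl p) + z.be * T.wy p) ≤ (3 * T.off0 + (5 * (T.mu p + T.mu q + T.mu r) +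
            3 * (T.ln * T.u3 p q r)) +
        (3 * T.off + (3 * offa + offb * (T.wy p + T.wy q + T.wy r)))) + lk (wn r) x.n +
          lk (wn q) y.n + lk (wn p) z.n + (G +
          (((27 * T.offm + 3 * (T.ld * T.u3 p q r)) - 9 * (T.mu p + T.mu q + T.mu r) : ℕ) : ℤ) *
            1) := by
        exact_mod_cast s2
      rw [hsub] at s3
      push_cast
      linarith
    · have e1 : na d = 1 := if_neg h4
      rw [e1]
      rw [k238 h4, Nat.sub_self, mul_zero, Nat.add_zero] at s1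
      have s3 : (((T.q0 p q + T.q0 p r + T.q0 q r) + (15 * T.offm + 3 * offw +
          3 * (T.ld * T.u3 p q r)) : ℤ) +
          (lk x.al (T.dl r) + x.be * T.wy r) + M1 + (lk y.al (T.dl q) + y.be * T.wy q)) + (M2 + M3) +
          (lk z.al (T.dl p) + z.be * T.wy p) ≤ (3 * T.off0 + (5 * (T.mu p + T.mu q + T.mu r) +
            3 * (T.ln * T.u3 p q r)) +
        (3 * T.off + (3 * offa + offb * (T.wy p + T.wy q + T.wy r)))) + lk (wn r) x.n +
          lk (wn q) y.n + lk (wn p) z.n + G := by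
        exact_mod_cast s1
      push_cast
      linarith
  · rw [hb] at h
    have hle : 27 * T.offm + 3 * (T.ld * T.u3 p q r) ≤ 9 * (T.mu p + T.mu q + T.mu r) :=
      Nat.le_of_ble_eq_true hb
    have s1 := chkA_one h hx hy hz hd ht'
    rw [← hM1, ← hM2, ← hM3] at s1
    rw [xa, xb, xc, ya, yb, yc] at s1
    set G := gco (Nat.land (Nat.shiftRight (Nat.land (Nat.shiftRight T.wt (Nat.mul 196608 (dg0 A)))
      MA) (Nat.mul 24576 (dg0 B))) MB)
        (Nat.land (Nat.shiftRight (Nat.land (Nat.shiftRight T.wt (Nat.mul 196608 (dg1 A))) MA)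
          (Nat.mul 24576 (dg1 B))) MB)
        (Nat.land (Nat.shiftRight (Nat.land (Nat.shiftRight T.wt (Nat.mul 196608 (dg2 A))) MA)
          (Nat.mul 24576 (dg2 B))) MB)
        ((x.m0 * XX + y.m0) * XX + z.m0) ((x.m1 * XX + y.m1) * XX + z.m1)
        ((x.m2 * XX + y.m2) * XX + z.m2) z d with hGd
    have hsub : ((9 * (T.mu p + T.mu q + T.mu r) - (27 * T.offm + 3 * (T.ld * T.u3 p q r)) : ℕ) :
        ℤ) = 9 * (T.mu p + T.mu q + T.mu r) - (27 * T.offm + 3 * (T.ld * T.u3 p q r)) := by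
      rw [Nat.cast_sub hle]; push_cast; ring
    by_cases h4 : d % 4 = 0
    · have e0 : na d = 0 := if_pos h4
      rw [e0]
      rw [k17 h4, Nat.sub_self, mul_zero, Nat.add_zero] at s1
      have s3 : (((T.q0 p q + T.q0 p r + T.q0 q r) + (4 * (T.mu p + T.mu q + T.mu r) +
          3 * offw) : ℤ) +
          (lk x.al (T.dl r) + x.be * T.wy r) + M1 + (lk y.al (T.dl q) + y.be * T.wy q)) + (M2 + M3) +
          (lk z.al (T.dl p) + z.be * T.wy p) ≤ (3 * T.off0 + (12 * T.offm + 3 * (T.ln * T.u3 p q r)) +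
        (3 * T.off + (3 * offa + offb * (T.wy p + T.wy q + T.wy r)))) + lk (wn r) x.n +
          lk (wn q) y.n + lk (wn p) z.n + G := by
        exact_mod_cast s1
      push_cast
      linarith
    · have e1 : na d = 1 := if_neg h4
      rw [e1]
      have e5 : 1 - Nat.land (Nat.shiftRight 17 d) 1 ≤ 1 := Nat.sub_le _ _
      have s2 := s1.trans (Nat.add_le_add_left (Nat.add_le_add_left
        (Nat.mul_le_mul_left _ e5) _) _)
      have s3 : (((T.q0 p q + T.q0 p r + T.q0 q r) + (4 * (T.mu p + T.mu q + T.mu r) +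
          3 * offw) : ℤ) +
          (lk x.al (T.dl r) + x.be * T.wy r) + M1 + (lk y.al (T.dl q) + y.be * T.wy q)) + (M2 + M3) +
          (lk z.al (T.dl p) + z.be * T.wy p) ≤ (3 * T.off0 + (12 * T.offm + 3 * (T.ln * T.u3 p q r)) +
        (3 * T.off + (3 * offa + offb * (T.wy p + T.wy q + T.wy r)))) + lk (wn r) x.n +
          lk (wn q) y.n + lk (wn p) z.n + (G +
          ((9 * (T.mu p + T.mu q + T.mu r) - (27 * T.offm + 3 * (T.ld * T.u3 p q r)) : ℕ) : ℤ) *
            1) := by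
        exact_mod_cast s2
      rw [hsub] at s3
      push_cast
      linarith

end Tb

end Pool.Agent.AKZ
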