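import Pool.Agent.AKZ.Asm
import Pool.Agent.AKG.PsdZ

set_option autoImplicit false

/-!
# Rows of subsets
-/

namespace Pool.Agent.AKZ

open Finset Classical Pool.Agent.AKO Pool.Agent.AKU Pool.Agent.MP_0af329_co Pool.Agent.AK
  Pool.Agent.AKG

theorem Nf_eq (S : Finset Pt) (u v t : S) (h : u ≠ v) (h1 : v ≠ t) (h2 : u ≠ t) :
    Nf S u v t = if NAc u.1 v.1 t.1 then 1 else 0 := by
  unfold Nf
  have e : NA (X S) (Y S) u v t ↔ NAc u.1 v.1 t.1 := by
    unfold NA NAc Nac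
    have a1 := angle_ge_iff S v u t (fun e => h e) (fun e => h1 e.symm)
    have a2 := angle_ge_iff S t v u (fun e => h1 e) (fun e => h2 e)
    have a3 := angle_ge_iff S u t v (fun e => h2 e.symm) (fun e => h e.symm)
    rw [a1, a2, a3, dt_symm (X S) (Y S) t v u, dt_symm (X S) (Y S) u t v]
    tauto
  by_cases h3 : NAc u.1 v.1 t.1
  · rw [if_pos ⟨h, h1, h2, e.2 h3⟩, if_pos h3]
  · rw [if_neg (fun h4 => h3 (e.1 h4.2.2.2)), if_neg h3]

theorem Nf_zero (S : Finset Pt) (u v t : S) (h : ¬ (u ≠ v ∧ v ≠ t ∧ u ≠ t)) :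
    Nf S u v t = 0 := by
  unfold Nf
  rw [if_neg fun h4 => h ⟨h4.1, h4.2.1, h4.2.2.1⟩]

/-- **The subset inequality** with weights -/
theorem sub_row (S : Finset Pt) (hS : GenPos S) (g : S → ℝ) (C : ℝ) (h0 : ∀ x, 0 ≤ g x)
    (h1 : ∀ x, g x ≤ C) :
    3 * dens (Set.Ici (Real.pi / 2)) * (∑ x, g x) ^ 3 - 3 * C ^ 3 * (Fintype.card S : ℝ) ^ 2 ≤
      ∑ x, ∑ y, ∑ z, Nf S x y z * (g x * g y * g z) := by
  set G : Pt → ℝ := fun x => if h : x ∈ S then g ⟨x, h⟩ else 0 with hG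
  have eG : ∀ x : S, G x.1 = g x := fun x => by
    simp only [hG]
    rw [dif_pos x.2]
  have g0 : ∀ x ∈ S, 0 ≤ G x := fun x hx => by
    rw [eG ⟨x, hx⟩]
    exact h0 _
  have g1 : ∀ x ∈ S, G x ≤ C := fun x hx => by
    rw [eG ⟨x, hx⟩]
    exact h1 _
  have k1 := lag_real S G g0
  have k2 := cube_sub_trip S G C g0 g1
  have e1 : ∑ x ∈ S, G x = ∑ x, g x := by
    rw [← sum_coe_sort S]
    exact sum_congr rfl fun x _ => eG x
  have e2 : 3 * ∑ p ∈ obt S, G p.1 * G p.2.1 * G p.2.2 =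
      ∑ x, ∑ y, ∑ z, Nf S x y z * (g x * g y * g z) := by
    set f : Pt → Pt → Pt → ℝ := fun a b c => (if Nac a b c then (1 : ℝ) else 0) *
      (G a * G b * G c) with hf
    have r0 : ∑ p ∈ obt S, G p.1 * G p.2.1 * G p.2.2 = ∑ t ∈ trip S, f t.1 t.2.1 t.2.2 := by
      unfold obt
      rw [sum_filter]
      refine sum_congr rfl fun t _ => ?_
      simp only [hf, Nac, Set.mem_Ici]
      split_ifs <;> ring
    have r1 : ∑ t ∈ trip S, f t.1 t.2.1 t.2.2 = ∑ t ∈ trip S, f t.2.1 t.2.2 t.1 :=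
      sum_trip_rot S f
    have r2 : ∑ t ∈ trip S, f t.2.1 t.2.2 t.1 = ∑ t ∈ trip S, f t.2.2 t.1 t.2.1 :=
      sum_trip_rot S (fun a b c => f b c a)
    have r3 : 3 * ∑ t ∈ trip S, f t.1 t.2.1 t.2.2 =
        ∑ t ∈ trip S, (f t.1 t.2.1 t.2.2 + f t.2.1 t.2.2 t.1 + f t.2.2 t.1 t.2.1) := by
      rw [sum_add_distrib, sum_add_distrib, ← r2, ← r1]
      ring
    have r4 : ∑ t ∈ trip S, (f t.1 t.2.1 t.2.2 + f t.2.1 t.2.2 t.1 + f t.2.2 t.1 t.2.1) =
        ∑ t ∈ trip S, (if NAc t.1 t.2.1 t.2.2 then (1 : ℝ) else 0) *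
          (G t.1 * G t.2.1 * G t.2.2) := by
      refine sum_congr rfl ?_
      rintro ⟨a, b, c⟩ ht
      have h := ite_NAc S hS ht
      simp only [hf]
      rw [h]
      ring
    rw [r0, r3, r4, sum_trip_ite S (fun a b c => (if NAc a b c then (1 : ℝ) else 0) *
          (G a * G b * G c)), ← sum_coe_sort S]
    refine sum_congr rfl fun x _ => ?_
    rw [← sum_coe_sort S]
    refine sum_congr rfl fun y _ => ?_
    rw [← sum_coe_sort S]
    refine sum_congr rfl fun z _ => ?_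
    rw [eG, eG, eG]
    by_cases h : x ≠ y ∧ y ≠ z ∧ x ≠ z
    · have h' : x.1 ≠ y.1 ∧ y.1 ≠ z.1 ∧ x.1 ≠ z.1 :=
        ⟨fun e => h.1 (Subtype.ext e), fun e => h.2.1 (Subtype.ext e),
          fun e => h.2.2 (Subtype.ext e)⟩
      rw [if_pos h', Nf_eq S x y z h.1 h.2.1 h.2.2]
    · have h' : ¬ (x.1 ≠ y.1 ∧ y.1 ≠ z.1 ∧ x.1 ≠ z.1) := fun h2 =>
        h ⟨fun e => h2.1 (by rw [e]), fun e => h2.2.1 (by rw [e]), fun e => h2.2.2 (by rw [e])⟩
      rw [if_neg h', Nf_zero S x y z h, zero_mul]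
  rw [e1] at k1 k2
  rw [e2] at k1
  rw [Fintype.card_coe]
  linarith

/-- zero unless the points are distinct -/
noncomputable def dF {ι : Type*} (x y z : ι) (v : ℝ) : ℝ :=
  if x ≠ y ∧ y ≠ z ∧ x ≠ z then v else 0

/-- the sum over triples of distinct points -/
theorem cube_le {ι : Type*} [Fintype ι] (g : ι → ℝ) (C : ℝ) (h0 : ∀ x, 0 ≤ g x)
    (h1 : ∀ x, g x ≤ C) :
    (∑ x, g x) ^ 3 - 3 * C ^ 3 * (Fintype.card ι : ℝ) ^ 2 ≤
      ∑ x, ∑ y, ∑ z, dF x y z (g x * g y * g z) := by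
  unfold dF
  rcases isEmpty_or_nonempty ι with he | ⟨⟨x0⟩⟩
  · simp
  have hC : 0 ≤ C := (h0 x0).trans (h1 x0)
  have e1 : (∑ x, g x) ^ 3 = ∑ x, ∑ y, ∑ z, g x * g y * g z := by
    rw [pow_succ, pow_two, sum_mul_sum, sum_mul]
    refine sum_congr rfl fun x _ => ?_
    rw [sum_mul]
    refine sum_congr rfl fun y _ => ?_
    rw [mul_sum]
  have hp : ∀ x y z : ι, g x * g y * g z ≤
      (if x ≠ y ∧ y ≠ z ∧ x ≠ z then g x * g y * g z else 0) +
      ((if x = y then C ^ 3 else 0) + (if y = z then C ^ 3 else 0) +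
        (if x = z then C ^ 3 else 0)) := by
    intro x y z
    have hc : g x * g y * g z ≤ C ^ 3 := by
      calc g x * g y * g z ≤ C * C * C := by
            refine mul_le_mul (mul_le_mul (h1 _) (h1 _) (h0 _) hC) (h1 _) (h0 _) (by positivity)
        _ = C ^ 3 := by ring
    have hC3 : 0 ≤ C ^ 3 := by positivity
    have i1 : 0 ≤ (if x = y then C ^ 3 else 0) := by split_ifs <;> linarith
    have i2 : 0 ≤ (if y = z then C ^ 3 else 0) := by split_ifs <;> linarith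
    have i3 : 0 ≤ (if x = z then C ^ 3 else 0) := by split_ifs <;> linarith
    by_cases a1 : x = y
    · rw [if_neg (fun h => h.1 a1), if_pos a1]
      linarith
    by_cases a2 : y = z
    · rw [if_neg (fun h => h.2.1 a2), if_pos a2]
      linarith
    by_cases a3 : x = z
    · rw [if_neg (fun h => h.2.2 a3), if_pos a3]
      linarith
    rw [if_pos ⟨a1, a2, a3⟩]
    linarith
  have hs := sum_le_sum fun x (_ : x ∈ (univ : Finset ι)) =>
    sum_le_sum fun y (_ : y ∈ (univ : Finset ι)) =>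
      sum_le_sum fun z (_ : z ∈ (univ : Finset ι)) => hp x y z
  simp only [sum_add_distrib] at hs
  have s1 : ∑ x : ι, ∑ y : ι, ∑ _z : ι, (if x = y then C ^ 3 else 0) =
      C ^ 3 * (Fintype.card ι : ℝ) ^ 2 := by
    simp only [sum_const, card_univ, nsmul_eq_mul, ← mul_sum, sum_ite_eq, mem_univ, if_true]
    ring
  have s2 : ∑ _x : ι, ∑ y : ι, ∑ z : ι, (if y = z then C ^ 3 else 0) =
      C ^ 3 * (Fintype.card ι : ℝ) ^ 2 := by
    simp only [sum_const, card_univ, nsmul_eq_mul, sum_ite_eq, mem_univ, if_true]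
    ring
  have s3 : ∑ x : ι, ∑ _y : ι, ∑ z : ι, (if x = z then C ^ 3 else 0) =
      C ^ 3 * (Fintype.card ι : ℝ) ^ 2 := by
    simp only [sum_const, card_univ, nsmul_eq_mul, sum_ite_eq, mem_univ, if_true]
    ring
  rw [s1, s2, s3, ← e1] at hs
  linarith

/-- value at `p` of the weight with digits `g` -/
def gd (g p : ℕ) : ℕ := (g >>> (8 * p)) % 256

theorem gd_lt (g p : ℕ) : gd g p ≤ 255 := by
  have := Nat.mod_lt (g >>> (8 * p)) (by norm_num : 0 < 256)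
  unfold gd
  omega

/-- the multiplier of the subset rows; the list has the multipliers and the weights -/
def u3L : List (ℕ × ℕ) → ℕ → ℕ → ℕ → ℕ
  | [], _, _, _ => 0
  | a :: l, p, q, r => a.1 * (gd a.2 p * gd a.2 q * gd a.2 r) + u3L l p q r

theorem u3L_sym (l : List (ℕ × ℕ)) (p q r : ℕ) :
    u3L l q p r = u3L l p q r ∧ u3L l p r q = u3L l p q r := by
  induction l with
  | nil => exact ⟨rfl, rfl⟩
  | cons a l ih =>
    simp only [u3L]
    rw [ih.1, ih.2]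
    constructor <;> ring

/-- the multiplier at free points, zero at the others -/
noncomputable def uT {ι : Type*} (rt : Fin 3 → ι) (τ : ι → ℕ) (l : List (ℕ × ℕ)) (x y z : ι) : ℕ :=
  if (x ∈ Free rt ∧ y ∈ Free rt ∧ z ∈ Free rt) ∧ x ≠ y ∧ y ≠ z ∧ x ≠ z then
    u3L l (τ x) (τ y) (τ z) else 0

/-- the weight, zero at the exceptional points -/
noncomputable def gF {ι : Type*} (rt : Fin 3 → ι) (τ : ι → ℕ) (g : ℕ) (x : ι) : ℝ :=
  if x ∈ Free rt then (gd g (τ x) : ℝ) else 0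

theorem gF_nonneg {ι : Type*} (rt : Fin 3 → ι) (τ : ι → ℕ) (g : ℕ) (x : ι) :
    0 ≤ gF rt τ g x := by
  unfold gF
  split_ifs
  · exact Nat.cast_nonneg _
  · exact le_refl _

theorem gF_le {ι : Type*} (rt : Fin 3 → ι) (τ : ι → ℕ) (g : ℕ) (x : ι) :
    gF rt τ g x ≤ 255 := by
  unfold gF
  split_ifs
  · exact_mod_cast gd_lt _ _
  · norm_num

theorem uT_cons {ι : Type*} (rt : Fin 3 → ι) (τ : ι → ℕ) (a : ℕ × ℕ) (l : List (ℕ × ℕ))
    (x y z : ι) : (uT rt τ (a :: l) x y z : ℝ) = (a.1 : ℝ) *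
      dF x y z (gF rt τ a.2 x * gF rt τ a.2 y * gF rt τ a.2 z) + uT rt τ l x y z := by
  unfold uT dF gF
  by_cases hd : x ≠ y ∧ y ≠ z ∧ x ≠ z
  · by_cases hF : x ∈ Free rt ∧ y ∈ Free rt ∧ z ∈ Free rt
    · have hh : (x ∈ Free rt ∧ y ∈ Free rt ∧ z ∈ Free rt) ∧ x ≠ y ∧ y ≠ z ∧ x ≠ z := ⟨hF, hd⟩
      rw [if_pos hh, if_pos hh, if_pos hd, if_pos hF.1, if_pos hF.2.1, if_pos hF.2.2]
      simp only [u3L]
      push_cast
      ring
    · have hh : ¬ ((x ∈ Free rt ∧ y ∈ Free rt ∧ z ∈ Free rt) ∧ x ≠ y ∧ y ≠ z ∧ x ≠ z) :=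
        fun h => hF h.1
      rw [if_neg hh, if_neg hh, if_pos hd]
      have e0 : (if x ∈ Free rt then (gd a.2 (τ x) : ℝ) else 0) *
        (if y ∈ Free rt then (gd a.2 (τ y) : ℝ) else 0) *
        (if z ∈ Free rt then (gd a.2 (τ z) : ℝ) else 0) = 0 := by
        by_cases hx : x ∈ Free rt
        · by_cases hy : y ∈ Free rt
          · have hz : z ∉ Free rt := fun h => hF ⟨hx, hy, h⟩
            rw [if_neg hz, mul_zero]
          · rw [if_neg hy, mul_zero, zero_mul]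
        · rw [if_neg hx, zero_mul, zero_mul]
      rw [e0, mul_zero, zero_add]
  · have hh : ¬ ((x ∈ Free rt ∧ y ∈ Free rt ∧ z ∈ Free rt) ∧ x ≠ y ∧ y ≠ z ∧ x ≠ z) :=
      fun h => hd h.2
    rw [if_neg hh, if_neg hh, if_neg hd, mul_zero, zero_add]

/-- **The subset rows of a list of weights** -/
theorem sub_list (l : List (ℕ × ℕ)) : ∃ CU : ℝ, 0 ≤ CU ∧ ∀ (S : Finset Pt), GenPos S →
    3 * dens (Set.Ici (Real.pi / 2)) ≤ 4 / 9 → ∀ (rt : Fin 3 → S) (τ : S → ℕ),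
    -(CU * (Fintype.card S : ℝ) ^ 2) - (4 / 9 - 3 * dens (Set.Ici (Real.pi / 2))) *
      ∑ x, ∑ y, ∑ z, (uT rt τ l x y z : ℝ) ≤
      ∑ x, ∑ y, ∑ z, (Nf S x y z - 4 / 9) * (uT rt τ l x y z : ℝ) := by
  induction l with
  | nil =>
    refine ⟨0, le_refl _, ?_⟩
    intro S _ _ rt τ
    have e : ∀ x y z : S, (uT rt τ [] x y z : ℝ) = 0 := by
      intro x y z
      unfold uT
      split_ifs <;> simp [u3L]
    simp only [e, mul_zero, sum_const_zero, zero_mul]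
    norm_num
  | cons a l ih =>
    obtain ⟨CU, h0, h1⟩ := ih
    refine ⟨CU + (a.1 : ℝ) * (3 * 255 ^ 3 * (1 + 1)), by positivity, ?_⟩
    intro S hS hD rt τ
    have k1 := h1 S hS hD rt τ
    set D3 : ℝ := 3 * dens (Set.Ici (Real.pi / 2)) with hD3
    have hD0 : 0 ≤ D3 := by
      rw [hD3]
      have := dens_Ici_nonneg
      positivity
    set n : ℝ := (Fintype.card S : ℝ) with hn
    set g : S → ℝ := gF rt τ a.2 with hg
    have g0 : ∀ x, 0 ≤ g x := gF_nonneg rt τ a.2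
    have g1 : ∀ x, g x ≤ 255 := gF_le rt τ a.2
    have k2 := sub_row S hS g 255 g0 g1
    have k3 := cube_le g 255 g0 g1
    rw [← hD3, ← hn] at k2
    rw [← hn] at k3
    set T3 : ℝ := (∑ x, g x) ^ 3 with hT3
    set V : ℝ := ∑ x, ∑ y, ∑ z, dF x y z (g x * g y * g z) with hV
    have e1 : ∑ x, ∑ y, ∑ z, (uT rt τ (a :: l) x y z : ℝ) =
        (a.1 : ℝ) * V + ∑ x, ∑ y, ∑ z, (uT rt τ l x y z : ℝ) := by
      rw [hV, hg]
      simp only [uT_cons, sum_add_distrib, ← mul_sum]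
    have e2 : ∑ x, ∑ y, ∑ z, (Nf S x y z - 4 / 9) * (uT rt τ (a :: l) x y z : ℝ) =
        (a.1 : ℝ) * (∑ x, ∑ y, ∑ z, Nf S x y z * (g x * g y * g z) - 4 / 9 * V) +
          ∑ x, ∑ y, ∑ z, (Nf S x y z - 4 / 9) * (uT rt τ l x y z : ℝ) := by
      rw [hV]
      simp only [mul_sum, ← sum_sub_distrib, ← sum_add_distrib]
      refine sum_congr rfl fun x _ => sum_congr rfl fun y _ => sum_congr rfl fun z _ => ?_
      rw [uT_cons, ← hg]
      unfold dF
      by_cases hd : x ≠ y ∧ y ≠ z ∧ x ≠ z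
      · rw [if_pos hd]
        ring
      · rw [if_neg hd, Nf_zero S x y z hd]
        ring
    have e3 : V ≤ T3 := by
      have : ∀ x y z : S, dF x y z (g x * g y * g z) ≤ g x * g y * g z := by
        intro x y z
        unfold dF
        split_ifs
        · exact le_refl _
        · exact mul_nonneg (mul_nonneg (g0 _) (g0 _)) (g0 _)
      have h2 := sum_le_sum fun x (_ : x ∈ (univ : Finset S)) =>
        sum_le_sum fun y (_ : y ∈ (univ : Finset S)) =>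
          sum_le_sum fun z (_ : z ∈ (univ : Finset S)) => this x y z
      refine h2.trans (le_of_eq ?_)
      rw [hT3, pow_succ, pow_two, sum_mul_sum, sum_mul]
      refine sum_congr rfl fun x _ => ?_
      rw [sum_mul]
      refine sum_congr rfl fun y _ => ?_
      rw [mul_sum]
    rw [e1, e2]
    have hV0 : D3 * V ≤ D3 * T3 := mul_le_mul_of_nonneg_left e3 hD0
    have hn2 : 0 ≤ n ^ 2 := sq_nonneg _
    have m1 : -(3 * 255 ^ 3 * (1 + 1)) * n ^ 2 - (4 / 9 - D3) * V ≤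
        ∑ x, ∑ y, ∑ z, Nf S x y z * (g x * g y * g z) - 4 / 9 * V := by
      nlinarith
    have ha : (0 : ℝ) ≤ a.1 := Nat.cast_nonneg _
    have m2 := mul_le_mul_of_nonneg_left m1 ha
    nlinarith

/-! ### the second order rows -/

theorem Nf_rot (S : Finset Pt) (x y z : S) : Nf S y z x = Nf S x y z := by
  by_cases h : x ≠ y ∧ y ≠ z ∧ x ≠ z
  · rw [Nf_eq S x y z h.1 h.2.1 h.2.2, Nf_eq S y z x h.2.1 h.2.2.symm h.1.symm]
    have e : NAc y.1 z.1 x.1 ↔ NAc x.1 y.1 z.1 := by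
      unfold NAc
      tauto
    simp only [e]
  · rw [Nf_zero S x y z h, Nf_zero S y z x (fun h' => h ⟨h'.2.2.symm, h'.1, h'.2.1.symm⟩)]

theorem Nf_sw (S : Finset Pt) (x y z : S) : Nf S x z y = Nf S x y z := by
  by_cases h : x ≠ y ∧ y ≠ z ∧ x ≠ z
  · rw [Nf_eq S x y z h.1 h.2.1 h.2.2, Nf_eq S x z y h.2.2 h.2.1.symm h.1]
    have e1 : ∀ a b c : Pt, Nac a b c ↔ Nac c b a := by
      intro a b c
      unfold Nac
      rw [EuclideanGeometry.angle_comm]
    have e : NAc x.1 z.1 y.1 ↔ NAc x.1 y.1 z.1 := by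
      unfold NAc
      rw [e1 x.1 z.1 y.1, e1 z.1 y.1 x.1, e1 y.1 x.1 z.1]
      tauto
    simp only [e]
  · rw [Nf_zero S x y z h, Nf_zero S x z y (fun h' => h ⟨h'.2.2, h'.2.1.symm, h'.1⟩)]

/-- the matrix at the first two points, zero at exceptional triples -/
noncomputable def zX {ι : Type*} (rt : Fin 3 → ι) (τ : ι → ℕ) (Z : ℕ → ℕ → ℤ) (x y z : ι) : ℝ :=
  if (x ∈ Free rt ∧ y ∈ Free rt ∧ z ∈ Free rt) ∧ x ≠ y ∧ y ≠ z ∧ x ≠ z then
    (Z (τ x) (τ y) : ℝ) else 0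

/-- the matrix at the three pairs, zero at exceptional triples -/
noncomputable def zT {ι : Type*} (rt : Fin 3 → ι) (τ : ι → ℕ) (Z : ℕ → ℕ → ℤ) (x y z : ι) : ℝ :=
  if (x ∈ Free rt ∧ y ∈ Free rt ∧ z ∈ Free rt) ∧ x ≠ y ∧ y ≠ z ∧ x ≠ z then
    ((Z (τ x) (τ y) : ℝ) + Z (τ y) (τ z) + Z (τ x) (τ z)) else 0

theorem zT_eq {ι : Type*} (rt : Fin 3 → ι) (τ : ι → ℕ) (Z : ℕ → ℕ → ℤ) (x y z : ι) :
    zT rt τ Z x y z = zX rt τ Z x y z + zX rt τ Z y z x + zX rt τ Z x z y := by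
  unfold zT zX
  by_cases h : (x ∈ Free rt ∧ y ∈ Free rt ∧ z ∈ Free rt) ∧ x ≠ y ∧ y ≠ z ∧ x ≠ z
  · have h1 : (y ∈ Free rt ∧ z ∈ Free rt ∧ x ∈ Free rt) ∧ y ≠ z ∧ z ≠ x ∧ y ≠ x :=
      ⟨⟨h.1.2.1, h.1.2.2, h.1.1⟩, h.2.2.1, h.2.2.2.symm, h.2.1.symm⟩
    have h2 : (x ∈ Free rt ∧ z ∈ Free rt ∧ y ∈ Free rt) ∧ x ≠ z ∧ z ≠ y ∧ x ≠ y :=
      ⟨⟨h.1.1, h.1.2.2, h.1.2.1⟩, h.2.2.2, h.2.2.1.symm, h.2.1⟩
    rw [if_pos h, if_pos h, if_pos h1, if_pos h2]
  · have h1 : ¬ ((y ∈ Free rt ∧ z ∈ Free rt ∧ x ∈ Free rt) ∧ y ≠ z ∧ z ≠ x ∧ y ≠ x) :=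
      fun g => h ⟨⟨g.1.2.2, g.1.1, g.1.2.1⟩, g.2.2.2.symm, g.2.1, g.2.2.1.symm⟩
    have h2 : ¬ ((x ∈ Free rt ∧ z ∈ Free rt ∧ y ∈ Free rt) ∧ x ≠ z ∧ z ≠ y ∧ x ≠ y) :=
      fun g => h ⟨⟨g.1.1, g.1.2.2, g.1.2.1⟩, g.2.2.2, g.2.2.1.symm, g.2.1⟩
    rw [if_neg h, if_neg h, if_neg h1, if_neg h2]
    norm_num

/-- sum over triples of a function vanishing outside the exceptional triples -/
theorem coinc_sum {ι : Type*} [Fintype ι] (rt : Fin 3 → ι) (f : ι → ι → ι → ℝ) (B : ℝ)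
    (hB : 0 ≤ B) (h0 : ∀ x y z, (x, y, z) ∉ coinc rt → f x y z = 0)
    (h1 : ∀ x y z, |f x y z| ≤ B) :
    |∑ x, ∑ y, ∑ z, f x y z| ≤ 12 * B * (Fintype.card ι : ℝ) ^ 2 := by
  have e : ∑ x, ∑ y, ∑ z, f x y z = ∑ t : ι × ι × ι, f t.1 t.2.1 t.2.2 := by
    rw [Fintype.sum_prod_type]
    refine sum_congr rfl fun a _ => ?_
    rw [Fintype.sum_prod_type]
  rw [e]
  refine (abs_sum_le_sum_abs _ _).trans ?_
  have h2 : ∀ t : ι × ι × ι, |f t.1 t.2.1 t.2.2| ≤ if t ∈ coinc rt then B else 0 := by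
    rintro ⟨a, b, d⟩
    split_ifs with h
    · exact h1 a b d
    · rw [h0 a b d h, abs_zero]
  refine (sum_le_sum fun t _ => h2 t).trans ?_
  rw [sum_ite_mem, univ_inter, sum_const, nsmul_eq_mul]
  have h3 := card_coinc rt
  rw [Fintype.card_fin] at h3
  have h4 := mul_le_mul_of_nonneg_right h3 hB
  refine h4.trans (le_of_eq ?_)
  push_cast
  ring

/-- conditions for the matrix of the second order rows -/
structure PsdT (m : ℕ) (Z : ℕ → ℕ → ℤ) : Prop where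
  sym : ∀ a b, Z a b = Z b a
  out : ∀ a b, ¬ (a < m ∧ b < m) → Z a b = 0
  psd : ∀ z : ℕ → ℤ, 0 ≤ ∑ a ∈ range m, ∑ b ∈ range m, Z a b * (z a * z b)

theorem PsdT.diag {m : ℕ} {Z : ℕ → ℕ → ℤ} (h : PsdT m Z) (p q : ℕ) :
    2 * Z p q ≤ Z p p + Z q q := by
  by_cases hpq : p < m ∧ q < m
  · rcases eq_or_ne p q with e | e
    · subst e
      linarith
    have h1 := h.psd fun a => (if a = p then 1 else 0) - (if a = q then 1 else 0)
    have e1 : ∑ a ∈ range m, ∑ b ∈ range m, Z a b *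
        (((if a = p then (1 : ℤ) else 0) - (if a = q then 1 else 0)) *
          ((if b = p then (1 : ℤ) else 0) - (if b = q then 1 else 0))) =
        Z p p - Z p q - Z q p + Z q q := by
      have e2 : ∀ f : ℕ → ℤ, ∀ r < m, ∑ b ∈ range m, f b * (if b = r then (1 : ℤ) else 0) =
          f r := by
        intro f r hr
        rw [sum_eq_single_of_mem r (mem_range.2 hr)]
        · rw [if_pos rfl, mul_one]
        · intro b _ hb
          rw [if_neg hb, mul_zero]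
      have e3 : ∀ a, ∑ b ∈ range m, Z a b *
          (((if a = p then (1 : ℤ) else 0) - (if a = q then 1 else 0)) *
            ((if b = p then (1 : ℤ) else 0) - (if b = q then 1 else 0))) =
          (Z a p - Z a q) * (if a = p then (1 : ℤ) else 0) -
            (Z a p - Z a q) * (if a = q then (1 : ℤ) else 0) := by
        intro a
        have k1 := e2 (fun b => Z a b) p hpq.1
        have k2 := e2 (fun b => Z a b) q hpq.2
        have k3 : ∑ b ∈ range m, Z a b *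
            (((if a = p then (1 : ℤ) else 0) - (if a = q then 1 else 0)) *
            ((if b = p then (1 : ℤ) else 0) - (if b = q then 1 else 0))) =
            ((if a = p then (1 : ℤ) else 0) - (if a = q then 1 else 0)) *
            (∑ b ∈ range m, Z a b * (if b = p then (1 : ℤ) else 0) -
              ∑ b ∈ range m, Z a b * (if b = q then (1 : ℤ) else 0)) := by
          rw [← sum_sub_distrib, mul_sum]
          refine sum_congr rfl fun b _ => ?_
          ring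
        rw [k3, k1, k2]
        ring
      rw [sum_congr rfl fun a _ => e3 a, sum_sub_distrib, e2 _ p hpq.1, e2 _ q hpq.2]
      ring
    rw [e1] at h1
    have := h.sym p q
    linarith
  · rw [h.out p q hpq]
    have d : ∀ r, 0 ≤ Z r r := by
      intro r
      by_cases hr : r < m
      · have h1 := h.psd fun a => if a = r then 1 else 0
        have e1 : ∑ a ∈ range m, ∑ b ∈ range m, Z a b *
            ((if a = r then (1 : ℤ) else 0) * (if b = r then (1 : ℤ) else 0)) = Z r r := by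
          rw [sum_eq_single_of_mem r (mem_range.2 hr), sum_eq_single_of_mem r (mem_range.2 hr)]
          · rw [if_pos rfl]
            ring
          · intro b _ hb
            rw [if_neg hb]
            ring
          · intro a _ ha
            refine sum_eq_zero fun b _ => ?_
            rw [if_neg ha]
            ring
        rw [e1] at h1
        exact h1
      · rw [h.out r r (fun h => hr h.1)]
    have := d p
    have := d q
    linarith

/-- **The second order rows** -/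
theorem z_row {m : ℕ} {Z : ℕ → ℕ → ℤ} (hZ : PsdT m Z) : ∃ C CE : ℝ, 0 ≤ C ∧ 0 ≤ CE ∧
    ∀ (S : Finset Pt) (η : ℝ), Near2 S η → 0 ≤ η → 3 * dens (Set.Ici (Real.pi / 2)) ≤ 4 / 9 →
    ∀ (rt : Fin 3 → S) (τ : S → ℕ),
    -(C * (Fintype.card S : ℝ) ^ 2 + CE * η * (Fintype.card S : ℝ) ^ 3) -
      (4 / 9 - 3 * dens (Set.Ici (Real.pi / 2))) * ∑ x, ∑ y, ∑ z, zT rt τ Z x y z ≤
      ∑ x, ∑ y, ∑ z, (Nf S x y z - 4 / 9) * zT rt τ Z x y z := by
  obtain ⟨CZ, hCZ, hz⟩ := exists_CZ m Z hZ.sym hZ.out hZ.psd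
  obtain ⟨β, hβ0, hβ⟩ : ∃ β : ℝ, 0 ≤ β ∧ ∀ a b, |(Z a b : ℝ)| ≤ β := by
    refine ⟨∑ a ∈ range m, ∑ b ∈ range m, |(Z a b : ℝ)|,
      sum_nonneg fun _ _ => sum_nonneg fun _ _ => abs_nonneg _, fun a b => ?_⟩
    by_cases h : a < m ∧ b < m
    · have h1 := single_le_sum (f := fun b => |(Z a b : ℝ)|) (fun _ _ => abs_nonneg _)
        (mem_range.2 h.2)
      have h2 := single_le_sum (f := fun a => ∑ b ∈ range m, |(Z a b : ℝ)|)
        (fun _ _ => sum_nonneg fun _ _ => abs_nonneg _) (mem_range.2 h.1)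
      exact h1.trans h2
    · rw [hZ.out a b h, Int.cast_zero, abs_zero]
      exact sum_nonneg fun _ _ => sum_nonneg fun _ _ => abs_nonneg _
  refine ⟨3 * (24 * β), 3 * CZ, by positivity, by positivity, ?_⟩
  intro S η hS hη hlt rt τ
  set D3 : ℝ := 3 * dens (Set.Ici (Real.pi / 2)) with hD3
  have hD0 : 0 ≤ D3 := by
    rw [hD3]
    have := dens_Ici_nonneg
    positivity
  set n : ℝ := (Fintype.card S : ℝ) with hn
  set τ' : S → ℕ := fun u => if u ∈ Free rt then τ u else m with hτ'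
  have k1 := hz S η hS hη τ'
  rw [← hn] at k1
  -- difference of the two sums
  have hout : ∀ x y z : S, (x, y, z) ∉ coinc rt →
      zX rt τ Z x y z = (Z (τ' x) (τ' y) : ℝ) := by
    intro x y z h
    simp only [coinc, mem_filter, mem_univ, true_and] at h
    push Not at h
    obtain ⟨h1, h2, h3, h4⟩ := h
    have hx : x ∈ Free rt := fun k => (h4 k).1
    have hy : y ∈ Free rt := fun k => (h4 k).2.1
    have hz : z ∈ Free rt := fun k => (h4 k).2.2
    unfold zX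
    rw [if_pos ⟨⟨hx, hy, hz⟩, h1, h3, h2⟩, hτ']
    simp only
    rw [if_pos hx, if_pos hy]
  have hbd : ∀ x y z : S, |zX rt τ Z x y z - (Z (τ' x) (τ' y) : ℝ)| ≤ β := by
    intro x y z
    by_cases h : (x, y, z) ∉ coinc rt
    · rw [hout x y z h, sub_self, abs_zero]
      exact hβ0
    · unfold zX
      split_ifs with h1
      · have hx := h1.1.1
        have hy := h1.1.2.1
        rw [hτ']
        simp only
        rw [if_pos hx, if_pos hy, sub_self, abs_zero]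
        exact hβ0
      · rw [zero_sub, abs_neg]
        exact hβ _ _
  have d1 := coinc_sum rt (fun x y z => zX rt τ Z x y z - (Z (τ' x) (τ' y) : ℝ)) β hβ0
    (fun x y z h => by rw [hout x y z h, sub_self]) hbd
  have d2 := coinc_sum rt (fun x y z => (Nf S x y z - 4 / 9) *
      (zX rt τ Z x y z - (Z (τ' x) (τ' y) : ℝ))) β hβ0
    (fun x y z h => by rw [hout x y z h, sub_self, mul_zero]) (fun x y z => by
      rw [abs_mul]
      have a1 : |Nf S x y z - 4 / 9| ≤ 1 := by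
        rw [abs_sub_comm]
        exact Nf_abs S x y z
      calc |Nf S x y z - 4 / 9| * |zX rt τ Z x y z - (Z (τ' x) (τ' y) : ℝ)| ≤ 1 * β :=
            mul_le_mul a1 (hbd x y z) (abs_nonneg _) (by norm_num)
        _ = β := one_mul _)
  rw [← hn] at d1 d2
  set W : ℝ := ∑ x, ∑ y, (Z (τ' x) (τ' y) : ℝ) with hW
  have e1 : ∑ x : S, ∑ y : S, ∑ z : S, (zX rt τ Z x y z - (Z (τ' x) (τ' y) : ℝ)) =
      ∑ x, ∑ y, ∑ z, zX rt τ Z x y z - n * W := by
    rw [hW]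
    simp only [sum_sub_distrib, sum_const, card_univ, nsmul_eq_mul, ← mul_sum]
    rw [hn]
  have e2 : ∑ x : S, ∑ y : S, ∑ z : S, (Nf S x y z - 4 / 9) *
      (zX rt τ Z x y z - (Z (τ' x) (τ' y) : ℝ)) =
      ∑ x, ∑ y, ∑ z, (Nf S x y z - 4 / 9) * zX rt τ Z x y z -
      (∑ x, ∑ y, (Z (τ' x) (τ' y) : ℝ) * (∑ t, Nf S x y t - D3 * n) - (4 / 9 - D3) * n * W) := by
    rw [hW]
    simp only [mul_sub, sum_sub_distrib, mul_sum]
    have f1 : ∀ x y : S, ∑ z : S, (Nf S x y z - 4 / 9) * (Z (τ' x) (τ' y) : ℝ) =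
        ∑ z : S, (Z (τ' x) (τ' y) : ℝ) * Nf S x y z - n * (4 / 9 * (Z (τ' x) (τ' y) : ℝ)) := by
      intro x y
      have : ∀ z : S, (Nf S x y z - 4 / 9) * (Z (τ' x) (τ' y) : ℝ) =
          (Z (τ' x) (τ' y) : ℝ) * Nf S x y z - 4 / 9 * (Z (τ' x) (τ' y) : ℝ) := fun z => by ring
      rw [sum_congr rfl fun z _ => this z, sum_sub_distrib, sum_const, card_univ, nsmul_eq_mul,
        ← hn]
    simp only [f1, sum_sub_distrib, ← mul_sum]
    have f2 : ∀ x y : S, (Z (τ' x) (τ' y) : ℝ) * (D3 * n) = D3 * n * (Z (τ' x) (τ' y) : ℝ) :=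
      fun x y => by ring
    simp only [f2, ← mul_sum]
    ring
  rw [e1] at d1
  rw [e2] at d2
  set A : ℝ := ∑ x, ∑ y, ∑ z, zX rt τ Z x y z with hA
  set Bv : ℝ := ∑ x, ∑ y, ∑ z, (Nf S x y z - 4 / 9) * zX rt τ Z x y z with hBv
  -- the symmetrised sums
  have s1 : ∑ x, ∑ y, ∑ z, zT rt τ Z x y z = 3 * A := by
    simp only [zT_eq, sum_add_distrib]
    have g1 : ∑ x : S, ∑ y : S, ∑ z : S, zX rt τ Z y z x = A := by
      rw [hA]
      rw [sum_comm]
      refine sum_congr rfl fun x _ => ?_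
      rw [sum_comm]
    have g2 : ∑ x : S, ∑ y : S, ∑ z : S, zX rt τ Z x z y = A := by
      rw [hA]
      refine sum_congr rfl fun x _ => ?_
      rw [sum_comm]
    rw [g1, g2, ← hA]
    ring
  have s2 : ∑ x, ∑ y, ∑ z, (Nf S x y z - 4 / 9) * zT rt τ Z x y z = 3 * Bv := by
    simp only [zT_eq, mul_add, sum_add_distrib]
    have g1 : ∑ x : S, ∑ y : S, ∑ z : S, (Nf S x y z - 4 / 9) * zX rt τ Z y z x = Bv := by
      rw [hBv]
      have : ∀ x y z : S, (Nf S x y z - 4 / 9) * zX rt τ Z y z x =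
          (Nf S y z x - 4 / 9) * zX rt τ Z y z x := fun x y z => by rw [Nf_rot S x y z]
      rw [sum_congr rfl fun x _ => sum_congr rfl fun y _ => sum_congr rfl fun z _ => this x y z]
      rw [sum_comm]
      refine sum_congr rfl fun x _ => ?_
      rw [sum_comm]
    have g2 : ∑ x : S, ∑ y : S, ∑ z : S, (Nf S x y z - 4 / 9) * zX rt τ Z x z y = Bv := by
      rw [hBv]
      have : ∀ x y z : S, (Nf S x y z - 4 / 9) * zX rt τ Z x z y =
          (Nf S x z y - 4 / 9) * zX rt τ Z x z y := fun x y z => by rw [Nf_sw S x y z]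
      rw [sum_congr rfl fun x _ => sum_congr rfl fun y _ => sum_congr rfl fun z _ => this x y z]
      refine sum_congr rfl fun x _ => ?_
      rw [sum_comm]
    rw [g1, g2, ← hBv]
    ring
  rw [s1, s2]
  have b1 := (abs_le.1 d1).2
  have b1' := (abs_le.1 d1).1
  have b2 := (abs_le.1 d2).1
  have hE : 0 ≤ 12 * β * n ^ 2 := by positivity
  have m1 : (4 / 9 - D3) * (A - n * W) ≥ -(12 * β * n ^ 2) := by
    have h1 : 0 ≤ 4 / 9 - D3 := by linarith
    have h2 : (4 / 9 - D3) * (-(12 * β * n ^ 2)) ≤ (4 / 9 - D3) * (A - n * W) :=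
      mul_le_mul_of_nonneg_left b1' h1
    have h3 : (4 / 9 - D3) * (12 * β * n ^ 2) ≤ 1 * (12 * β * n ^ 2) :=
      mul_le_mul_of_nonneg_right (by linarith) hE
    linarith
  have m2 : (4 / 9 - D3) * (A - n * W) = (4 / 9 - D3) * A - (4 / 9 - D3) * n * W := by ring
  rw [m2] at m1
  linarith

/-! ### the bound -/

/-- one at triples of distinct free points -/
noncomputable def oT {ι : Type*} (rt : Fin 3 → ι) (x y z : ι) : ℝ :=
  if (x ∈ Free rt ∧ y ∈ Free rt ∧ z ∈ Free rt) ∧ x ≠ y ∧ y ≠ z ∧ x ≠ z then 1 else 0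

/-- **The row of the density** -/
theorem o_row {S : Finset Pt} {η : ℝ} (hS : Near S η) (_hη : 0 ≤ η) (rt : Fin 3 → S) :
    -(36 * (Fintype.card S : ℝ) ^ 2 + η * (Fintype.card S : ℝ) ^ 3) -
      (4 / 9 - 3 * dens (Set.Ici (Real.pi / 2))) * ∑ x, ∑ y, ∑ z, oT rt x y z ≤
      ∑ x, ∑ y, ∑ z, (Nf S x y z - 4 / 9) * oT rt x y z := by
  set D3 : ℝ := 3 * dens (Set.Ici (Real.pi / 2)) with hD3
  have hD0 : 0 ≤ D3 := by
    rw [hD3]
    have := dens_Ici_nonneg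
    positivity
  have hD1 : D3 ≤ 3 := by
    rw [hD3]
    have := dens_Ici_le_one
    linarith
  set n : ℝ := (Fintype.card S : ℝ) with hn
  have hout : ∀ x y z : S, (x, y, z) ∉ coinc rt → oT rt x y z = 1 := by
    intro x y z h
    simp only [coinc, mem_filter, mem_univ, true_and] at h
    push Not at h
    obtain ⟨h1, h2, h3, h4⟩ := h
    have hx : x ∈ Free rt := fun k => (h4 k).1
    have hy : y ∈ Free rt := fun k => (h4 k).2.1
    have hz : z ∈ Free rt := fun k => (h4 k).2.2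
    unfold oT
    rw [if_pos ⟨⟨hx, hy, hz⟩, h1, h3, h2⟩]
  have hbd : ∀ x y z : S, |oT rt x y z - 1| ≤ 1 := by
    intro x y z
    unfold oT
    split_ifs <;> norm_num
  have d1 := coinc_sum rt (fun x y z => oT rt x y z - 1) 1 (by norm_num)
    (fun x y z h => by rw [hout x y z h, sub_self]) hbd
  have d2 := coinc_sum rt (fun x y z => Nf S x y z * (oT rt x y z - 1)) 1 (by norm_num)
    (fun x y z h => by rw [hout x y z h, sub_self, mul_zero]) (fun x y z => by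
      rw [abs_mul]
      have a1 : |Nf S x y z| ≤ 1 := by
        rcases Nf_01 S x y z with h | h <;> rw [h] <;> norm_num
      calc |Nf S x y z| * |oT rt x y z - 1| ≤ 1 * 1 :=
            mul_le_mul a1 (hbd x y z) (abs_nonneg _) (by norm_num)
        _ = 1 := one_mul _)
  rw [← hn] at d1 d2
  have e1 : ∑ x : S, ∑ y : S, ∑ z : S, (oT rt x y z - 1) =
      ∑ x, ∑ y, ∑ z, oT rt x y z - n ^ 3 := by
    simp only [sum_sub_distrib, sum_const, card_univ, nsmul_eq_mul, mul_one]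
    rw [← hn]
    ring
  have e2 : ∑ x : S, ∑ y : S, ∑ z : S, Nf S x y z * (oT rt x y z - 1) =
      ∑ x, ∑ y, ∑ z, Nf S x y z * oT rt x y z - ∑ x, ∑ y, ∑ z, Nf S x y z := by
    simp only [mul_sub, sum_sub_distrib, mul_one]
  have e3 : ∑ x, ∑ y, ∑ z, (Nf S x y z - 4 / 9) * oT rt x y z =
      ∑ x, ∑ y, ∑ z, Nf S x y z * oT rt x y z - 4 / 9 * ∑ x, ∑ y, ∑ z, oT rt x y z := by
    simp only [sub_mul, sum_sub_distrib, mul_sum]
  have e4 : (D3 - η) * n ^ 3 ≤ ∑ x, ∑ y, ∑ z, Nf S x y z := by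
    have h1 : ∀ x : S, (D3 - η) * n ^ 2 ≤ ∑ y, ∑ z, Nf S x y z := by
      intro x
      have := (abs_le.1 (hS.deg x)).1
      rw [← hD3, ← hn] at this
      linarith
    have h2 := sum_le_sum fun x (_ : x ∈ (univ : Finset S)) => h1 x
    rw [sum_const, card_univ, nsmul_eq_mul, ← hn] at h2
    refine le_trans (le_of_eq ?_) h2
    ring
  rw [e1] at d1
  rw [e2] at d2
  rw [e3]
  set V : ℝ := ∑ x, ∑ y, ∑ z, oT rt x y z with hV
  have b1 := (abs_le.1 d1).2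
  have b1' := (abs_le.1 d1).1
  have b2 := (abs_le.1 d2).1
  have hVn : V ≤ n ^ 3 := by
    rw [hV, hn]
    have h1 : ∀ x y z : S, oT rt x y z ≤ 1 := by
      intro x y z
      unfold oT
      split_ifs <;> norm_num
    have h2 := sum_le_sum fun x (_ : x ∈ (univ : Finset S)) =>
      sum_le_sum fun y (_ : y ∈ (univ : Finset S)) =>
        sum_le_sum fun z (_ : z ∈ (univ : Finset S)) => h1 x y z
    refine h2.trans (le_of_eq ?_)
    simp only [sum_const, card_univ, nsmul_eq_mul, mul_one]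
    ring
  have m1 : D3 * V ≤ D3 * n ^ 3 := mul_le_mul_of_nonneg_left hVn hD0
  have hn2 : 0 ≤ n ^ 2 := sq_nonneg _
  nlinarith

/-- conditions for the subset rows and the second order rows -/
structure LinkU (T : Tb) (l : List (ℕ × ℕ)) (Z : ℕ → ℕ → ℤ) (ou : ℕ) (K : ℝ) : Prop where
  zp : PsdT T.nt Z
  u3 : ∀ p < T.nt, ∀ q < T.nt, ∀ r < T.nt, (T.u3 p q r : ℤ) =
    ou + u3L l p q r + (Z p q + Z q r + Z p r)
  lnd : 9 * T.ln = 4 * T.ld
  lo : ∀ p < T.nt, K + T.ld * (T.u3 p p p : ℝ) ≤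
    9 * ((T.Mu p : ℝ) + (T.Nu 0 p + T.Nu 1 p + T.Nu 2 p))

/-- average of a function of one point -/
theorem sum3_avg {ι : Type*} [Fintype ι] (f : ι → ℝ) :
    ∑ x, ∑ y, ∑ z, (f x + f y + f z) = 3 * ((Fintype.card ι : ℝ) ^ 2 * ∑ x, f x) := by
  simp only [sum_add_distrib, sum_const, card_univ, nsmul_eq_mul, ← mul_sum]
  ring

theorem amgm3 {a b c : ℝ} (ha : 0 ≤ a) (hb : 0 ≤ b) (hc : 0 ≤ c) :
    3 * (a * b * c) ≤ a * a * a + b * b * b + c * c * c := by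
  have h : a * a * a + b * b * b + c * c * c - 3 * (a * b * c) =
      (a + b + c) * ((a - b) ^ 2 + (b - c) ^ 2 + (a - c) ^ 2) / 2 := by ring
  have h2 : 0 ≤ (a + b + c) * ((a - b) ^ 2 + (b - c) ^ 2 + (a - c) ^ 2) / 2 := by positivity
  linarith

theorem u3L_avg (l : List (ℕ × ℕ)) (p q r : ℕ) :
    3 * (u3L l p q r : ℝ) ≤ u3L l p p p + u3L l q q q + u3L l r r r := by
  induction l with
  | nil => simp [u3L]
  | cons a l ih =>
    simp only [u3L]
    push_cast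
    have h1 := amgm3 (a := (gd a.2 p : ℝ)) (b := (gd a.2 q : ℝ)) (c := (gd a.2 r : ℝ))
      (Nat.cast_nonneg _) (Nat.cast_nonneg _) (Nat.cast_nonneg _)
    have h2 := mul_le_mul_of_nonneg_left h1 (Nat.cast_nonneg a.1 : (0 : ℝ) ≤ a.1)
    linarith

/-- the bound for configurations with the rows of `T` -/
def NB (T : Tb) (s0 s1 : ℕ) : Prop := ∃ M C : ℝ, 0 ≤ M ∧ 0 ≤ C ∧
    ∀ (S : Finset Pt) (η : ℝ), 0 ≤ η → Near2 S η →
    ∀ (rt : Fin 3 → S) (τ : S → ℕ) (c : S → S → ℕ) (d : S → S → S → ℕ),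
    T.Cf T.nt τ c d (Free rt) →
    (∀ x ∈ Free rt, ∀ y ∈ Free rt, ∀ z ∈ Free rt, x ≠ y → y ≠ z → x ≠ z →
      Nf S x y z = (na (d x y z) : ℝ)) →
    (∀ x ∈ Free rt, ∀ y ∈ Free rt, x ≠ y → Nf S (rt 0) x y = (na (dg0 (c x y)) : ℝ) ∧
      Nf S (rt 1) x y = (na (dg1 (c x y)) : ℝ) ∧ Nf S (rt 2) x y = (na (dg2 (c x y)) : ℝ)) →
    (∀ x ∈ Free rt, ∀ k < T.nk, (∃ j, T.lam k (τ x) j ≠ 0) →
      ∑ y, exS rt τ c T k x y ≤ (s0 : ℤ)) →
    (∀ x ∈ Free rt, ∀ y ∈ Free rt, x ≠ y → -(s1 : ℤ) ≤ ∑ z, pS rt τ c d T x y z) →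
    3 * dens (Set.Ici (Real.pi / 2)) ≤ 4 / 9 →
    (4 / 9 - 3 * dens (Set.Ici (Real.pi / 2))) * (Fintype.card S : ℝ) ^ 3 ≤
      M * η * (Fintype.card S : ℝ) ^ 3 + C * (Fintype.card S : ℝ) ^ 2

/-- **The bound from a checked certificate with subset rows and second order rows.** -/
theorem nb_of_linkU {T : Tb} {G : List Sy} {K : ℝ} {l : List (ℕ × ℕ)} {Z : ℕ → ℕ → ℤ} {ou : ℕ}
    (hG : Good T G K) (hU : LinkU T l Z ou K) (s0 s1 : ℕ) : NB T s0 s1 := by
  obtain ⟨CU, hCU, hsub⟩ := sub_list l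
  obtain ⟨C1, CE, hC1, hCE, hzr⟩ := z_row hU.zp
  obtain ⟨M, C, hM, hC, hb⟩ := near_boundU hG s0 s1 (T.ld * (CU + C1 + 36 * ou))
    (T.ld * (CE + ou))
  refine ⟨M, C, hM, hC, ?_⟩
  intro S η hη hS rt τ c d hCf h0 h1 hex hpx hlt
  set V : ℝ := ∑ x, ∑ y, ∑ z, (uT rt τ l x y z : ℝ) with hV
  set V2 : ℝ := ∑ x, ∑ y, ∑ z, zT rt τ Z x y z with hV2
  set V3 : ℝ := ∑ x, ∑ y, ∑ z, oT rt x y z with hV3
  have hK := hG.K0
  have hld : (0 : ℝ) ≤ T.ld := Nat.cast_nonneg _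
  have hou : (0 : ℝ) ≤ ou := Nat.cast_nonneg _
  -- the total multiplier at a triple
  have hu3 : ∀ x y z : S, (x ∈ Free rt ∧ y ∈ Free rt ∧ z ∈ Free rt) ∧ x ≠ y ∧ y ≠ z ∧ x ≠ z →
      (T.u3 (τ x) (τ y) (τ z) : ℝ) = ou * oT rt x y z + uT rt τ l x y z + zT rt τ Z x y z := by
    intro x y z h
    have h2 := hU.u3 _ (hCf.ty x h.1.1) _ (hCf.ty y h.1.2.1) _ (hCf.ty z h.1.2.2)
    unfold oT uT zT
    rw [if_pos h, if_pos h, if_pos h]
    have h3 : ((T.u3 (τ x) (τ y) (τ z) : ℤ) : ℝ) = ((ou + u3L l (τ x) (τ y) (τ z) +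
      (Z (τ x) (τ y) + Z (τ y) (τ z) + Z (τ x) (τ z)) : ℤ) : ℝ) := by rw [h2]
    push_cast at h3
    rw [h3]
    ring
  have hu0 : ∀ x y z : S, ¬ ((x ∈ Free rt ∧ y ∈ Free rt ∧ z ∈ Free rt) ∧ x ≠ y ∧ y ≠ z ∧ x ≠ z) →
      ou * oT rt x y z + uT rt τ l x y z + zT rt τ Z x y z = 0 := by
    intro x y z h
    unfold oT uT zT
    rw [if_neg h, if_neg h, if_neg h]
    simp
  refine hb S η (T.ld * (ou * V3 + V + V2)) hη hS.toNear rt τ c d hCf h0 h1 hex hpx ?_ ?_ hlt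
  · -- the sum of the multipliers
    set f : S → ℝ := fun x => if x ∈ Free rt then 9 * ((T.Mu (τ x) : ℝ) + (T.Nu 0 (τ x) +
      T.Nu 1 (τ x) + T.Nu 2 (τ x))) else K with hf
    have hlow : ∀ x, K ≤ f x := by
      intro x
      simp only [hf]
      split_ifs with hx
      · have h2 := hU.lo _ (hCf.ty x hx)
        have h3 : 0 ≤ (T.ld : ℝ) * (T.u3 (τ x) (τ x) (τ x) : ℝ) :=
          mul_nonneg hld (Nat.cast_nonneg _)
        linarith
      · exact le_refl _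
    have hpt : ∀ x y z : S, 3 * K + 3 * T.ld * (ou * oT rt x y z + uT rt τ l x y z +
        zT rt τ Z x y z) ≤ f x + f y + f z := by
      intro x y z
      by_cases h : (x ∈ Free rt ∧ y ∈ Free rt ∧ z ∈ Free rt) ∧ x ≠ y ∧ y ≠ z ∧ x ≠ z
      · obtain ⟨⟨hx, hy, hz⟩, -⟩ := id h
        have tx := hCf.ty x hx
        have ty := hCf.ty y hy
        have tz := hCf.ty z hz
        rw [← hu3 x y z h]
        have a1 := hU.lo _ tx
        have a2 := hU.lo _ ty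
        have a3 := hU.lo _ tz
        have b0 := congrArg (Int.cast : ℤ → ℝ) (hU.u3 _ tx _ ty _ tz)
        have b1 := congrArg (Int.cast : ℤ → ℝ) (hU.u3 _ tx _ tx _ tx)
        have b2 := congrArg (Int.cast : ℤ → ℝ) (hU.u3 _ ty _ ty _ ty)
        have b3 := congrArg (Int.cast : ℤ → ℝ) (hU.u3 _ tz _ tz _ tz)
        push_cast at b0 b1 b2 b3
        have c1 := u3L_avg l (τ x) (τ y) (τ z)
        have c2 : (2 : ℝ) * Z (τ x) (τ y) ≤ Z (τ x) (τ x) + Z (τ y) (τ y) := by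
          exact_mod_cast hU.zp.diag (τ x) (τ y)
        have c3 : (2 : ℝ) * Z (τ y) (τ z) ≤ Z (τ y) (τ y) + Z (τ z) (τ z) := by
          exact_mod_cast hU.zp.diag (τ y) (τ z)
        have c4 : (2 : ℝ) * Z (τ x) (τ z) ≤ Z (τ x) (τ x) + Z (τ z) (τ z) := by
          exact_mod_cast hU.zp.diag (τ x) (τ z)
        have c5 : 3 * (T.u3 (τ x) (τ y) (τ z) : ℝ) ≤ T.u3 (τ x) (τ x) (τ x) +
            T.u3 (τ y) (τ y) (τ y) + T.u3 (τ z) (τ z) (τ z) := by
          rw [b0, b1, b2, b3]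
          linarith
        have c6 := mul_le_mul_of_nonneg_left c5 hld
        simp only [hf]
        rw [if_pos hx, if_pos hy, if_pos hz]
        linarith
      · rw [hu0 x y z h]
        have a1 := hlow x
        have a2 := hlow y
        have a3 := hlow z
        linarith
    have hs := sum_le_sum fun x (_ : x ∈ (univ : Finset S)) =>
      sum_le_sum fun y (_ : y ∈ (univ : Finset S)) =>
        sum_le_sum fun z (_ : z ∈ (univ : Finset S)) => hpt x y z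
    rw [sum3_avg] at hs
    have e1 : ∑ x : S, ∑ y : S, ∑ z : S, (3 * K + 3 * T.ld * (ou * oT rt x y z +
        uT rt τ l x y z + zT rt τ Z x y z)) =
        3 * (K * (Fintype.card S : ℝ) ^ 3 + T.ld * (ou * V3 + V + V2)) := by
      simp only [sum_add_distrib, mul_add, sum_const, card_univ, nsmul_eq_mul, ← mul_sum]
      rw [← hV, ← hV2, ← hV3]
      ring
    rw [e1] at hs
    linarith
  · -- the rows
    have k1 := hsub S hS.gen hlt rt τ
    have k2 := hzr S η hS hη hlt rt τ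
    have k3 := mul_le_mul_of_nonneg_left (o_row hS.toNear hη rt) hou
    rw [← hV] at k1
    rw [← hV2] at k2
    rw [← hV3] at k3
    have hln : (T.ln : ℝ) = 4 / 9 * T.ld := by
      have : (9 : ℝ) * T.ln = 4 * T.ld := by exact_mod_cast hU.lnd
      linarith
    have e2 : ∀ x y z : S, ((uX rt τ d T x y z : ℤ) : ℝ) = (T.ld : ℝ) *
        (ou * ((Nf S x y z - 4 / 9) * oT rt x y z) +
          (Nf S x y z - 4 / 9) * (uT rt τ l x y z : ℝ) +
          (Nf S x y z - 4 / 9) * zT rt τ Z x y z) := by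
      intro x y z
      by_cases h : (x ∈ Free rt ∧ y ∈ Free rt ∧ z ∈ Free rt) ∧ x ≠ y ∧ y ≠ z ∧ x ≠ z
      · unfold uX
        rw [if_pos h, h0 x h.1.1 y h.1.2.1 z h.1.2.2 h.2.1 h.2.2.1 h.2.2.2]
        push_cast
        rw [hu3 x y z h, hln]
        ring
      · have e3 : (T.ld : ℝ) * (ou * ((Nf S x y z - 4 / 9) * oT rt x y z) +
            (Nf S x y z - 4 / 9) * (uT rt τ l x y z : ℝ) +
            (Nf S x y z - 4 / 9) * zT rt τ Z x y z) = (T.ld : ℝ) * ((Nf S x y z - 4 / 9) *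
            (ou * oT rt x y z + uT rt τ l x y z + zT rt τ Z x y z)) := by ring
        rw [e3, hu0 x y z h]
        unfold uX
        rw [if_neg h]
        simp
    rw [Int.cast_sum]
    have e4 : ∑ x : S, ((∑ y : S, ∑ z : S, uX rt τ d T x y z : ℤ) : ℝ) = (T.ld : ℝ) *
        (ou * ∑ x, ∑ y, ∑ z, (Nf S x y z - 4 / 9) * oT rt x y z +
          ∑ x, ∑ y, ∑ z, (Nf S x y z - 4 / 9) * (uT rt τ l x y z : ℝ) +
          ∑ x, ∑ y, ∑ z, (Nf S x y z - 4 / 9) * zT rt τ Z x y z) := by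
      simp only [Int.cast_sum, e2, ← mul_sum, sum_add_distrib]
    rw [e4]
    have k4 : (ou : ℝ) * (-(36 * (Fintype.card S : ℝ) ^ 2 + η * (Fintype.card S : ℝ) ^ 3) -
      (4 / 9 - 3 * dens (Set.Ici (Real.pi / 2))) * V3) +
      (-(CU * (Fintype.card S : ℝ) ^ 2) - (4 / 9 - 3 * dens (Set.Ici (Real.pi / 2))) * V) +
      (-(C1 * (Fintype.card S : ℝ) ^ 2 + CE * η * (Fintype.card S : ℝ) ^ 3) -
      (4 / 9 - 3 * dens (Set.Ici (Real.pi / 2))) * V2) ≤
      ou * ∑ x, ∑ y, ∑ z, (Nf S x y z - 4 / 9) * oT rt x y z +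
          ∑ x, ∑ y, ∑ z, (Nf S x y z - 4 / 9) * (uT rt τ l x y z : ℝ) +
          ∑ x, ∑ y, ∑ z, (Nf S x y z - 4 / 9) * zT rt τ Z x y z := by linarith
    have k5 := mul_le_mul_of_nonneg_left k4 hld
    refine le_trans (le_of_eq ?_) k5
    ring

/-- **The bound from a checked certificate without subset rows.** -/
theorem nb_of_good {T : Tb} {G : List Sy} {K : ℝ} (hG : Good T G K)
    (hlo : ∀ p < T.nt, K ≤ 9 * ((T.Mu p : ℝ) + (T.Nu 0 p + T.Nu 1 p + T.Nu 2 p)))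
    (hU : ∀ p q r, T.u3 p q r = 0) (s0 s1 : ℕ) : NB T s0 s1 := by
  obtain ⟨M, C, hM, hC, hb⟩ := near_boundU hG s0 s1 0 0
  refine ⟨M, C, hM, hC, ?_⟩
  intro S η hη hS rt τ c d hCf h0 h1 hex hpx hlt
  refine hb S η 0 hη hS.toNear rt τ c d hCf h0 h1 hex hpx ?_ ?_ hlt
  · have hlow : ∀ x : S, K ≤ (if x ∈ Free rt then 9 * ((T.Mu (τ x) : ℝ) + (T.Nu 0 (τ x) +
      T.Nu 1 (τ x) + T.Nu 2 (τ x))) else K) := by
      intro x
      split_ifs with hx
      · exact hlo _ (hCf.ty x hx)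
      · exact le_refl _
    have hs := sum_le_sum fun x (_ : x ∈ (univ : Finset S)) => hlow x
    rw [sum_const, card_univ, nsmul_eq_mul] at hs
    have h2 : (0 : ℝ) ≤ (Fintype.card S : ℝ) ^ 2 := sq_nonneg _
    have := mul_le_mul_of_nonneg_left hs h2
    refine le_trans (le_of_eq ?_) this
    ring
  · have e : ∀ x y z : S, uX rt τ d T x y z = 0 := by
      intro x y z
      unfold uX
      rw [hU]
      simp
    simp only [e, sum_const_zero, zero_mul, mul_zero]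
    norm_num

end Pool.Agent.AKZ
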