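import Pool.Agent.AKZ.Link
import Pool.Agent.AKZ.Sub

set_option autoImplicit false

/-!
# The case split over the value at the roots
-/

namespace Pool.Agent.AKZ

open Finset Classical Pool.Agent.AKG Pool.Agent.AKO Pool.Agent.AKU Pool.Agent.MP_0af329_co
  Pool.Agent.AK

/-- the deficit of the nearly optimal sets with property `Q` is small -/
def Dec (Q : Finset Pt → Prop) : Prop :=
  ∃ M C : ℝ, ∃ n0 : ℕ, 0 ≤ M ∧ 0 ≤ C ∧ ∀ (S : Finset Pt) (η : ℝ), 0 < η → η ≤ 1 → Near2 S η →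
    n0 ≤ Fintype.card S → 3 * dens (Set.Ici (Real.pi / 2)) ≤ 4 / 9 → Q S →
    (4 / 9 - 3 * dens (Set.Ici (Real.pi / 2))) * (Fintype.card S : ℝ) ^ 3 ≤
      M * η * (Fintype.card S : ℝ) ^ 3 + C * (Fintype.card S : ℝ) ^ 2

/-- it suffices to consider small `η` -/
theorem dec_small {Q : Finset Pt → Prop} {η1 : ℝ} (h1 : 0 < η1) (h : ∃ M C : ℝ, ∃ n0 : ℕ,
    0 ≤ M ∧ 0 ≤ C ∧ ∀ (S : Finset Pt) (η : ℝ), 0 < η → η ≤ η1 → Near2 S η →
    n0 ≤ Fintype.card S → 3 * dens (Set.Ici (Real.pi / 2)) ≤ 4 / 9 → Q S →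
    (4 / 9 - 3 * dens (Set.Ici (Real.pi / 2))) * (Fintype.card S : ℝ) ^ 3 ≤
      M * η * (Fintype.card S : ℝ) ^ 3 + C * (Fintype.card S : ℝ) ^ 2) : Dec Q := by
  obtain ⟨M, C, n0, hM, hC, h⟩ := h
  refine ⟨M + 1 / η1, C, n0, by positivity, hC, ?_⟩
  intro S η hη _ hS hn hlt hQ
  have h3 : 0 ≤ (Fintype.card S : ℝ) ^ 3 := by positivity
  have h2 : 0 ≤ C * (Fintype.card S : ℝ) ^ 2 := by positivity
  by_cases hc : η ≤ η1
  · have k1 := h S η hη hc hS hn hlt hQ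
    have k2 : M * η * (Fintype.card S : ℝ) ^ 3 ≤ (M + 1 / η1) * η * (Fintype.card S : ℝ) ^ 3 := by
      refine mul_le_mul_of_nonneg_right ?_ h3
      refine mul_le_mul_of_nonneg_right ?_ hη.le
      have : 0 ≤ 1 / η1 := by positivity
      linarith
    linarith
  · push Not at hc
    have hD := dens_Ici_nonneg
    have k3 : 1 ≤ (M + 1 / η1) * η := by
      have e1 : 1 / η1 * η1 = 1 := by field_simp
      have e2 : 1 / η1 * η1 ≤ 1 / η1 * η := mul_le_mul_of_nonneg_left hc.le (by positivity)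
      have e3 : 0 ≤ M * η := mul_nonneg hM hη.le
      have e4 : (M + 1 / η1) * η = M * η + 1 / η1 * η := by ring
      rw [e4]
      linarith
    have k4 := mul_le_mul_of_nonneg_right k3 h3
    have k5 : (4 / 9 - 3 * dens (Set.Ici (Real.pi / 2))) * (Fintype.card S : ℝ) ^ 3 ≤
        1 * (Fintype.card S : ℝ) ^ 3 := mul_le_mul_of_nonneg_right (by linarith) h3
    linarith

theorem dec_mono {P Q : Finset Pt → Prop} (h : ∀ S, P S → Q S) (hQ : Dec Q) : Dec P := by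
  obtain ⟨M, C, n0, hM, hC, hd⟩ := hQ
  exact ⟨M, C, n0, hM, hC, fun S η a b c d e f => hd S η a b c d e (h S f)⟩

theorem dec_or {P Q : Finset Pt → Prop} (hP : Dec P) (hQ : Dec Q) :
    Dec fun S => P S ∨ Q S := by
  obtain ⟨M, C, n0, hM, hC, hd⟩ := hP
  obtain ⟨M', C', n0', hM', hC', hd'⟩ := hQ
  refine ⟨M + M', C + C', max n0 n0', by positivity, by positivity, ?_⟩
  intro S η hη hη1 hS hn hlt h
  have h3 : 0 ≤ (Fintype.card S : ℝ) ^ 3 := by positivity
  have h2 : 0 ≤ (Fintype.card S : ℝ) ^ 2 := by positivity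
  have a1 : 0 ≤ M * η * (Fintype.card S : ℝ) ^ 3 := by positivity
  have a2 : 0 ≤ M' * η * (Fintype.card S : ℝ) ^ 3 := by positivity
  have a3 : 0 ≤ C * (Fintype.card S : ℝ) ^ 2 := by positivity
  have a4 : 0 ≤ C' * (Fintype.card S : ℝ) ^ 2 := by positivity
  have e : (M + M') * η * (Fintype.card S : ℝ) ^ 3 + (C + C') * (Fintype.card S : ℝ) ^ 2 =
      (M * η * (Fintype.card S : ℝ) ^ 3 + C * (Fintype.card S : ℝ) ^ 2) +
      (M' * η * (Fintype.card S : ℝ) ^ 3 + C' * (Fintype.card S : ℝ) ^ 2) := by ring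
  rw [e]
  rcases h with h | h
  · have := hd S η hη hη1 hS ((le_max_left _ _).trans hn) hlt h
    linarith
  · have := hd' S η hη hη1 hS ((le_max_right _ _).trans hn) hlt h
    linarith

/-- sets with a property that does not occur -/
theorem dec_false {P : Finset Pt → Prop} (h : 3 * dens (Set.Ici (Real.pi / 2)) ≤ 4 / 9 →
    ∃ η0 : ℝ, 0 < η0 ∧ ∃ n0 : ℕ, ∀ (S : Finset Pt) (η : ℝ), Near S η → 0 ≤ η → η ≤ η0 →
      n0 ≤ Fintype.card S → ¬ P S) : Dec P := by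
  by_cases hlt : 3 * dens (Set.Ici (Real.pi / 2)) ≤ 4 / 9
  · obtain ⟨η0, h0, n0, hd⟩ := h hlt
    exact dec_small h0 ⟨0, 0, n0, le_refl _, le_refl _, fun S η a b c d _ f =>
      absurd f (hd S η c.toNear a.le b d)⟩
  · exact ⟨0, 0, 0, le_refl _, le_refl _, fun S η _ _ _ _ e _ => absurd e hlt⟩

/-- sets with few points may be omitted -/
theorem dec_large {Q : Finset Pt → Prop} {n1 : ℕ} {η1 : ℝ} (h1 : 0 < η1)
    (h : Dec fun S => Q S ∧ n1 ≤ Fintype.card S ∧ ∃ η, 0 < η ∧ η ≤ η1 ∧ Near2 S η) : Dec Q := by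
  obtain ⟨M, C, n0, hM, hC, hd⟩ := h
  refine dec_small (η1 := min η1 1) (lt_min h1 one_pos) ⟨M, C, max n0 n1, hM, hC, ?_⟩
  intro S η hη hη1 hS hn hlt hQ
  exact hd S η hη (hη1.trans (min_le_right _ _)) hS ((le_max_left _ _).trans hn) hlt
    ⟨hQ, (le_max_right _ _).trans hn, η, hη, hη1.trans (min_le_left _ _), hS⟩

/-- **The lower bound** when all nearly optimal sets are decided -/
theorem F_ge_of_dec (h : Dec fun _ => True) : 4 / 27 ≤ F (Real.pi / 2) := by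
  obtain ⟨M, C, n0, _, _, hd⟩ := h
  exact F_ge_of_Near2 C M n0 fun η a b S c d e => hd S η a b c d e.le trivial

/-! ### the strips -/

section strip

variable {T : Tb} {G : List Sy} {K : ℝ} {tcs : List ℕ}

/-- the value at the roots of some maximal triple lies in the range of the certificate -/
def InS (T : Tb) (S : Finset Pt) : Prop :=
  ∃ r : Fin 3 → S, MaxT (X S) (Y S) (fun K => (T.wv K : ℤ)) r ∧
    (T.h0 : ℤ) * Fintype.card S ≤ T.e * Ph (X S) (Y S) (fun K => (T.wv K : ℤ)) r ∧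
    T.e * Ph (X S) (Y S) (fun K => (T.wv K : ℤ)) r ≤ T.h1 * (Fintype.card S : ℤ)

/-- **A certificate decides the sets in its range** -/
theorem strip_dec {C : ℕ} (hN : ∀ s1, NB T (2 * C) s1) (hO : OwnK T) (hL : LinkT T tcs)
    (hE : LinkE T tcs)
    (hC : ∀ K, T.wv K ≤ C) : Dec (InS T) := by
  obtain ⟨s1, hp⟩ := pair_rows hO hL hC
  obtain ⟨M, C', hM, hC', hb⟩ := hN s1
  refine ⟨M, C', 0, hM, hC', ?_⟩
  intro S η hη _ hS _ hlt hIn
  obtain ⟨r, hr, ho0, ho1⟩ := hIn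
  have hg := gn_of hS.gen hS.nr
  refine hb S η hη.le hS r (tixA tcs (X S) (Y S) (r 0) (r 1) (r 2))
    (cixA (X S) (Y S) (r 0) (r 1) (r 2)) (st (X S) (Y S)) (cfX hg hL hr.inj hr.st4) ?_ ?_ ?_ ?_ hlt
  · intro u _ v _ z _ h1 h2 h3
    exact Nf_na h1 h2 h3
  · intro u hu v hv huv
    rw [dg0_cixA, dg1_cixA, dg2_cixA]
    exact ⟨Nf_na (hu 0).symm huv (hv 0).symm, Nf_na (hu 1).symm huv (hv 1).symm,
      Nf_na (hu 2).symm huv (hv 2).symm⟩
  · intro u hu k hk hne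
    exact one_rows hL hE hC hg hr u hu k hk hne
  · intro u hu v hv huv
    exact hp S (X S) (Y S) hg r hr ho0 ho1 u hu v hv huv

end strip

/-- a set of finitely many strips: the value of the maximum lies in one of them, or is small -/
theorem strips_or {w : ℕ → ℕ} {e h0 : ℕ} (hd : Dec fun S => ∃ r : Fin 3 → S,
      MaxT (X S) (Y S) (fun K => (w K : ℤ)) r ∧
      (h0 : ℤ) * Fintype.card S ≤ e * Ph (X S) (Y S) (fun K => (w K : ℤ)) r)
    (hu : Dec fun S => ∀ r : Fin 3 → S, AcT (X S) (Y S) r →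
      e * Ph (X S) (Y S) (fun K => (w K : ℤ)) r ≤ (h0 : ℤ) * Fintype.card S)
    (hw : InvW fun K => (w K : ℤ)) : 4 / 27 ≤ F (Real.pi / 2) := by
  refine F_ge_of_dec (dec_large (η1 := 1 / 10) (n1 := 20) (by norm_num) ?_)
  by_cases hlt : 3 * dens (Set.Ici (Real.pi / 2)) ≤ 4 / 9
  · refine dec_mono ?_ (dec_or hd hu)
    rintro S ⟨-, hn, η, -, hη1, hS⟩
    obtain ⟨r, hr⟩ := exists_maxT_near hS.toNear hη1 hn hlt hw
    by_cases h : (h0 : ℤ) * Fintype.card S ≤ e * Ph (X S) (Y S) (fun K => (w K : ℤ)) r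
    · exact Or.inl ⟨r, hr, h⟩
    · refine Or.inr fun r' hr' => ?_
      push Not at h
      have h1 := hr.max r' hr'
      have h2 : (e : ℤ) * Ph (X S) (Y S) (fun K => (w K : ℤ)) r' ≤
          e * Ph (X S) (Y S) (fun K => (w K : ℤ)) r :=
        mul_le_mul_of_nonneg_left h1 (Int.natCast_nonneg _)
      linarith
  · exact ⟨0, 0, 0, le_refl _, le_refl _, fun S η _ _ _ _ e _ => absurd e hlt⟩

/-- one strip up to the maximal weight -/
theorem strip_top {T : Tb} (hd : Dec (InS T)) (hC : ∀ K, T.e * T.wv K ≤ T.h1) :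
    Dec fun S => ∃ r : Fin 3 → S, MaxT (X S) (Y S) (fun K => (T.wv K : ℤ)) r ∧
      (T.h0 : ℤ) * Fintype.card S ≤ T.e * Ph (X S) (Y S) (fun K => (T.wv K : ℤ)) r := by
  refine dec_mono ?_ hd
  rintro S ⟨r, hr, h⟩
  refine ⟨r, hr, h, ?_⟩
  have h1 : (T.e : ℤ) * Ph (X S) (Y S) (fun K => (T.wv K : ℤ)) r ≤ ∑ _v : S, (T.h1 : ℤ) := by
    unfold Ph
    rw [mul_sum]
    refine sum_le_sum fun v _ => ?_
    split_ifs
    · have h2 : ((T.e * T.wv (code (X S) (Y S) (r 0) (r 1) (r 2) v) : ℕ) : ℤ) ≤ T.h1 := by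
        exact_mod_cast hC _
      rw [Nat.cast_mul] at h2
      exact h2
    · rw [mul_zero]
      exact Int.natCast_nonneg _
  rw [sum_const, card_univ, nsmul_eq_mul] at h1
  linarith

/-- two neighbouring strips -/
theorem strip_join {w : ℕ → ℕ} {e a b c : ℕ}
    (h1 : Dec fun S => ∃ r : Fin 3 → S, MaxT (X S) (Y S) (fun K => (w K : ℤ)) r ∧
      (a : ℤ) * Fintype.card S ≤ e * Ph (X S) (Y S) (fun K => (w K : ℤ)) r ∧
      e * Ph (X S) (Y S) (fun K => (w K : ℤ)) r ≤ b * (Fintype.card S : ℤ))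
    (h2 : Dec fun S => ∃ r : Fin 3 → S, MaxT (X S) (Y S) (fun K => (w K : ℤ)) r ∧
      (c : ℤ) * Fintype.card S ≤ e * Ph (X S) (Y S) (fun K => (w K : ℤ)) r) (hcb : c ≤ b) :
    Dec fun S => ∃ r : Fin 3 → S, MaxT (X S) (Y S) (fun K => (w K : ℤ)) r ∧
      (a : ℤ) * Fintype.card S ≤ e * Ph (X S) (Y S) (fun K => (w K : ℤ)) r := by
  refine dec_mono ?_ (dec_or h1 h2)
  rintro S ⟨r, hr, h⟩
  by_cases hb : e * Ph (X S) (Y S) (fun K => (w K : ℤ)) r ≤ b * (Fintype.card S : ℤ)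
  · exact Or.inl ⟨r, hr, h, hb⟩
  · refine Or.inr ⟨r, hr, ?_⟩
    push Not at hb
    have : (c : ℤ) * Fintype.card S ≤ b * (Fintype.card S : ℤ) :=
      mul_le_mul_of_nonneg_right (by exact_mod_cast hcb) (Int.natCast_nonneg _)
    linarith

/-- sum of the weight `m - w` -/
theorem Ph_compl {ι : Type*} [Fintype ι] (x y : ι → ℝ) {w : ℕ → ℕ} {v : ℕ → ℤ} {a m : ℤ}
    (h : ∀ K < 4096, TAB.testBit K = true → v K = m - a * w K) (hg : GN x y) {r : Fin 3 → ι}
    (hr : Function.Injective r) :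
    Ph x y v r = m * (Fintype.card ι - 3) - a * Ph x y (fun K => (w K : ℤ)) r := by
  have e1 : Ph x y v r + a * Ph x y (fun K => (w K : ℤ)) r = ∑ v, if ∀ k, v ≠ r k then m else 0 := by
    unfold Ph
    rw [mul_sum, ← sum_add_distrib]
    refine sum_congr rfl fun z _ => ?_
    split_ifs with hz
    · have hm := hg.mem (hr.ne (by decide : (0 : Fin 3) ≠ 1)) (hr.ne (by decide : (0 : Fin 3) ≠ 2))
        (hz 0).symm (hr.ne (by decide : (1 : Fin 3) ≠ 2)) (hz 1).symm (hz 2).symm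
      rw [h _ (code_lt ..) hm]
      ring
    · ring
  have e2 : ∑ v : ι, (if ∀ k, v ≠ r k then m else 0) = m * (Fintype.card ι - 3) := by
    have e3 : ∑ v : ι, (if ∀ k, v ≠ r k then m else 0) = ∑ _v : ι, m -
        ∑ v : ι, (if v ∈ ({r 0, r 1, r 2} : Finset ι) then m else 0) := by
      rw [← sum_sub_distrib]
      refine sum_congr rfl fun z _ => ?_
      by_cases hz : ∀ k, z ≠ r k
      · have : z ∉ ({r 0, r 1, r 2} : Finset ι) := by
          simp only [mem_insert, mem_singleton, not_or]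
          exact ⟨hz 0, hz 1, hz 2⟩
        rw [if_pos hz, if_neg this, sub_zero]
      · have : z ∈ ({r 0, r 1, r 2} : Finset ι) := by
          simp only [mem_insert, mem_singleton]
          by_contra hcon
          push Not at hcon
          refine hz ?_
          rw [forall_fin3]
          exact hcon
        rw [if_neg hz, if_pos this, sub_self]
    rw [e3, sum_const, card_univ, nsmul_eq_mul, sum_ite_mem, univ_inter, sum_const, nsmul_eq_mul]
    have hc : ({r 0, r 1, r 2} : Finset ι).card = 3 := by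
      rw [card_eq_three]
      exact ⟨r 0, r 1, r 2, hr.ne (by decide), hr.ne (by decide), hr.ne (by decide), rfl⟩
    rw [hc]
    push_cast
    ring
  linarith

/-- **The unrooted certificate** decides the sets in which the maximum is small -/
theorem uni_dec {w : ℕ → ℕ} {v : ℕ → ℤ} {e h0 : ℕ} {a m th : ℤ} {cc : ℤ}
    (hv : ∀ K < 4096, TAB.testBit K = true → v K = m - a * w K) (ha : 0 ≤ a) (he : 0 < e)
    (hth : e * th ≤ e * m - a * h0) (hcc : 3 * m ≤ cc)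
    (h : 3 * dens (Set.Ici (Real.pi / 2)) ≤ 4 / 9 → ∃ η0 : ℝ, 0 < η0 ∧ ∃ n0 : ℕ,
      ∀ (S : Finset Pt) (η : ℝ), Near S η → 0 ≤ η → η ≤ η0 → n0 ≤ Fintype.card S →
        ¬ ∀ r, AcT (X S) (Y S) r → th * Fintype.card S ≤ Ph (X S) (Y S) v r + cc) :
    Dec fun S => ∀ r : Fin 3 → S, AcT (X S) (Y S) r →
      e * Ph (X S) (Y S) (fun K => (w K : ℤ)) r ≤ (h0 : ℤ) * Fintype.card S := by
  refine dec_false fun hlt => ?_
  obtain ⟨η0, h0', n0, hd⟩ := h hlt
  refine ⟨η0, h0', n0, ?_⟩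
  intro S η hS h1 h2 h3 hP
  refine hd S η hS h1 h2 h3 fun r hr => ?_
  have k1 := hP r hr
  rw [Ph_compl (X S) (Y S) hv (gn_of hS.gen hS.nr) hr.1]
  have he' : (0 : ℤ) < e := by exact_mod_cast he
  have hn : (0 : ℤ) ≤ (Fintype.card S : ℤ) := Int.natCast_nonneg _
  have k2 := mul_le_mul_of_nonneg_left k1 ha
  have k3 := mul_le_mul_of_nonneg_right hth hn
  have k4 : (e : ℤ) * (th * Fintype.card S) ≤ e * (m * (Fintype.card S - 3) -
      a * Ph (X S) (Y S) (fun K => (w K : ℤ)) r + cc) := by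
    have k5 : (e : ℤ) * (3 * m) ≤ e * cc := mul_le_mul_of_nonneg_left hcc he'.le
    nlinarith
  exact le_of_mul_le_mul_left k4 he'

end Pool.Agent.AKZ
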