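import Pool.Agent.AKZ.LinkB

set_option autoImplicit false
set_option linter.unusedSectionVars false

/-!
# The triangle with the largest sum of squares among the acute triangles of large weight
-/

namespace Pool.Agent.AKZ

open Finset Classical Pool.Agent.AKG Pool.Agent.AKO Pool.Agent.AKU Pool.Agent.MP_0af329_co
  Pool.Agent.AK Pool.Agent.AKX

/-- the replacement of the root `k` by a point of the state `t` gives a larger sum of squares -/
def sqUp (k : Fin 3) (t : ℕ) : Bool :=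
  match k with
  | 0 => (dg2 t % 4 == 1 && dg1 t % 4 != 3) || (dg1 t % 4 == 1 && dg2 t % 4 != 3)
  | 1 => (dg2 t % 4 == 2 && dg0 t % 4 != 3) || (dg0 t % 4 == 1 && dg2 t % 4 != 3)
  | 2 => (dg1 t % 4 == 2 && dg0 t % 4 != 3) || (dg0 t % 4 == 2 && dg1 t % 4 != 3)

section

variable {ι : Type*} {x y : ι → ℝ}

/-- sum of the squares of the sides -/
def sq3 (x y : ι → ℝ) (r : Fin 3 → ι) : ℝ :=
  dt x y (r 0) (r 1) (r 1) + dt x y (r 0) (r 2) (r 2) + dt x y (r 1) (r 2) (r 2)

theorem sq_gen {a b c u : ι} (hu : 0 < dt x y a u u)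
    (h : (dt x y a b u ≤ 0 ∧ 0 < dt x y u a c) ∨ (dt x y a c u ≤ 0 ∧ 0 < dt x y u a b)) :
    dt x y a b b + dt x y a c c < dt x y u b b + dt x y u c c := by
  have e1 : dt x y u b b = dt x y a b b + dt x y a u u - 2 * dt x y a b u := by unfold dt; ring
  have e2 : dt x y u c c = dt x y a c c + dt x y a u u - 2 * dt x y a c u := by unfold dt; ring
  have e3 : dt x y u a c = dt x y a u u - dt x y a c u := by unfold dt; ring
  have e4 : dt x y u a b = dt x y a u u - dt x y a b u := by unfold dt; ring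
  rcases h with ⟨h1, h2⟩ | ⟨h1, h2⟩
  · rw [e1, e2]
    rw [e3] at h2
    linarith
  · rw [e1, e2]
    rw [e4] at h2
    linarith

theorem sqUp_lt (hG : GN x y) {r : Fin 3 → ι} (hi : Function.Injective r) {u : ι}
    (hu : ∀ k, u ≠ r k) (k : Fin 3) (h : sqUp k (tau x y (r 0) (r 1) (r 2) u) = true) :
    sq3 x y r < sq3 x y (Function.update r k u) := by
  obtain ⟨n01, n02, n12⟩ := (inj_iff r).1 hi
  have c01 := hG.gen (r 0) (r 1) u n01 (hu 1).symm (hu 0).symm
  have c02 := hG.gen (r 0) (r 2) u n02 (hu 2).symm (hu 0).symm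
  have c12 := hG.gen (r 1) (r 2) u n12 (hu 2).symm (hu 1).symm
  have pos : ∀ j, 0 < dt x y (r j) u u := by
    intro j
    have h1 : ∃ i, r i ≠ r j := by
      fin_cases j
      · exact ⟨1, n01.symm⟩
      · exact ⟨0, n01⟩
      · exact ⟨0, n02⟩
    obtain ⟨i, hi'⟩ := h1
    exact dt_selfp x y (hG.gen (r j) u (r i) (hu j).symm (hu i) hi'.symm)
  have sym : ∀ a b c : ι, dt x y a b c = dt x y a c b := fun a b c => by unfold dt; ring
  have flip : ∀ a b : ι, dt x y a b b = dt x y b a a := fun a b => by unfold dt; ring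
  fin_cases k
  · simp only [sqUp, Bool.or_eq_true, Bool.and_eq_true, beq_iff_eq, bne_iff_ne, dg2_tau,
      dg1_tau] at h
    have key := sq_gen (a := r 0) (b := r 1) (c := r 2) (u := u) (pos 0) (by
      rcases h with ⟨h1, h2⟩ | ⟨h1, h2⟩
      · left
        rw [st_mod1] at h1
        rw [ne_eq, st_mod3 x y c02, not_le] at h2
        exact ⟨h1, h2⟩
      · right
        rw [st_mod1] at h1
        rw [ne_eq, st_mod3 x y c01, not_le] at h2
        exact ⟨h1, h2⟩)
    have e0 : Function.update r 0 u 0 = u := Function.update_self ..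
    have e1 : Function.update r 0 u 1 = r 1 := Function.update_of_ne (by decide) ..
    have e2 : Function.update r 0 u 2 = r 2 := Function.update_of_ne (by decide) ..
    show sq3 x y r < sq3 x y (Function.update r 0 u)
    unfold sq3
    rw [e0, e1, e2]
    linarith
  · simp only [sqUp, Bool.or_eq_true, Bool.and_eq_true, beq_iff_eq, bne_iff_ne, dg2_tau,
      dg0_tau] at h
    have key := sq_gen (a := r 1) (b := r 0) (c := r 2) (u := u) (pos 1) (by
      rcases h with ⟨h1, h2⟩ | ⟨h1, h2⟩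
      · left
        rw [st_mod2 x y c01] at h1
        rw [ne_eq, st_mod3 x y c12, not_le] at h2
        exact ⟨h1, h2⟩
      · right
        rw [st_mod1] at h1
        rw [ne_eq, st_mod3 x y c01, not_le, sym] at h2
        exact ⟨h1, h2⟩)
    have e0 : Function.update r 1 u 0 = r 0 := Function.update_of_ne (by decide) ..
    have e1 : Function.update r 1 u 1 = u := Function.update_self ..
    have e2 : Function.update r 1 u 2 = r 2 := Function.update_of_ne (by decide) ..
    show sq3 x y r < sq3 x y (Function.update r 1 u)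
    unfold sq3
    rw [e0, e1, e2, flip (r 0) u, flip (r 0) (r 1)]
    have f1 := flip u (r 0)
    have f2 := flip (r 1) (r 0)
    linarith
  · simp only [sqUp, Bool.or_eq_true, Bool.and_eq_true, beq_iff_eq, bne_iff_ne, dg1_tau,
      dg0_tau] at h
    have key := sq_gen (a := r 2) (b := r 0) (c := r 1) (u := u) (pos 2) (by
      rcases h with ⟨h1, h2⟩ | ⟨h1, h2⟩
      · left
        rw [st_mod2 x y c02] at h1
        rw [ne_eq, st_mod3 x y c12, not_le, sym] at h2
        exact ⟨h1, h2⟩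
      · right
        rw [st_mod2 x y c12] at h1
        rw [ne_eq, st_mod3 x y c02, not_le, sym] at h2
        exact ⟨h1, h2⟩)
    have e0 : Function.update r 2 u 0 = r 0 := Function.update_of_ne (by decide) ..
    have e1 : Function.update r 2 u 1 = r 1 := Function.update_of_ne (by decide) ..
    have e2 : Function.update r 2 u 2 = u := Function.update_self ..
    show sq3 x y r < sq3 x y (Function.update r 2 u)
    unfold sq3
    rw [e0, e1, e2]
    have f1 := flip u (r 0)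
    have f2 := flip (r 2) (r 0)
    have f3 := flip u (r 1)
    have f4 := flip (r 2) (r 1)
    linarith

variable [Fintype ι]

/-- acute, of large weight, and with the largest sum of squares among such triples -/
structure MaxQ (x y : ι → ℝ) (w : ℕ → ℤ) (h : ℤ) (r : Fin 3 → ι) : Prop where
  inj : Function.Injective r
  st4 : st x y (r 0) (r 1) (r 2) = 4
  big : h * Fintype.card ι ≤ Ph x y w r
  max : ∀ r', AcT x y r' → sq3 x y r < sq3 x y r' → Ph x y w r' ≤ h * Fintype.card ι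

theorem sq3_sw12 (x y : ι → ℝ) (r : Fin 3 → ι) : sq3 x y (sw12 r) = sq3 x y r := by
  unfold sq3 sw12 dt
  simp only [Matrix.cons_val_zero, Matrix.cons_val_one, Matrix.cons_val]
  ring

theorem exists_maxQ (hG : GN x y) {w : ℕ → ℤ} (hw : InvW w) {h : ℤ}
    (he : ∃ r, AcT x y r ∧ h * Fintype.card ι ≤ Ph x y w r) : ∃ r, MaxQ x y w h r := by
  obtain ⟨r1, hr1⟩ := he
  have hne : ({r : Fin 3 → ι | AcT x y r ∧ h * Fintype.card ι ≤ Ph x y w r} :
      Finset (Fin 3 → ι)).Nonempty := ⟨r1, by simpa using hr1⟩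
  obtain ⟨r, hr, hmax⟩ := exists_max_image _ (sq3 x y) hne
  simp only [mem_filter, mem_univ, true_and] at hr hmax
  have hm : ∀ r', AcT x y r' → sq3 x y r < sq3 x y r' → Ph x y w r' ≤ h * Fintype.card ι := by
    intro r' h1 h2
    by_contra h3
    push Not at h3
    exact absurd (hmax r' ⟨h1, h3.le⟩) (not_le.2 h2)
  obtain ⟨⟨hi, h0⟩, hb⟩ := hr
  have hlt := st_lt x y (r 0) (r 1) (r 2)
  obtain ⟨n01, n02, n12⟩ := (inj_iff r).1 hi
  rcases Nat.lt_or_ge (st x y (r 0) (r 1) (r 2)) 4 with g | g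
  · have h00 : st x y (r 0) (r 1) (r 2) = 0 := by omega
    refine ⟨sw12 r, (inj_iff _).2 ⟨n02, n01, n12.symm⟩, ?_, ?_, ?_⟩
    · show st x y (r 0) (r 2) (r 1) = 4
      rw [st_swap x y (hG.gen _ _ _ n01 n12 n02), h00]
      rfl
    · rw [Ph_sw12 hG hw hi]
      exact hb
    · intro r' h1 h2
      rw [sq3_sw12] at h2
      exact hm r' h1 h2
  · exact ⟨r, hi, by omega, hb, hm⟩

/-- **The rows of one root**, with the weight of the new triple given -/
theorem exchC (hG : GN x y) {w : ℕ → ℤ} {h cc : ℤ} (w0 : ∀ k, 0 ≤ w k)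
    (h0 : 0 ≤ h) {r : Fin 3 → ι} (hi : Function.Injective r) {u : ι} (hu : ∀ k, u ≠ r k)
    (k : Fin 3) (hA : Ph x y w (Function.update r k u) ≤ h * Fintype.card ι + cc) :
    ∑ v, (if (∀ k, v ≠ r k) ∧ u ≠ v then
      w (xch k (tau x y (r 0) (r 1) (r 2) u) (tau x y (r 0) (r 1) (r 2) v)
        (cixA x y (r 0) (r 1) (r 2) u v)) - h else 0) ≤ 4 * h + cc := by
  set r' : Fin 3 → ι := Function.update r k u with hr'
  have e1 : ∀ v, ((∀ j, v ≠ r j) ∧ u ≠ v) → (∀ j, v ≠ r' j) := by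
    rintro v ⟨g1, g2⟩ j
    by_cases hj : j = k
    · rw [hj, hr', Function.update_self]
      exact g2.symm
    · rw [hr', Function.update_of_ne hj]
      exact g1 j
  have e2 : (Fintype.card ι : ℤ) - 4 ≤ ∑ v, (if (∀ k, v ≠ r k) ∧ u ≠ v then (1 : ℤ) else 0) := by
    have e1 : ∀ z : ι, (1 : ℤ) - (if z ∈ ({r 0, r 1, r 2, u} : Finset ι) then 1 else 0) ≤
        (if (∀ k, z ≠ r k) ∧ u ≠ z then (1 : ℤ) else 0) := by
      intro z
      by_cases hz : z ∈ ({r 0, r 1, r 2, u} : Finset ι)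
      · rw [if_pos hz]
        split_ifs <;> norm_num
      · rw [if_neg hz]
        simp only [mem_insert, mem_singleton, not_or] at hz
        have d1 : (∀ k, z ≠ r k) ∧ u ≠ z := by
          refine ⟨?_, fun h => hz.2.2.2 h.symm⟩
          rw [forall_fin3]
          exact ⟨hz.1, hz.2.1, hz.2.2.1⟩
        rw [if_pos d1]
        norm_num
    have e2 := sum_le_sum fun z (_ : z ∈ (univ : Finset ι)) => e1 z
    rw [sum_sub_distrib, sum_const, card_univ, nsmul_eq_mul, mul_one, sum_ite_mem, univ_inter,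
      sum_const, nsmul_eq_mul, mul_one] at e2
    have e3 : ((({r 0, r 1, r 2, u} : Finset ι).card : ℕ) : ℤ) ≤ 4 := by
      exact_mod_cast card_le_four
    linarith
  have e3 : ∑ v, (if (∀ k, v ≠ r k) ∧ u ≠ v then
      w (xch k (tau x y (r 0) (r 1) (r 2) u) (tau x y (r 0) (r 1) (r 2) v)
        (cixA x y (r 0) (r 1) (r 2) u v)) - h else 0) ≤ Ph x y w r' -
      h * ∑ v, (if (∀ k, v ≠ r k) ∧ u ≠ v then (1 : ℤ) else 0) := by
    unfold Ph
    rw [mul_sum, ← sum_sub_distrib]
    refine sum_le_sum fun v _ => ?_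
    by_cases g : (∀ j, v ≠ r j) ∧ u ≠ v
    · rw [if_pos g, if_pos g, if_pos (e1 v g), hG.xch_eq hi hu g.1 g.2 k]
      linarith
    · rw [if_neg g, if_neg g]
      split_ifs
      · have := w0 (code x y (r' 0) (r' 1) (r' 2) v)
        linarith
      · linarith
  have e5 := mul_le_mul_of_nonneg_left e2 h0
  linarith

end

/-! ### the certificate -/

/-- conditions on the rows at pairs: only the row of the weight of the roots -/
structure OwnQ (T : Tb) (h : ℕ) : Prop where
  nj : T.nj = 1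
  p0 : ∀ r < T.nt, T.fp 0 r = T.wy r
  m0 : ∀ r < T.nt, T.fm 0 r = h
  mm : ∀ k < 3, ∀ p < T.nt, ∀ q < T.nt, ∀ s < 512, T.vp p q s = true → T.mm k p q s = 0
  zz : ∀ k p, T.mz k p = 0

/-- the rows of one root -/
structure LinkEQ (T : Tb) (tcs : List ℕ) (h : ℕ) : Prop where
  nk : T.nk ≤ 3
  lam : ∀ k : Fin 3, ∀ p < tcs.length,
    ¬ (xst k (tcs.getD p 0) % 4 = 0 ∧ sqUp k (tcs.getD p 0) = true) → ∀ j, T.lam k p j = 0
  ev : ∀ k : Fin 3, ∀ p < tcs.length, ∀ q < tcs.length, ∀ s < 512,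
    pairT (tcs.getD p 0) (tcs.getD q 0) s = true → xst k (tcs.getD p 0) % 4 = 0 →
    sqUp k (tcs.getD p 0) = true →
    T.Ev k p (T.fl p q s) = (T.wv (xch k (tcs.getD p 0) (tcs.getD q 0) s) : ℤ) - h

variable {T : Tb} {tcs : List ℕ} {h : ℕ}

/-- **The rows at pairs** -/
theorem pair_rowsQ (hO : OwnQ T h) (hL : LinkT T tcs) {C : ℕ} (hC : ∀ K, T.wv K ≤ C) : ∃ s1 : ℕ,
    ∀ (ι : Type) [Fintype ι] (x y : ι → ℝ), GN x y → ∀ r : Fin 3 → ι,
      MaxQ x y (fun K => (T.wv K : ℤ)) h r →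
      ∀ u ∈ Free r, ∀ v ∈ Free r, u ≠ v →
        -(s1 : ℤ) ≤ ∑ z, pS r (tixA tcs x y (r 0) (r 1) (r 2)) (cixA x y (r 0) (r 1) (r 2))
          (st x y) T u v z := by
  refine ⟨18446744073709551616 * (2 * C), ?_⟩
  intro ι _ x y hG r hr u hu v hv huv
  set w : ℕ → ℤ := fun K => (T.wv K : ℤ) with hw
  set τ := tixA tcs x y (r 0) (r 1) (r 2) with hτ
  set c := cixA x y (r 0) (r 1) (r 2) with hc
  have hCf := cfX hG hL hr.inj hr.st4
  rw [← hτ, ← hc] at hCf
  have tu := hCf.ty u hu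
  have tv := hCf.ty v hv
  have tc := hCf.lt u hu v hv huv
  have tvp := hCf.vp u hu v hv huv
  have hwy : ∀ z ∈ Free r, (T.wy (τ z) : ℤ) = w (code x y (r 0) (r 1) (r 2) z) := by
    intro z hz
    have h1 := getD_tixA hG hL.types hr.inj hr.st4 hz 0
    have h2 := hL.wy _ (tixA_lt hG hL.types hr.inj hr.st4 hz)
    rw [h1] at h2
    rw [hτ, h2, hw, code_tau hr.st4]
  have hsplit : ∑ z, pS r τ c (st x y) T u v z =
      ((T.oo 0 (τ u) (τ v) (c u v) : ℕ) : ℤ) *
        ∑ z, (if Dz r u v z then w (code x y (r 0) (r 1) (r 2) z) - h else 0) := by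
    rw [mul_sum]
    refine sum_congr rfl fun z _ => ?_
    by_cases hz : Dz r u v z
    · have hz' : z ∈ Free r ∧ z ≠ u ∧ z ≠ v := hz
      unfold pS
      rw [if_pos hz', if_pos hz]
      unfold Tb.PF Tb.PX
      rw [T.PP_zz hO.zz]
      unfold Tb.GO Tb.FJ
      rw [hO.nj, sum_range_one, hO.p0 _ (hCf.ty z hz.1), hO.m0 _ (hCf.ty z hz.1),
        hO.mm 0 (by norm_num) _ tu _ tv _ tc tvp, hO.mm 1 (by norm_num) _ tu _ tv _ tc tvp,
        hO.mm 2 (by norm_num) _ tu _ tv _ tc tvp, hwy z hz.1]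
      push_cast
      ring
    · have hz' : ¬ (z ∈ Free r ∧ z ≠ u ∧ z ≠ v) := hz
      unfold pS
      rw [if_neg hz', if_neg hz, mul_zero]
  rw [hsplit]
  have h1 : Ph x y w r - 2 * C - h * Fintype.card ι ≤
      ∑ z, (if Dz r u v z then w (code x y (r 0) (r 1) (r 2) z) - h else 0) := by
    have e1 : Ph x y w r - ((if u = u then (C : ℤ) else 0) + C) - h * Fintype.card ι ≤
        ∑ z, (if Dz r u v z then w (code x y (r 0) (r 1) (r 2) z) - h else 0) := by
      have e2 : ∀ z, (if ∀ k, z ≠ r k then w (code x y (r 0) (r 1) (r 2) z) else 0) -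
          ((if z = u then (C : ℤ) else 0) + (if z = v then (C : ℤ) else 0)) - h ≤
          (if Dz r u v z then w (code x y (r 0) (r 1) (r 2) z) - h else 0) := by
        intro z
        have hwz : w (code x y (r 0) (r 1) (r 2) z) ≤ C := by
          show ((T.wv _ : ℕ) : ℤ) ≤ C
          exact_mod_cast hC _
        have hC0 : (0 : ℤ) ≤ C := Int.natCast_nonneg _
        have hh0 : (0 : ℤ) ≤ h := Int.natCast_nonneg _
        by_cases hz : Dz r u v z
        · rw [if_pos hz, if_pos hz.1, if_neg hz.2.1, if_neg hz.2.2]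
          linarith
        · rw [if_neg hz]
          by_cases g : ∀ k, z ≠ r k
          · rw [if_pos g]
            by_cases gu : z = u
            · rw [if_pos gu]
              split_ifs <;> linarith
            · by_cases gv : z = v
              · rw [if_neg gu, if_pos gv]
                linarith
              · exact absurd ⟨g, gu, gv⟩ hz
          · rw [if_neg g]
            split_ifs <;> linarith
      have e3 := sum_le_sum fun z (_ : z ∈ (univ : Finset ι)) => e2 z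
      rw [sum_sub_distrib, sum_sub_distrib, sum_add_distrib, sum_ite_eq' univ u,
        sum_ite_eq' univ v, if_pos (mem_univ _), if_pos (mem_univ _), sum_const, card_univ,
        nsmul_eq_mul] at e3
      have e4 : Ph x y w r =
        ∑ z, (if ∀ k, z ≠ r k then w (code x y (r 0) (r 1) (r 2) z) else 0) := rfl
      rw [e4, if_pos rfl]
      linarith
    rw [if_pos rfl] at e1
    linarith
  have hb := hr.big
  have h2 : -(2 * (C : ℤ)) ≤
      ∑ z, (if Dz r u v z then w (code x y (r 0) (r 1) (r 2) z) - h else 0) := by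
    linarith
  have h3 := mul_le_mul_of_nonneg_left h2 (Int.natCast_nonneg (T.oo 0 (τ u) (τ v) (c u v)))
  have h4 : ((T.oo 0 (τ u) (τ v) (c u v) : ℕ) : ℤ) ≤ ((18446744073709551616 : ℕ) : ℤ) := by
    exact_mod_cast oo_lt T 0 _ _ _
  have h5 := mul_le_mul_of_nonneg_right h4 (by positivity : (0 : ℤ) ≤ 2 * (C : ℤ))
  rw [Nat.cast_mul]
  push_cast at h5 ⊢
  linarith

/-- **The rows of one root** -/
theorem one_rowsQ (hL : LinkT T tcs) (hE : LinkEQ T tcs h) {ι : Type*} [Fintype ι] {x y : ι → ℝ}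
    (hG : GN x y) {r : Fin 3 → ι} (hr : MaxQ x y (fun K => (T.wv K : ℤ)) h r) :
    ∀ u ∈ Free r, ∀ k < T.nk, (∃ j, T.lam k (tixA tcs x y (r 0) (r 1) (r 2) u) j ≠ 0) →
      ∑ v, exS r (tixA tcs x y (r 0) (r 1) (r 2)) (cixA x y (r 0) (r 1) (r 2)) T k u v ≤
        ((4 * h : ℕ) : ℤ) := by
  intro u hu k hk hne
  have hk3 : k < 3 := lt_of_lt_of_le hk hE.nk
  obtain ⟨j, hj⟩ := hne
  have e1 : tcs.getD (tixA tcs x y (r 0) (r 1) (r 2) u) 0 =
      tau x y (r 0) (r 1) (r 2) u := getD_tixA hG hL.types hr.inj hr.st4 hu 0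
  have hp := tixA_lt hG hL.types hr.inj hr.st4 hu
  have hx : xst ⟨k, hk3⟩ (tau x y (r 0) (r 1) (r 2) u) % 4 = 0 ∧
      sqUp ⟨k, hk3⟩ (tau x y (r 0) (r 1) (r 2) u) = true := by
    by_contra h0
    rw [← e1] at h0
    exact hj (hE.lam ⟨k, hk3⟩ _ hp h0 j)
  set r' : Fin 3 → ι := Function.update r ⟨k, hk3⟩ u with hr'
  have hinj : Function.Injective r' := by
    intro i j hij
    by_cases hi' : i = ⟨k, hk3⟩ <;> by_cases hj : j = ⟨k, hk3⟩
    · rw [hi', hj]
    · rw [hi', hr', Function.update_self, Function.update_of_ne hj] at hij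
      exact absurd hij (hu j)
    · rw [hj, hr', Function.update_self, Function.update_of_ne hi'] at hij
      exact absurd hij.symm (hu i)
    · rw [hr', Function.update_of_ne hi', Function.update_of_ne hj] at hij
      exact hr.inj hij
  have hac : AcT x y r' := by
    refine ⟨hinj, ?_⟩
    have hx1 := hx.1
    rw [hG.xst_eq hr.inj hu ⟨k, hk3⟩] at hx1
    exact hx1
  have hlt := sqUp_lt hG hr.inj hu ⟨k, hk3⟩ hx.2
  have hPh := hr.max r' hac hlt
  have h1 := exchC hG (w := fun K => (T.wv K : ℤ)) (h := (h : ℤ)) (cc := 0)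
    (fun k => Int.natCast_nonneg _) (Int.natCast_nonneg _) hr.inj hu ⟨k, hk3⟩ (by
      rw [add_zero]
      exact hPh)
  push_cast
  refine le_trans (le_of_eq ?_) (h1.trans (le_of_eq (by ring)))
  refine sum_congr rfl fun v _ => ?_
  unfold exS fg
  by_cases g : (∀ j, v ≠ r j) ∧ u ≠ v
  · have g' : v ∈ Free r ∧ v ≠ u := ⟨g.1, g.2.symm⟩
    rw [if_pos g, if_pos g']
    have e2 : tcs.getD (tixA tcs x y (r 0) (r 1) (r 2) v) 0 =
        tau x y (r 0) (r 1) (r 2) v := getD_tixA hG hL.types hr.inj hr.st4 g.1 0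
    have hq := tixA_lt hG hL.types hr.inj hr.st4 g.1
    have h2 := hE.ev ⟨k, hk3⟩ _ hp _ hq
      (cixA x y (r 0) (r 1) (r 2) u v) (cixA_lt ..)
      (by rw [e1, e2]; exact pairT_ok hG hr.inj hu g.1 g.2) (by rw [e1]; exact hx.1)
      (by rw [e1]; exact hx.2)
    rw [e1, e2] at h2
    exact h2
  · have g' : ¬ (v ∈ Free r ∧ v ≠ u) := fun h => g ⟨h.1, h.2.symm⟩
    rw [if_neg g, if_neg g']

/-- **A certificate decides the sets in which some acute triple has large weight** `wv` -/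
theorem decQ {C : ℕ} (hN : ∀ s1, NB T (4 * h) s1) (hO : OwnQ T h) (hL : LinkT T tcs)
    (hE : LinkEQ T tcs h) (hC : ∀ K, T.wv K ≤ C) :
    Dec fun S => ∃ r : Fin 3 → S, AcT (X S) (Y S) r ∧
      (h : ℤ) * Fintype.card S ≤ Ph (X S) (Y S) (fun K => (T.wv K : ℤ)) r := by
  obtain ⟨s1, hp⟩ := pair_rowsQ hO hL hC
  obtain ⟨M, C', hM, hC', hb⟩ := hN s1
  refine ⟨M, C', 0, hM, hC', ?_⟩
  intro S η hη _ hS _ hlt hex
  have hg := gn_of hS.gen hS.nr
  obtain ⟨r, hr⟩ := exists_maxQ hg hL.inv hex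
  refine hb S η hη.le hS r (tixA tcs (X S) (Y S) (r 0) (r 1) (r 2))
    (cixA (X S) (Y S) (r 0) (r 1) (r 2)) (st (X S) (Y S)) (cfX hg hL hr.inj hr.st4) ?_ ?_ ?_ ?_ hlt
  · intro u _ v _ z _ h1 h2 h3
    exact Nf_na h1 h2 h3
  · intro u hu v hv huv
    rw [dg0_cixA, dg1_cixA, dg2_cixA]
    exact ⟨Nf_na (hu 0).symm huv (hv 0).symm, Nf_na (hu 1).symm huv (hv 1).symm,
      Nf_na (hu 2).symm huv (hv 2).symm⟩
  · intro u hu k hk hne
    exact one_rowsQ hL hE hg hr u hu k hk hne
  · intro u hu v hv huv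
    exact hp S (X S) (Y S) hg r hr u hu v hv huv

end Pool.Agent.AKZ
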