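import Pool.Agent.AKZ.Chain

set_option autoImplicit false

/-!
# The lower bound from finitely many strips, the region near the value of the extremal sets and
the region of small values; conditions on a second weight
-/

namespace Pool.Agent.AKZ

open Finset Classical Pool.Agent.AKG Pool.Agent.AKO Pool.Agent.AKU Pool.Agent.MP_0af329_co
  Pool.Agent.AK Pool.Agent.AKX

/-- the value at some maximal triple lies between `a n / e` and `b n / e` -/
def Btw (w : ℕ → ℕ) (e a b : ℕ) (S : Finset Pt) : Prop :=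
  ∃ r : Fin 3 → S, MaxT (X S) (Y S) (fun K => (w K : ℤ)) r ∧
    (a : ℤ) * Fintype.card S ≤ e * Ph (X S) (Y S) (fun K => (w K : ℤ)) r ∧
    e * Ph (X S) (Y S) (fun K => (w K : ℤ)) r ≤ b * (Fintype.card S : ℤ)

/-- the value at every acute triple is at most `a n / e` -/
def Low (w : ℕ → ℕ) (e a : ℕ) (S : Finset Pt) : Prop :=
  ∀ r : Fin 3 → S, AcT (X S) (Y S) r →
    e * Ph (X S) (Y S) (fun K => (w K : ℤ)) r ≤ (a : ℤ) * Fintype.card S

theorem inS_iff (T : Tb) (S : Finset Pt) : InS T S ↔ Btw T.wv T.e T.h0 T.h1 S := Iff.rfl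

/-! ### change of the weight and of the scale -/

theorem Ph_le {ι : Type*} [Fintype ι] (x y : ι → ℝ) {w w' : ℕ → ℤ} (h : ∀ K < 4096, w' K ≤ w K)
    (r : Fin 3 → ι) : Ph x y w' r ≤ Ph x y w r := by
  unfold Ph
  refine sum_le_sum fun v _ => ?_
  split_ifs
  · exact h _ (code_lt ..)
  · exact le_rfl

theorem Ph_mul {ι : Type*} [Fintype ι] (x y : ι → ℝ) {w w' : ℕ → ℤ} {c : ℤ}
    (h : ∀ K < 4096, w' K = c * w K) (r : Fin 3 → ι) : Ph x y w' r = c * Ph x y w r := by
  unfold Ph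
  rw [mul_sum]
  refine sum_congr rfl fun v _ => ?_
  split_ifs
  · exact h _ (code_lt ..)
  · rw [mul_zero]

/-- a smaller weight -/
theorem low_conv {w w' : ℕ → ℕ} {e e' a a' c d : ℕ} (hc : 0 < c)
    (h : ∀ K < 4096, c * (e' * w' K) ≤ d * (e * w K)) (ha : d * a ≤ c * a') (S : Finset Pt)
    (hS : Low w e a S) : Low w' e' a' S := by
  intro r hr
  have h1 := hS r hr
  have h2 := Ph_le (X S) (Y S) (w := fun K => ((d * (e * w K) : ℕ) : ℤ))
    (w' := fun K => ((c * (e' * w' K) : ℕ) : ℤ)) (fun K hK => by exact_mod_cast h K hK) r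
  have e1 : Ph (X S) (Y S) (fun K => ((d * (e * w K) : ℕ) : ℤ)) r =
      ((d : ℤ) * e) * Ph (X S) (Y S) (fun K => (w K : ℤ)) r :=
    Ph_mul (X S) (Y S) (fun K _ => by push_cast; ring) r
  have e2 : Ph (X S) (Y S) (fun K => ((c * (e' * w' K) : ℕ) : ℤ)) r =
      ((c : ℤ) * e') * Ph (X S) (Y S) (fun K => (w' K : ℤ)) r :=
    Ph_mul (X S) (Y S) (fun K _ => by push_cast; ring) r
  rw [e1, e2] at h2
  have hn : (0 : ℤ) ≤ (Fintype.card S : ℤ) := Int.natCast_nonneg _
  have h3 : ((d : ℤ) * a) * Fintype.card S ≤ (c * a') * Fintype.card S :=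
    mul_le_mul_of_nonneg_right (by exact_mod_cast ha) hn
  have h4 := mul_le_mul_of_nonneg_left h1 (Int.natCast_nonneg d)
  have hc' : (0 : ℤ) < c := by exact_mod_cast hc
  refine le_of_mul_le_mul_left ?_ hc'
  linarith

theorem maxT_conv {ι : Type*} [Fintype ι] {x y : ι → ℝ} {w w' : ℕ → ℤ} {c : ℤ} (hc : 0 ≤ c)
    (h : ∀ K < 4096, w' K = c * w K) {r : Fin 3 → ι} (hr : MaxT x y w r) : MaxT x y w' r where
  inj := hr.inj
  st4 := hr.st4
  max r' h' := by
    rw [Ph_mul x y h, Ph_mul x y h]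
    exact mul_le_mul_of_nonneg_left (hr.max r' h') hc

/-- a multiple of the weight, another scale -/
theorem btw_conv {w w' : ℕ → ℕ} {e e' a b a' b' c : ℕ} (he : 0 < e)
    (h : ∀ K < 4096, w' K = c * w K) (h1 : a' * e ≤ a * (e' * c)) (h2 : b * (e' * c) ≤ b' * e)
    (S : Finset Pt) (hS : Btw w e a b S) : Btw w' e' a' b' S := by
  obtain ⟨r, hr, k1, k2⟩ := hS
  have hw : ∀ K < 4096, ((w' K : ℕ) : ℤ) = (c : ℤ) * (w K : ℤ) := fun K hK => by
    rw [h K hK]; push_cast; ring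
  have hn : (0 : ℤ) ≤ (Fintype.card S : ℤ) := Int.natCast_nonneg _
  have he' : (0 : ℤ) < e := by exact_mod_cast he
  have hk : (0 : ℤ) ≤ e' * c := by positivity
  have e1 := Ph_mul (X S) (Y S) hw r
  refine ⟨r, maxT_conv (Int.natCast_nonneg c) hw hr, ?_, ?_⟩
  · rw [e1]
    have a1 := mul_le_mul_of_nonneg_left k1 hk
    have a2 : ((a' : ℤ) * e) * Fintype.card S ≤ (a * (e' * c)) * Fintype.card S :=
      mul_le_mul_of_nonneg_right (by exact_mod_cast h1) hn
    refine le_of_mul_le_mul_left ?_ he'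
    linarith
  · rw [e1]
    have a1 := mul_le_mul_of_nonneg_left k2 hk
    have a2 : ((b : ℤ) * (e' * c)) * Fintype.card S ≤ (b' * e) * Fintype.card S :=
      mul_le_mul_of_nonneg_right (by exact_mod_cast h2) hn
    refine le_of_mul_le_mul_left ?_ he'
    linarith

/-- a certificate of a strip decides the strip of another scale -/
theorem btw_of_inS {T : Tb} (hd : Dec (InS T)) {w : ℕ → ℕ} {e a b c : ℕ} (he : 0 < e)
    (h : ∀ K < 4096, T.wv K = c * w K) (h1 : T.h0 * e ≤ a * (T.e * c))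
    (h2 : b * (T.e * c) ≤ T.h1 * e) : Dec (Btw w e a b) :=
  dec_mono (fun S hS => btw_conv (w' := T.wv) (e' := T.e) (a' := T.h0) (b' := T.h1) he h h1 h2 S hS)
    hd

/-! ### the composition -/

/-- **A second weight**: if the sets with a large value of some weight are decided, all acute
triples may be assumed to have small values. -/
theorem dec_assume {w : ℕ → ℕ} {e a : ℕ} {Q : Finset Pt → Prop} (h1 : Dec (Up w e a))
    (h2 : Dec fun S => Q S ∧ Low w e a S) : Dec Q := by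
  refine dec_mono ?_ (dec_or h1 h2)
  intro S hS
  by_cases h : Up w e a S
  · exact Or.inl h
  · refine Or.inr ⟨hS, fun r hr => ?_⟩
    by_contra h3
    push Not at h3
    exact h ⟨r, hr, h3.le⟩

/-- **One strip** -/
theorem up_step {w : ℕ → ℕ} {e a b : ℕ} (hI : InvW fun K => (w K : ℤ)) (hd : Dec (Btw w e a b))
    (h1 : Dec (Up w e b)) : Dec (Up w e a) := by
  refine dec_large (η1 := 1) (n1 := 0) one_pos ?_
  refine dec_mono ?_ (dec_or hd h1)
  rintro S ⟨⟨r, hr, h⟩, -, η, -, -, hS⟩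
  obtain ⟨r', hr'⟩ := exists_maxT (gn_of hS.gen hS.nr) hI ⟨r, hr⟩
  by_cases hb : (b : ℤ) * Fintype.card S ≤ e * Ph (X S) (Y S) (fun K => (w K : ℤ)) r'
  · refine Or.inr ⟨r', ⟨hr'.inj, ?_⟩, hb⟩
    rw [hr'.st4]
  · refine Or.inl ⟨r', hr', ?_, ?_⟩
    · have h2 := mul_le_mul_of_nonneg_left (hr'.max r hr) (Int.natCast_nonneg e)
      linarith
    · push Not at hb
      exact hb.le

/-- all strips of one weight -/
theorem up_of_strips {w : ℕ → ℕ} {e : ℕ} (hw : InvW fun K => (w K : ℤ)) (a : ℕ → ℕ) (n : ℕ)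
    (hs : ∀ i < n, Dec (Btw w e (a i) (a (i + 1)))) (hl : Dec (Up w e (a n))) :
    Dec (Up w e (a 0)) := by
  induction n generalizing a with
  | zero => exact hl
  | succ n ih =>
    exact up_step hw (hs 0 (by omega))
      (ih (fun i => a (i + 1)) (fun i hi => hs (i + 1) (by omega)) hl)

/-- all strips of one weight, under a condition on another weight that is decided -/
theorem up_of_strips2 {w w1 : ℕ → ℕ} {e e1 a1 : ℕ} (hw : InvW fun K => (w K : ℤ)) (a : ℕ → ℕ)
    (n : ℕ) (h1 : Dec (Up w1 e1 a1))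
    (hs : ∀ i < n, Dec fun S => Btw w e (a i) (a (i + 1)) S ∧ Low w1 e1 a1 S)
    (hl : Dec (Up w e (a n))) : Dec (Up w e (a 0)) :=
  up_of_strips hw a n (fun i hi => dec_assume h1 (hs i hi)) hl

/-- **The lower bound** from the three parts -/
theorem half_of_parts {w : ℕ → ℕ} {e : ℕ} (hw : InvW fun K => (w K : ℤ)) (a : ℕ → ℕ) (n : ℕ)
    (hu : Dec (Low w e (a 0))) (hs : ∀ i < n, Dec (Btw w e (a i) (a (i + 1))))
    (hl : Dec (Up w e (a n))) : 4 / 27 ≤ F (Real.pi / 2) :=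
  F_ge_of_up (up_of_strips hw a n hs hl) hu

/-- the last step: all acute triples have small values of two weights -/
theorem half_of_two {w w1 : ℕ → ℕ} {e a e1 a1 : ℕ} (h : Dec (Up w e a)) (h1 : Dec (Up w1 e1 a1))
    (hu : Dec fun S => Low w e a S ∧ Low w1 e1 a1 S) : 4 / 27 ≤ F (Real.pi / 2) :=
  F_ge_of_up h (dec_assume h1 hu)

end Pool.Agent.AKZ
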