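import Pool.Agent.AKZ.Parts

set_option autoImplicit false
set_option linter.unusedSectionVars false

/-!
# A strip of one weight, when all acute triples have small values of a second weight
-/

namespace Pool.Agent.AKZ

open Finset Classical Pool.Agent.AKG Pool.Agent.AKO Pool.Agent.AKU Pool.Agent.MP_0af329_co
  Pool.Agent.AK Pool.Agent.AKX

section

variable {ι : Type*} {x y : ι → ℝ} [Fintype ι]

/-- the own row, from below -/
theorem own_ge {w : ℕ → ℕ} {C : ℕ} (hC : ∀ K, w K ≤ C) {e a : ℕ} {r : Fin 3 → ι} (u v : ι)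
    (h : (a : ℤ) * Fintype.card ι ≤ e * Ph x y (fun K => (w K : ℤ)) r) :
    -(2 * ((e : ℤ) * C)) ≤
      ∑ z, (if Dz r u v z then (e : ℤ) * w (code x y (r 0) (r 1) (r 2) z) - a else 0) := by
  have e2 : ∀ z, (e : ℤ) * (if ∀ k, z ≠ r k then (w (code x y (r 0) (r 1) (r 2) z) : ℤ) else 0) -
      ((if z = u then (e : ℤ) * C else 0) + (if z = v then (e : ℤ) * C else 0)) - a ≤
      (if Dz r u v z then (e : ℤ) * w (code x y (r 0) (r 1) (r 2) z) - a else 0) := by
    intro z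
    have hwz : (e : ℤ) * w (code x y (r 0) (r 1) (r 2) z) ≤ e * C :=
      mul_le_mul_of_nonneg_left (by exact_mod_cast hC _) (Int.natCast_nonneg _)
    have hC0 : (0 : ℤ) ≤ (e : ℤ) * C := by positivity
    have ha0 : (0 : ℤ) ≤ a := Int.natCast_nonneg _
    by_cases hz : Dz r u v z
    · rw [if_pos hz, if_pos hz.1, if_neg hz.2.1, if_neg hz.2.2]
      linarith
    · rw [if_neg hz]
      by_cases g : ∀ k, z ≠ r k
      · rw [if_pos g]
        by_cases gu : z = u
        · rw [if_pos gu]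
          split_ifs <;> linarith
        · by_cases gv : z = v
          · rw [if_neg gu, if_pos gv]
            linarith
          · exact absurd ⟨g, gu, gv⟩ hz
      · rw [if_neg g, mul_zero]
        split_ifs <;> linarith
  have e3 := sum_le_sum fun z (_ : z ∈ (univ : Finset ι)) => e2 z
  rw [sum_sub_distrib, sum_sub_distrib, sum_add_distrib, sum_ite_eq' univ u,
    sum_ite_eq' univ v, if_pos (mem_univ _), if_pos (mem_univ _), sum_const, card_univ,
    nsmul_eq_mul, ← mul_sum] at e3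
  have e4 : Ph x y (fun K => (w K : ℤ)) r =
    ∑ z, (if ∀ k, z ≠ r k then (w (code x y (r 0) (r 1) (r 2) z) : ℤ) else 0) := rfl
  rw [← e4] at e3
  linarith

/-- the own row, from above -/
theorem own_le {w : ℕ → ℕ} {e b : ℕ} {r : Fin 3 → ι} (u v : ι)
    (h : (e : ℤ) * Ph x y (fun K => (w K : ℤ)) r ≤ b * (Fintype.card ι : ℤ)) :
    -(5 * (b : ℤ)) ≤
      ∑ z, (if Dz r u v z then (b : ℤ) - e * w (code x y (r 0) (r 1) (r 2) z) else 0) := by
  have h1 := row_ge (r := r) (u := u) (v := v) (a := b) (Int.natCast_nonneg _)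
    (f := fun z => (e : ℤ) * (if ∀ k, z ≠ r k then (w (code x y (r 0) (r 1) (r 2) z) : ℤ) else 0))
    (g := fun z => (e : ℤ) * w (code x y (r 0) (r 1) (r 2) z))
    (fun z => by
      split_ifs
      · positivity
      · simp)
    (fun z hz => by rw [if_pos hz.1])
  rw [← mul_sum] at h1
  have e4 : Ph x y (fun K => (w K : ℤ)) r =
    ∑ z, (if ∀ k, z ≠ r k then (w (code x y (r 0) (r 1) (r 2) z) : ℤ) else 0) := rfl
  rw [← e4] at h1
  linarith

/-- **A sum of rows at a pair** -/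
theorem pair_sumC {r : Fin 3 → ι} {u v : ι} {nj : ℕ} {o mm : ℕ → ℕ} {F G : ℕ → ι → ℤ}
    {c0 c1 : ℤ} {L : ℕ} (hc0 : 0 ≤ c0) (hc1 : 0 ≤ c1)
    (hF : ∀ j < nj, -c0 ≤ ∑ z, (if Dz r u v z then F j z else 0))
    (hG : ∀ k < 3, mm k ≠ 0 → -c1 ≤ ∑ z, (if Dz r u v z then G k z else 0))
    (ho : ∀ j < nj, o j ≤ L) (hm : ∀ k < 3, mm k ≤ L) :
    -(nj * (L * c0) + 3 * (L * c1)) ≤
      ∑ z, (if Dz r u v z then (∑ j ∈ range nj, (o j : ℤ) * F j z) +
        ((mm 0 : ℤ) * G 0 z + (mm 1 : ℤ) * G 1 z + (mm 2 : ℤ) * G 2 z) else 0) := by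
  have e1 : ∑ z, (if Dz r u v z then (∑ j ∈ range nj, (o j : ℤ) * F j z) +
        ((mm 0 : ℤ) * G 0 z + (mm 1 : ℤ) * G 1 z + (mm 2 : ℤ) * G 2 z) else 0) =
      (∑ j ∈ range nj, (o j : ℤ) * ∑ z, (if Dz r u v z then F j z else 0)) +
      ((mm 0 : ℤ) * ∑ z, (if Dz r u v z then G 0 z else 0) +
      (mm 1 : ℤ) * ∑ z, (if Dz r u v z then G 1 z else 0) +
      (mm 2 : ℤ) * ∑ z, (if Dz r u v z then G 2 z else 0)) := by
    have e2 : ∑ j ∈ range nj, (o j : ℤ) * ∑ z, (if Dz r u v z then F j z else 0) =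
        ∑ z, (if Dz r u v z then ∑ j ∈ range nj, (o j : ℤ) * F j z else 0) := by
      simp only [mul_sum]
      rw [sum_comm]
      refine sum_congr rfl fun z _ => ?_
      by_cases hz : Dz r u v z
      · simp only [if_pos hz]
      · simp only [if_neg hz, mul_zero, sum_const_zero]
    rw [e2]
    simp only [mul_sum, ← sum_add_distrib]
    refine sum_congr rfl fun z _ => ?_
    by_cases hz : Dz r u v z
    · simp only [if_pos hz]
    · simp only [if_neg hz, mul_zero, add_zero]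
  rw [e1]
  have mulb : ∀ {m : ℕ} {B X : ℤ}, m ≤ L → 0 ≤ B → -B ≤ X → -((L : ℤ) * B) ≤ (m : ℤ) * X := by
    intro m B X hm hB hX
    have hm' : (m : ℤ) ≤ L := by exact_mod_cast hm
    have h1 : (m : ℤ) * (-B) ≤ (m : ℤ) * X := mul_le_mul_of_nonneg_left hX (Int.natCast_nonneg _)
    have h2 : (m : ℤ) * B ≤ L * B := mul_le_mul_of_nonneg_right hm' hB
    linarith
  have k1 : -(nj * (L * c0)) ≤
      ∑ j ∈ range nj, (o j : ℤ) * ∑ z, (if Dz r u v z then F j z else 0) := by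
    have k7 := sum_le_sum fun j (hj : j ∈ range nj) =>
      mulb (ho j (mem_range.1 hj)) hc0 (hF j (mem_range.1 hj))
    rw [sum_const, card_range, nsmul_eq_mul] at k7
    linarith
  have key : ∀ k < 3, -((L : ℤ) * c1) ≤
      (mm k : ℤ) * ∑ z, (if Dz r u v z then G k z else 0) := by
    intro k hk
    by_cases h0 : mm k = 0
    · rw [h0, Nat.cast_zero, zero_mul]
      have : 0 ≤ (L : ℤ) * c1 := mul_nonneg (Int.natCast_nonneg _) hc1
      linarith
    · exact mulb (hm k hk) hc1 (hG k hk h0)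
  have K0 := key 0 (by norm_num)
  have K1 := key 1 (by norm_num)
  have K2 := key 2 (by norm_num)
  linarith

end

/-- The rows of a strip of the weight `w` under a condition on the weight `w1`: at pairs, the row
`0` is `e w - a`, the row `1` is `b - e w`, the row `2` is `a1 - e1 w1`, all for the roots; the
exchange rows of two roots are the combination with the coefficients `al`, `be` of the rows of
`w` (compared with the roots) and of `w1` (compared with `a1`); the rows of one root have the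
number `k % 3` of the root and the coefficients `al' k`, `be' k`. -/
structure Mix (T : Tb) (tcs : List ℕ) (w w1 : ℕ → ℕ) (e a b e1 a1 al be : ℕ) (al' be' : ℕ → ℕ) :
    Prop where
  nj : T.nj = 3
  zz : ∀ k p, T.mz k p = 0
  f0 : ∀ r < T.nt, T.FJ 0 r = (e : ℤ) * w (2048 + tcs.getD r 0) - a
  f1 : ∀ r < T.nt, T.FJ 1 r = (b : ℤ) - e * w (2048 + tcs.getD r 0)
  f2 : ∀ r < T.nt, T.FJ 2 r = (a1 : ℤ) - e1 * w1 (2048 + tcs.getD r 0)
  gm : ∀ r < T.nt, T.gm r = al * w (2048 + tcs.getD r 0) + be * a1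
  wv : ∀ K < 4096, T.wv K = al * w K + be * (e1 * w1 K)
  lam : ∀ k < T.nk, ∀ p < tcs.length,
    xst (⟨k % 3, Nat.mod_lt _ (by norm_num)⟩ : Fin 3) (tcs.getD p 0) % 4 ≠ 0 →
      ∀ j, T.lam k p j = 0
  ev : ∀ k < T.nk, ∀ p < tcs.length, ∀ q < tcs.length, ∀ s < 512,
    pairT (tcs.getD p 0) (tcs.getD q 0) s = true →
    xst (⟨k % 3, Nat.mod_lt _ (by norm_num)⟩ : Fin 3) (tcs.getD p 0) % 4 = 0 →
    T.Ev k p (T.fl p q s) = (al' k : ℤ) * (w (xch (⟨k % 3, Nat.mod_lt _ (by norm_num)⟩ : Fin 3)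
        (tcs.getD p 0) (tcs.getD q 0) s) - w (2048 + tcs.getD q 0)) +
      be' k * (e1 * w1 (xch (⟨k % 3, Nat.mod_lt _ (by norm_num)⟩ : Fin 3)
        (tcs.getD p 0) (tcs.getD q 0) s) - a1)

variable {T : Tb} {tcs : List ℕ} {w w1 : ℕ → ℕ} {e a b e1 a1 al be : ℕ} {al' be' : ℕ → ℕ}

/-- **The rows at pairs** -/
theorem pair_rows2 (hM : Mix T tcs w w1 e a b e1 a1 al be al' be') (hL : LinkT T tcs) {C : ℕ}
    (hC : ∀ K, w K ≤ C) : ∃ s1 : ℕ,
    ∀ (ι : Type) [Fintype ι] (x y : ι → ℝ), GN x y → ∀ r : Fin 3 → ι,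
      MaxT x y (fun K => (w K : ℤ)) r →
      (a : ℤ) * Fintype.card ι ≤ e * Ph x y (fun K => (w K : ℤ)) r →
      e * Ph x y (fun K => (w K : ℤ)) r ≤ b * (Fintype.card ι : ℤ) →
      AllA x y (fun K => ((e1 * w1 K : ℕ) : ℤ)) a1 0 →
      ∀ u ∈ Free r, ∀ v ∈ Free r, u ≠ v →
        -(s1 : ℤ) ≤ ∑ z, pS r (tixA tcs x y (r 0) (r 1) (r 2)) (cixA x y (r 0) (r 1) (r 2))
          (st x y) T u v z := by
  set L : ℕ := 18446744073709551616 with hLdef
  set c0 : ℕ := 2 * (e * C) + 5 * b + 5 * a1 with hc0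
  set c1 : ℕ := al * (10 * C) + be * (5 * a1) with hc1
  refine ⟨T.nj * (L * c0) + 3 * (L * c1), ?_⟩
  intro ι _ x y hG r hr ho0 ho1 hA u hu v hv huv
  set τ := tixA tcs x y (r 0) (r 1) (r 2) with hτ
  set c := cixA x y (r 0) (r 1) (r 2) with hc
  have hCf := cfX hG hL hr.inj hr.st4
  rw [← hτ, ← hc] at hCf
  have tu := hCf.ty u hu
  have tv := hCf.ty v hv
  have tc := hCf.lt u hu v hv huv
  have tvp := hCf.vp u hu v hv huv
  have hwC : ∀ k, |(fun K => (w K : ℤ)) k| ≤ (C : ℤ) := by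
    intro k
    simp only
    rw [abs_of_nonneg (Int.natCast_nonneg _)]
    exact_mod_cast hC k
  have hcode : ∀ z ∈ Free r, 2048 + tcs.getD (τ z) 0 = code x y (r 0) (r 1) (r 2) z := by
    intro z hz
    have h1 := getD_tixA hG hL.types hr.inj hr.st4 hz 0
    rw [hτ, h1, code_tau hr.st4]
  have hm := hL.m2 (τ u) (by rw [← hL.nt]; exact tu) (τ v) (by rw [← hL.nt]; exact tv) _ tc tvp
  have d0 : dg0 (c u v) = st x y (r 0) u v := dg0_cixA ..
  have d1 : dg1 (c u v) = st x y (r 1) u v := dg1_cixA ..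
  have d2 : dg2 (c u v) = st x y (r 2) u v := dg2_cixA ..
  rw [d0, d1, d2] at hm
  have hsplit : ∑ z, pS r τ c (st x y) T u v z =
      ∑ z, (if Dz r u v z then (∑ j ∈ range T.nj, ((T.oo j (τ u) (τ v) (c u v) : ℕ) : ℤ) *
          T.FJ j (τ z)) +
        (((T.mm 0 (τ u) (τ v) (c u v) : ℕ) : ℤ) *
            ((T.gm (τ z) : ℤ) - T.wv (code x y (r 0) u v z)) +
        ((T.mm 1 (τ u) (τ v) (c u v) : ℕ) : ℤ) *
            ((T.gm (τ z) : ℤ) - T.wv (code x y (r 1) u v z)) +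
          ((T.mm 2 (τ u) (τ v) (c u v) : ℕ) : ℤ) *
            ((T.gm (τ z) : ℤ) - T.wv (code x y (r 2) u v z))) else 0) := by
    refine sum_congr rfl fun z _ => ?_
    by_cases hz : Dz r u v z
    · have hz' : z ∈ Free r ∧ z ≠ u ∧ z ≠ v := hz
      unfold pS
      rw [if_pos hz', if_pos hz]
      unfold Tb.PF Tb.PX
      rw [T.PP_zz hM.zz]
      unfold Tb.GO
      obtain ⟨k0, k1, k2⟩ := code_cix (x := x) (y := y) (r 0) (r 1) (r 2) u v z
      rw [hc, k0, k1, k2]
    · have hz' : ¬ (z ∈ Free r ∧ z ≠ u ∧ z ≠ v) := hz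
      unfold pS
      rw [if_neg hz', if_neg hz]
  rw [hsplit]
  have hac : AcT x y r := ⟨hr.inj, by rw [hr.st4]⟩
  have w10 : ∀ k, 0 ≤ (fun K => ((e1 * w1 K : ℕ) : ℤ)) k := fun k => Int.natCast_nonneg _
  have ha10 : (0 : ℤ) ≤ a1 := Int.natCast_nonneg _
  have key := pair_sumC (r := r) (u := u) (v := v) (nj := T.nj)
    (o := fun j => T.oo j (τ u) (τ v) (c u v)) (mm := fun k => T.mm k (τ u) (τ v) (c u v))
    (F := fun j z => T.FJ j (τ z))
    (G := fun k z => (T.gm (τ z) : ℤ) - T.wv (code x y (r (Fin.ofNat 3 k)) u v z))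
    (c0 := (c0 : ℤ)) (c1 := (c1 : ℤ)) (L := L) (Int.natCast_nonneg _) (Int.natCast_nonneg _)
    (by
      intro j hj
      rw [hM.nj] at hj
      have b0 : (0 : ℤ) ≤ (e : ℤ) * C := by positivity
      have b1 : (0 : ℤ) ≤ (b : ℤ) := Int.natCast_nonneg _
      have hc0' : (c0 : ℤ) = 2 * ((e : ℤ) * C) + 5 * b + 5 * a1 := by rw [hc0]; push_cast; ring
      have hj3 : j = 0 ∨ j = 1 ∨ j = 2 := by omega
      rcases hj3 with rfl | rfl | rfl
      · have q1 := own_ge (x := x) (y := y) hC (e := e) (a := a) (r := r) u v ho0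
        have q2 : ∑ z, (if Dz r u v z then T.FJ 0 (τ z) else 0) =
            ∑ z, (if Dz r u v z then (e : ℤ) * w (code x y (r 0) (r 1) (r 2) z) - a else 0) := by
          refine sum_congr rfl fun z _ => ?_
          by_cases hz : Dz r u v z
          · rw [if_pos hz, if_pos hz, hM.f0 _ (hCf.ty z hz.1), hcode z hz.1]
          · rw [if_neg hz, if_neg hz]
        rw [q2, hc0']
        linarith
      · have q1 := own_le (x := x) (y := y) (w := w) (e := e) (b := b) (r := r) u v ho1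
        have q2 : ∑ z, (if Dz r u v z then T.FJ 1 (τ z) else 0) =
            ∑ z, (if Dz r u v z then (b : ℤ) - e * w (code x y (r 0) (r 1) (r 2) z) else 0) := by
          refine sum_congr rfl fun z _ => ?_
          by_cases hz : Dz r u v z
          · rw [if_pos hz, if_pos hz, hM.f1 _ (hCf.ty z hz.1), hcode z hz.1]
          · rw [if_neg hz, if_neg hz]
        rw [q2, hc0']
        linarith
      · have q1 := row_acute (r := r) (u := u) (v := v) hA w10 ha10 hac (fun z hz => hz.1)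
        have q2 : ∑ z, (if Dz r u v z then T.FJ 2 (τ z) else 0) =
            ∑ z, (if Dz r u v z then (a1 : ℤ) -
              (fun K => ((e1 * w1 K : ℕ) : ℤ)) (code x y (r 0) (r 1) (r 2) z) else 0) := by
          refine sum_congr rfl fun z _ => ?_
          by_cases hz : Dz r u v z
          · rw [if_pos hz, if_pos hz, hM.f2 _ (hCf.ty z hz.1), hcode z hz.1]
            push_cast
            ring
          · rw [if_neg hz, if_neg hz]
        rw [q2, hc0']
        linarith)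
    (by
      intro k hk hne
      set kk : Fin 3 := Fin.ofNat 3 k with hkk
      have hst : st x y (r kk) u v % 4 = 0 := by
        by_contra h0
        have hk3 : k = 0 ∨ k = 1 ∨ k = 2 := by omega
        rcases hk3 with rfl | rfl | rfl
        · exact hne (hm.1 h0)
        · exact hne (hm.2.1 h0)
        · exact hne (hm.2.2 h0)
      have x1 := exch2 hwC hr hu hv huv kk hst
      have hq : AcT x y ![r kk, u, v] :=
        ⟨(inj_iff _).2 ⟨(hu kk).symm, (hv kk).symm, huv⟩, hst⟩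
      have x2 := row_acute (r := r) (u := u) (v := v) hA w10 ha10 hq (fun z hz => by
        rw [forall_fin3]
        exact ⟨hz.1 kk, hz.2.1, hz.2.2⟩)
      have e5 : ∑ z, (if Dz r u v z then (T.gm (τ z) : ℤ) - T.wv (code x y (r kk) u v z)
            else 0) =
          (be : ℤ) * ∑ z, (if Dz r u v z then (a1 : ℤ) - (fun K => ((e1 * w1 K : ℕ) : ℤ))
            (code x y (![r kk, u, v] 0) (![r kk, u, v] 1) (![r kk, u, v] 2) z) else 0) -
          al * ∑ z, (if (∀ k, z ≠ r k) ∧ z ≠ u ∧ z ≠ v then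
            (fun K => (w K : ℤ)) (code x y (r kk) u v z) -
              (fun K => (w K : ℤ)) (2048 + tau x y (r 0) (r 1) (r 2) z) else 0) := by
        rw [mul_sum, mul_sum, ← sum_sub_distrib]
        refine sum_congr rfl fun z _ => ?_
        by_cases hz : Dz r u v z
        · have hz' : (∀ k, z ≠ r k) ∧ z ≠ u ∧ z ≠ v := hz
          rw [if_pos hz, if_pos hz, if_pos hz']
          have g1 := hM.gm _ (hCf.ty z hz.1)
          have g2 := hM.wv _ (code_lt x y (r kk) u v z)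
          rw [hcode z hz.1] at g1
          rw [g1, g2, ← code_tau hr.st4]
          have g3 : code x y (![r kk, u, v] 0) (![r kk, u, v] 1) (![r kk, u, v] 2) z =
            code x y (r kk) u v z := rfl
          rw [g3]
          push_cast
          ring
        · have hz' : ¬ ((∀ k, z ≠ r k) ∧ z ≠ u ∧ z ≠ v) := hz
          rw [if_neg hz, if_neg hz, if_neg hz']
          ring
      rw [e5]
      have a5 := mul_le_mul_of_nonneg_left x1 (Int.natCast_nonneg al)
      have a6 := mul_le_mul_of_nonneg_left x2 (Int.natCast_nonneg be)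
      have hc1' : (c1 : ℤ) = al * (10 * C) + be * (5 * a1) := by rw [hc1]; push_cast; ring
      rw [hc1']
      linarith)
    (fun j _ => oo_lt T j _ _ _) (fun k _ => mm_lt T k _ _ _)
  push_cast at key ⊢
  exact key

/-- **The rows of one root** -/
theorem one_rows2 (hM : Mix T tcs w w1 e a b e1 a1 al be al' be') (hL : LinkT T tcs) {C s0 : ℕ}
    (hC : ∀ K, w K ≤ C) (hs : ∀ k < T.nk, al' k * (2 * C) + be' k * (4 * a1) ≤ s0)
    {ι : Type*} [Fintype ι] {x y : ι → ℝ} (hG : GN x y) {r : Fin 3 → ι}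
    (hr : MaxT x y (fun K => (w K : ℤ)) r)
    (hA : AllA x y (fun K => ((e1 * w1 K : ℕ) : ℤ)) a1 0) :
    ∀ u ∈ Free r, ∀ k < T.nk, (∃ j, T.lam k (tixA tcs x y (r 0) (r 1) (r 2) u) j ≠ 0) →
      ∑ v, exS r (tixA tcs x y (r 0) (r 1) (r 2)) (cixA x y (r 0) (r 1) (r 2)) T k u v ≤
        (s0 : ℤ) := by
  intro u hu k hk hne
  have hwC : ∀ k, |(fun K => (w K : ℤ)) k| ≤ (C : ℤ) := by
    intro k
    simp only
    rw [abs_of_nonneg (Int.natCast_nonneg _)]
    exact_mod_cast hC k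
  set kk : Fin 3 := ⟨k % 3, Nat.mod_lt _ (by norm_num)⟩ with hkk
  obtain ⟨j, hj⟩ := hne
  have e1' : tcs.getD (tixA tcs x y (r 0) (r 1) (r 2) u) 0 =
      tau x y (r 0) (r 1) (r 2) u := getD_tixA hG hL.types hr.inj hr.st4 hu 0
  have hp := tixA_lt hG hL.types hr.inj hr.st4 hu
  have hx : xst kk (tau x y (r 0) (r 1) (r 2) u) % 4 = 0 := by
    by_contra h0
    rw [← e1'] at h0
    exact hj (hM.lam k hk _ hp h0 j)
  have h1 := hr.exch hG hwC hu kk hx
  have h2 := exchB hG hA (fun k => Int.natCast_nonneg _) (Int.natCast_nonneg _) hr.inj hu kk hx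
  have h3 : ∑ v, exS r (tixA tcs x y (r 0) (r 1) (r 2)) (cixA x y (r 0) (r 1) (r 2)) T k u v =
      (al' k : ℤ) * ∑ v, (if (∀ k, v ≠ r k) ∧ u ≠ v then
        (fun K => (w K : ℤ)) (xch kk (tau x y (r 0) (r 1) (r 2) u) (tau x y (r 0) (r 1) (r 2) v)
          (cixA x y (r 0) (r 1) (r 2) u v)) -
          (fun K => (w K : ℤ)) (2048 + tau x y (r 0) (r 1) (r 2) v) else 0) +
      be' k * ∑ v, (if (∀ k, v ≠ r k) ∧ u ≠ v then
        (fun K => ((e1 * w1 K : ℕ) : ℤ)) (xch kk (tau x y (r 0) (r 1) (r 2) u)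
          (tau x y (r 0) (r 1) (r 2) v) (cixA x y (r 0) (r 1) (r 2) u v)) - a1 else 0) := by
    rw [mul_sum, mul_sum, ← sum_add_distrib]
    refine sum_congr rfl fun v _ => ?_
    unfold exS fg
    by_cases g : (∀ j, v ≠ r j) ∧ u ≠ v
    · have g' : v ∈ Free r ∧ v ≠ u := ⟨g.1, g.2.symm⟩
      rw [if_pos g, if_pos g, if_pos g']
      have e2 : tcs.getD (tixA tcs x y (r 0) (r 1) (r 2) v) 0 =
          tau x y (r 0) (r 1) (r 2) v := getD_tixA hG hL.types hr.inj hr.st4 g.1 0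
      have hq := tixA_lt hG hL.types hr.inj hr.st4 g.1
      have h2 := hM.ev k hk _ hp _ hq
        (cixA x y (r 0) (r 1) (r 2) u v) (cixA_lt ..)
        (by rw [e1', e2]; exact pairT_ok hG hr.inj hu g.1 g.2) (by rw [e1']; exact hx)
      rw [h2, e1', e2]
      push_cast
      ring
    · have g' : ¬ (v ∈ Free r ∧ v ≠ u) := fun h => g ⟨h.1, h.2.symm⟩
      rw [if_neg g, if_neg g, if_neg g', mul_zero, mul_zero, add_zero]
  rw [h3]
  have h4 := mul_le_mul_of_nonneg_left h1 (Int.natCast_nonneg (al' k))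
  have h5 := mul_le_mul_of_nonneg_left h2 (Int.natCast_nonneg (be' k))
  have h6 : ((al' k * (2 * C) + be' k * (4 * a1) : ℕ) : ℤ) ≤ s0 := by exact_mod_cast hs k hk
  push_cast at h6
  linarith

/-- **A certificate of a strip under a condition on a second weight** -/
theorem strip_dec2 {C s0 : ℕ} (hN : ∀ s1, NB T s0 s1)
    (hM : Mix T tcs w w1 e a b e1 a1 al be al' be') (hL : LinkT T tcs)
    (hC : ∀ K, w K ≤ C) (hs : ∀ k < T.nk, al' k * (2 * C) + be' k * (4 * a1) ≤ s0) :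
    Dec fun S => Btw w e a b S ∧ Low w1 e1 a1 S := by
  obtain ⟨s1, hp⟩ := pair_rows2 hM hL hC
  obtain ⟨M, C', hM', hC', hb⟩ := hN s1
  refine ⟨M, C', 0, hM', hC', ?_⟩
  rintro S η hη _ hS _ hlt ⟨⟨r, hr, ho0, ho1⟩, hlow⟩
  have hg := gn_of hS.gen hS.nr
  have hA : AllA (X S) (Y S) (fun K => ((e1 * w1 K : ℕ) : ℤ)) a1 0 := by
    intro r' hr'
    have h1 := hlow r' hr'
    rw [Ph_mul (X S) (Y S) (w := fun K => (w1 K : ℤ)) (w' := fun K => ((e1 * w1 K : ℕ) : ℤ))
      (c := (e1 : ℤ)) (fun K _ => by push_cast; ring) r', add_zero]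
    exact h1
  refine hb S η hη.le hS r (tixA tcs (X S) (Y S) (r 0) (r 1) (r 2))
    (cixA (X S) (Y S) (r 0) (r 1) (r 2)) (st (X S) (Y S)) (cfX hg hL hr.inj hr.st4) ?_ ?_ ?_ ?_ hlt
  · intro u _ v _ z _ h1 h2 h3
    exact Nf_na h1 h2 h3
  · intro u hu v hv huv
    rw [dg0_cixA, dg1_cixA, dg2_cixA]
    exact ⟨Nf_na (hu 0).symm huv (hv 0).symm, Nf_na (hu 1).symm huv (hv 1).symm,
      Nf_na (hu 2).symm huv (hv 2).symm⟩
  · intro u hu k hk hne
    exact one_rows2 hM hL hC hs hg hr hA u hu k hk hne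
  · intro u hu v hv huv
    exact hp S (X S) (Y S) hg r hr ho0 ho1 hA u hu v hv huv

end Pool.Agent.AKZ
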